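import Pool.Agent.Lib.IXB.Union

/-!
# Forms annotated with the states of a transducer
-/

set_option autoImplicit false

namespace Pool.Agent.Lib.IXB.Trans

section
variable {T T' Q : Type} (dl : Q → T → Q) (ou : Q → T → List T')

/-- the last state -/
def ds : Q → List T → Q
  | p, [] => p
  | p, t :: u => ds (dl p t) u

/-- the output -/
def os : Q → List T → List T'
  | _, [] => []
  | p, t :: u => ou p t ++ os (dl p t) u

/-- the states after each letter -/
def tr : Q → List T → List Q
  | _, [] => []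
  | p, t :: u => dl p t :: tr (dl p t) u

variable {W W' : Type} (n : Q → W → Q → W')

/-- annotated forms with their traces -/
inductive An : Q → List (W ⊕ T) → List Q → Q → List (W' ⊕ T') → Prop
  | nil (p : Q) : An p [] [] p []
  | term {p : Q} {t : T} {α : List (W ⊕ T)} {ts : List Q} {q : Q} {β : List (W' ⊕ T')} :
      An (dl p t) α ts q β → An p (Sum.inr t :: α) (dl p t :: ts) q ((ou p t).map Sum.inr ++ β)
  | var {p r : Q} {A : W} {α : List (W ⊕ T)} {ts : List Q} {q : Q} {β : List (W' ⊕ T')} :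
      An r α ts q β → An p (Sum.inl A :: α) (r :: ts) q (Sum.inl (n p A r) :: β)

variable {dl ou n}

theorem An.len {p : Q} {α : List (W ⊕ T)} {ts : List Q} {q : Q} {β : List (W' ⊕ T')} (h : An dl ou n p α ts q β) :
    ts.length = α.length := by
  induction h with
  | nil p => rfl
  | term _ ih => rw [List.length_cons, List.length_cons, ih]
  | var _ ih => rw [List.length_cons, List.length_cons, ih]

theorem An.fn {p : Q} {α : List (W ⊕ T)} {ts : List Q} {q q' : Q} {β β' : List (W' ⊕ T')} (h : An dl ou n p α ts q β)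
    (h' : An dl ou n p α ts q' β') : q = q' ∧ β = β' := by
  induction h generalizing q' β' with
  | nil p =>
    cases h'
    exact ⟨rfl, rfl⟩
  | term _ ih =>
    cases h' with
    | term h' =>
      obtain ⟨h1, h2⟩ := ih h'
      exact ⟨h1, by rw [h2]⟩
  | var _ ih =>
    cases h' with
    | var h' =>
      obtain ⟨h1, h2⟩ := ih h'
      exact ⟨h1, by rw [h2]⟩

theorem An.app {p r : Q} {α α' : List (W ⊕ T)} {ts ts' : List Q} {q : Q} {β β' : List (W' ⊕ T')}
    (h : An dl ou n p α ts r β) (h' : An dl ou n r α' ts' q β') : An dl ou n p (α ++ α') (ts ++ ts') q (β ++ β') := by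
  induction h with
  | nil p => exact h'
  | term _ ih =>
    rw [List.append_assoc]
    exact .term (ih h')
  | var _ ih => exact .var (ih h')

theorem An.split {p : Q} {α α' : List (W ⊕ T)} {ts : List Q} {q : Q} {β : List (W' ⊕ T')}
    (h : An dl ou n p (α ++ α') ts q β) : ∃ ts₁ ts₂ r β₁ β₂, ts = ts₁ ++ ts₂ ∧ β = β₁ ++ β₂ ∧
      An dl ou n p α ts₁ r β₁ ∧ An dl ou n r α' ts₂ q β₂ := by
  induction α generalizing p ts β with
  | nil => exact ⟨[], ts, p, [], β, rfl, rfl, .nil p, h⟩
  | cons a α ih =>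
    rw [List.cons_append] at h
    cases h with
    | term h =>
      obtain ⟨ts₁, ts₂, r, β₁, β₂, rfl, rfl, h1, h2⟩ := ih h
      exact ⟨_, ts₂, r, _, β₂, rfl, (List.append_assoc _ _ _).symm, .term h1, h2⟩
    | var h =>
      obtain ⟨ts₁, ts₂, r, β₁, β₂, rfl, rfl, h1, h2⟩ := ih h
      exact ⟨_, ts₂, r, _, β₂, rfl, rfl, .var h1, h2⟩

theorem An.word (p : Q) (u : List T) : An dl ou n p (u.map Sum.inr) (tr dl p u) (ds dl p u) ((os dl ou p u).map Sum.inr) := by
  induction u generalizing p with
  | nil => exact .nil p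
  | cons t u ih =>
    show An dl ou n p (Sum.inr t :: u.map Sum.inr) (dl p t :: tr dl (dl p t) u) (ds dl (dl p t) u)
      ((ou p t ++ os dl ou (dl p t) u).map Sum.inr)
    rw [List.map_append]
    exact .term (ih _)

theorem An.word_inv {p : Q} {u : List T} {ts : List Q} {q : Q} {β : List (W' ⊕ T')}
    (h : An dl ou n p (u.map Sum.inr) ts q β) : ts = tr dl p u ∧ q = ds dl p u ∧ β = (os dl ou p u).map Sum.inr := by
  induction u generalizing p ts β with
  | nil =>
    cases h
    exact ⟨rfl, rfl, rfl⟩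
  | cons t u ih =>
    rw [List.map_cons] at h
    cases h with
    | term h =>
      obtain ⟨rfl, rfl, rfl⟩ := ih h
      refine ⟨rfl, rfl, ?_⟩
      show _ = (ou p t ++ os dl ou (dl p t) u).map Sum.inr
      rw [List.map_append]

theorem An.term_inv {p : Q} {E : List (W ⊕ T)} {ts : List Q} {q : Q} {β : List (W' ⊕ T')}
    (h : An dl ou n p E ts q β) {w : List T'} (hw : β = w.map Sum.inr) : ∃ u : List T, E = u.map Sum.inr := by
  induction h generalizing w with
  | nil p => exact ⟨[], rfl⟩
  | term _ ih =>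
    obtain ⟨w₁, w₂, rfl, -, h2⟩ := List.map_eq_append_iff.1 hw.symm
    obtain ⟨u, rfl⟩ := ih h2.symm
    exact ⟨_ :: u, rfl⟩
  | var _ ih =>
    cases w with
    | nil => simp at hw
    | cons t w => simp at hw

theorem An.cut {p : Q} {F : List (W ⊕ T)} {ts : List Q} {q : Q} {F' x' y' : List (W' ⊕ T')} {X' : W'}
    (h : An dl ou n p F ts q F') (he : F' = x' ++ Sum.inl X' :: y') : ∃ x X y ts₁ ts₂ r r',
      F = x ++ Sum.inl X :: y ∧ ts = ts₁ ++ r' :: ts₂ ∧ An dl ou n p x ts₁ r x' ∧ X' = n r X r' ∧ An dl ou n r' y ts₂ q y' := by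
  induction h generalizing x' with
  | nil p => simp at he
  | @term p t α ts q β h ih =>
    have key : ∃ c, x' = (ou p t).map Sum.inr ++ c ∧ β = c ++ Sum.inl X' :: y' := by
      rcases List.append_eq_append_iff.1 he with ⟨c, h1, h2⟩ | ⟨c, h1, h2⟩
      · exact ⟨c, h1, h2⟩
      · cases c with
        | nil => exact ⟨[], by rw [h1]; simp, by simpa using h2.symm⟩
        | cons a c =>
          have h3 : a = Sum.inl X' := (List.cons.inj h2).1.symm
          have h4 : a ∈ (ou p t).map (Sum.inr : T' → W' ⊕ T') := by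
            rw [h1]
            simp
          rw [h3] at h4
          simp at h4
    obtain ⟨c, rfl, h2⟩ := key
    obtain ⟨x, X, y, ts₁, ts₂, r, r', rfl, rfl, h3, h4, h5⟩ := ih h2
    exact ⟨_, X, y, _, ts₂, r, r', rfl, rfl, .term h3, h4, h5⟩
  | @var p r A α ts q β h ih =>
    cases x' with
    | nil =>
      obtain ⟨h1, h2⟩ := List.cons.inj he
      refine ⟨[], A, α, [], ts, p, r, rfl, rfl, .nil p, (Sum.inl.inj h1).symm, ?_⟩
      rw [← h2]
      exact h
    | cons a x' =>
      obtain ⟨h1, h2⟩ := List.cons.inj he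
      obtain ⟨x, X, y, ts₁, ts₂, r₁, r', rfl, rfl, h3, h4, h5⟩ := ih h2
      rw [← h1]
      exact ⟨_, X, y, _, ts₂, r₁, r', rfl, rfl, .var h3, h4, h5⟩

end

end Pool.Agent.Lib.IXB.Trans
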