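import Pool.Agent.Lib.IXB.Mark

/-!
# Rotations of words cut by marks are rotations of the lists of their blocks
-/

set_option autoImplicit false

namespace Pool.Agent.Lib.IXB.Mark

variable {T : Type}

/-- the words of `L`, each after a mark -/
def flat : List (List T) → List (Option T)
  | [] => []
  | y :: L => none :: (y.map some ++ flat L)

theorem flat_append (L L' : List (List T)) : flat (L ++ L') = flat L ++ flat L' := by
  induction L with
  | nil => rfl
  | cons y L ih =>
    show none :: (y.map some ++ flat (L ++ L')) = none :: (y.map some ++ flat L) ++ flat L'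
    rw [ih]
    simp

/-- empty or starting with a mark -/
def Hd (V : List (Option T)) : Prop := V = [] ∨ ∃ V', V = none :: V'

theorem hd_flat (L : List (List T)) : Hd (flat L) := by
  cases L with
  | nil => exact Or.inl rfl
  | cons y L => exact Or.inr ⟨_, rfl⟩

theorem hd_some {t : T} {V : List (Option T)} (h : Hd (some t :: V)) : False := by
  rcases h with h | ⟨V', h⟩ <;> simp at h

theorem some_inj {y y' : List T} {V V' : List (Option T)} (hV : Hd V) (hV' : Hd V')
    (h : y.map some ++ V = y'.map some ++ V') : y = y' ∧ V = V' := by
  induction y generalizing y' with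
  | nil =>
    cases y' with
    | nil => exact ⟨rfl, h⟩
    | cons t y' =>
      exfalso
      have h1 : V = some t :: (y'.map some ++ V') := h
      rw [h1] at hV
      exact hd_some hV
  | cons t y ih =>
    cases y' with
    | nil =>
      exfalso
      have h1 : some t :: (y.map some ++ V) = V' := h
      rw [← h1] at hV'
      exact hd_some hV'
    | cons t' y' =>
      simp only [List.map_cons, List.cons_append, List.cons.injEq, Option.some.injEq] at h
      obtain ⟨h1, h2⟩ := ih h.2
      exact ⟨by rw [h.1, h1], h2⟩

theorem flat_inj {L L' : List (List T)} (h : flat L = flat L') : L = L' := by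
  induction L generalizing L' with
  | nil =>
    cases L' with
    | nil => rfl
    | cons y L' => simp [flat] at h
  | cons y L ih =>
    cases L' with
    | nil => simp [flat] at h
    | cons y' L' =>
      have h1 : y.map some ++ flat L = y'.map some ++ flat L' := (List.cons.inj h).2
      obtain ⟨h2, h3⟩ := some_inj (hd_flat L) (hd_flat L') h1
      rw [h2, ih h3]

theorem split_flat {L : List (List T)} {α β : List (Option T)} (h : flat L = α ++ β) (hβ : Hd β) :
    ∃ L1 L2, L = L1 ++ L2 ∧ flat L1 = α ∧ flat L2 = β := by
  induction L generalizing α with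
  | nil =>
    have h1 : α ++ β = [] := h.symm
    rw [List.append_eq_nil_iff] at h1
    exact ⟨[], [], rfl, h1.1.symm, h1.2.symm⟩
  | cons y L ih =>
    cases α with
    | nil => exact ⟨[], y :: L, rfl, rfl, h⟩
    | cons a α =>
      obtain ⟨h1, h2⟩ := List.cons.inj h
      have h3 : ∃ α', α = y.map some ++ α' ∧ flat L = α' ++ β := by
        rcases List.append_eq_append_iff.1 h2 with ⟨a', h3, h4⟩ | ⟨c', h3, h4⟩
        · exact ⟨a', h3, h4⟩
        · cases c' with
          | nil =>
            rw [List.append_nil] at h3
            exact ⟨[], by rw [h3, List.append_nil], h4.symm⟩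
          | cons x c' =>
            exfalso
            have h5 : x ∈ y.map (some : T → Option T) := by
              rw [h3]
              simp
            obtain ⟨t, -, rfl⟩ := List.mem_map.1 h5
            rw [h4] at hβ
            exact hd_some hβ
      obtain ⟨α', rfl, h4⟩ := h3
      obtain ⟨L1, L2, rfl, rfl, rfl⟩ := ih h4
      exact ⟨y :: L1, L2, rfl, by rw [← h1]; rfl, rfl⟩

theorem rot_split {A : Type} {u v : List A} (h : u ~r v) : ∃ α β, u = α ++ β ∧ v = β ++ α := by
  obtain ⟨n, hn, h1⟩ := List.isRotated_iff_mod.1 h
  rw [List.rotate_eq_drop_append_take hn] at h1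
  exact ⟨u.take n, u.drop n, (List.take_append_drop n u).symm, h1.symm⟩

theorem flat_rot {L L' : List (List T)} : flat L ~r flat L' ↔ L ~r L' := by
  constructor
  · intro h
    obtain ⟨α, β, h1, h2⟩ := rot_split h
    have hβ : Hd β := by
      cases β with
      | nil => exact Or.inl rfl
      | cons b β =>
        have h3 := hd_flat L'
        rw [h2] at h3
        rcases h3 with h3 | ⟨V', h3⟩
        · simp at h3
        · exact Or.inr ⟨β, by rw [(List.cons.inj h3).1]⟩
    obtain ⟨L1, L2, rfl, rfl, rfl⟩ := split_flat h1 hβ
    rw [← flat_append] at h2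
    rw [flat_inj h2]
    exact List.isRotated_append
  · intro h
    obtain ⟨α, β, rfl, rfl⟩ := rot_split h
    rw [flat_append, flat_append]
    exact List.isRotated_append

theorem flat_th (ι : T → T) (L : List (List T)) :
    none :: th (Option.map ι) (flat L) = flat (L.map (th ι)).reverse ++ [none] := by
  induction L with
  | nil => rfl
  | cons y L ih =>
    have h1 : flat (y :: L) = none :: (y.map some ++ flat L) := rfl
    rw [h1, th_cons, th_append, List.map_cons, List.reverse_cons, flat_append]
    have h2 : flat [th ι y] = none :: (th ι y).map some := by simp [flat]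
    have h4 : th (Option.map ι) (y.map some) = (th ι y).map some := by
      unfold th
      rw [List.map_reverse, List.map_map, List.map_map]
      rfl
    rw [h2, h4]
    have h3 : none :: (th (Option.map ι) (flat L) ++ (th ι y).map some ++ [none]) =
        (none :: th (Option.map ι) (flat L)) ++ ((th ι y).map some ++ [none]) := by simp
    show none :: (th (Option.map ι) (flat L) ++ (th ι y).map some ++ [none]) = _
    rw [h3, ih]
    simp

theorem flat_th_rot (ι : T → T) (L : List (List T)) : th (Option.map ι) (flat L) ~r flat (L.map (th ι)).reverse := by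
  have h := flat_th ι L
  cases hM : (L.map (th ι)).reverse with
  | nil =>
    rw [hM] at h
    have h1 : th (Option.map ι) (flat L) = [] := (List.cons.inj h).2
    rw [h1]
    exact List.IsRotated.refl _
  | cons y M =>
    rw [hM] at h
    have h1 : th (Option.map ι) (flat L) = (y.map some ++ flat M) ++ [none] := (List.cons.inj h).2
    rw [h1]
    exact List.isRotated_append

theorem decomp [DecidableEq T] (U : List (Option T)) :
    ∃ (s : List T) (L : List (List T)), U = s.map some ++ flat L ∧ L.length = U.count none := by
  induction U with
  | nil => exact ⟨[], [], rfl, rfl⟩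
  | cons a U ih =>
    obtain ⟨s, L, h1, h2⟩ := ih
    cases a with
    | none =>
      refine ⟨[], s :: L, ?_, ?_⟩
      · rw [h1]
        rfl
      · rw [List.count_cons_self, List.length_cons, h2]
    | some t =>
      refine ⟨t :: s, L, ?_, ?_⟩
      · rw [h1]
        rfl
      · rw [List.count_cons_of_ne (by simp), h2]

theorem cyc_blocks (s : List T) (Ys : List (List T)) (p : List T) :
    s.map some ++ flat (Ys ++ [p]) ~r flat (Ys ++ [p ++ s]) := by
  have h1 : flat (Ys ++ [p ++ s]) = flat (Ys ++ [p]) ++ s.map some := by
    rw [flat_append, flat_append]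
    simp [flat]
  rw [h1]
  exact List.isRotated_append

theorem sym_blocks (ι : T → T) (s : List T) (Ys : List (List T)) (p : List T) :
    th (Option.map ι) (s.map some ++ flat (Ys ++ [p])) ~r (s.map some ++ flat (Ys ++ [p])) ↔
      ((Ys ++ [p ++ s]).map (th ι)).reverse ~r (Ys ++ [p ++ s]) := by
  have h1 := cyc_blocks s Ys p
  have h2 := th_rot (Option.map ι) h1
  have h3 := flat_th_rot ι (Ys ++ [p ++ s])
  rw [← flat_rot]
  constructor
  · intro h
    exact ((h3.symm.trans h2.symm).trans h).trans h1
  · intro h
    exact ((h2.trans h3).trans h).trans h1.symm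

theorem th_flatten (ι : T → T) (L : List (List T)) : th ι L.flatten = ((L.map (th ι)).reverse).flatten := by
  induction L with
  | nil => rfl
  | cons y L ih =>
    rw [List.flatten_cons, th_append, ih, List.map_cons, List.reverse_cons, List.flatten_append]
    simp

theorem flatten_rot {L L' : List (List T)} (h : L ~r L') : L.flatten ~r L'.flatten := by
  obtain ⟨α, β, rfl, rfl⟩ := rot_split h
  rw [List.flatten_append, List.flatten_append]
  exact List.isRotated_append

/-- block symmetry gives a symmetric word -/
theorem word_sym (ι : T → T) {s : List T} {Ys : List (List T)} {p : List T}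
    (h : ((Ys ++ [p ++ s]).map (th ι)).reverse ~r (Ys ++ [p ++ s])) :
    th ι (s ++ (Ys.flatten ++ p)) ~r (s ++ (Ys.flatten ++ p)) := by
  have h1 : s ++ (Ys.flatten ++ p) ~r (Ys ++ [p ++ s]).flatten := by
    have e : (Ys ++ [p ++ s]).flatten = (Ys.flatten ++ p) ++ s := by simp
    rw [e]
    exact List.isRotated_append
  have h2 : th ι (Ys ++ [p ++ s]).flatten ~r (Ys ++ [p ++ s]).flatten := by
    rw [th_flatten]
    exact flatten_rot h
  exact ((th_rot ι h1).trans h2).trans h1.symm

theorem rot_ofFn {k : ℕ} (g : List T → List T) (f : Fin (k + 1) → List T) :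
    ((List.ofFn f).map g).reverse ~r List.ofFn f ↔ ∃ j : Fin (k + 1), ∀ i, f (i + j) = g (f i.rev) := by
  have key : ∀ n : ℕ, (List.ofFn f).rotate n = ((List.ofFn f).map g).reverse ↔
      ∀ i : Fin (k + 1), f (i + Fin.ofNat (k + 1) n) = g (f i.rev) := by
    intro n
    constructor
    · intro h i
      have h1 : ((List.ofFn f).rotate n)[i.val]? = (((List.ofFn f).map g).reverse)[i.val]? := by rw [h]
      have hi := i.2
      rw [List.getElem?_eq_getElem (by simp; omega), List.getElem?_eq_getElem (by simp; omega)] at h1
      simp only [Option.some.injEq] at h1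
      rw [List.getElem_rotate, List.getElem_ofFn] at h1
      rw [List.getElem_reverse, List.getElem_map, List.getElem_ofFn] at h1
      convert h1 using 2
      · apply Fin.ext
        simp [Fin.val_add, List.length_ofFn]
      · congr 1
        apply Fin.ext
        simp [Fin.val_rev]
    · intro h
      apply List.ext_getElem
      · simp
      · intro i h1 h2
        rw [List.length_rotate, List.length_ofFn] at h1
        have h3 := h ⟨i, h1⟩
        rw [List.getElem_rotate, List.getElem_ofFn]
        rw [List.getElem_reverse, List.getElem_map, List.getElem_ofFn]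
        convert h3 using 2
        · apply Fin.ext
          simp [Fin.val_add, List.length_ofFn]
        · congr 1
          apply Fin.ext
          simp [Fin.val_rev]
  constructor
  · intro h
    obtain ⟨n, hn⟩ := h.symm
    exact ⟨_, (key n).1 hn⟩
  · rintro ⟨j, hj⟩
    refine List.IsRotated.symm ⟨j.val, (key j.val).2 fun i => ?_⟩
    rw [← hj i]
    congr 2
    apply Fin.ext
    simp

end Pool.Agent.Lib.IXB.Mark
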