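import Pool.Agent.Lib.IXB.FR
import Pool.Agent.Lib.IXB.Sync

/-!
# Symmetric words with a given number of cyclic marks
-/

set_option autoImplicit false

namespace Pool.Agent.Lib.IXB.Asm

open Fold Mark

variable {T T₀ : Type}

/-- the automaton of `true* false*` in the second coordinate -/
def phM : DFA (T × Bool) (Option Bool) where
  step s x := match s, x.2 with
    | none, _ => none
    | some true, b => some b
    | some false, true => none
    | some false, false => some false
  start := some true
  accept := {s | s ≠ none}

theorem phM_dead (l : List (T × Bool)) : phM.evalFrom none l = none := by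
  induction l with
  | nil => rfl
  | cons x l ih =>
    rw [DFA.evalFrom_cons]
    exact ih

theorem phM_false (l : List (T × Bool)) : phM.evalFrom (some false) l ∈ (phM (T := T)).accept ↔ ∀ x ∈ l, x.2 = false := by
  induction l with
  | nil => simp [phM]
  | cons x l ih =>
    rw [DFA.evalFrom_cons, List.forall_mem_cons]
    obtain ⟨t, b⟩ := x
    cases b with
    | false =>
      have h : phM.step (some false) (t, false) = some false := rfl
      rw [h, ih]
      simp
    | true =>
      have h : phM.step (some false) (t, true) = none := rfl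
      rw [h, phM_dead]
      simp [phM]

theorem false_map {l : List (T × Bool)} (h : ∀ x ∈ l, x.2 = false) : l = (l.map Prod.fst).map fun t => (t, false) := by
  induction l with
  | nil => rfl
  | cons x l ih =>
    rw [List.forall_mem_cons] at h
    rw [List.map_cons, List.map_cons, ← ih h.2]
    congr 1
    exact Prod.ext rfl h.1

theorem phM_true (l : List (T × Bool)) : phM.evalFrom (some true) l ∈ (phM (T := T)).accept ↔
    ∃ P S : List T, l = P.map (fun t => (t, true)) ++ S.map fun t => (t, false) := by
  induction l with
  | nil =>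
    constructor
    · intro _
      exact ⟨[], [], rfl⟩
    · intro _
      simp [phM]
  | cons x l ih =>
    rw [DFA.evalFrom_cons]
    obtain ⟨t, b⟩ := x
    cases b with
    | false =>
      have h : phM.step (some true) (t, false) = some false := rfl
      rw [h, phM_false]
      constructor
      · intro h1
        exact ⟨[], t :: l.map Prod.fst, by rw [List.map_cons, ← false_map h1]; rfl⟩
      · rintro ⟨P, S, h1⟩ x hx
        cases P with
        | nil =>
          have h2 : x ∈ S.map fun t => (t, false) := by
            have h3 : (t, false) :: l = S.map fun t => (t, false) := h1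
            rw [← h3]
            simp [hx]
          obtain ⟨t', -, rfl⟩ := List.mem_map.1 h2
          rfl
        | cons p P => simp at h1
    | true =>
      have h : phM.step (some true) (t, true) = some true := rfl
      rw [h, ih]
      constructor
      · rintro ⟨P, S, rfl⟩
        exact ⟨t :: P, S, rfl⟩
      · rintro ⟨P, S, h1⟩
        cases P with
        | nil =>
          cases S with
          | nil => simp at h1
          | cons s S => simp at h1
        | cons p P =>
          rw [List.map_cons, List.cons_append] at h1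
          exact ⟨P, S, (List.cons.inj h1).2⟩

/-- letters with the given flag -/
def out (g : Bool) (x : T × Bool) : List T := if x.2 = g then [x.1] else []

theorem out_true (P S : List T) : (P.map (fun t => (t, true)) ++ S.map fun t => (t, false)).flatMap (out true) = P := by
  rw [List.flatMap_append, List.flatMap_map, List.flatMap_map]
  have h1 : P.flatMap (fun t => out true (t, true)) = P := by
    simp [out]
  have h2 : S.flatMap (fun t => out true (t, false)) = [] := by
    simp [out]
  rw [h1, h2, List.append_nil]

theorem out_false (P S : List T) : (P.map (fun t => (t, true)) ++ S.map fun t => (t, false)).flatMap (out false) = S := by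
  rw [List.flatMap_append, List.flatMap_map, List.flatMap_map]
  have h1 : P.flatMap (fun t => out false (t, true)) = [] := by
    simp [out]
  have h2 : S.flatMap (fun t => out false (t, false)) = S := by
    simp [out]
  rw [h1, h2, List.nil_append]

theorem out_all {l : List (T × Bool)} (h : ∀ x ∈ l, x.2 = false) : l.flatMap (out false) = l.map Prod.fst := by
  have h1 := out_false [] (l.map Prod.fst)
  rw [← false_map h] at h1
  exact h1

/-- marked letters -/
def ous (g : Bool) (x : T × Bool) : List (Option T) := (out g x).map some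

theorem ous_flat (g : Bool) (l : List (T × Bool)) : l.flatMap (ous g) = (l.flatMap (out g)).map some := by
  rw [List.map_flatMap]
  rfl

theorem er_some (s : List T) : er (s.map some) = s := by
  unfold er
  rw [List.filterMap_map]
  exact List.filterMap_some

theorem er_flat (L : List (List T)) : er (flat L) = L.flatten := by
  induction L with
  | nil => rfl
  | cons y L ih =>
    have h : er (flat (y :: L)) = er (y.map some ++ flat L) := rfl
    rw [h, er_append, er_some, ih, List.flatten_cons]

theorem count_flat [DecidableEq T] (s : List T) (L : List (List T)) : (s.map some ++ flat L).count none = L.length := by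
  have h0 : ∀ y : List T, (y.map some).count (none : Option T) = 0 := by
    intro y
    rw [List.count_eq_zero]
    simp
  rw [List.count_append, h0, zero_add]
  induction L with
  | nil => rfl
  | cons y L ih =>
    show (none :: (y.map some ++ flat L)).count none = _
    rw [List.count_cons_self, List.count_append, h0, zero_add, ih, List.length_cons]

theorem flat_map {ι : Type} (Y : ι → List T) (L : List ι) : flat (L.map Y) = L.flatMap fun i => none :: (Y i).map some := by
  induction L with
  | nil => rfl
  | cons i L ih =>
    show none :: ((Y i).map some ++ flat (L.map Y)) = _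
    rw [ih, List.flatMap_cons]
    rfl

section
variable {k : ℕ}

/-- the blocks of the tracks -/
def bY (τ : List (Fin (k + 1) → Cell (T × Bool))) (i : Fin k) : List T := (unf (tr i.castSucc τ)).map Prod.fst
/-- the block before the cut -/
def bP (τ : List (Fin (k + 1) → Cell (T × Bool))) : List T := (unf (tr (Fin.last k) τ)).flatMap (out true)
/-- the block after the cut -/
def bS (τ : List (Fin (k + 1) → Cell (T × Bool))) : List T := (unf (tr (Fin.last k) τ)).flatMap (out false)

/-- the flags are right -/
def Fl (τ : List (Fin (k + 1) → Cell (T × Bool))) : Prop :=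
  (∃ P S : List T, unf (tr (Fin.last k) τ) = P.map (fun t => (t, true)) ++ S.map fun t => (t, false)) ∧
    ∀ i : Fin k, ∀ x ∈ unf (tr i.castSucc τ), x.2 = false

theorem fl_last {τ : List (Fin (k + 1) → Cell (T × Bool))} (h : Fl τ) :
    unf (tr (Fin.last k) τ) = (bP τ).map (fun t => (t, true)) ++ (bS τ).map fun t => (t, false) := by
  obtain ⟨⟨P, S, h1⟩, -⟩ := h
  unfold bP bS
  rw [h1, out_true, out_false]

theorem fl_cast {τ : List (Fin (k + 1) → Cell (T × Bool))} (h : Fl τ) (i : Fin k) :
    unf (tr i.castSucc τ) = (bY τ i).map fun t => (t, false) := false_map (h.2 i)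

/-- the images of the letters with the given flag -/
def outh (h : T → T₀) (g : Bool) (x : T × Bool) : List T₀ := (out g x).map h

theorem outh_flat (h : T → T₀) (g : Bool) (l : List (T × Bool)) : l.flatMap (outh h g) = (l.flatMap (out g)).map h := by
  rw [List.map_flatMap]
  rfl

/-- the word of a tuple -/
def fnW (k : ℕ) : List ((Fin (k + 1) × Bool) ⊕ T₀) :=
  .inl (Fin.last k, false) :: ((List.finRange k).map (fun i => .inl (i.castSucc, false)) ++ [.inl (Fin.last k, true)])

theorem fnW_eq (h : T → T₀) {τ : List (Fin (k + 1) → Cell (T × Bool))} (hf : Fl τ) :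
    (fnW (T₀ := T₀) k).flatMap (Sum.elim (fun r => (unf (tr r.1 τ)).flatMap (outh h r.2)) fun t => [t]) =
      (bS τ ++ ((List.ofFn (bY τ)).flatten ++ bP τ)).map h := by
  unfold fnW
  rw [List.flatMap_cons, List.flatMap_append, List.flatMap_map, List.flatMap_cons, List.flatMap_nil, List.append_nil,
    List.map_append, List.map_append]
  show (unf (tr (Fin.last k) τ)).flatMap (outh h false) ++
    ((List.finRange k).flatMap (fun i => (unf (tr i.castSucc τ)).flatMap (outh h false)) ++
      (unf (tr (Fin.last k) τ)).flatMap (outh h true)) = _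
  rw [outh_flat, outh_flat]
  have h1 : (List.finRange k).flatMap (fun i => (unf (tr i.castSucc τ)).flatMap (outh h false)) =
      (List.ofFn (bY τ)).flatten.map h := by
    rw [List.ofFn_eq_map, ← List.flatMap_def, List.map_flatMap]
    congr 1
    funext i
    rw [outh_flat, out_all (hf.2 i)]
    rfl
  rw [h1]
  rfl

/-- the word, for the regular conditions -/
def wsW (k : ℕ) : List ((Fin (k + 1) × (T × Bool → List T)) ⊕ List T) :=
  .inl (Fin.last k, out false) :: ((List.finRange k).map (fun i => .inl (i.castSucc, out false)) ++
    [.inl (Fin.last k, out true)])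

theorem wsW_eq {τ : List (Fin (k + 1) → Cell (T × Bool))} (h : Fl τ) :
    word (wsW (T := T) k) τ = bS τ ++ ((List.ofFn (bY τ)).flatten ++ bP τ) := by
  unfold word wsW
  rw [List.flatMap_cons, List.flatMap_append, List.flatMap_map, List.flatMap_cons, List.flatMap_nil, List.append_nil]
  show bS τ ++ ((List.finRange k).flatMap (fun i => (unf (tr i.castSucc τ)).flatMap (out false)) ++ bP τ) = _
  have h1 : (List.finRange k).flatMap (fun i => (unf (tr i.castSucc τ)).flatMap (out false)) = (List.ofFn (bY τ)).flatten := by
    rw [List.ofFn_eq_map, ← List.flatMap_def]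
    congr 1
    funext i
    exact out_all (h.2 i)
  rw [h1]

/-- the marked word -/
def wsU (k : ℕ) : List ((Fin (k + 1) × (T × Bool → List (Option T))) ⊕ List (Option T)) :=
  .inl (Fin.last k, ous false) :: ((List.finRange k).flatMap (fun i => [.inr [none], .inl (i.castSucc, ous false)]) ++
    [.inr [none], .inl (Fin.last k, ous true)])

theorem wsU_eq {τ : List (Fin (k + 1) → Cell (T × Bool))} (h : Fl τ) :
    word (wsU (T := T) k) τ = (bS τ).map some ++ flat (List.ofFn (bY τ) ++ [bP τ]) := by
  unfold word wsU
  rw [List.flatMap_cons, List.flatMap_append, flat_append, List.ofFn_eq_map, flat_map, List.flatMap_assoc]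
  congr 1
  · exact ous_flat _ _
  · congr 1
    · congr 1
      funext i
      simp only [List.flatMap_cons, List.flatMap_nil, Sum.elim_inr, Sum.elim_inl, id, List.append_nil]
      rw [ous_flat, out_all (h.2 i)]
      rfl
    · simp only [List.flatMap_cons, List.flatMap_nil, Sum.elim_inr, Sum.elim_inl, id, List.append_nil, flat]
      rw [ous_flat]
      rfl

theorem blocks_ofFn {τ : List (Fin (k + 1) → Cell (T × Bool))} (h : Fl τ) :
    List.ofFn (fun i : Fin (k + 1) => (unf (tr i τ)).map Prod.fst) = List.ofFn (bY τ) ++ [bP τ ++ bS τ] := by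
  rw [List.ofFn_succ', List.concat_eq_append]
  congr 2
  rw [fl_last h]
  simp [Function.comp_def]

variable (ι : T → T) (J : T → T → Bool) (R : Language T)

/-- the encodings -/
def K (τ : List (Fin (k + 1) → Cell (T × Bool))) : Prop :=
  Val τ ∧ Fl τ ∧ word (wsU k) τ ∈ ({U | U = cmk J (er U)} : Language (Option T)) ∧ word (wsW k) τ ∈ R ∧
    ∃ j : Fin (k + 1), ∀ i : Fin (k + 1), Val τ ∧
      (unf (tr (i + j) τ)).map Prod.fst = ((unf (tr i.rev τ)).map fun x => ι x.1).reverse

theorem fr_K [Finite T] (hR : R.IsRegular) : FR (K (k := k) ι J R) := by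
  refine fr_val.and ((FR.and ?_ (FR.all fun i => ?_)).and ((fr_word (cm_regular J) (wsU k)).and ((fr_word hR (wsW k)).and
    (FR.ex fun j => FR.all fun i => fr_rev Prod.fst (fun x => ι x.1) i.rev (i + j)))))
  · have h1 : Language.IsRegular (phM (T := T)).accepts := ⟨_, inferInstance, phM, rfl⟩
    refine (fr_word (T := T × Bool) h1 [.inl (Fin.last k, fun a => [a])]).congr fun τ => ?_
    have h2 : word (T := T × Bool) [.inl (Fin.last k, fun a : T × Bool => [a])] τ = unf (tr (Fin.last k) τ) := by
      simp [word]
    rw [h2]
    exact (phM_true _).symm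
  · set N : DFA (T × Bool) (Option Bool) := ⟨(phM (T := T)).step, some false, (phM (T := T)).accept⟩ with hN
    have h1 : Language.IsRegular N.accepts := ⟨_, inferInstance, N, rfl⟩
    refine (fr_word (T := T × Bool) h1 [.inl (i.castSucc, fun a => [a])]).congr fun τ => ?_
    have h2 : word (T := T × Bool) [.inl (i.castSucc, fun a : T × Bool => [a])] τ = unf (tr i.castSucc τ) := by
      simp [word]
    rw [h2]
    exact (phM_false _).symm

theorem K_U {τ : List (Fin (k + 1) → Cell (T × Bool))} (h : K ι J R τ) :
    (bS τ).map some ++ flat (List.ofFn (bY τ) ++ [bP τ]) = cmk J (bS τ ++ ((List.ofFn (bY τ)).flatten ++ bP τ)) := by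
  obtain ⟨-, h1, h2, -, -⟩ := h
  rw [wsU_eq h1] at h2
  have h3 : (bS τ).map some ++ flat (List.ofFn (bY τ) ++ [bP τ]) =
    cmk J (er ((bS τ).map some ++ flat (List.ofFn (bY τ) ++ [bP τ]))) := h2
  rw [er_append, er_some, er_flat, List.flatten_append] at h3
  simpa using h3

/-- symmetric words of a regular language with a given number of cyclic marks -/
theorem exact_marks [Finite T] [DecidableEq T] (h : T → T₀) (hJ : ∀ x y, J x y = J (ι y) (ι x)) (hR : R.IsRegular)
    (hh : ∀ u ∈ R, ∀ v ∈ R, u.map h = v.map h → u = v) (k : ℕ) : ∃ G : IG T₀, G.Unambiguous ∧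
      G.lang = {v | ∃ u, u ∈ R ∧ th ι u ~r u ∧ (cmk J u).count none = k + 1 ∧ v = u.map h} := by
  obtain ⟨G, hG, hL⟩ := fold_main (T := T₀) (outh h) (fnW k) ⟨_, List.mem_cons_self⟩ (fr_K (k := k) ι J R hR)
    (fun τ h => h.1) (fun τ τ' hτ hτ' he => by
      rw [fnW_eq h hτ.2.1, fnW_eq h hτ'.2.1] at he
      have hW := hτ.2.2.2.1
      have hW' := hτ'.2.2.2.1
      rw [wsW_eq hτ.2.1] at hW
      rw [wsW_eq hτ'.2.1] at hW'
      replace he := hh _ hW _ hW' he
      have h1 := K_U ι J R hτ
      have h2 := K_U ι J R hτ'
      rw [he, ← h2] at h1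
      obtain ⟨h3, h4⟩ := some_inj (hd_flat _) (hd_flat _) h1
      have h5 := flat_inj h4
      obtain ⟨h6, h7⟩ := List.append_inj' h5 rfl
      have h8 : bP τ = bP τ' := (List.cons.inj h7).1
      have h9 : bY τ = bY τ' := List.ofFn_injective h6
      intro i
      refine Fin.lastCases ?_ (fun i => ?_) i
      · rw [fl_last hτ.2.1, fl_last hτ'.2.1, h3, h8]
      · rw [fl_cast hτ.2.1, fl_cast hτ'.2.1, h9])
  refine ⟨G, hG, hL.trans ?_⟩
  have hmap : ∀ l : List (T × Bool), (l.map fun x => ι x.1).reverse = th ι (l.map Prod.fst) := by
    intro l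
    unfold th
    rw [List.map_map]
    rfl
  ext v
  constructor
  · rintro ⟨τ, hτ, rfl⟩
    have hU := K_U ι J R hτ
    obtain ⟨-, hf, -, hW, j, hj⟩ := hτ
    rw [fnW_eq h hf]
    rw [wsW_eq hf] at hW
    refine ⟨_, hW, ?_, ?_, rfl⟩
    · apply word_sym
      rw [← blocks_ofFn hf, rot_ofFn]
      exact ⟨j, fun i => (hj i).2.trans (hmap _)⟩
    · rw [← hU, count_flat]
      simp
  · rintro ⟨u, hu, hs, hc, rfl⟩
    obtain ⟨s, L, h1, h2⟩ := decomp (cmk J u)
    rw [hc] at h2
    rcases List.eq_nil_or_concat L with rfl | ⟨Ys, p, rfl⟩
    · simp at h2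
    rw [List.concat_eq_append] at h1 h2
    have hk : Ys.length = k := by simpa using h2
    obtain ⟨τ, hτ, hy⟩ := val_surj _ (fun i : Fin (k + 1) => Fin.lastCases (motive := fun _ => List (T × Bool))
      (p.map (fun t => (t, true)) ++ s.map fun t => (t, false))
      (fun i : Fin k => (Ys[i.val]'(by omega)).map fun t => (t, false)) i) le_rfl
    have hy1 : unf (tr (Fin.last k) τ) = p.map (fun t => (t, true)) ++ s.map fun t => (t, false) := by
      rw [hy, Fin.lastCases_last]
    have hy2 : ∀ i : Fin k, unf (tr i.castSucc τ) = (Ys[i.val]'(by omega)).map fun t => (t, false) := by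
      intro i
      rw [hy, Fin.lastCases_castSucc]
    have hf : Fl τ := by
      refine ⟨⟨p, s, hy1⟩, fun i x hx => ?_⟩
      rw [hy2] at hx
      obtain ⟨t, -, rfl⟩ := List.mem_map.1 hx
      rfl
    have e1 : bP τ = p := by
      unfold bP
      rw [hy1, out_true]
    have e2 : bS τ = s := by
      unfold bS
      rw [hy1, out_false]
    have e3 : List.ofFn (bY τ) = Ys := by
      apply List.ext_getElem
      · simp [hk]
      · intro i h3 h4
        rw [List.getElem_ofFn]
        unfold bY
        rw [hy2]
        simp [Function.comp_def]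
    have e4 : u = bS τ ++ ((List.ofFn (bY τ)).flatten ++ bP τ) := by
      rw [e1, e2, e3, ← er_cmk J u, h1, er_append, er_some, er_flat]
      simp
    have e5 : (bS τ).map some ++ flat (List.ofFn (bY τ) ++ [bP τ]) = cmk J u := by
      rw [e1, e2, e3, h1]
    refine ⟨τ, ⟨hτ, hf, ?_, ?_, ?_⟩, ?_⟩
    · rw [wsU_eq hf]
      show _ = cmk J (er _)
      rw [e5, er_cmk]
    · rw [wsW_eq hf, ← e4]
      exact hu
    · have h3 := cmk_sym J ι hJ hs
      rw [h1, sym_blocks] at h3
      have e6 : Ys ++ [p ++ s] = List.ofFn (fun i : Fin (k + 1) => (unf (tr i τ)).map Prod.fst) := by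
        rw [blocks_ofFn hf, e1, e2, e3]
      rw [e6, rot_ofFn] at h3
      obtain ⟨j, hj⟩ := h3
      exact ⟨j, fun i => ⟨hτ, (hj i).trans (hmap _).symm⟩⟩
    · rw [fnW_eq h hf, ← e4]

end

end Pool.Agent.Lib.IXB.Asm
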