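import Pool.Agent.Lib.IXB.Gram

/-!
# Disjoint unions of unambiguous indexed languages
-/

set_option autoImplicit false

namespace Pool.Agent.Lib.IXB.Union

variable {T V₁ I₁ V I : Type}

/-- the variable on the left -/
def lhs : Rule V I T → V
  | .rw A _ => A
  | .push A _ _ => A
  | .pop A _ _ => A

theorem act_lhs {p : Rule V I T} {X : V × List I} {Z : Form V I T} (h : Act p X Z) : X.1 = lhs p := by
  cases h <;> rfl

section
variable (f : V₁ → V) (g : I₁ → I)

/-- images of forms -/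
def ph (F : Form V₁ I₁ T) : Form V I T := F.map (Sum.map (fun X => (f X.1, X.2.map g)) id)

/-- images of productions -/
def ps : Rule V₁ I₁ T → Rule V I T
  | .rw A α => .rw (f A) (α.map (Sum.map f id))
  | .push A B i => .push (f A) (f B) (g i)
  | .pop A i α => .pop (f A) (g i) (α.map (Sum.map f id))

theorem ph_att (σ : List I₁) (α : List (V₁ ⊕ T)) : ph f g (att σ α) = att (σ.map g) (α.map (Sum.map f id)) := by
  unfold ph att
  rw [List.map_map, List.map_map]
  congr 1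
  funext x
  cases x <;> rfl

theorem ph_term (u : List T) : ph f g (u.map Sum.inr) = u.map Sum.inr := by
  unfold ph
  rw [List.map_map]
  rfl

theorem ph_append (F F' : Form V₁ I₁ T) : ph f g (F ++ F') = ph f g F ++ ph f g F' := List.map_append

theorem act_ph {p : Rule V₁ I₁ T} {X : V₁ × List I₁} {Z : Form V₁ I₁ T} (h : Act p X Z) :
    Act (ps f g p) (f X.1, X.2.map g) (ph f g Z) := by
  cases h with
  | rw A α σ =>
    rw [ph_att]
    exact .rw _ _ _
  | push A B i σ => exact .push _ _ _ _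
  | pop A i α σ =>
    rw [ph_att]
    exact .pop _ _ _ _

theorem act_inv (hg : Function.Injective g) {p : Rule V₁ I₁ T} {X : V₁ × List I₁} {Z : Form V I T}
    (h : Act (ps f g p) (f X.1, X.2.map g) Z) (hX : X.1 = lhs p) : ∃ Z₁, Act p X Z₁ ∧ Z = ph f g Z₁ := by
  obtain ⟨A, σ⟩ := X
  cases p with
  | rw B α =>
    obtain rfl : A = B := hX
    cases h
    exact ⟨_, .rw _ _ _, (ph_att f g _ _).symm⟩
  | push B C i =>
    obtain rfl : A = B := hX
    cases h
    exact ⟨_, .push _ _ _ _, rfl⟩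
  | pop B i α =>
    obtain rfl : A = B := hX
    have h1 : ∃ σ', σ = i :: σ' := by
      cases σ with
      | nil => cases h
      | cons j σ' =>
        have h2 : g i = g j := by
          generalize hs : (j :: σ').map g = s at h
          cases h
          exact (List.cons.inj hs).1.symm
        exact ⟨σ', by rw [hg h2]⟩
    obtain ⟨σ', rfl⟩ := h1
    refine ⟨_, .pop _ _ _ _, ?_⟩
    rw [ph_att]
    cases h
    rfl

end

/-- `G` contains `G₁` as the productions of the variables `f A` -/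
def Emb (G₁ G : IG T) (f : G₁.V → G.V) (g : G₁.I → G.I) : Prop :=
  Function.Injective f ∧ Function.Injective g ∧ (∀ p ∈ G₁.rules, ps f g p ∈ G.rules) ∧
    ∀ p ∈ G.rules, ∀ A, lhs p = f A → ∃ p₁ ∈ G₁.rules, p = ps f g p₁

section
variable {G₁ G : IG T} {f : G₁.V → G.V} {g : G₁.I → G.I}

theorem lhs_ps (p : Rule G₁.V G₁.I T) : lhs (ps f g p) = f (lhs p) := by
  cases p <;> rfl

theorem step_emb (h : Emb G₁ G f g) {F F' : Form G₁.V G₁.I T} (hs : G₁.Step F F') : G.Step (ph f g F) (ph f g F') := by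
  obtain ⟨p, hp, x, y, X, Z, rfl, ha, rfl⟩ := hs
  refine ⟨ps f g p, h.2.2.1 p hp, ph f g x, ph f g y, _, _, ?_, act_ph f g ha, ?_⟩
  · rw [ph_append]
    rfl
  · rw [ph_append, ph_append]

theorem lstep_emb (h : Emb G₁ G f g) {p : Rule G₁.V G₁.I T} {F F' : Form G₁.V G₁.I T} (hs : G₁.LStep p F F') :
    G.LStep (ps f g p) (ph f g F) (ph f g F') := by
  obtain ⟨hp, u, y, X, Z, rfl, ha, rfl⟩ := hs
  refine ⟨h.2.2.1 p hp, u, ph f g y, _, _, ?_, act_ph f g ha, ?_⟩
  · rw [ph_append, ph_term]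
    rfl
  · rw [ph_append, ph_append, ph_term]

theorem lder_emb (h : Emb G₁ G f g) {l : List (Rule G₁.V G₁.I T)} {F F' : Form G₁.V G₁.I T} (hs : G₁.LDer l F F') :
    G.LDer (l.map (ps f g)) (ph f g F) (ph f g F') := by
  induction hs with
  | nil F => exact .nil _
  | cons h1 _ ih => exact .cons (lstep_emb h h1) ih

theorem cut (F : Form G₁.V G₁.I T) {x y : Form G.V G.I T} {X : G.V × List G.I} (he : ph f g F = x ++ Sum.inl X :: y) :
    ∃ x₁ X₁ y₁, F = x₁ ++ Sum.inl X₁ :: y₁ ∧ x = ph f g x₁ ∧ X = (f X₁.1, X₁.2.map g) ∧ y = ph f g y₁ := by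
  unfold ph at he
  obtain ⟨x₁, F₂, rfl, rfl, h2⟩ := List.map_eq_append_iff.1 he
  obtain ⟨a, y₁, rfl, h3, rfl⟩ := List.map_eq_cons_iff.1 h2
  cases a with
  | inl X₁ =>
    simp only [Sum.map_inl, Sum.inl.injEq] at h3
    exact ⟨x₁, X₁, y₁, rfl, rfl, h3.symm, rfl⟩
  | inr t => simp at h3

theorem act_cut (h : Emb G₁ G f g) {p : Rule G.V G.I T} (hp : p ∈ G.rules) {X₁ : G₁.V × List G₁.I}
    {Z : Form G.V G.I T} (ha : Act p (f X₁.1, X₁.2.map g) Z) :
    ∃ p₁ ∈ G₁.rules, ∃ Z₁, p = ps f g p₁ ∧ Act p₁ X₁ Z₁ ∧ Z = ph f g Z₁ := by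
  obtain ⟨p₁, hp₁, rfl⟩ := h.2.2.2 p hp X₁.1 (act_lhs ha).symm
  have h1 := act_lhs ha
  rw [lhs_ps] at h1
  obtain ⟨Z₁, h2, h3⟩ := act_inv f g h.2.1 ha (h.1 h1)
  exact ⟨p₁, hp₁, Z₁, rfl, h2, h3⟩

theorem step_inv (h : Emb G₁ G f g) {F : Form G₁.V G₁.I T} {E : Form G.V G.I T} (hs : G.Step (ph f g F) E) :
    ∃ F', G₁.Step F F' ∧ E = ph f g F' := by
  obtain ⟨p, hp, x, y, X, Z, he, ha, rfl⟩ := hs
  obtain ⟨x₁, X₁, y₁, rfl, rfl, rfl, rfl⟩ := cut F he
  obtain ⟨p₁, hp₁, Z₁, rfl, h2, rfl⟩ := act_cut h hp ha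
  exact ⟨_, ⟨p₁, hp₁, x₁, y₁, X₁, Z₁, rfl, h2, rfl⟩, by rw [ph_append, ph_append]⟩

theorem der_inv (h : Emb G₁ G f g) {F : Form G₁.V G₁.I T} {E : Form G.V G.I T}
    (hs : Relation.ReflTransGen G.Step (ph f g F) E) : ∃ F', Relation.ReflTransGen G₁.Step F F' ∧ E = ph f g F' := by
  induction hs with
  | refl => exact ⟨F, .refl, rfl⟩
  | tail _ h1 ih =>
    obtain ⟨F', h2, rfl⟩ := ih
    obtain ⟨F'', h3, rfl⟩ := step_inv h h1
    exact ⟨F'', h2.tail h3, rfl⟩

theorem lstep_inv (h : Emb G₁ G f g) {p : Rule G.V G.I T} {F : Form G₁.V G₁.I T} {E : Form G.V G.I T}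
    (hs : G.LStep p (ph f g F) E) : ∃ p₁ F', p = ps f g p₁ ∧ G₁.LStep p₁ F F' ∧ E = ph f g F' := by
  obtain ⟨hp, u, y, X, Z, he, ha, rfl⟩ := hs
  obtain ⟨x₁, X₁, y₁, rfl, h1, rfl, rfl⟩ := cut F he
  obtain ⟨p₁, hp₁, Z₁, rfl, h2, rfl⟩ := act_cut h hp ha
  have h3 : x₁ = u.map Sum.inr := by
    clear he ha
    induction x₁ generalizing u with
    | nil =>
      cases u with
      | nil => rfl
      | cons t u => simp [ph] at h1
    | cons a x₁ ih =>
      cases u with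
      | nil => simp [ph] at h1
      | cons t u =>
        have h4 : Sum.inr t :: (u.map Sum.inr : Form G.V G.I T) =
          Sum.map (fun X => (f X.1, X.2.map g)) id a :: ph f g x₁ := h1
        obtain ⟨h5, h6⟩ := List.cons.inj h4
        cases a with
        | inl X => simp at h5
        | inr t' =>
          simp only [Sum.map_inr, id, Sum.inr.injEq] at h5
          rw [h5, List.map_cons, ih u h6]
  subst h3
  exact ⟨p₁, _, rfl, ⟨hp₁, u, y₁, X₁, Z₁, rfl, h2, rfl⟩, by rw [ph_append, ph_append, ph_term]⟩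

theorem lder_inv (h : Emb G₁ G f g) {l : List (Rule G.V G.I T)} {F : Form G₁.V G₁.I T} {E : Form G.V G.I T}
    (hs : G.LDer l (ph f g F) E) : ∃ l₁ F', l = l₁.map (ps f g) ∧ G₁.LDer l₁ F F' ∧ E = ph f g F' := by
  generalize hE : ph f g F = E₀ at hs
  induction hs generalizing F with
  | nil E₀ => exact ⟨[], F, rfl, .nil _, hE.symm⟩
  | cons h1 _ ih =>
    subst hE
    obtain ⟨p₁, F', rfl, h2, rfl⟩ := lstep_inv h h1
    obtain ⟨l₁, F'', rfl, h3, rfl⟩ := ih rfl
    exact ⟨p₁ :: l₁, F'', rfl, .cons h2 h3, rfl⟩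

theorem term_ph {F : Form G₁.V G₁.I T} {u : List T} (h : u.map Sum.inr = ph f g F) : F = u.map Sum.inr := by
  induction F generalizing u with
  | nil =>
    cases u with
    | nil => rfl
    | cons t u => simp [ph] at h
  | cons a F ih =>
    cases u with
    | nil => simp [ph] at h
    | cons t u =>
      have h4 : Sum.inr t :: (u.map Sum.inr : Form G.V G.I T) =
        Sum.map (fun X => (f X.1, X.2.map g)) id a :: ph f g F := h
      obtain ⟨h5, h6⟩ := List.cons.inj h4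
      cases a with
      | inl X => simp at h5
      | inr t' =>
        simp only [Sum.map_inr, id, Sum.inr.injEq] at h5
        rw [h5, List.map_cons, ih h6]

end

section
variable (G₁ G₂ : IG T)

/-- the union -/
abbrev un : IG T where
  V := Option (G₁.V ⊕ G₂.V)
  I := G₁.I ⊕ G₂.I
  finV := by
    have := G₁.finV
    have := G₂.finV
    infer_instance
  finI := by
    have := G₁.finI
    have := G₂.finI
    infer_instance
  start := none
  rules := {.rw none [Sum.inl (some (.inl G₁.start))], .rw none [Sum.inl (some (.inr G₂.start))]} ∪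
    (ps (fun A => some (.inl A)) Sum.inl '' G₁.rules ∪ ps (fun A => some (.inr A)) Sum.inr '' G₂.rules)
  finR := (Set.toFinite _).union ((G₁.finR.image _).union (G₂.finR.image _))

theorem emb₁ : Emb G₁ (un G₁ G₂) (fun A => some (.inl A)) Sum.inl := by
  refine ⟨fun A B h => Sum.inl_injective (Option.some_injective _ h), Sum.inl_injective,
    fun p hp => Or.inr (Or.inl ⟨p, hp, rfl⟩), ?_⟩
  rintro p ((rfl | hp) | (⟨p₁, hp, rfl⟩ | ⟨p₁, hp, rfl⟩)) A h
  · simp [lhs] at h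
  · obtain rfl : p = _ := hp
    simp [lhs] at h
  · exact ⟨p₁, hp, rfl⟩
  · cases p₁ <;> simp [lhs, ps] at h

theorem emb₂ : Emb G₂ (un G₁ G₂) (fun A => some (.inr A)) Sum.inr := by
  refine ⟨fun A B h => Sum.inr_injective (Option.some_injective _ h), Sum.inr_injective,
    fun p hp => Or.inr (Or.inr ⟨p, hp, rfl⟩), ?_⟩
  rintro p ((rfl | hp) | (⟨p₁, hp, rfl⟩ | ⟨p₁, hp, rfl⟩)) A h
  · simp [lhs] at h
  · obtain rfl : p = _ := hp
    simp [lhs] at h
  · cases p₁ <;> simp [lhs, ps] at h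
  · exact ⟨p₁, hp, rfl⟩

theorem start_cut {x y : Form (un G₁ G₂).V (un G₁ G₂).I T} {X : (un G₁ G₂).V × List (un G₁ G₂).I}
    (h : [Sum.inl ((un G₁ G₂).start, [])] = x ++ Sum.inl X :: y) : x = [] ∧ X = (none, []) ∧ y = [] := by
  cases x with
  | nil =>
    obtain ⟨h1, h2⟩ := List.cons.inj h
    exact ⟨rfl, (Sum.inl_injective h1).symm, h2.symm⟩
  | cons a x => simp at h

theorem start_act {p : Rule (un G₁ G₂).V (un G₁ G₂).I T} (hp : p ∈ (un G₁ G₂).rules)
    {Z : Form (un G₁ G₂).V (un G₁ G₂).I T} (ha : Act p (none, []) Z) :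
    (p = .rw none [Sum.inl (some (.inl G₁.start))] ∧ Z = ph (fun A => some (.inl A)) Sum.inl [Sum.inl (G₁.start, [])]) ∨
    (p = .rw none [Sum.inl (some (.inr G₂.start))] ∧ Z = ph (fun A => some (.inr A)) Sum.inr [Sum.inl (G₂.start, [])]) := by
  rcases hp with (hp | hp) | (⟨p₁, hp, rfl⟩ | ⟨p₁, hp, rfl⟩)
  · obtain rfl : p = _ := hp
    cases ha
    exact Or.inl ⟨rfl, rfl⟩
  · obtain rfl : p = _ := hp
    cases ha
    exact Or.inr ⟨rfl, rfl⟩
  · exfalso
    have := act_lhs ha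
    cases p₁ <;> simp [lhs, ps] at this
  · exfalso
    have := act_lhs ha
    cases p₁ <;> simp [lhs, ps] at this

theorem un_lang : (un G₁ G₂).lang = G₁.lang ∪ G₂.lang := by
  ext u
  constructor
  · intro h
    rcases Relation.ReflTransGen.cases_head h with h1 | ⟨E, ⟨p, hp, x, y, X, Z, he, ha, rfl⟩, h2⟩
    · exfalso
      cases u <;> simp at h1
    · obtain ⟨rfl, rfl, rfl⟩ := start_cut G₁ G₂ he
      rw [List.nil_append, List.append_nil] at h2
      rcases start_act G₁ G₂ hp ha with ⟨-, rfl⟩ | ⟨-, rfl⟩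
      · obtain ⟨F', h3, h4⟩ := der_inv (emb₁ G₁ G₂) h2
        rw [term_ph h4] at h3
        exact Or.inl h3
      · obtain ⟨F', h3, h4⟩ := der_inv (emb₂ G₁ G₂) h2
        rw [term_ph h4] at h3
        exact Or.inr h3
  · have key : ∀ {G' G : IG T} {f : G'.V → G.V} {g : G'.I → G.I}, Emb G' G f g → ∀ {F F' : Form G'.V G'.I T},
        Relation.ReflTransGen G'.Step F F' → Relation.ReflTransGen G.Step (ph f g F) (ph f g F') := by
      intro G' G f g hE F F' h
      induction h with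
      | refl => exact .refl
      | tail _ h1 ih => exact ih.tail (step_emb hE h1)
    rintro (h | h)
    · have h1 := key (emb₁ G₁ G₂) h
      rw [ph_term] at h1
      exact .head ⟨_, Or.inl (Or.inl rfl), [], [], (none, []), _, rfl, Act.rw _ _ _, rfl⟩ h1
    · have h1 := key (emb₂ G₁ G₂) h
      rw [ph_term] at h1
      exact .head ⟨_, Or.inl (Or.inr rfl), [], [], (none, []), _, rfl, Act.rw _ _ _, rfl⟩ h1

theorem lder_start {l : List (Rule (un G₁ G₂).V (un G₁ G₂).I T)} {u : List T}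
    (h : (un G₁ G₂).LDer l [Sum.inl ((un G₁ G₂).start, [])] (u.map Sum.inr)) :
    (∃ l₁, l = .rw none [Sum.inl (some (.inl G₁.start))] :: l₁.map (ps (fun A => some (.inl A)) Sum.inl) ∧
      G₁.LDer l₁ [Sum.inl (G₁.start, [])] (u.map Sum.inr)) ∨
    (∃ l₂, l = .rw none [Sum.inl (some (.inr G₂.start))] :: l₂.map (ps (fun A => some (.inr A)) Sum.inr) ∧
      G₂.LDer l₂ [Sum.inl (G₂.start, [])] (u.map Sum.inr)) := by
  generalize hE : (u.map Sum.inr : Form (un G₁ G₂).V (un G₁ G₂).I T) = E at h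
  cases h with
  | nil =>
    exfalso
    cases u <;> simp at hE
  | cons h1 h2 =>
    subst hE
    obtain ⟨hp, v, y, X, Z, he, ha, rfl⟩ := h1
    obtain ⟨h3, rfl, rfl⟩ := start_cut G₁ G₂ he
    have h4 : v = [] := by simpa using h3
    subst h4
    rw [List.append_nil] at h2
    rcases start_act G₁ G₂ hp ha with ⟨rfl, rfl⟩ | ⟨rfl, rfl⟩
    · obtain ⟨l₁, F', rfl, h5, h6⟩ := lder_inv (emb₁ G₁ G₂) h2
      rw [term_ph h6] at h5
      exact Or.inl ⟨l₁, rfl, h5⟩
    · obtain ⟨l₁, F', rfl, h5, h6⟩ := lder_inv (emb₂ G₁ G₂) h2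
      rw [term_ph h6] at h5
      exact Or.inr ⟨l₁, rfl, h5⟩

theorem un_unamb (h₁ : G₁.Unambiguous) (h₂ : G₂.Unambiguous) (hd : Disjoint G₁.lang G₂.lang) :
    (un G₁ G₂).Unambiguous := by
  intro u hu
  rw [un_lang] at hu
  rcases hu with hu | hu
  · obtain ⟨l, hl, huniq⟩ := h₁ u hu
    refine ⟨.rw none [Sum.inl (some (.inl G₁.start))] :: l.map (ps (fun A => some (.inl A)) Sum.inl),
      .cons ⟨Or.inl (Or.inl rfl), [], [], (none, []), _, rfl, Act.rw _ _ _, rfl⟩ ?_, ?_⟩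
    · have h1 := lder_emb (emb₁ G₁ G₂) hl
      rw [ph_term] at h1
      exact h1
    · intro l' hl'
      rcases lder_start G₁ G₂ hl' with ⟨l₁, rfl, h3⟩ | ⟨l₂, rfl, h3⟩
      · rw [huniq l₁ h3]
      · exact (Set.disjoint_left.1 hd hu (LDer_step _ h3)).elim
  · obtain ⟨l, hl, huniq⟩ := h₂ u hu
    refine ⟨.rw none [Sum.inl (some (.inr G₂.start))] :: l.map (ps (fun A => some (.inr A)) Sum.inr),
      .cons ⟨Or.inl (Or.inr rfl), [], [], (none, []), _, rfl, Act.rw _ _ _, rfl⟩ ?_, ?_⟩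
    · have h1 := lder_emb (emb₂ G₁ G₂) hl
      rw [ph_term] at h1
      exact h1
    · intro l' hl'
      rcases lder_start G₁ G₂ hl' with ⟨l₁, rfl, h3⟩ | ⟨l₂, rfl, h3⟩
      · exact (Set.disjoint_left.1 hd (LDer_step _ h3) hu).elim
      · rw [huniq l₂ h3]

end

/-- finite disjoint unions -/
theorem fin_union (L : ℕ → Set (List T)) (hd : ∀ i j, i ≠ j → Disjoint (L i) (L j))
    (h : ∀ i, ∃ G : IG T, G.Unambiguous ∧ G.lang = L i) (m : ℕ) :
    ∃ G : IG T, G.Unambiguous ∧ G.lang = {u | ∃ i ≤ m, u ∈ L i} := by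
  induction m with
  | zero =>
    obtain ⟨G, hG, hL⟩ := h 0
    refine ⟨G, hG, hL.trans ?_⟩
    ext u
    constructor
    · intro hu
      exact ⟨0, le_rfl, hu⟩
    · rintro ⟨i, hi, hu⟩
      obtain rfl : i = 0 := by omega
      exact hu
  | succ m ih =>
    obtain ⟨G, hG, hL⟩ := h (m + 1)
    obtain ⟨G', hG', hL'⟩ := ih
    refine ⟨un G' G, un_unamb G' G hG' hG ?_, ?_⟩
    · rw [hL, hL', Set.disjoint_left]
      rintro u ⟨i, hi, hu⟩ hu'
      exact Set.disjoint_left.1 (hd i (m + 1) (by omega)) hu hu'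
    · rw [un_lang, hL, hL']
      ext u
      constructor
      · rintro (⟨i, hi, hu⟩ | hu)
        · exact ⟨i, by omega, hu⟩
        · exact ⟨m + 1, le_rfl, hu⟩
      · rintro ⟨i, hi, hu⟩
        rcases Nat.lt_or_ge i (m + 1) with h1 | h1
        · exact Or.inl ⟨i, by omega, hu⟩
        · obtain rfl : i = m + 1 := by omega
          exact Or.inr hu

end Pool.Agent.Lib.IXB.Union
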