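import Pool.Agent.Lib.IXB.Window
import Pool.Agent.Lib.IXB.Asm
import Pool.Agent.Lib.IXB.Union

/-!
# Parts of the palindrome-pair language in which a factor occurs a bounded number of times
-/

set_option autoImplicit false

namespace Pool.Agent.Lib.IXB.Factor

open Mark Window

section
variable {T : Type} (J : T → T → Bool)

theorem mkc_good (f x : T) (u : List T) : mkc J f x u = u.map some ↔
    (∀ (i : ℕ) (hi : i < u.length), J ((x :: u)[i]'(by simp; omega)) (u[i]) = false) ∧
      J ((x :: u).getLast (List.cons_ne_nil x u)) f = false := by
  induction u generalizing x with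
  | nil =>
    show j J x f = [] ↔ _
    unfold j
    cases hJ : J x f <;> simp [hJ]
  | cons t u ih =>
    have h1 : mkc J f x (t :: u) = j J x t ++ some t :: mkc J f t u := rfl
    rw [h1]
    constructor
    · intro h
      have h2 : J x t = false := by
        cases hJ : J x t with
        | false => rfl
        | true =>
          unfold j at h
          rw [hJ] at h
          simp at h
      have h3 : mkc J f t u = u.map some := by
        unfold j at h
        rw [h2] at h
        simpa using h
      obtain ⟨h4, h5⟩ := (ih t).1 h3
      refine ⟨fun i hi => ?_, ?_⟩
      · cases i with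
        | zero => exact h2
        | succ i => exact h4 i (by simpa using hi)
      · rw [List.getLast_cons (List.cons_ne_nil t u)]
        exact h5
    · rintro ⟨h4, h5⟩
      have h2 : J x t = false := h4 0 (by simp)
      have h3 : mkc J f t u = u.map some := by
        refine (ih t).2 ⟨fun i hi => ?_, ?_⟩
        · exact h4 (i + 1) (by simpa using hi)
        · rw [List.getLast_cons (List.cons_ne_nil t u)] at h5
          exact h5
      unfold j
      rw [h2, h3]
      simp

theorem cmk_good (X : List T) : cmk J X = X.map some ↔
    ∀ (i : ℕ) (hi : i < X.length), J (X[i]) (X[(i + 1) % X.length]'(Nat.mod_lt _ (by omega))) = false := by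
  cases X with
  | nil =>
    constructor
    · intro _ i hi
      simp at hi
    · intro _
      rfl
  | cons x u =>
    rw [cmk_cons, List.map_cons]
    have h1 : some x :: mkc J x x u = some x :: u.map some ↔ mkc J x x u = u.map some := by
      simp
    rw [h1, mkc_good]
    have hlast : (x :: u).getLast (List.cons_ne_nil x u) = (x :: u)[u.length]'(by simp) := by
      rw [List.getLast_eq_getElem]
      exact ge_congr _ (by simp) _ _
    constructor
    · rintro ⟨h2, h3⟩ i hi
      rcases Nat.lt_or_ge i u.length with h4 | h4
      · have h5 := h2 i h4
        have h6 : (x :: u)[(i + 1) % (x :: u).length]'(Nat.mod_lt _ (by omega)) = u[i] := by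
          have e : (i + 1) % (x :: u).length = i + 1 := Nat.mod_eq_of_lt (by simp; omega)
          rw [ge_congr (x :: u) e _ (by simp; omega)]
          rfl
        rw [h6]
        exact h5
      · have e : i = u.length := by
          simp only [List.length_cons] at hi
          omega
        subst e
        have h6 : (x :: u)[(u.length + 1) % (x :: u).length]'(Nat.mod_lt _ (by omega)) = x := by
          have e : (u.length + 1) % (x :: u).length = 0 := by simp
          rw [ge_congr (x :: u) e _ (by simp)]
          rfl
        rw [h6, ← hlast]
        exact h3
    · intro h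
      refine ⟨fun i hi => ?_, ?_⟩
      · have h5 := h i (by simp; omega)
        have h6 : (x :: u)[(i + 1) % (x :: u).length]'(Nat.mod_lt _ (by simp)) = u[i] := by
          have e : (i + 1) % (x :: u).length = i + 1 := Nat.mod_eq_of_lt (by simp; omega)
          rw [ge_congr (x :: u) e _ (by simp; omega)]
          rfl
        rw [h6] at h5
        exact h5
      · have h5 := h u.length (by simp)
        have h6 : (x :: u)[(u.length + 1) % (x :: u).length]'(Nat.mod_lt _ (by simp)) = x := by
          have e : (u.length + 1) % (x :: u).length = 0 := by simp
          rw [ge_congr (x :: u) e _ (by simp)]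
          rfl
        rw [h6, ← hlast] at h5
        exact h5

theorem comap_regular {A B : Type} (g : A → B) {L : Language B} (hL : L.IsRegular) :
    Language.IsRegular ({u | u.map g ∈ L} : Language A) := by
  obtain ⟨Q, _, M, rfl⟩ := hL
  exact ⟨Q, inferInstance, M.comap g, M.accepts_comap g⟩

/-- the words of cyclic windows are a regular language -/
theorem win_regular [Finite T] [Inhabited T] (n : ℕ) :
    Language.IsRegular ({X | X = win n (X.map fun x => x 0)} : Language (Fin (n + 1) → T)) := by
  classical
  have h := comap_regular some (cm_regular (fun x y : Fin (n + 1) → T => !decide (Cw x y)))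
  have h2 : ({X | X = win n (X.map fun x => x 0)} : Language (Fin (n + 1) → T)) =
      {X | X.map some ∈ ({U | U = cmk (fun x y : Fin (n + 1) → T => !decide (Cw x y)) (er U)} : Language (Option (Fin (n + 1) → T)))} := by
    ext X
    have h3 : X.map some ∈ ({U | U = cmk (fun x y : Fin (n + 1) → T => !decide (Cw x y)) (er U)} : Language (Option (Fin (n + 1) → T))) ↔
        X.map some = cmk (fun x y : Fin (n + 1) → T => !decide (Cw x y)) X := by
      show X.map some = cmk _ (er (X.map some)) ↔ _
      rw [Asm.er_some]
    refine Iff.trans ?_ h3.symm
    rw [eq_comm (a := X.map some), cmk_good]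
    constructor
    · intro h4 i hi
      have h4' : X = win n (X.map fun x => x 0) := h4
      have key : ∀ (Y : List (Fin (n + 1) → T)), Y = win n (X.map fun x => x 0) → ∀ (i : ℕ) (hi : i < Y.length),
          (!decide (Cw (Y[i]) (Y[(i + 1) % Y.length]'(Nat.mod_lt _ (by omega))))) = false := by
        rintro Y rfl i hi
        simpa using win_adj _ i hi
      exact key X h4' i hi
    · intro h4
      refine win_of_adj fun i hi => ?_
      simpa using h4 i hi
  rw [h2]
  exact h

end

section
variable {T : Type} [DecidableEq T] (a b : T)

/-- marks before `a` and after `b` -/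
def Jf (x y : T) : Bool := decide (y = a) || decide (x = b)

theorem count_j (x y : T) : (j (Jf a b) x y).count none = if y = a ∨ x = b then 1 else 0 := by
  unfold j Jf
  by_cases h1 : y = a <;> by_cases h2 : x = b <;> simp [h1, h2]

theorem count_mkc (f x : T) (u : List T) :
    u.count a + (if f = a then 1 else 0) ≤ (mkc (Jf a b) f x u).count none ∧
      (mkc (Jf a b) f x u).count none ≤ u.count a + (if f = a then 1 else 0) + (x :: u).count b := by
  induction u generalizing x with
  | nil =>
    show _ ≤ (j (Jf a b) x f).count none ∧ (j (Jf a b) x f).count none ≤ _
    rw [count_j]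
    by_cases h1 : f = a <;> by_cases h2 : x = b <;> simp [h1, h2]
  | cons t u ih =>
    obtain ⟨h1, h2⟩ := ih t
    have h3 : mkc (Jf a b) f x (t :: u) = j (Jf a b) x t ++ some t :: mkc (Jf a b) f t u := rfl
    have h8 : (some t :: mkc (Jf a b) f t u).count none = (mkc (Jf a b) f t u).count none :=
      List.count_cons_of_ne (by simp)
    rw [h3, List.count_append, count_j, h8]
    have h4 : (t :: u).count a = u.count a + if t = a then 1 else 0 := by
      rw [List.count_cons]
      congr 1
      by_cases h : t = a <;> simp [h]
    have h5 : (x :: t :: u).count b = (t :: u).count b + if x = b then 1 else 0 := by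
      rw [List.count_cons]
      congr 1
      by_cases h : x = b <;> simp [h]
    rw [h4, h5]
    by_cases h6 : t = a <;> by_cases h7 : x = b <;> simp only [h6, h7, true_or, or_true, or_self, if_true, if_false] at * <;>
      omega

theorem count_cmk (X : List T) : X.count a ≤ (cmk (Jf a b) X).count none ∧
    (cmk (Jf a b) X).count none ≤ X.count a + X.count b := by
  cases X with
  | nil => simp [cmk, lin, cl]
  | cons x u =>
    have h8 : (some x :: mkc (Jf a b) x x u).count none = (mkc (Jf a b) x x u).count none :=
      List.count_cons_of_ne (by simp)
    rw [cmk_cons, h8]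
    have h := count_mkc a b x x u
    have h4 : (x :: u).count a = u.count a + if x = a then 1 else 0 := by
      rw [List.count_cons]
      congr 1
      by_cases h : x = a <;> simp [h]
    rw [h4]
    exact h

end

end Pool.Agent.Lib.IXB.Factor
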