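import Pool.Agent.Lib.IXB.FlagReg
import Pool.Agent.Lib.IXB.Factor

/-!
# The annotated words and the number of their marks
-/

set_option autoImplicit false

namespace Pool.Agent.Lib.IXB.Flag

open Mark

section
variable {T : Type} (α β : T → Bool)

/-- marks after the letters of one kind and before the letters of another kind -/
def Jp (x y : T) : Bool := α x || β y

theorem jp_j [DecidableEq T] (x y : T) : (j (Jp α β) x y).count none = if α x || β y then 1 else 0 := by
  unfold j Jp
  cases α x <;> cases β y <;> simp

theorem jp_mkc [DecidableEq T] (f x : T) (u : List T) :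
    u.countP β + (if β f then 1 else 0) ≤ (mkc (Jp α β) f x u).count none ∧
      (mkc (Jp α β) f x u).count none ≤ u.countP β + (if β f then 1 else 0) + (x :: u).countP α := by
  induction u generalizing x with
  | nil =>
    show _ ≤ (j (Jp α β) x f).count none ∧ (j (Jp α β) x f).count none ≤ _
    rw [jp_j]
    cases h1 : α x <;> cases h2 : β f <;> simp [h1]
  | cons t u ih =>
    obtain ⟨h1, h2⟩ := ih t
    have h3 : mkc (Jp α β) f x (t :: u) = j (Jp α β) x t ++ some t :: mkc (Jp α β) f t u := rfl
    have h8 : (some t :: mkc (Jp α β) f t u).count none = (mkc (Jp α β) f t u).count none :=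
      List.count_cons_of_ne (by simp)
    rw [h3, List.count_append, jp_j, h8, List.countP_cons (p := β), List.countP_cons (p := α)]
    cases h6 : α x <;> cases h7 : β t <;> simp only [Bool.or_self, Bool.or_true, Bool.or_false, Bool.false_eq_true,
      if_true, if_false] <;> omega

theorem jp_cmk [DecidableEq T] (X : List T) : X.countP β ≤ (cmk (Jp α β) X).count none ∧
    (cmk (Jp α β) X).count none ≤ X.countP β + X.countP α := by
  cases X with
  | nil => simp [cmk, lin, cl]
  | cons x u =>
    have h8 : (some x :: mkc (Jp α β) x x u).count none = (mkc (Jp α β) x x u).count none :=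
      List.count_cons_of_ne (by simp)
    rw [cmk_cons, h8, List.countP_cons (p := β)]
    exact jp_mkc α β x x u

end

theorem rot_split {T : Type} {u v : List T} (h : u ~r v) : ∃ x y : List T, u = x ++ y ∧ v = y ++ x := by
  obtain ⟨n, hn, h1⟩ := List.isRotated_iff_mod.1 h
  rw [List.rotate_eq_drop_append_take hn] at h1
  exact ⟨u.take n, u.drop n, (List.take_append_drop n u).symm, h1.symm⟩

variable {A S : Type} [Monoid S] (g : A → S) (good : S → Prop)

theorem cf_rot {u v : List A} (h : u ~r v) : cf g good u ~r cf g good v := by
  obtain ⟨x, y, rfl, rfl⟩ := rot_split h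
  obtain ⟨X, Y, -, -, h1, h2⟩ := cf_swap g good x y
  rw [h1, h2]
  exact List.isRotated_append

/-- the annotated word -/
noncomputable def ann (u : List A) : List (A × Bool × Bool) := u.zip ((cf g good u).zip (cf g good u.reverse).reverse)

theorem ann_fst (u : List A) : (ann g good u).map Prod.fst = u := by
  unfold ann
  rw [List.map_fst_zip]
  rw [List.length_zip, cf_length, List.length_reverse, cf_length, List.length_reverse]
  omega

theorem ann_snd (u : List A) : (ann g good u).map Prod.snd = (cf g good u).zip (cf g good u.reverse).reverse := by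
  unfold ann
  rw [List.map_snd_zip]
  rw [List.length_zip, cf_length, List.length_reverse, cf_length, List.length_reverse]
  omega

theorem ann_p (u : List A) : (ann g good u).map (fun t => t.2.1) = cf g good u := by
  have h : (ann g good u).map (fun t => t.2.1) = ((ann g good u).map Prod.snd).map Prod.fst := by
    rw [List.map_map]
    rfl
  rw [h, ann_snd, List.map_fst_zip]
  rw [cf_length, List.length_reverse, cf_length, List.length_reverse]

theorem ann_q (u : List A) : (ann g good u).map (fun t => t.2.2) = (cf g good u.reverse).reverse := by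
  have h : (ann g good u).map (fun t => t.2.2) = ((ann g good u).map Prod.snd).map Prod.snd := by
    rw [List.map_map]
    rfl
  rw [h, ann_snd, List.map_snd_zip]
  rw [cf_length, List.length_reverse, cf_length, List.length_reverse]

theorem ann_rot {u v : List A} (h : u ~r v) : ann g good u ~r ann g good v := by
  obtain ⟨x, y, rfl, rfl⟩ := rot_split h
  obtain ⟨X, Y, hX, hY, h1, h2⟩ := cf_swap g good x y
  obtain ⟨X', Y', hX', hY', h1', h2'⟩ := cf_swap g good y.reverse x.reverse
  rw [List.length_reverse] at hX' hY'
  have z1 : (X ++ Y).zip (Y'.reverse ++ X'.reverse) = X.zip Y'.reverse ++ Y.zip X'.reverse :=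
    List.zip_append (by rw [hX, List.length_reverse, hY'])
  have z2 : (Y ++ X).zip (X'.reverse ++ Y'.reverse) = Y.zip X'.reverse ++ X.zip Y'.reverse :=
    List.zip_append (by rw [hY, List.length_reverse, hX'])
  have z3 : (x ++ y).zip (X.zip Y'.reverse ++ Y.zip X'.reverse) = x.zip (X.zip Y'.reverse) ++ y.zip (Y.zip X'.reverse) :=
    List.zip_append (by rw [List.length_zip, hX, List.length_reverse, hY']; omega)
  have z4 : (y ++ x).zip (Y.zip X'.reverse ++ X.zip Y'.reverse) = y.zip (Y.zip X'.reverse) ++ x.zip (X.zip Y'.reverse) :=
    List.zip_append (by rw [List.length_zip, hY, List.length_reverse, hX']; omega)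
  unfold ann
  rw [h1, h2, List.reverse_append, List.reverse_append, h1', h2', List.reverse_append, List.reverse_append, z1, z2, z3, z4]
  exact List.isRotated_append

/-- exchange of the flags -/
def sw (t : A × Bool × Bool) : A × Bool × Bool := (t.1, t.2.2, t.2.1)

theorem zip_sw (u : List A) (v w : List Bool) : (u.zip (v.zip w)).map sw = u.zip (w.zip v) := by
  induction u generalizing v w with
  | nil => simp
  | cons x u ih =>
    cases v with
    | nil => simp
    | cons y v =>
      cases w with
      | nil => simp
      | cons z w =>
        show (x, z, y) :: (u.zip (v.zip w)).map sw = (x, z, y) :: u.zip (w.zip v)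
        rw [ih]

theorem zip_reverse {B C : Type} {u : List B} {v : List C} (h : u.length = v.length) :
    (u.zip v).reverse = u.reverse.zip v.reverse := by
  rw [List.zip_eq_zipWith, List.zip_eq_zipWith, List.reverse_zipWith h]

theorem ann_th (u : List A) : th sw (ann g good u) = ann g good u.reverse := by
  unfold th ann
  rw [zip_sw, zip_reverse, zip_reverse, List.reverse_reverse, List.reverse_reverse]
  · rw [cf_length, List.length_reverse, cf_length, List.length_reverse]
  · rw [List.length_zip, cf_length, List.length_reverse, cf_length, List.length_reverse]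
    omega

theorem ann_iff (X : List (A × Bool × Bool)) : X = ann g good (X.map Prod.fst) ↔
    (X.map fun t => (t.1, t.2.1)) ∈ GP g good ∧ (X.map fun t => (t.1, t.2.2)) ∈ (GP g good).reverse := by
  have e1 : X = (X.map Prod.fst).zip ((X.map fun t => t.2.1).zip (X.map fun t => t.2.2)) := by
    rw [List.zip_map', List.zip_map']
    simp
  have e2 : (X.map fun t => (t.1, t.2.1)) ∈ GP g good ↔ (X.map fun t => t.2.1) = cf g good (X.map Prod.fst) := by
    show (X.map fun t => (t.1, t.2.1)).map Prod.snd = cf g good ((X.map fun t => (t.1, t.2.1)).map Prod.fst) ↔ _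
    rw [List.map_map, List.map_map]
    rfl
  have e3 : (X.map fun t => (t.1, t.2.2)) ∈ (GP g good).reverse ↔
      (X.map fun t => t.2.2) = (cf g good (X.map Prod.fst).reverse).reverse := by
    show (X.map fun t => (t.1, t.2.2)).reverse.map Prod.snd = cf g good ((X.map fun t => (t.1, t.2.2)).reverse.map Prod.fst) ↔ _
    rw [List.map_reverse, List.map_reverse, List.map_map, List.map_map, List.reverse_eq_iff]
    rfl
  rw [e2, e3]
  constructor
  · intro h
    refine ⟨?_, ?_⟩
    · conv_lhs => rw [h]
      exact ann_p g good _
    · conv_lhs => rw [h]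
      exact ann_q g good _
  · rintro ⟨h1, h2⟩
    unfold ann
    rw [← h1, ← h2]
    exact e1

/-- the annotated words over a regular language are a regular language -/
def AR (R : Language A) : Language (A × Bool × Bool) :=
  ({X | (X.map fun t => (t.1, t.2.1)) ∈ GP g good} : Language (A × Bool × Bool)) ⊓
    (({X | (X.map fun t => (t.1, t.2.2)) ∈ (GP g good).reverse} : Language (A × Bool × Bool)) ⊓
      ({X | (X.map Prod.fst) ∈ R} : Language (A × Bool × Bool)))

theorem ar_regular [Finite S] {R : Language A} (hR : R.IsRegular) : (AR g good R).IsRegular :=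
  (Factor.comap_regular _ (gp_regular g good)).inf ((Factor.comap_regular _ (gp_regular g good).reverse).inf
    (Factor.comap_regular _ hR))

theorem ar_iff {R : Language A} {X : List (A × Bool × Bool)} : X ∈ AR g good R ↔
    X = ann g good (X.map Prod.fst) ∧ X.map Prod.fst ∈ R := by
  rw [ann_iff]
  constructor
  · rintro ⟨h1, h2, h3⟩
    exact ⟨⟨h1, h2⟩, h3⟩
  · rintro ⟨⟨h1, h2⟩, h3⟩
    exact ⟨h1, h2, h3⟩

end Pool.Agent.Lib.IXB.Flag
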