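import Mathlib

/-!
# A block code which reflects rotations
-/

set_option autoImplicit false

namespace Pool.Agent.Lib.IXB.Decode

theorem fm_len {A B : Type} {f : A → List B} {L : ℕ} (hl : ∀ a, (f a).length = L) (x : List A) :
    (x.flatMap f).length = x.length * L := by
  induction x with
  | nil => simp
  | cons a x ih =>
    rw [List.flatMap_cons, List.length_append, ih, hl, List.length_cons]
    ring

theorem fm_getD {A B : Type} {f : A → List B} {L : ℕ} (hL : 0 < L) (hl : ∀ a, (f a).length = L) (x : List A) (a₀ : A) (b₀ : B)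
    (i : ℕ) (hi : i < x.length * L) : (x.flatMap f).getD i b₀ = (f (x.getD (i / L) a₀)).getD (i % L) b₀ := by
  induction x generalizing i with
  | nil => simp at hi
  | cons a x ih =>
    rw [List.flatMap_cons]
    rcases Nat.lt_or_ge i L with h | h
    · rw [List.getD_append _ _ _ _ (by rw [hl]; exact h), Nat.div_eq_of_lt h, Nat.mod_eq_of_lt h]
      rfl
    · obtain ⟨i', rfl⟩ := Nat.exists_eq_add_of_le h
      rw [List.getD_append_right _ _ _ _ (by rw [hl]; exact h), hl, Nat.add_sub_cancel_left, Nat.add_mod_left,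
        Nat.add_div_left _ hL]
      have h2 : i' < x.length * L := by
        rw [List.length_cons, Nat.succ_mul] at hi
        omega
      rw [ih i' h2]
      rfl

/-- the letters of the pattern `0^M 1 c 1 0^M` -/
def wl (M : ℕ) (c : Bool) (m : ℕ) : Bool := decide (m = M) || (decide (m = M + 1) && c) || decide (m = M + 2)

/-- the pattern `0^M 1 c 1 0^M` -/
def pat (M : ℕ) (c : Bool) : List Bool := (List.range (2 * M + 3)).map (wl M c)

theorem pat_len (M : ℕ) (c : Bool) : (pat M c).length = 2 * M + 3 := by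
  unfold pat
  rw [List.length_map, List.length_range]

theorem pat_get (M : ℕ) (c : Bool) (i : ℕ) (h : i < (pat M c).length) : (pat M c)[i] = wl M c i := by
  have aux : ∀ h : i < ((List.range (2 * M + 3)).map (wl M c)).length, ((List.range (2 * M + 3)).map (wl M c))[i] = wl M c i := by
    intro h
    rw [List.getElem_map, List.getElem_range]
  exact aux h

theorem pat_rev (M : ℕ) (c : Bool) : (pat M c).reverse = pat M c := by
  apply List.ext_getElem
  · rw [List.length_reverse]
  · intro i h1 h2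
    rw [List.getElem_reverse, pat_get, pat_get, pat_len]
    rw [pat_len] at h2
    unfold wl
    have e1 : (2 * M + 3 - 1 - i = M) ↔ (i = M + 2) := by omega
    have e2 : (2 * M + 3 - 1 - i = M + 1) ↔ (i = M + 1) := by omega
    have e3 : (2 * M + 3 - 1 - i = M + 2) ↔ (i = M) := by omega
    simp only [e1, e2, e3]
    cases decide (i = M) <;> cases decide (i = M + 1) <;> cases decide (i = M + 2) <;> cases c <;> rfl

theorem pat_getD (M : ℕ) (c : Bool) (m : ℕ) (hm : m < 2 * M + 3) : (pat M c).getD m false = wl M c m := by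
  unfold pat
  rw [List.getD_eq_getElem _ _ (by rw [List.length_map, List.length_range]; exact hm), List.getElem_map, List.getElem_range]

theorem wl_lt {M m : ℕ} (c : Bool) (h : m < M) : wl M c m = false := by
  unfold wl
  rw [decide_eq_false (by omega), decide_eq_false (by omega), decide_eq_false (by omega)]
  rfl

theorem wl_gt {M m : ℕ} (c : Bool) (h : M + 2 < m) : wl M c m = false := by
  unfold wl
  rw [decide_eq_false (by omega), decide_eq_false (by omega), decide_eq_false (by omega)]
  rfl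

theorem wl_eq (M : ℕ) (c : Bool) : wl M c M = true := by
  unfold wl
  rw [decide_eq_true rfl]
  rfl

theorem wl_mid (M : ℕ) (c : Bool) : wl M c (M + 1) = c := by
  unfold wl
  rw [decide_eq_false (by omega), decide_eq_true rfl, decide_eq_false (by omega)]
  cases c <;> rfl

theorem succ_mod {K k : ℕ} (h : k % K + 1 < K) : (k + 1) % K = k % K + 1 ∧ (k + 1) / K = k / K := by
  have h1 := Nat.div_add_mod k K
  have h2 : k + 1 = K * (k / K) + (k % K + 1) := by omega
  constructor
  · conv_lhs => rw [h2]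
    rw [Nat.mul_add_mod, Nat.mod_eq_of_lt h]
  · conv_lhs => rw [h2]
    rw [Nat.mul_add_div (by omega), Nat.div_eq_of_lt h, add_zero]

theorem succ_mod' {K k : ℕ} (h : k % K + 1 = K) : (k + 1) % K = 0 := by
  have h1 := Nat.div_add_mod k K
  have h2 : k + 1 = K * (k / K) + K := by omega
  rw [h2, Nat.mul_add_mod, Nat.mod_self]

section
variable (B : Bool → List Bool) (M L : ℕ) (w : List Bool)

/-- the block letters of the coded periodic word -/
def cc (k : ℕ) : Bool := wl M (w.getD ((k / (2 * M + 3)) % w.length) false) (k % (2 * M + 3))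

/-- the coded periodic word -/
def uu (i : ℕ) : Bool := (B (cc M w (i / L))).getD (i % L) false

/-- the coded word -/
def hh : List Bool := (w.flatMap (pat M)).flatMap B

theorem hh_len (hl : ∀ c, (B c).length = L) : (hh B M w).length = w.length * (2 * M + 3) * L := by
  unfold hh
  rw [fm_len hl, fm_len (pat_len M)]

theorem hh_uu (hL : 0 < L) (hl : ∀ c, (B c).length = L) (hw : w ≠ []) (i : ℕ) :
    (hh B M w).getD (i % (w.length * (2 * M + 3) * L)) false = uu B M L w i := by
  have hn : 0 < w.length := List.length_pos_iff.2 hw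
  have hK : 0 < w.length * (2 * M + 3) := Nat.mul_pos hn (by omega)
  unfold hh uu cc
  rw [fm_getD hL hl _ false false _ (by
    rw [fm_len (pat_len M)]
    exact Nat.mod_lt _ (Nat.mul_pos hK hL)), Nat.mod_mul_left_div_self, Nat.mod_mul_left_mod]
  rw [fm_getD (by omega) (pat_len M) w false false _ (Nat.mod_lt _ hK), Nat.mod_mul_left_div_self, Nat.mod_mul_left_mod,
    pat_getD _ _ _ (Nat.mod_lt _ (by omega))]

theorem cc_change (hM : 3 ≤ M) {k : ℕ} (h : cc M w k ≠ cc M w (k + 1)) : M ≤ k % (2 * M + 3) + 1 ∧ k % (2 * M + 3) ≤ M + 2 := by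
  have hlt := Nat.mod_lt k (show 0 < 2 * M + 3 by omega)
  by_contra hc
  apply h
  unfold cc
  rcases Nat.lt_or_ge (k % (2 * M + 3) + 1) M with h1 | h1
  · rw [wl_lt _ (by omega), (succ_mod (by omega)).1, wl_lt _ h1]
  · have h2 : M + 2 < k % (2 * M + 3) := by omega
    rw [wl_gt _ h2]
    rcases Nat.lt_or_ge (k % (2 * M + 3) + 1) (2 * M + 3) with h3 | h3
    · rw [(succ_mod h3).1, wl_gt _ (by omega)]
    · rw [succ_mod' (by omega), wl_lt _ (by omega)]

theorem cc_first (hM : 3 ≤ M) {k : ℕ} (h : k % (2 * M + 3) = M - 1) : cc M w k ≠ cc M w (k + 1) := by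
  unfold cc
  rw [(succ_mod (by omega)).1, h, wl_lt _ (by omega)]
  have e : M - 1 + 1 = M := by omega
  rw [e, wl_eq]
  exact Bool.false_ne_true

/-- the two code words differ at `r` -/
def df (r : ℕ) : Prop := (B false).getD r false ≠ (B true).getD r false

theorem uu_ne (hL : 0 < L) (i : ℕ) : uu B M L w i ≠ uu B M L w (i + L) ↔
    cc M w (i / L) ≠ cc M w (i / L + 1) ∧ df B (i % L) := by
  unfold uu df
  rw [Nat.add_mod_right, Nat.add_div_right _ hL]
  cases cc M w (i / L) <;> cases cc M w (i / L + 1) <;> simp [eq_comm]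

/-- the first mismatch after a long gap -/
def Sg (z : ℕ) : Prop := uu B M L w (z + 4 * L) ≠ uu B M L w (z + 4 * L + L) ∧
  ∀ y < 4 * L, uu B M L w (z + y) = uu B M L w (z + y + L)

theorem sg_mod (hM : 3 ≤ M) (hL : 0 < L) {r₀ : ℕ} (hr : r₀ < L) (h0 : df B r₀) (hmin : ∀ r, df B r → r₀ ≤ r) {z : ℕ}
    (h : Sg B M L w z) : (z + 4 * L) % ((2 * M + 3) * L) = (M - 1) * L + r₀ := by
  obtain ⟨h1, h2⟩ := h
  obtain ⟨h3, h4⟩ := (uu_ne B M L w hL _).1 h1
  obtain ⟨h5, h6⟩ := cc_change M w hM h3
  set i := z + 4 * L with hi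
  set k := i / L with hk
  obtain ⟨e, he, he3⟩ : ∃ e, k % (2 * M + 3) = M - 1 + e ∧ e ≤ 3 := ⟨k % (2 * M + 3) - (M - 1), by omega, by omega⟩
  have h7 := Nat.div_add_mod k (2 * M + 3)
  have h8 : L * k + i % L = i := Nat.div_add_mod i L
  have h9 := Nat.mod_lt i hL
  have h10 := hmin _ h4
  set a := (2 * M + 3) * (k / (2 * M + 3)) with ha
  have h11 : i = (a + (M - 1)) * L + e * L + i % L := by
    have h12 : L * k = (a + (M - 1)) * L + e * L := by
      rw [← h7, he]
      ring
    omega
  have h13 : e * L ≤ 3 * L := Nat.mul_le_mul_right _ he3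
  have h14 : i = (a + (M - 1)) * L + r₀ := by
    by_contra hne
    have h15 : (a + (M - 1)) * L + r₀ < i := by omega
    obtain ⟨y, hy⟩ : ∃ y, (a + (M - 1)) * L + r₀ = z + y := ⟨(a + (M - 1)) * L + r₀ - z, by omega⟩
    have h16 := h2 y (by omega)
    rw [← hy] at h16
    have h17 : ((a + (M - 1)) * L + r₀) / L = a + (M - 1) := by
      rw [mul_comm, Nat.mul_add_div hL, Nat.div_eq_of_lt hr, add_zero]
    have h18 : ((a + (M - 1)) * L + r₀) % L = r₀ := by
      rw [mul_comm, Nat.mul_add_mod, Nat.mod_eq_of_lt hr]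
    refine (uu_ne B M L w hL _).2 ⟨?_, ?_⟩ h16
    · rw [h17]
      refine cc_first M w hM ?_
      rw [ha, Nat.mul_add_mod, Nat.mod_eq_of_lt (by omega)]
    · rw [h18]
      exact h0
  rw [h14]
  have h19 : (a + (M - 1)) * L + r₀ = (2 * M + 3) * L * (k / (2 * M + 3)) + ((M - 1) * L + r₀) := by
    rw [ha]
    ring
  rw [h19, Nat.mul_add_mod, Nat.mod_eq_of_lt]
  have h20 : (M - 1 + 1) * L ≤ (2 * M + 3) * L := Nat.mul_le_mul_right _ (by omega)
  rw [Nat.succ_mul] at h20
  omega

theorem sg_ex (hM : 3 ≤ M) (hL : 0 < L) {r₀ : ℕ} (hr : r₀ < L) (h0 : df B r₀) (hmin : ∀ r, df B r → r₀ ≤ r) :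
    ∃ z, Sg B M L w z := by
  refine ⟨(3 * M - 2) * L + r₀, ?_, ?_⟩
  · have e1 : (3 * M - 2) * L + r₀ + 4 * L = (3 * M + 2) * L + r₀ := by
      have : (3 * M + 2) * L = (3 * M - 2) * L + 4 * L := by
        rw [← add_mul]
        congr 1
        omega
      omega
    rw [e1]
    refine (uu_ne B M L w hL _).2 ⟨?_, ?_⟩
    · rw [mul_comm, Nat.mul_add_div hL, Nat.div_eq_of_lt hr, add_zero]
      refine cc_first M w hM ?_
      have e2 : 3 * M + 2 = (2 * M + 3) + (M - 1) := by omega
      rw [e2, Nat.add_mod_left, Nat.mod_eq_of_lt (by omega)]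
    · rw [mul_comm, Nat.mul_add_mod, Nat.mod_eq_of_lt hr]
      exact h0
  · intro y hy
    by_contra hne
    obtain ⟨h1, h2⟩ := (uu_ne B M L w hL _).1 hne
    obtain ⟨h3, h4⟩ := cc_change M w hM h1
    set i := (3 * M - 2) * L + r₀ + y with hi
    have h5 := hmin _ h2
    have h6 := Nat.div_add_mod i L
    have h7 := Nat.mod_lt i hL
    have h8 : 3 * M - 2 ≤ i / L := by
      rw [Nat.le_div_iff_mul_le hL]
      omega
    have h9 : i / L < 3 * M + 2 := by
      by_contra hc
      have h10 : (3 * M + 2) * L ≤ L * (i / L) := by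
        rw [mul_comm]
        exact Nat.mul_le_mul_left _ (by omega)
      have h11 : (3 * M + 2) * L = (3 * M - 2) * L + 4 * L := by
        rw [← add_mul]
        congr 1
        omega
      omega
    rcases Nat.lt_or_ge (i / L) (2 * M + 3) with h10 | h10
    · rw [Nat.mod_eq_of_lt h10] at h3 h4
      omega
    · obtain ⟨q, hq⟩ := Nat.exists_eq_add_of_le h10
      rw [hq, Nat.add_mod_left, Nat.mod_eq_of_lt (by omega)] at h3 h4
      omega

end

/-- rotations of coded words come from rotations -/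
theorem dec_rot {B : Bool → List Bool} {M L : ℕ} (hM : 3 ≤ M) (hl : ∀ c, (B c).length = L) (hne : B false ≠ B true)
    {w w' : List Bool} (h : hh B M w ~r hh B M w') : w ~r w' := by
  have hL : 0 < L := by
    by_contra hc
    apply hne
    rw [List.eq_nil_of_length_eq_zero (by rw [hl]; omega : (B false).length = 0),
      List.eq_nil_of_length_eq_zero (by rw [hl]; omega : (B true).length = 0)]
  have hlen : w'.length = w.length := by
    have h1 := h.perm.length_eq
    rw [hh_len B M L w hl, hh_len B M L w' hl] at h1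
    exact (Nat.eq_of_mul_eq_mul_right (by omega) (Nat.eq_of_mul_eq_mul_right hL h1)).symm
  rcases List.eq_nil_or_concat w with rfl | ⟨_, _, hw⟩
  · rw [List.length_nil, List.length_eq_zero_iff] at hlen
    rw [hlen]
  have hwn : w ≠ [] := by
    rw [hw]
    simp
  clear hw
  have hwn' : w' ≠ [] := by
    intro h1
    rw [h1, List.length_nil] at hlen
    exact hwn (List.length_eq_zero_iff.1 hlen.symm)
  have hn : 0 < w.length := List.length_pos_iff.2 hwn
  -- the least place where the code words differ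
  obtain ⟨r₁, hr₁⟩ : ∃ r, df B r := by
    by_contra hc
    push Not at hc
    apply hne
    apply List.ext_getElem
    · rw [hl, hl]
    · intro i h1 h2
      have h3 := hc i
      unfold df at h3
      rw [not_not, List.getD_eq_getElem _ _ h1, List.getD_eq_getElem _ _ h2] at h3
      exact h3
  classical
  obtain ⟨r₀, h0, hmin⟩ : ∃ r₀, df B r₀ ∧ ∀ r, df B r → r₀ ≤ r :=
    ⟨Nat.find ⟨r₁, hr₁⟩, Nat.find_spec ⟨r₁, hr₁⟩, fun r hr => Nat.find_min' ⟨r₁, hr₁⟩ hr⟩
  have hr : r₀ < L := by
    by_contra hc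
    apply h0
    rw [List.getD_eq_default _ _ (by rw [hl]; omega), List.getD_eq_default _ _ (by rw [hl]; omega)]
  obtain ⟨t, ht⟩ := h
  have hN : 0 < w.length * (2 * M + 3) * L := Nat.mul_pos (Nat.mul_pos hn (by omega)) hL
  have key : ∀ i, uu B M L w' i = uu B M L w (i + t) := by
    intro i
    rw [← hh_uu B M L w' hL hl hwn', ← hh_uu B M L w hL hl hwn, hlen, ← ht]
    have h1 : i % (w.length * (2 * M + 3) * L) < ((hh B M w).rotate t).length := by
      rw [List.length_rotate, hh_len B M L w hl]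
      exact Nat.mod_lt _ hN
    have h2 : (i + t) % (w.length * (2 * M + 3) * L) < (hh B M w).length := by
      rw [hh_len B M L w hl]
      exact Nat.mod_lt _ hN
    rw [List.getD_eq_getElem _ _ h1, List.getD_eq_getElem _ _ h2, List.getElem_rotate]
    congr 1
    rw [hh_len B M L w hl, Nat.mod_add_mod]
  obtain ⟨z, hz⟩ := sg_ex B M L w' hM hL hr h0 hmin
  have hz' : Sg B M L w (z + t) := by
    obtain ⟨h1, h2⟩ := hz
    rw [key, key] at h1
    have e1 : z + t + 4 * L = z + 4 * L + t := by ring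
    have e2 : z + 4 * L + t + L = z + 4 * L + L + t := by ring
    refine ⟨by rw [e1, e2]; exact h1, fun y hy => ?_⟩
    have h3 := h2 y hy
    rw [key, key] at h3
    have e3 : z + t + y = z + y + t := by ring
    have e4 : z + y + t + L = z + y + L + t := by ring
    rw [e3, e4]
    exact h3
  have h1 := sg_mod B M L w' hM hL hr h0 hmin hz
  have h2 := sg_mod B M L w hM hL hr h0 hmin hz'
  have h3 : t % ((2 * M + 3) * L) = 0 := by
    have h4 : z + 4 * L + t ≡ z + 4 * L + 0 [MOD (2 * M + 3) * L] := by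
      have e1 : z + t + 4 * L = z + 4 * L + t := by ring
      rw [e1] at h2
      show (z + 4 * L + t) % _ = (z + 4 * L) % _
      rw [h1, h2]
    exact Nat.ModEq.add_left_cancel' _ h4
  obtain ⟨t', rfl⟩ := Nat.dvd_of_mod_eq_zero h3
  refine ⟨t', ?_⟩
  apply List.ext_getElem
  · rw [List.length_rotate, hlen]
  · intro k h4 h5
    rw [List.getElem_rotate]
    have h6 := key ((2 * M + 3) * L * k + ((M + 1) * L + r₀))
    have a1 : ((M + 1) * L + r₀) / L = M + 1 := by
      rw [mul_comm, Nat.mul_add_div hL, Nat.div_eq_of_lt hr, add_zero]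
    have a2 : ((M + 1) * L + r₀) % L = r₀ := by
      rw [mul_comm, Nat.mul_add_mod, Nat.mod_eq_of_lt hr]
    have b1 : ∀ q : ℕ, ((2 * M + 3) * L * q + ((M + 1) * L + r₀)) / L = (2 * M + 3) * q + (M + 1) := by
      intro q
      have e : (2 * M + 3) * L * q + ((M + 1) * L + r₀) = L * ((2 * M + 3) * q) + ((M + 1) * L + r₀) := by ring
      rw [e, Nat.mul_add_div hL, a1]
    have b2 : ∀ q : ℕ, ((2 * M + 3) * L * q + ((M + 1) * L + r₀)) % L = r₀ := by
      intro q
      have e : (2 * M + 3) * L * q + ((M + 1) * L + r₀) = L * ((2 * M + 3) * q) + ((M + 1) * L + r₀) := by ring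
      rw [e, Nat.mul_add_mod, a2]
    have b3 : ∀ (q : ℕ) (v : List Bool), uu B M L v ((2 * M + 3) * L * q + ((M + 1) * L + r₀)) =
        (B (v.getD (q % v.length) false)).getD r₀ false := by
      intro q v
      unfold uu cc
      rw [b1, b2, Nat.mul_add_div (by omega), Nat.mul_add_mod, Nat.mod_eq_of_lt (by omega : M + 1 < 2 * M + 3),
        Nat.div_eq_of_lt (by omega : M + 1 < 2 * M + 3), add_zero, wl_mid]
    have e5 : (2 * M + 3) * L * k + ((M + 1) * L + r₀) + (2 * M + 3) * L * t' =
        (2 * M + 3) * L * (k + t') + ((M + 1) * L + r₀) := by ring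
    rw [e5, b3, b3] at h6
    have hk : k % w'.length = k := Nat.mod_eq_of_lt h5
    rw [hk, List.getD_eq_getElem _ _ h5, List.getD_eq_getElem _ _ (Nat.mod_lt _ hn)] at h6
    unfold df at h0
    cases h7 : w'[k] <;> cases h8 : w[(k + t') % w.length]'(Nat.mod_lt _ hn) <;> rw [h7, h8] at h6
    · exact absurd h6 h0
    · exact absurd h6.symm h0

end Pool.Agent.Lib.IXB.Decode
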