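import Pool.Agent.Lib.IXB.Half

/-!
# Regular languages whose words with unboundedly many powers have polynomial growth
-/

set_option autoImplicit false

namespace Pool.Agent.Lib.IXB.Flag

section
variable {A S : Type} [Monoid S] (g : A → S)

theorem ev_rep (u : List A) (k : ℕ) : ev g (List.replicate k u).flatten = ev g u ^ k := by
  induction k with
  | zero => rw [pow_zero]; rfl
  | succ k ih =>
    rw [List.replicate_succ, List.flatten_cons, ev_append, ih, pow_succ']

theorem pow_mul_succ {s : S} {j : ℕ} (h : s ^ (j + 1) = s) (t : ℕ) : s ^ (t * j + 1) = s := by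
  induction t with
  | zero => rw [Nat.zero_mul, zero_add, pow_one]
  | succ t ih =>
    have e : (t + 1) * j + 1 = (t * j + 1) + j := by ring
    rw [e, pow_add, ih, ← pow_succ']
    exact h

end

/-- the main theorem for a language recognised by a finite monoid -/
theorem rec_main {S : Type} [Monoid S] [Finite S] (g : Bool → S) (P : S → Prop) {C d : ℕ}
    (hg : ∀ n : ℕ, {u : List Bool | u ∈ LC ∧ P (ev g u) ∧ {k : ℕ | P (ev g u ^ k)}.Infinite ∧ u.length = n}.ncard ≤
      C * (n + 1) ^ d) :
    ∃ G : IG Bool, G.Unambiguous ∧ G.lang = {u : List Bool | u ∈ LC ∧ P (ev g u)} := by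
  classical
  obtain ⟨N, ⟨e⟩⟩ := Finite.exists_equiv_fin S
  have h0 : ∃ G : IG Bool, G.Unambiguous ∧ G.lang = (∅ : Set (List Bool)) := by
    obtain ⟨G, hG, hL⟩ := semi_all' (T := Bool) (k := 0) (fun _ => []) (S := ∅) IsSemilinearSet.empty
    exact ⟨G, hG, by rw [hL, Set.image_empty]⟩
  obtain ⟨G, hG, hL⟩ := Union.fin_union (fun i => {u : List Bool | u ∈ LC ∧ P (ev g u) ∧ (e (ev g u)).val = i})
    (fun i j hij => by
      rw [Set.disjoint_left]
      rintro v ⟨-, -, h1⟩ ⟨-, -, h2⟩
      exact hij (h1.symm.trans h2)) (fun i => by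
      by_cases hi : i < N
      · set s := e.symm ⟨i, hi⟩ with hs
        have h1 : ∀ u : List Bool, (e (ev g u)).val = i ↔ ev g u = s := by
          intro u
          rw [hs, Equiv.eq_symm_apply, Fin.ext_iff]
        by_cases hP : P s
        · have h2 : {u : List Bool | u ∈ LC ∧ P (ev g u) ∧ (e (ev g u)).val = i} = {u : List Bool | u ∈ LC ∧ ev g u = s} := by
            ext u
            constructor
            · rintro ⟨h3, -, h4⟩
              exact ⟨h3, (h1 u).1 h4⟩
            · rintro ⟨h3, h4⟩
              exact ⟨h3, by rw [h4]; exact hP, (h1 u).2 h4⟩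
          rw [h2]
          by_cases hgd : gd g s (s * s)
          · obtain ⟨a, b, hab⟩ := hgd
            obtain ⟨j, hj, hs'⟩ := pow_back hab.symm
            refine lc_unamb g s ⟨C, d, fun n => le_trans ?_ (hg n)⟩
            refine Set.ncard_le_ncard ?_ ((List.finite_length_eq Bool n).subset fun u hu => hu.2.2.2)
            rintro u ⟨⟨huc, hu'⟩, hn⟩
            refine ⟨huc, by rw [hu']; exact hP, ?_, hn⟩
            refine Set.infinite_of_injective_forall_mem (f := fun t : ℕ => t * j + 1) ?_ ?_
            · intro t t' ht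
              have ht' : t * j = t' * j := by
                simpa using ht
              exact Nat.eq_of_mul_eq_mul_right (by omega) ht'
            · intro t
              show P (ev g u ^ (t * j + 1))
              rw [hu', pow_mul_succ hs']
              exact hP
          · exact one_s g s hgd
        · have h2 : {u : List Bool | u ∈ LC ∧ P (ev g u) ∧ (e (ev g u)).val = i} = ∅ := by
            rw [Set.eq_empty_iff_forall_notMem]
            rintro u ⟨-, h3, h4⟩
            rw [(h1 u).1 h4] at h3
            exact hP h3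
          rw [h2]
          exact h0
      · have h2 : {u : List Bool | u ∈ LC ∧ P (ev g u) ∧ (e (ev g u)).val = i} = ∅ := by
          rw [Set.eq_empty_iff_forall_notMem]
          rintro u ⟨-, -, h4⟩
          have h5 := (e (ev g u)).2
          omega
        rw [h2]
        exact h0) N
  refine ⟨G, hG, hL.trans ?_⟩
  ext u
  constructor
  · rintro ⟨i, -, h1, h2, -⟩
    exact ⟨h1, h2⟩
  · rintro ⟨h1, h2⟩
    exact ⟨_, (e (ev g u)).2.le, h1, h2, rfl⟩

/-- the main theorem -/
theorem pow_main (R : Language Bool) (hR : R.IsRegular) {C d : ℕ}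
    (hg : ∀ n : ℕ, {u : List Bool | u ∈ LC ∧ u ∈ R ∧ {k : ℕ | (List.replicate k u).flatten ∈ R}.Infinite ∧
      u.length = n}.ncard ≤ C * (n + 1) ^ d) :
    ∃ G : IG Bool, G.Unambiguous ∧ G.lang = {u : List Bool | u ∈ LC ∧ u ∈ R} := by
  obtain ⟨Q, _, M, rfl⟩ := hR
  let g : Bool → (Function.End Q)ᵐᵒᵖ := fun c => MulOpposite.op (fun q => M.step q c)
  have h1 : ∀ (u : List Bool) (q : Q), M.evalFrom q u = (ev g u).unop q := by
    intro u
    induction u with
    | nil => intro q; rfl
    | cons c u ih =>
      intro q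
      have h2 : M.evalFrom q (c :: u) = M.evalFrom (M.step q c) u := rfl
      rw [h2, ih, ev_cons]
      rfl
  have : Finite (Function.End Q)ᵐᵒᵖ := by
    have h3 : Finite (Q → Q) := inferInstance
    exact Finite.of_equiv (Q → Q) (MulOpposite.opEquiv (α := Function.End Q))
  have h4 : ∀ u : List Bool, u ∈ M.accepts ↔ (ev g u).unop M.start ∈ M.accept := by
    intro u
    rw [← h1]
    rfl
  obtain ⟨G, hG, hL⟩ := rec_main g (fun s => s.unop M.start ∈ M.accept) (C := C) (d := d) (fun n => by
    refine le_trans (le_of_eq ?_) (hg n)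
    congr 1
    ext u
    have h5 : {k : ℕ | (List.replicate k u).flatten ∈ M.accepts} = {k : ℕ | ((ev g u) ^ k).unop M.start ∈ M.accept} := by
      ext k
      have h6 := h4 (List.replicate k u).flatten
      rw [ev_rep] at h6
      exact h6
    show (_ ∧ _ ∧ _ ∧ _) ↔ (_ ∧ _ ∧ _ ∧ _)
    rw [h5, h4])
  refine ⟨G, hG, hL.trans ?_⟩
  ext u
  show (_ ∧ _) ↔ (_ ∧ _)
  rw [h4]

end Pool.Agent.Lib.IXB.Flag
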