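import Pool.Agent.Lib.IXB.Half
import Pool.Agent.Lib.IXB.Pow
import Pool.Agent.Lib.IXB.Decode

/-!
# Blocks with symmetric words
-/

set_option autoImplicit false

namespace Pool.Agent.Lib.IXB.Flag

open Decode

theorem conj_rot {T : Type} (m : ℕ) : ∀ X Y Z : List T, Z.length ≤ m → X ++ Z = Z ++ Y → X ~r Y := by
  induction m with
  | zero =>
    intro X Y Z hZ h
    have h1 : Z = [] := List.eq_nil_of_length_eq_zero (by omega)
    rw [h1, List.append_nil, List.nil_append] at h
    rw [h]
  | succ m ih =>
    intro X Y Z hZ h
    have hl := congrArg List.length h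
    rw [List.length_append, List.length_append] at hl
    rcases Nat.lt_or_ge X.length Z.length with h1 | h1
    · rcases List.eq_nil_or_concat X with rfl | ⟨_, _, hX⟩
      · have h2 : Y = [] := List.eq_nil_of_length_eq_zero (by rw [List.length_nil] at hl; omega)
        rw [h2]
      · have hX1 : 1 ≤ X.length := by
          rw [hX]
          simp
        obtain ⟨Z', hZ'⟩ := List.prefix_of_prefix_length_le (List.prefix_append X Z) (h ▸ List.prefix_append Z Y) h1.le
        have h3 : Z = Z' ++ Y := by
          have h4 : X ++ Z = X ++ (Z' ++ Y) := by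
            rw [h, ← List.append_assoc, hZ']
          exact List.append_cancel_left h4
        have h5 : X ++ Z' = Z' ++ Y := hZ'.trans h3
        refine ih X Y Z' ?_ h5
        rw [← hZ', List.length_append] at hZ
        omega
    · obtain ⟨W, hW⟩ := List.prefix_of_prefix_length_le (h ▸ List.prefix_append Z Y : Z <+: X ++ Z) (List.prefix_append X Z) h1
      have h2 : Y = W ++ Z := by
        have h3 : Z ++ Y = Z ++ (W ++ Z) := by
          rw [← h, ← List.append_assoc, hW]
        exact List.append_cancel_left h3
      rw [← hW, h2]
      exact List.isRotated_append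

section
variable (B : Bool → List Bool)

theorem pal_fm {V : Bool → List Bool} (hV : ∀ c, (V c).reverse = V c) (w : List Bool) :
    (w.flatMap V).reverse = w.reverse.flatMap V := by
  induction w with
  | nil => rfl
  | cons c w ih =>
    rw [List.flatMap_cons, List.reverse_append, ih, List.reverse_cons, List.flatMap_append, List.flatMap_singleton, hV]

theorem rev_left {P : Bool → List Bool} {Z : List Bool} (hP : ∀ c, (P c).reverse = P c) (hZ : Z.reverse = Z) (w : List Bool) :
    (w.flatMap fun c => P c ++ Z).reverse ~r w.reverse.flatMap fun c => P c ++ Z := by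
  have h : ∀ w : List Bool, (w.flatMap fun c => P c ++ Z).reverse ++ Z = Z ++ w.reverse.flatMap fun c => P c ++ Z := by
    intro w
    induction w with
    | nil => simp
    | cons c w ih =>
      rw [List.flatMap_cons, List.reverse_append, List.reverse_append, hP, hZ, List.reverse_cons, List.flatMap_append,
        List.flatMap_singleton, ← List.append_assoc Z, ← ih]
      simp only [List.append_assoc]
  exact conj_rot _ _ _ Z le_rfl (h w)

theorem rev_right {P : Bool → List Bool} {Z : List Bool} (hP : ∀ c, (P c).reverse = P c) (hZ : Z.reverse = Z) (w : List Bool) :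
    (w.flatMap fun c => Z ++ P c).reverse ~r w.reverse.flatMap fun c => Z ++ P c := by
  have h : ∀ w : List Bool, (w.reverse.flatMap fun c => Z ++ P c) ++ Z = Z ++ (w.flatMap fun c => Z ++ P c).reverse := by
    intro w
    induction w with
    | nil => simp
    | cons c w ih =>
      rw [List.flatMap_cons, List.reverse_append, List.reverse_append, hP, hZ, List.reverse_cons, List.flatMap_append,
        List.flatMap_singleton, ← List.append_assoc Z, ← ih]
      simp only [List.append_assoc]
  exact (conj_rot _ _ _ Z le_rfl (h w)).symm

theorem fm_inj {L : ℕ} (hl : ∀ c, (B c).length = L) (hne : B false ≠ B true) : ∀ x y : List Bool, x.length = y.length →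
    x.flatMap B = y.flatMap B → x = y := by
  intro x
  induction x with
  | nil =>
    intro y hy _
    exact (List.eq_nil_of_length_eq_zero hy.symm).symm
  | cons c x ih =>
    intro y hy h
    cases y with
    | nil => simp at hy
    | cons d y =>
      rw [List.flatMap_cons, List.flatMap_cons] at h
      obtain ⟨h1, h2⟩ := List.append_inj h (by rw [hl, hl])
      have h3 : c = d := by
        cases c <;> cases d
        · rfl
        · exact (hne h1).elim
        · exact (hne h1.symm).elim
        · rfl
      rw [h3, ih y (by simpa using hy) h2]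

theorem rot_fm {u v : List Bool} (h : u ~r v) : u.flatMap B ~r v.flatMap B := by
  obtain ⟨x, y, rfl, rfl⟩ := rot_split h
  rw [List.flatMap_append, List.flatMap_append]
  exact List.isRotated_append

variable {S : Type} [Monoid S] (g : Bool → S)

theorem ev_fm {s : S} (h : ∀ c, ev g (B c) = s) (x : List Bool) : ev g (x.flatMap B) = s ^ x.length := by
  induction x with
  | nil => rw [List.length_nil, pow_zero]; rfl
  | cons c x ih => rw [List.flatMap_cons, ev_append, h, ih, List.length_cons, pow_succ']

/-- two blocks of the same length and with value `s`, whose products are symmetric up to rotation -/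
def Blk (s : S) : Prop := ∃ (B : Bool → List Bool) (L : ℕ), (∀ c, (B c).length = L) ∧ B false ≠ B true ∧
  (∀ c, ev g (B c) = s) ∧ ∀ w : List Bool, (w.flatMap B).reverse ~r w.reverse.flatMap B

/-- palindromes of length `k` with a variable letter -/
def vp (k : ℕ) (c : Bool) : List Bool := (List.range k).map fun i => (decide (i = (k - 1) / 2) || decide (i = k / 2)) && c

theorem vp_len (k : ℕ) (c : Bool) : (vp k c).length = k := by
  unfold vp
  rw [List.length_map, List.length_range]

theorem vp_get (k : ℕ) (c : Bool) (i : ℕ) (h : i < (vp k c).length) :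
    (vp k c)[i] = ((decide (i = (k - 1) / 2) || decide (i = k / 2)) && c) := by
  have aux : ∀ h : i < ((List.range k).map fun i => (decide (i = (k - 1) / 2) || decide (i = k / 2)) && c).length,
      ((List.range k).map fun i => (decide (i = (k - 1) / 2) || decide (i = k / 2)) && c)[i] =
        ((decide (i = (k - 1) / 2) || decide (i = k / 2)) && c) := by
    intro h
    rw [List.getElem_map, List.getElem_range]
  exact aux h

theorem vp_rev (k : ℕ) (c : Bool) : (vp k c).reverse = vp k c := by
  apply List.ext_getElem
  · rw [List.length_reverse]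
  · intro i h1 h2
    rw [List.getElem_reverse, vp_get, vp_get, vp_len]
    rw [vp_len] at h2
    have e1 : (k - 1 - i = (k - 1) / 2) ↔ (i = k / 2) := by omega
    have e2 : (k - 1 - i = k / 2) ↔ (i = (k - 1) / 2) := by omega
    simp only [e1, e2]
    rw [Bool.or_comm]

theorem vp_ne {k : ℕ} (hk : 1 ≤ k) : vp k false ≠ vp k true := by
  intro h
  have h1 : k / 2 < (vp k false).length := by
    rw [vp_len]
    omega
  have h2 : k / 2 < (vp k true).length := by
    rw [vp_len]
    omega
  have h3 : (vp k false)[k / 2] = (vp k true)[k / 2] := by
    simp only [h]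
  rw [vp_get, vp_get] at h3
  simp at h3

theorem Blk.pow {s : S} (h : Blk g s) {k : ℕ} (hk : 1 ≤ k) : Blk g (s ^ k) := by
  obtain ⟨B, L, hl, hne, hs, hr⟩ := h
  refine ⟨fun c => (vp k c).flatMap B, k * L, fun c => ?_, ?_, fun c => ?_, fun w => ?_⟩
  · rw [fm_len hl, vp_len]
  · intro h
    exact vp_ne hk (fm_inj B hl hne _ _ (by rw [vp_len, vp_len]) h)
  · rw [ev_fm B g hs, vp_len]
  · rw [← List.flatMap_assoc, ← List.flatMap_assoc, ← pal_fm (vp_rev k) w]
    exact hr _

end

end Pool.Agent.Lib.IXB.Flag
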