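import Pool.Agent.Lib.IXB.TransMain

/-!
# Intersections with regular languages and inverse images of block codes
-/

set_option autoImplicit false

namespace Pool.Agent.Lib.IXB.Trans

/-- some unambiguous indexed grammar generates `L` -/
def Un {T : Type} (L : Set (List T)) : Prop := ∃ G : IG T, G.Unambiguous ∧ G.lang = L

theorem un_inter {T : Type} {L : Set (List T)} (h : Un L) {R : Language T} (hR : R.IsRegular) :
    Un {u : List T | u ∈ L ∧ u ∈ R} := by
  obtain ⟨G, hG, rfl⟩ := h
  obtain ⟨Q, _, M, rfl⟩ := hR
  have h1 : ∀ (u : List T) (p : Q), os M.step (fun _ t => [t]) p u = u := by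
    intro u
    induction u with
    | nil => exact fun p => rfl
    | cons t u ih =>
      intro p
      show [t] ++ os M.step (fun _ t => [t]) (M.step p t) u = t :: u
      rw [ih]
      rfl
  have h2 : ∀ (u : List T) (p : Q), ds M.step p u = M.evalFrom p u := by
    intro u
    induction u with
    | nil => exact fun p => rfl
    | cons t u ih => exact fun p => ih (M.step p t)
  obtain ⟨h3, h4⟩ := tg_main (dl := M.step) (ou := fun _ t => [t]) (q₀ := M.start) (Fi := M.accept) hG
    (fun u _ u' _ _ _ he => by rwa [h1, h1] at he)
  refine ⟨_, h3, h4.trans ?_⟩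
  ext w
  constructor
  · rintro ⟨u, hu, hf, rfl⟩
    rw [h1]
    rw [h2] at hf
    exact ⟨hu, hf⟩
  · rintro ⟨hu, hf⟩
    exact ⟨w, hu, by rw [h2]; exact hf, (h1 w _).symm⟩

section
variable (H : Bool → List Bool) (m : ℕ)

/-- decoding of one block -/
def dec (l : List Bool) : Option Bool := if l = H false then some false else if l = H true then some true else none

theorem dec_some {l : List Bool} {c : Bool} (h : dec H l = some c) : l = H c := by
  unfold dec at h
  split at h
  · cases h
    assumption
  · split at h
    · cases h
      assumption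
    · exact (Option.some_ne_none _ h.symm).elim

theorem dec_code (hne : H false ≠ H true) (c : Bool) : dec H (H c) = some c := by
  unfold dec
  cases c with
  | false => rw [if_pos rfl]
  | true => rw [if_neg (fun h => hne h.symm), if_pos rfl]

/-- the transition function of the decoder for blocks of length `m + 1` -/
def dd : Option {l : List Bool // l.length < m + 1} → Bool → Option {l : List Bool // l.length < m + 1}
  | none, _ => none
  | some l, t => if h : (l.1 ++ [t]).length < m + 1 then some ⟨l.1 ++ [t], h⟩ else
      if (dec H (l.1 ++ [t])).isSome then some ⟨[], Nat.succ_pos m⟩ else none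

/-- the output function of the decoder -/
def od : Option {l : List Bool // l.length < m + 1} → Bool → List Bool
  | none, _ => []
  | some l, t => if (l.1 ++ [t]).length < m + 1 then [] else (dec H (l.1 ++ [t])).toList

theorem dd_none (u : List Bool) : ds (dd H m) none u = none := by
  induction u with
  | nil => rfl
  | cons t u ih => exact ih

theorem dd_inv (u : List Bool) (l₀ l : {l : List Bool // l.length < m + 1}) (h : ds (dd H m) (some l₀) u = some l) :
    l₀.1 ++ u = (os (dd H m) (od H m) (some l₀) u).flatMap H ++ l.1 := by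
  induction u generalizing l₀ with
  | nil =>
    have h1 : some l₀ = some l := h
    rw [Option.some.inj h1]
    show l.1 ++ [] = [] ++ l.1
    simp
  | cons t u ih =>
    have h1 : ds (dd H m) (dd H m (some l₀) t) u = some l := h
    have h2 : os (dd H m) (od H m) (some l₀) (t :: u) = od H m (some l₀) t ++ os (dd H m) (od H m) (dd H m (some l₀) t) u := rfl
    rw [h2]
    by_cases h3 : (l₀.1 ++ [t]).length < m + 1
    · have h4 : dd H m (some l₀) t = some ⟨l₀.1 ++ [t], h3⟩ := dif_pos h3
      have h5 : od H m (some l₀) t = [] := if_pos h3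
      rw [h4] at h1 ⊢
      rw [h5, List.nil_append, ← ih _ h1]
      simp
    · cases h6 : dec H (l₀.1 ++ [t]) with
      | none =>
        have h4 : dd H m (some l₀) t = none := by
          show dite _ _ _ = _
          rw [dif_neg h3, h6]
          rfl
        rw [h4, dd_none] at h1
        exact (Option.some_ne_none _ h1.symm).elim
      | some c =>
        have h4 : dd H m (some l₀) t = some ⟨[], Nat.succ_pos m⟩ := by
          show dite _ _ _ = _
          rw [dif_neg h3, h6]
          rfl
        have h5 : od H m (some l₀) t = [c] := by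
          show ite _ _ _ = _
          rw [if_neg h3, h6]
          rfl
        rw [h4] at h1 ⊢
        rw [h5, List.flatMap_append, List.append_assoc, ← ih _ h1]
        have h7 := dec_some H h6
        show l₀.1 ++ t :: u = [c].flatMap H ++ ([] ++ u)
        rw [List.flatMap_singleton, ← h7]
        simp

theorem dd_block (hne : H false ≠ H true) (hl : ∀ c, (H c).length = m + 1) (c : Bool) (u v : List Bool) (hv : v ≠ [])
    (l₀ : {l : List Bool // l.length < m + 1}) (h : l₀.1 ++ v = H c) :
    ds (dd H m) (some l₀) (v ++ u) = ds (dd H m) (some ⟨[], Nat.succ_pos m⟩) u ∧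
      os (dd H m) (od H m) (some l₀) (v ++ u) = c :: os (dd H m) (od H m) (some ⟨[], Nat.succ_pos m⟩) u := by
  induction v generalizing l₀ with
  | nil => exact (hv rfl).elim
  | cons t v ih =>
    cases v with
    | nil =>
      have h3 : ¬ (l₀.1 ++ [t]).length < m + 1 := by
        rw [h, hl]
        exact lt_irrefl _
      have h6 : dec H (l₀.1 ++ [t]) = some c := by
        rw [h]
        exact dec_code H hne c
      have h4 : dd H m (some l₀) t = some ⟨[], Nat.succ_pos m⟩ := by
        show dite _ _ _ = _
        rw [dif_neg h3, h6]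
        rfl
      have h5 : od H m (some l₀) t = [c] := by
        show ite _ _ _ = _
        rw [if_neg h3, h6]
        rfl
      constructor
      · show ds (dd H m) (dd H m (some l₀) t) u = _
        rw [h4]
      · show od H m (some l₀) t ++ os (dd H m) (od H m) (dd H m (some l₀) t) u = _
        rw [h4, h5]
        rfl
    | cons t' v =>
      have h7 := congrArg List.length h
      rw [hl, List.length_append, List.length_cons, List.length_cons] at h7
      have h3 : (l₀.1 ++ [t]).length < m + 1 := by
        rw [List.length_append, List.length_singleton]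
        omega
      have h4 : dd H m (some l₀) t = some ⟨l₀.1 ++ [t], h3⟩ := dif_pos h3
      have h5 : od H m (some l₀) t = [] := if_pos h3
      obtain ⟨h8, h9⟩ := ih (List.cons_ne_nil _ _) ⟨l₀.1 ++ [t], h3⟩ (by
        rw [← h]
        simp)
      constructor
      · show ds (dd H m) (dd H m (some l₀) t) (t' :: v ++ u) = _
        rw [h4]
        exact h8
      · show od H m (some l₀) t ++ os (dd H m) (od H m) (dd H m (some l₀) t) (t' :: v ++ u) = _
        rw [h4, h5]
        exact h9

theorem dd_word (hne : H false ≠ H true) (hl : ∀ c, (H c).length = m + 1) (w : List Bool) :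
    ds (dd H m) (some ⟨[], Nat.succ_pos m⟩) (w.flatMap H) = some ⟨[], Nat.succ_pos m⟩ ∧
      os (dd H m) (od H m) (some ⟨[], Nat.succ_pos m⟩) (w.flatMap H) = w := by
  induction w with
  | nil => exact ⟨rfl, rfl⟩
  | cons c w ih =>
    rw [List.flatMap_cons]
    obtain ⟨h1, h2⟩ := dd_block H m hne hl c (w.flatMap H) (H c) (by
      intro h
      have := hl c
      rw [h] at this
      simp at this) ⟨[], Nat.succ_pos m⟩ rfl
    rw [h1, h2, ih.1, ih.2]
    exact ⟨rfl, rfl⟩

/-- inverse images of block codes -/
theorem un_block {L : Set (List Bool)} (h : Un L) (hne : H false ≠ H true) (hl : ∀ c, (H c).length = m + 1) :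
    Un {w : List Bool | w.flatMap H ∈ L} := by
  obtain ⟨G, hG, rfl⟩ := h
  have : Finite {l : List Bool // l.length < m + 1} := (List.finite_length_lt Bool (m + 1)).to_subtype
  have hinv : ∀ u : List Bool, ds (dd H m) (some ⟨[], Nat.succ_pos m⟩) u ∈
      ({some ⟨[], Nat.succ_pos m⟩} : Set (Option {l : List Bool // l.length < m + 1})) →
      u = (os (dd H m) (od H m) (some ⟨[], Nat.succ_pos m⟩) u).flatMap H := by
    intro u hu
    have h1 := dd_inv H m u ⟨[], Nat.succ_pos m⟩ ⟨[], Nat.succ_pos m⟩ hu
    simpa using h1
  obtain ⟨h3, h4⟩ := tg_main (dl := dd H m) (ou := od H m) (q₀ := some ⟨[], Nat.succ_pos m⟩)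
    (Fi := {some ⟨[], Nat.succ_pos m⟩}) hG (fun u _ u' _ hf hf' he => by
      rw [hinv u hf, hinv u' hf', he])
  refine ⟨_, h3, h4.trans ?_⟩
  ext w
  constructor
  · rintro ⟨u, hu, hf, rfl⟩
    show (os (dd H m) (od H m) (some ⟨[], Nat.succ_pos m⟩) u).flatMap H ∈ G.lang
    rw [← hinv u hf]
    exact hu
  · intro hw
    obtain ⟨h5, h6⟩ := dd_word H m hne hl w
    exact ⟨w.flatMap H, hw, h5, h6.symm⟩

end

end Pool.Agent.Lib.IXB.Trans
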