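import Mathlib

/-!
# Weighted finite automata: the number of accepted words of a given weight is eventually periodic modulo `N`
-/

set_option autoImplicit false

namespace Pool.Agent.Lib.IXB.Cnt

/-- finite automata with weights -/
structure WA (S R : Type) where
  step : S → R → S
  wt : S → R → ℕ
  acc : Set S

variable {S R : Type} (M : WA S R)

/-- the state after a word -/
def WA.ev : S → List R → S
  | s, [] => s
  | s, r :: l => WA.ev (M.step s r) l

/-- the weight of a word -/
def WA.w : S → List R → ℕ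
  | _, [] => 0
  | s, r :: l => M.wt s r + WA.w (M.step s r) l

/-- accepted words of weight `n` -/
def WA.C (s : S) (n : ℕ) : Set (List R) := {l | M.ev s l ∈ M.acc ∧ M.w s l = n}

theorem ev_append (s : S) (l l' : List R) : M.ev s (l ++ l') = M.ev (M.ev s l) l' := by
  induction l generalizing s with
  | nil => rfl
  | cons r l ih => exact ih _

theorem w_append (s : S) (l l' : List R) : M.w s (l ++ l') = M.w s l + M.w (M.ev s l) l' := by
  induction l generalizing s with
  | nil => exact (Nat.zero_add _).symm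
  | cons r l ih =>
    show M.wt s r + M.w (M.step s r) (l ++ l') = M.wt s r + M.w (M.step s r) l + M.w (M.ev (M.step s r) l) l'
    rw [ih, Nat.add_assoc]

/-- the recursion -/
theorem c_rec [Finite R] [Fintype R] {s : S} {n : ℕ} (hn : 0 < n) (hw : ∀ r, M.wt s r ≤ n)
    (hf : ∀ r, (M.C (M.step s r) (n - M.wt s r)).Finite) :
    (M.C s n).ncard = ∑ r, (M.C (M.step s r) (n - M.wt s r)).ncard := by
  let e : M.C s n ≃ Σ r : R, M.C (M.step s r) (n - M.wt s r) :=
    { toFun := fun x => match x with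
        | ⟨[], h⟩ => absurd h.2 (by
            show (0 : ℕ) ≠ n
            omega)
        | ⟨r :: l, h⟩ => ⟨r, l, h.1, by
            have h2 : M.wt s r + M.w (M.step s r) l = n := h.2
            omega⟩
      invFun := fun y => ⟨y.1 :: y.2.1, y.2.2.1, by
        have h2 : M.w (M.step s y.1) y.2.1 = n - M.wt s y.1 := y.2.2.2
        have h3 := hw y.1
        show M.wt s y.1 + M.w (M.step s y.1) y.2.1 = n
        omega⟩
      left_inv := by
        rintro ⟨l, h⟩
        cases l with
        | nil =>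
          exact absurd h.2 (by
            show (0 : ℕ) ≠ n
            omega)
        | cons r l => rfl
      right_inv := by
        rintro ⟨r, l, h⟩
        rfl }
  have : ∀ r, Finite (M.C (M.step s r) (n - M.wt s r)) := fun r => (hf r).to_subtype
  have h1 := Nat.card_congr e
  rw [Nat.card_sigma] at h1
  exact h1

/-- words of weight zero from `s` which can be completed -/
def Zp (k : ℕ) (s : S) : Prop := ∃ l : List R, l.length = k ∧ M.w s l = 0 ∧ ∃ l', M.ev (M.ev s l) l' ∈ M.acc

theorem no_zp [Finite S] {s : S} (hf : ∀ n, (M.C s n).Finite) : ∃ k, ¬ Zp M k s := by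
  classical
  by_contra hcon
  have hc : ∀ k, Zp M k s := fun k => by_contra fun h => hcon ⟨k, h⟩
  have hg : ∀ t : S, ∃ g : List R, (∃ l', M.ev t l' ∈ M.acc) → M.ev t g ∈ M.acc := by
    intro t
    by_cases h : ∃ l', M.ev t l' ∈ M.acc
    · obtain ⟨l', hl'⟩ := h
      exact ⟨l', fun _ => hl'⟩
    · exact ⟨[], fun h' => absurd h' h⟩
  choose g hg using hg
  obtain ⟨B, hB⟩ : ∃ B, ∀ t : S, M.w t (g t) ≤ B := by
    have := Fintype.ofFinite S
    exact ⟨∑ t, M.w t (g t), fun t => Finset.single_le_sum (f := fun t => M.w t (g t)) (fun _ _ => Nat.zero_le _)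
      (Finset.mem_univ t)⟩
  have hfin : (⋃ n ∈ Set.Iic B, M.C s n).Finite := Set.Finite.biUnion (Set.finite_Iic B) fun n _ => hf n
  obtain ⟨L, hL⟩ : ∃ L, ∀ l ∈ (⋃ n ∈ Set.Iic B, M.C s n), l.length ≤ L := by
    obtain ⟨L, hL⟩ := (hfin.image List.length).bddAbove
    exact ⟨L, fun l hl => hL ⟨l, hl, rfl⟩⟩
  obtain ⟨l, hl, hw, hacc⟩ := hc (L + 1)
  have h1 := hg _ hacc
  have h2 : l ++ g (M.ev s l) ∈ ⋃ n ∈ Set.Iic B, M.C s n := by
    refine Set.mem_biUnion (x := M.w (M.ev s l) (g (M.ev s l))) (hB _) ⟨?_, ?_⟩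
    · rw [ev_append]
      exact h1
    · rw [w_append, hw, Nat.zero_add]
  have h3 := hL _ h2
  rw [List.length_append] at h3
  omega

/-- the count modulo `N` -/
noncomputable def cn (N : ℕ) (n : ℕ) (s : S) : ZMod N := ((M.C s n).ncard : ZMod N)

theorem determined [Finite S] [Finite R] {N W : ℕ} (hW : ∀ s r, M.wt s r ≤ W) {U : Set S} (hU : ∀ s ∈ U, ∀ r, M.step s r ∈ U)
    (hf : ∀ s ∈ U, ∀ n, (M.C s n).Finite) {n m : ℕ} (hn : W < n) (hm : W < m)
    (h : ∀ i, 1 ≤ i → i ≤ W → ∀ s ∈ U, cn M N (n - i) s = cn M N (m - i) s) : ∀ s ∈ U, cn M N n s = cn M N m s := by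
  classical
  have := Fintype.ofFinite R
  have key : ∀ (k : ℕ) (s : S), s ∈ U → ¬ Zp M k s → cn M N n s = cn M N m s := by
    intro k
    induction k with
    | zero =>
      intro s _ hz
      have h1 : ∀ n, M.C s n = ∅ := by
        intro n
        rw [Set.eq_empty_iff_forall_notMem]
        rintro l ⟨hl, -⟩
        exact hz ⟨[], rfl, rfl, l, hl⟩
      rw [cn, cn, h1, h1]
    | succ k ih =>
      intro s hs hz
      rw [cn, cn, c_rec M (by omega) (fun r => (hW s r).trans hn.le) fun r => hf _ (hU s hs r) _,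
        c_rec M (by omega) (fun r => (hW s r).trans hm.le) fun r => hf _ (hU s hs r) _, Nat.cast_sum, Nat.cast_sum]
      refine Finset.sum_congr rfl fun r _ => ?_
      rcases Nat.eq_zero_or_pos (M.wt s r) with h0 | h0
      · rw [h0, Nat.sub_zero, Nat.sub_zero]
        refine ih _ (hU s hs r) ?_
        rintro ⟨l, hl, hw, hacc⟩
        refine hz ⟨r :: l, by rw [List.length_cons, hl], ?_, hacc⟩
        show M.wt s r + M.w (M.step s r) l = 0
        rw [h0, hw]
      · exact h _ h0 (hW s r) _ (hU s hs r)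
  intro s hs
  obtain ⟨k, hk⟩ := no_zp M (hf s hs)
  exact key k s hs hk

/-- eventual periodicity -/
theorem periodic [Finite S] [Finite R] {N : ℕ} [NeZero N] {U : Set S} (hU : ∀ s ∈ U, ∀ r, M.step s r ∈ U)
    (hf : ∀ s ∈ U, ∀ n, (M.C s n).Finite) :
    ∃ n₀ T : ℕ, 0 < T ∧ ∀ n ≥ n₀, ∀ s ∈ U, cn M N (n + T) s = cn M N n s := by
  classical
  obtain ⟨W, hW⟩ : ∃ W, ∀ s r, M.wt s r ≤ W := by
    have := Fintype.ofFinite S
    have := Fintype.ofFinite R
    refine ⟨∑ x : S × R, M.wt x.1 x.2, fun s r => ?_⟩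
    exact Finset.single_le_sum (f := fun x : S × R => M.wt x.1 x.2) (fun _ _ => Nat.zero_le _) (Finset.mem_univ (s, r))
  obtain ⟨a, b, hab, he⟩ := Finite.exists_ne_map_eq_of_infinite (fun (n : ℕ) (i : Fin (W + 1)) (s : S) => cn M N (n + i.val) s)
  have key : ∀ a b : ℕ, a < b → (fun (i : Fin (W + 1)) (s : S) => cn M N (a + i.val) s) =
      (fun (i : Fin (W + 1)) (s : S) => cn M N (b + i.val) s) →
      ∃ n₀ T : ℕ, 0 < T ∧ ∀ n ≥ n₀, ∀ s ∈ U, cn M N (n + T) s = cn M N n s := by
    intro a b hlt he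
    have h1 : ∀ j : ℕ, ∀ s ∈ U, cn M N (a + j) s = cn M N (b + j) s := by
      intro j
      induction j using Nat.strong_induction_on with
      | _ j ih =>
        rcases Nat.lt_or_ge j (W + 1) with hj | hj
        · intro s _
          exact congrFun (congrFun he ⟨j, hj⟩) s
        · refine determined M hW hU hf (by omega) (by omega) fun i h1 h2 s hs => ?_
          have h3 := ih (j - i) (by omega) s hs
          rw [show a + j - i = a + (j - i) by omega, show b + j - i = b + (j - i) by omega]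
          exact h3
    refine ⟨a, b - a, by omega, fun n hn s hs => ?_⟩
    have h2 := h1 (n - a) s hs
    rw [show a + (n - a) = n by omega, show b + (n - a) = n + (b - a) by omega] at h2
    exact h2.symm
  rcases Nat.lt_or_gt_of_ne hab with hlt | hlt
  · exact key a b hlt he
  · exact key b a hlt he.symm

end Pool.Agent.Lib.IXB.Cnt
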