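import Mathlib

/-!
# Indexed grammars in reduced form, leftmost derivations, bounded words, palindrome pairs
-/

set_option autoImplicit false

namespace Pool.Agent.Lib.IXB

/-- productions in reduced form: `A → α`, `A → B_f`, `A_f → α` -/
inductive Rule (V I T : Type) : Type
  | rw (A : V) (α : List (V ⊕ T)) : Rule V I T
  | push (A B : V) (f : I) : Rule V I T
  | pop (A : V) (f : I) (α : List (V ⊕ T)) : Rule V I T

/-- indexed grammars with terminal alphabet `T` -/
structure IG (T : Type) : Type 1 where
  V : Type
  I : Type
  finV : Finite V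
  finI : Finite I
  start : V
  rules : Set (Rule V I T)
  finR : rules.Finite

/-- sentential forms: every variable carries its stack -/
abbrev Form (V I T : Type) : Type := List ((V × List I) ⊕ T)

/-- the right-hand side `α` with the stack `σ` on every variable -/
def att {V I T : Type} (σ : List I) (α : List (V ⊕ T)) : Form V I T := α.map (Sum.map (fun A => (A, σ)) id)

/-- what a production does to a variable with its stack -/
inductive Act {V I T : Type} : Rule V I T → V × List I → Form V I T → Prop
  | rw (A : V) (α : List (V ⊕ T)) (σ : List I) : Act (.rw A α) (A, σ) (att σ α)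
  | push (A B : V) (f : I) (σ : List I) : Act (.push A B f) (A, σ) [Sum.inl (B, f :: σ)]
  | pop (A : V) (f : I) (α : List (V ⊕ T)) (σ : List I) : Act (.pop A f α) (A, f :: σ) (att σ α)

/-- one step of a derivation: a production is applied to one variable of the form -/
def IG.Step {T : Type} (G : IG T) (F F' : Form G.V G.I T) : Prop :=
  ∃ p ∈ G.rules, ∃ (x y : Form G.V G.I T) (X : G.V × List G.I) (Z : Form G.V G.I T),
    F = x ++ Sum.inl X :: y ∧ Act p X Z ∧ F' = x ++ (Z ++ y)

/-- one step of a leftmost derivation, with the production `p` -/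
def IG.LStep {T : Type} (G : IG T) (p : Rule G.V G.I T) (F F' : Form G.V G.I T) : Prop :=
  p ∈ G.rules ∧ ∃ (u : List T) (y : Form G.V G.I T) (X : G.V × List G.I) (Z : Form G.V G.I T),
    F = u.map Sum.inr ++ Sum.inl X :: y ∧ Act p X Z ∧ F' = u.map Sum.inr ++ (Z ++ y)

/-- leftmost derivations, given by their sequences of productions -/
inductive IG.LDer {T : Type} (G : IG T) : List (Rule G.V G.I T) → Form G.V G.I T → Form G.V G.I T → Prop
  | nil (F : Form G.V G.I T) : LDer G [] F F
  | cons {p : Rule G.V G.I T} {l : List (Rule G.V G.I T)} {F F' F'' : Form G.V G.I T} :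
      G.LStep p F F' → LDer G l F' F'' → LDer G (p :: l) F F''

/-- the generated language -/
def IG.lang {T : Type} (G : IG T) : Set (List T) :=
  {u | Relation.ReflTransGen G.Step [Sum.inl (G.start, [])] (u.map Sum.inr)}

/-- every word of the language has exactly one leftmost derivation -/
def IG.Unambiguous {T : Type} (G : IG T) : Prop :=
  ∀ u ∈ G.lang, ∃! l : List (Rule G.V G.I T), G.LDer l [Sum.inl (G.start, [])] (u.map Sum.inr)

/-- `w_1 ^ (x 1) ... w_k ^ (x k)` -/
def bw {T : Type} {k : ℕ} (w : Fin k → List T) (x : Fin k → ℕ) : List T :=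
  (List.ofFn fun i => (List.replicate (x i) (w i)).flatten).flatten

/-- products of two palindromes over a two-letter alphabet -/
def LC : Set (List Bool) := {u | ∃ v v' : List Bool, v.reverse = v ∧ v'.reverse = v' ∧ u = v ++ v'}

end Pool.Agent.Lib.IXB
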