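import Pool.Agent.Lib.IXB.Blk
import Pool.Agent.Lib.IXB.Clos

/-!
# Regular languages with many unbounded powers
-/

set_option autoImplicit false

namespace Pool.Agent.Lib.IXB.Flag

open Decode Mark

theorem Pg.union {L L' : Set (List Bool)} (h : Pg L) (h' : Pg L') : Pg (L ∪ L') := by
  obtain ⟨C, d, h⟩ := h
  obtain ⟨C', d', h'⟩ := h'
  refine ⟨C + C', max d d', fun n => ?_⟩
  have h1 : {u : List Bool | u ∈ L ∪ L' ∧ u.length = n} = {u : List Bool | u ∈ L ∧ u.length = n} ∪ {u : List Bool | u ∈ L' ∧ u.length = n} := by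
    ext u
    constructor
    · rintro ⟨h1 | h1, h2⟩
      · exact Or.inl ⟨h1, h2⟩
      · exact Or.inr ⟨h1, h2⟩
    · rintro (⟨h1, h2⟩ | ⟨h1, h2⟩)
      · exact ⟨Or.inl h1, h2⟩
      · exact ⟨Or.inr h1, h2⟩
  rw [h1, add_mul]
  refine (Set.ncard_union_le _ _).trans (Nat.add_le_add ((h n).trans ?_) ((h' n).trans ?_))
  · exact Nat.mul_le_mul_left _ (Nat.pow_le_pow_right (by omega) (le_max_left _ _))
  · exact Nat.mul_le_mul_left _ (Nat.pow_le_pow_right (by omega) (le_max_right _ _))

theorem Pg.mono {L L' : Set (List Bool)} (h : Pg L') (hL : L ⊆ L') : Pg L := by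
  obtain ⟨C, d, h⟩ := h
  refine ⟨C, d, fun n => (Set.ncard_le_ncard ?_ (fin_len L' n)).trans (h n)⟩
  rintro u ⟨h1, h2⟩
  exact ⟨hL h1, h2⟩

theorem Pg.iUnion {ι : Type} [Finite ι] {L : ι → Set (List Bool)} (h : ∀ i, Pg (L i)) : Pg (⋃ i, L i) := by
  classical
  have := Fintype.ofFinite ι
  have h1 : ∀ S : Finset ι, Pg (⋃ i ∈ S, L i) := by
    intro S
    induction S using Finset.induction_on with
    | empty => exact ⟨0, 0, fun n => by simp⟩
    | insert a S _ ih =>
      rw [Finset.set_biUnion_insert]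
      exact (h a).union ih
  exact (h1 Finset.univ).mono (by simp)

section
variable {S : Type} [Monoid S] [Finite S] (g : Bool → S)

/-- if there are too many symmetric words then there are two blocks -/
theorem blk_of {s : S} (h : ¬ Pg {u : List Bool | u ∈ LC ∧ ev g u = s}) : Blk g s := by
  classical
  by_contra hB
  apply h
  have hA : ∀ (a b : S × S) (c d : Option Bool), (a.1 * ev g c.toList * a.2) * (b.1 * ev g d.toList * b.2) = s →
      ∀ x ∈ Kh g a, ∀ x' ∈ Kh g a, ∀ y ∈ Kh g b, x.length = x'.length → x = x' := by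
    intro a b c d hs x hx x' hx' y hy hl
    by_contra hne
    apply hB
    refine ⟨fun t => pl c (if t = true then x' else x) ++ pl d y, 2 * x.length + c.toList.length + (pl d y).length,
      fun t => ?_, ?_, fun t => ?_, fun w => rev_left (fun t => pl_rev _ _) (pl_rev _ _) w⟩
    · rw [List.length_append, pl_len]
      cases t <;> simp [hl]
    · intro he
      simp only [Bool.false_eq_true, if_false, if_true] at he
      exact hne (pl_inj c hl (List.append_cancel_right he))
    · rw [ev_append, ev_pl g d hy]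
      cases t with
      | false => simp only [Bool.false_eq_true, if_false]; rw [ev_pl g c hx, hs]
      | true => simp only [if_true]; rw [ev_pl g c hx', hs]
  have hA' : ∀ (a b : S × S) (c d : Option Bool), (a.1 * ev g c.toList * a.2) * (b.1 * ev g d.toList * b.2) = s →
      ∀ x ∈ Kh g a, ∀ y ∈ Kh g b, ∀ y' ∈ Kh g b, y.length = y'.length → y = y' := by
    intro a b c d hs x hx y hy y' hy' hl
    by_contra hne
    apply hB
    refine ⟨fun t => pl c x ++ pl d (if t = true then y' else y), (pl c x).length + (2 * y.length + d.toList.length),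
      fun t => ?_, ?_, fun t => ?_, fun w => rev_right (fun t => pl_rev _ _) (pl_rev _ _) w⟩
    · rw [List.length_append, pl_len d]
      cases t <;> simp [hl]
    · intro he
      simp only [Bool.false_eq_true, if_false, if_true] at he
      exact hne (pl_inj d hl (List.append_cancel_left he))
    · rw [ev_append, ev_pl g c hx]
      cases t with
      | false => simp only [Bool.false_eq_true, if_false]; rw [ev_pl g d hy, hs]
      | true => simp only [if_true]; rw [ev_pl g d hy', hs]
  have hdec : ∀ u : List Bool, ∃ t : (List Bool × Option Bool) × (List Bool × Option Bool),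
      u ∈ LC → u = pl t.1.2 t.1.1 ++ pl t.2.2 t.2.1 := by
    intro u
    by_cases hu : u ∈ LC
    · obtain ⟨v, v', hv, hv', rfl⟩ := hu
      obtain ⟨x, c, rfl⟩ := pal_split hv
      obtain ⟨y, d, rfl⟩ := pal_split hv'
      exact ⟨((x, c), (y, d)), fun _ => rfl⟩
    · exact ⟨(([], none), ([], none)), fun h => (hu h).elim⟩
  choose f hf using hdec
  let φ : List Bool → (((S × S) × Option Bool) × ((S × S) × Option Bool)) × ℕ := fun u =>
    ((((ev g (f u).1.1, ev g (f u).1.1.reverse), (f u).1.2), ((ev g (f u).2.1, ev g (f u).2.1.reverse), (f u).2.2)),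
      (f u).1.1.length)
  refine ⟨Nat.card (((S × S) × Option Bool) × ((S × S) × Option Bool)), 1, fun n => ?_⟩
  have hcard : ((Set.univ : Set (((S × S) × Option Bool) × ((S × S) × Option Bool))) ×ˢ ((Finset.range (n + 1) : Finset ℕ) : Set ℕ)).ncard =
      Nat.card (((S × S) × Option Bool) × ((S × S) × Option Bool)) * (n + 1) := by
    rw [Set.ncard_prod, Set.ncard_univ, Set.ncard_coe_finset, Finset.card_range]
  rw [pow_one, ← hcard]
  refine Set.ncard_le_ncard_of_injOn φ ?_ ?_ (Set.toFinite _)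
  · rintro u ⟨⟨hu, -⟩, hn⟩
    refine ⟨trivial, ?_⟩
    rw [Finset.mem_coe, Finset.mem_range]
    show (f u).1.1.length < n + 1
    have h1 := congrArg List.length (hf u hu)
    rw [List.length_append, pl_len] at h1
    omega
  · rintro u ⟨⟨hu, hs⟩, hn⟩ u' ⟨⟨hu', hs'⟩, hn'⟩ he
    obtain ⟨e1, e2⟩ := Prod.mk.inj he
    obtain ⟨e3, e4⟩ := Prod.mk.inj e1
    obtain ⟨e5, e6⟩ := Prod.mk.inj e3
    obtain ⟨e7, e8⟩ := Prod.mk.inj e4
    have hx : (f u).1.1 ∈ Kh g (ev g (f u).1.1, ev g (f u).1.1.reverse) := (kh_iff g).2 ⟨rfl, rfl⟩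
    have hy : (f u).2.1 ∈ Kh g (ev g (f u).2.1, ev g (f u).2.1.reverse) := (kh_iff g).2 ⟨rfl, rfl⟩
    have hx' : (f u').1.1 ∈ Kh g (ev g (f u).1.1, ev g (f u).1.1.reverse) := by
      rw [e5]
      exact (kh_iff g).2 ⟨rfl, rfl⟩
    have hy' : (f u').2.1 ∈ Kh g (ev g (f u).2.1, ev g (f u).2.1.reverse) := by
      rw [e7]
      exact (kh_iff g).2 ⟨rfl, rfl⟩
    have h1 := hf u hu
    have h2 := hf u' hu'
    have hcs : (ev g (f u).1.1 * ev g (f u).1.2.toList * ev g (f u).1.1.reverse) *
        (ev g (f u).2.1 * ev g (f u).2.2.toList * ev g (f u).2.1.reverse) = s := by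
      rw [← ev_append, ← ev_append, ← ev_append, ← ev_append, ← ev_append, ← hs]
      conv_rhs => rw [h1]
      rfl
    have h3 := hA _ _ _ _ hcs _ hx _ hx' _ hy e2
    have hl1 := congrArg List.length h1
    have hl2 := congrArg List.length h2
    rw [List.length_append, pl_len, pl_len] at hl1 hl2
    have h4 := hA' _ _ _ _ hcs _ hx _ hy _ hy' (by
      rw [← e6, ← e8, ← h3] at hl2
      omega)
    rw [h1, h2, ← h3, ← h4, ← e6, ← e8]

end

end Pool.Agent.Lib.IXB.Flag
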