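import Pool.Agent.Lib.IXB.Dich

/-!
# From the symmetric words of a regular language to all symmetric words
-/

set_option autoImplicit false

namespace Pool.Agent.Lib.IXB.Flag

open Decode Mark

/-- the words whose length is `k * j + 1` for some `k` -/
theorem len_regular (j : ℕ) (hj : 1 ≤ j) : Language.IsRegular ({w | ∃ k : ℕ, w.length = k * j + 1} : Language Bool) := by
  have : NeZero j := ⟨by omega⟩
  let M : DFA Bool (Option (ZMod j)) := ⟨fun x _ => match x with | none => some 0 | some r => some (r + 1), none, {some 0}⟩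
  have h1 : ∀ (u : List Bool) (r : ZMod j), M.evalFrom (some r) u = some (r + (u.length : ZMod j)) := by
    intro u
    induction u with
    | nil =>
      intro r
      show some r = _
      rw [List.length_nil, Nat.cast_zero, add_zero]
    | cons c u ih =>
      intro r
      have h2 : M.evalFrom (some r) (c :: u) = M.evalFrom (some (r + 1)) u := rfl
      rw [h2, ih, List.length_cons, Nat.cast_succ]
      congr 1
      ring
  refine ⟨Option (ZMod j), inferInstance, M, ?_⟩
  ext w
  cases w with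
  | nil =>
    constructor
    · intro h
      have h2 : (none : Option (ZMod j)) = some 0 := h
      exact (Option.some_ne_none _ h2.symm).elim
    · rintro ⟨k, hk⟩
      rw [List.length_nil] at hk
      omega
  | cons c u =>
    have h2 : c :: u ∈ M.accepts ↔ M.evalFrom (some 0) u = some 0 := Iff.rfl
    rw [h2, h1, zero_add, Option.some_inj, ZMod.natCast_eq_zero_iff]
    constructor
    · rintro ⟨k, hk⟩
      refine ⟨k, ?_⟩
      rw [List.length_cons, hk]
      ring
    · rintro ⟨k, hk⟩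
      rw [List.length_cons] at hk
      exact ⟨k, by rw [mul_comm]; omega⟩

section
variable {S : Type} [Monoid S] (g : Bool → S)

theorem hh_block (B : Bool → List Bool) (M : ℕ) (w : List Bool) : (w.flatMap fun c => (pat M c).flatMap B) = hh B M w := by
  unfold hh
  rw [List.flatMap_assoc]

theorem hh_rev {B : Bool → List Bool} (M : ℕ) (hr : ∀ w : List Bool, (w.flatMap B).reverse ~r w.reverse.flatMap B) (w : List Bool) :
    (hh B M w).reverse ~r hh B M w.reverse := by
  unfold hh
  rw [← pal_fm (pat_rev M) w]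
  exact hr _

theorem hh_lc {B : Bool → List Bool} {M L : ℕ} (hM : 3 ≤ M) (hl : ∀ c, (B c).length = L) (hne : B false ≠ B true)
    (hr : ∀ w : List Bool, (w.flatMap B).reverse ~r w.reverse.flatMap B) (w : List Bool) : hh B M w ∈ LC ↔ w ∈ LC := by
  have h1 : hh B M w ∈ LC ↔ (hh B M w).reverse ~r hh B M w := lc_iff_rot _
  have h2 : w ∈ LC ↔ w.reverse ~r w := lc_iff_rot _
  rw [h1, h2]
  constructor
  · intro h
    exact dec_rot hM hl hne ((hh_rev M hr w).symm.trans h)
  · intro h
    exact (hh_rev M hr w).trans (rot_fm B (rot_fm (pat M) h))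

theorem un_congr {T : Type} {L L' : Set (List T)} (h : Trans.Un L) (he : L = L') : Trans.Un L' := by
  rw [← he]
  exact h

/-- the core of the reduction -/
theorem core {s : S} (hB : Blk g s) (P : S → Prop) {j : ℕ} (hj : 1 ≤ j) (hP : ∀ t : ℕ, P (s ^ (t * j + 1)))
    (hU : Trans.Un {u : List Bool | u ∈ LC ∧ P (ev g u)}) : Trans.Un {w : List Bool | w ∈ LC ∧ ∃ k : ℕ, w.length = k * j + 1} := by
  obtain ⟨B, L, hl, hne, hs, hr⟩ := hB
  have hL : 0 < L := by
    by_contra hc
    apply hne
    rw [List.eq_nil_of_length_eq_zero (by rw [hl]; omega : (B false).length = 0),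
      List.eq_nil_of_length_eq_zero (by rw [hl]; omega : (B true).length = 0)]
  set M := 4 * j - 1 with hM
  have hM3 : 3 ≤ M := by omega
  have hKL : 0 < (2 * M + 3) * L := Nat.mul_pos (by omega) hL
  obtain ⟨m, hm⟩ : ∃ m, (2 * M + 3) * L = m + 1 := ⟨(2 * M + 3) * L - 1, by omega⟩
  have h1 := Trans.un_block (fun c => (pat M c).flatMap B) m hU (by
    intro h
    have h2 := fm_inj B hl hne _ _ (by rw [pat_len, pat_len]) h
    have h3 : (pat M false)[M + 1]'(by rw [pat_len]; omega) = (pat M true)[M + 1]'(by rw [pat_len]; omega) := by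
      simp only [h2]
    rw [pat_get, pat_get, wl_mid, wl_mid] at h3
    exact Bool.false_ne_true h3) (fun c => by rw [fm_len hl, pat_len, hm])
  have h2 := Trans.un_inter h1 (len_regular j hj)
  refine un_congr h2 ?_
  ext w
  have h3 : (w.flatMap fun c => (pat M c).flatMap B) ∈ {u : List Bool | u ∈ LC ∧ P (ev g u)} ↔ hh B M w ∈ LC ∧ P (ev g (hh B M w)) := by
    rw [hh_block]
    rfl
  constructor
  · rintro ⟨h4, h5⟩
    exact ⟨(hh_lc hM3 hl hne hr w).1 (h3.1 h4).1, h5⟩
  · rintro ⟨h4, k, hk⟩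
    refine ⟨h3.2 ⟨(hh_lc hM3 hl hne hr w).2 h4, ?_⟩, k, hk⟩
    have h5 : ev g (hh B M w) = s ^ (w.length * (2 * M + 3)) := by
      unfold hh
      rw [ev_fm B g hs, fm_len (pat_len M)]
    rw [h5, hk]
    have h6 : (k * j + 1) * (2 * M + 3) = (k * (8 * j + 1) + 8) * j + 1 := by
      have h7 : 2 * M + 3 = 8 * j + 1 := by omega
      rw [h7]
      ring
    rw [h6]
    exact hP _

/-- the class of many symmetric words whose powers return infinitely often -/
theorem many [Finite S] (P : S → Prop)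
    (h : ¬ Pg {u : List Bool | u ∈ LC ∧ P (ev g u) ∧ {k : ℕ | P (ev g u ^ k)}.Infinite}) :
    ∃ s : S, Blk g s ∧ {k : ℕ | P (s ^ k)}.Infinite := by
  classical
  by_contra hc
  push Not at hc
  apply h
  have h1 : ∀ s : S, Pg {u : List Bool | u ∈ LC ∧ P (ev g u) ∧ {k : ℕ | P (ev g u ^ k)}.Infinite ∧ ev g u = s} := by
    intro s
    by_cases h2 : {k : ℕ | P (s ^ k)}.Infinite
    · by_cases h3 : Pg {u : List Bool | u ∈ LC ∧ ev g u = s}
      · exact h3.mono fun u hu => ⟨hu.1, hu.2.2.2⟩
      · exact (h2 (hc s (blk_of g h3))).elim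
    · refine ⟨0, 0, fun n => ?_⟩
      have h4 : {u : List Bool | u ∈ {u : List Bool | u ∈ LC ∧ P (ev g u) ∧ {k : ℕ | P (ev g u ^ k)}.Infinite ∧ ev g u = s} ∧
          u.length = n} = ∅ := by
        rw [Set.eq_empty_iff_forall_notMem]
        rintro u ⟨⟨-, -, h5, h6⟩, -⟩
        rw [h6] at h5
        exact h2 h5
      rw [h4, Set.ncard_empty]
      exact Nat.zero_le _
  refine (Pg.iUnion h1).mono fun u hu => ?_
  rw [Set.mem_iUnion]
  exact ⟨ev g u, hu.1, hu.2.1, hu.2.2, rfl⟩

/-- the reduction for a language recognised by a finite monoid -/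
theorem rec_dich [Finite S] (P : S → Prop)
    (h : ¬ Pg {u : List Bool | u ∈ LC ∧ P (ev g u) ∧ {k : ℕ | P (ev g u ^ k)}.Infinite})
    (hU : Trans.Un {u : List Bool | u ∈ LC ∧ P (ev g u)}) :
    ∃ j : ℕ, 1 ≤ j ∧ Trans.Un {w : List Bool | w ∈ LC ∧ ∃ k : ℕ, w.length = k * j + 1} := by
  obtain ⟨s, hB, hinf⟩ := many g P h
  obtain ⟨n, hn, hi⟩ := exists_idem s
  obtain ⟨k, hk, hkn⟩ := hinf.exists_gt n
  have hk' : P (s ^ k) := hk
  have h1 : s ^ k * s ^ n = s ^ k := by
    obtain ⟨q, rfl⟩ := Nat.exists_eq_add_of_lt hkn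
    have e : n + q + 1 = (q + 1) + n := by ring
    rw [e, pow_add, mul_assoc, hi]
  have h2 : ∀ t : ℕ, (s ^ k) ^ (t * n + 1) = s ^ k := by
    intro t
    induction t with
    | zero => rw [Nat.zero_mul, zero_add, pow_one]
    | succ t ih =>
      have e : (t + 1) * n + 1 = (t * n + 1) + n := by ring
      rw [e, pow_add, ih, ← pow_mul]
      have h3 : ∀ q : ℕ, s ^ k * s ^ (q * n) = s ^ k := by
        intro q
        induction q with
        | zero => rw [Nat.zero_mul, pow_zero, mul_one]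
        | succ q ih => rw [Nat.succ_mul, pow_add, ← mul_assoc, ih, h1]
      exact h3 k
  exact ⟨n, hn, core g (hB.pow g (by omega : 1 ≤ k)) P hn (fun t => by rw [h2]; exact hk') hU⟩

/-- the reduction for a language with period `j` recognised by a finite monoid -/
theorem rec_star [Finite S] (P : S → Prop) {N j : ℕ} (hj : 1 ≤ j)
    (hN : ∀ (s : S) (m : ℕ), N ≤ m → (∃ u, ev g u = s) → (P (s ^ m) ↔ P (s ^ (m + j))))
    (h : ¬ Pg {u : List Bool | u ∈ LC ∧ P (ev g u) ∧ {k : ℕ | P (ev g u ^ k)}.Infinite})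
    (hU : Trans.Un {u : List Bool | u ∈ LC ∧ P (ev g u)}) :
    Trans.Un {w : List Bool | w ∈ LC ∧ ∃ k : ℕ, w.length = k * j + 1} := by
  obtain ⟨s, hB, hinf⟩ := many g P h
  obtain ⟨k, hk, hkn⟩ := hinf.exists_gt N
  have hk' : P (s ^ k) := hk
  have hs : ∃ u, ev g u = s := by
    obtain ⟨B, -, -, -, hs, -⟩ := hB
    exact ⟨_, hs false⟩
  have h1 : ∀ t : ℕ, P (s ^ (k + t * j)) := by
    intro t
    induction t with
    | zero =>
      rw [Nat.zero_mul]
      exact hk'
    | succ t ih =>
      have e : k + (t + 1) * j = k + t * j + j := by ring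
      rw [e]
      exact (hN s (k + t * j) (by omega) hs).1 ih
  refine core g (hB.pow g (by omega : 1 ≤ k)) P hj (fun t => ?_) hU
  rw [← pow_mul]
  have e : k * (t * j + 1) = k + (k * t) * j := by ring
  rw [e]
  exact h1 _

end

theorem Un_union {T : Type} {L L' : Set (List T)} (h : Trans.Un L) (h' : Trans.Un L') (hd : Disjoint L L') : Trans.Un (L ∪ L') := by
  obtain ⟨G, hG, rfl⟩ := h
  obtain ⟨G', hG', rfl⟩ := h'
  exact ⟨Union.un G G', Union.un_unamb G G' hG hG' hd, Union.un_lang G G'⟩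

theorem Un_nil : Trans.Un {([] : List Bool)} := by
  obtain ⟨G, hG, hL⟩ := semi_all' (T := Bool) (k := 0) (fun _ => []) (S := Set.univ) IsSemilinearSet.univ
  refine ⟨G, hG, hL.trans ?_⟩
  ext u
  constructor
  · rintro ⟨x, -, rfl⟩
    rfl
  · rintro rfl
    exact ⟨Fin.elim0, trivial, rfl⟩

end Pool.Agent.Lib.IXB.Flag
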