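import Pool.Agent.Lib.IXB.Fold

/-!
# Sets of stacks recognised by finitely many states; the grammar of folded tuples
-/

set_option autoImplicit false

namespace Pool.Agent.Lib.IXB.Fold

/-- sets of stacks recognised from the bottom by a finite set of states -/
def FR {D : Type} (K : List D → Prop) : Prop :=
  ∃ (S : Type) (_ : Finite S) (step : D → S → S) (init : S) (Acc : Set S), ∀ τ, K τ ↔ τ.foldr step init ∈ Acc

section
variable {D : Type}

theorem FR.of_fun {S : Type} [Finite S] (F : List D → S) (step : D → S → S) (h : ∀ d τ, F (d :: τ) = step d (F τ))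
    (Acc : Set S) : FR fun τ => F τ ∈ Acc := by
  refine ⟨S, inferInstance, step, F [], Acc, fun τ => ?_⟩
  have h1 : τ.foldr step (F []) = F τ := by
    induction τ with
    | nil => rfl
    | cons d τ ih => rw [List.foldr_cons, ih, h]
  rw [h1]

theorem FR.congr {K K' : List D → Prop} (h : FR K) (he : ∀ τ, K' τ ↔ K τ) : FR K' := by
  obtain ⟨S, hS, step, init, Acc, h⟩ := h
  exact ⟨S, hS, step, init, Acc, fun τ => (he τ).trans (h τ)⟩

theorem FR.not {K : List D → Prop} (h : FR K) : FR fun τ => ¬ K τ := by
  obtain ⟨S, hS, step, init, Acc, h⟩ := h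
  exact ⟨S, hS, step, init, Accᶜ, fun τ => not_congr (h τ)⟩

theorem FR.all {ι : Type} [Finite ι] {K : ι → List D → Prop} (h : ∀ i, FR (K i)) : FR fun τ => ∀ i, K i τ := by
  choose S hS step init Acc h using h
  refine ⟨∀ i, S i, inferInstance, fun d s i => step i d (s i), init, {s | ∀ i, s i ∈ Acc i}, fun τ => ?_⟩
  have h1 : ∀ i, (τ.foldr (fun d (s : ∀ i, S i) i => step i d (s i)) init) i = τ.foldr (step i) (init i) := by
    intro i
    induction τ with
    | nil => rfl
    | cons d τ ih =>
      rw [List.foldr_cons, List.foldr_cons]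
      show step i d _ = _
      rw [ih]
  refine forall_congr' fun i => ?_
  rw [h1 i]
  exact h i τ

theorem FR.and {K K' : List D → Prop} (h : FR K) (h' : FR K') : FR fun τ => K τ ∧ K' τ := by
  have h1 := FR.all (K := fun b : Bool => if b then K else K') (by
    intro b
    cases b
    · exact h'
    · exact h)
  refine h1.congr fun τ => ?_
  simp [Bool.forall_bool, and_comm]

theorem FR.ex {ι : Type} [Finite ι] {K : ι → List D → Prop} (h : ∀ i, FR (K i)) : FR fun τ => ∃ i, K i τ := by
  refine (FR.all fun i => (h i).not).not.congr fun τ => ?_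
  simp

theorem FR.letter (P : D → Prop) : FR fun τ : List D => ∀ d ∈ τ, P d := by
  refine (FR.of_fun (S := Prop) (fun τ : List D => ∀ d ∈ τ, P d) (fun d s => P d ∧ s) (fun d τ => ?_) {p | p}).congr
    fun τ => Iff.rfl
  simp

end

variable {A B T : Type} {n : ℕ}

theorem fr_val : FR (Val (A := A) (n := n)) := by
  have h : ∀ (d : Fin n → Cell A) (τ : List (Fin n → Cell A)),
      ((Val (d :: τ), fun i => unf (tr i (d :: τ)) = []) : Prop × (Fin n → Prop)) =
      (Val τ ∧ (∀ i, (∀ p, d i ≠ some (.inr p)) → unf (tr i τ) = []) ∧ ∃ i, d i ≠ none,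
        fun i => d i = none ∧ unf (tr i τ) = []) := by
    intro d τ
    refine Prod.ext (propext ?_) (funext fun i => propext ?_)
    · constructor
      · rintro (_ | ⟨h1, h2, h3⟩)
        exact ⟨h1, h2, h3⟩
      · rintro ⟨h1, h2, h3⟩
        exact .cons h1 h2 h3
    · show unf (tr i (d :: τ)) = [] ↔ _
      rw [tr_cons]
      rcases hd : d i with _ | a | ⟨a, b⟩ <;> simp [unf, hd]
  refine (FR.of_fun (S := Prop × (Fin n → Prop)) (fun τ => (Val τ, fun i => unf (tr i τ) = []))
    (fun d s => (s.1 ∧ (∀ i, (∀ p, d i ≠ some (.inr p)) → s.2 i) ∧ ∃ i, d i ≠ none, fun i => d i = none ∧ s.2 i))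
    h {s | s.1}).congr fun τ => Iff.rfl

theorem fr_rev (f f' : A → B) (i j : Fin n) : FR fun τ : List (Fin n → Cell A) =>
    Val τ ∧ (unf (tr j τ)).map f = ((unf (tr i τ)).map f').reverse := by
  refine (fr_val.and (FR.letter fun d : Fin n → Cell A => cm f (d j) = swp (cm f' (d i)))).congr fun τ => ?_
  exact and_congr_right fun h => rev_iff h f f' i j

theorem fr_eval {P : Type} [Finite P] (N : DFA T P) (i : Fin n) (g : A → List T) (s s' : P) :
    FR fun τ : List (Fin n → Cell A) => N.evalFrom s ((unf (tr i τ)).flatMap g) = s' := by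
  refine (FR.of_fun (S := P → P) (fun (τ : List (Fin n → Cell A)) s => N.evalFrom s ((unf (tr i τ)).flatMap g))
    (fun d φ => match d i with
      | none => φ
      | some (.inl a) => fun s => φ (N.evalFrom s (g a))
      | some (.inr (a, b)) => fun s => N.evalFrom (φ (N.evalFrom s (g a))) (g b)) (fun d τ => ?_) {φ | φ s = s'}).congr
    fun τ => Iff.rfl
  funext s
  rw [tr_cons]
  rcases d i with _ | a | ⟨a, b⟩
  · simp only [unf]
  · simp only [unf, List.flatMap_cons, DFA.evalFrom_of_append]
  · simp only [unf, List.flatMap_cons, List.flatMap_append, List.flatMap_nil, List.append_nil, DFA.evalFrom_of_append]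

/-- a word made of images of tracks and of fixed words -/
def word (ws : List ((Fin n × (A → List T)) ⊕ List T)) (τ : List (Fin n → Cell A)) : List T :=
  ws.flatMap (Sum.elim (fun x => (unf (tr x.1 τ)).flatMap x.2) id)

theorem fr_word_eval {P : Type} [Finite P] (N : DFA T P) (ws : List ((Fin n × (A → List T)) ⊕ List T)) (s s' : P) :
    FR fun τ : List (Fin n → Cell A) => N.evalFrom s (word ws τ) = s' := by
  induction ws generalizing s with
  | nil =>
    by_cases h : s = s'
    · refine (FR.letter fun _ : Fin n → Cell A => True).congr fun τ => ?_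
      simp [word, h]
    · refine (FR.letter fun _ : Fin n → Cell A => True).not.congr fun τ => ?_
      simp [word, h]
  | cons x ws ih =>
    rcases x with ⟨i, g⟩ | v
    · refine (FR.ex fun t : P => (fr_eval N i g s t).and (ih t)).congr fun τ => ?_
      show N.evalFrom s (word (.inl (i, g) :: ws) τ) = s' ↔ _
      have h : word (.inl (i, g) :: ws) τ = (unf (tr i τ)).flatMap g ++ word ws τ := by
        simp [word]
      rw [h, DFA.evalFrom_of_append]
      constructor
      · intro h1
        exact ⟨_, rfl, h1⟩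
      · rintro ⟨t, rfl, h1⟩
        exact h1
    · refine (ih (N.evalFrom s v)).congr fun τ => ?_
      have h : word (.inr v :: ws) τ = v ++ word ws τ := by
        simp [word]
      rw [h, DFA.evalFrom_of_append]

theorem fr_word {L : Language T} (hL : L.IsRegular) (ws : List ((Fin n × (A → List T)) ⊕ List T)) :
    FR fun τ : List (Fin n → Cell A) => word ws τ ∈ L := by
  obtain ⟨P, _, N, rfl⟩ := hL
  refine (FR.ex fun s : N.accept => fr_word_eval N ws N.start s.1).congr fun τ => ?_
  constructor
  · intro h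
    exact ⟨⟨_, h⟩, rfl⟩
  · rintro ⟨s, hs⟩
    show N.evalFrom N.start (word ws τ) ∈ N.accept
    rw [hs]
    exact s.2

/-- the readers of the tracks -/
def rdr {G : Type} (out : G → A → List T) (r : Fin n × G) (d : Fin n → Cell A) : List ((Fin n × G) ⊕ T) :=
  match d r.1 with
  | none => [.inl r]
  | some (.inl a) => (out r.2 a).map .inr ++ [.inl r]
  | some (.inr (a, b)) => (out r.2 a).map .inr ++ (.inl r :: (out r.2 b).map .inr)

theorem val_rdr {G : Type} (out : G → A → List T) (r : Fin n × G) (τ : List (Fin n → Cell A)) :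
    Gen.val (rdr out) τ r = (unf (tr r.1 τ)).flatMap (out r.2) := by
  induction τ with
  | nil => rfl
  | cons d τ ih =>
    have h : Gen.val (rdr out) (d :: τ) r = (rdr out r d).flatMap (Sum.elim (Gen.val (rdr out) τ) fun t => [t]) := rfl
    rw [h, tr_cons]
    unfold rdr
    rcases d r.1 with _ | a | ⟨a, b⟩
    · simp only [List.flatMap_cons, List.flatMap_nil, Sum.elim_inl, List.append_nil, unf]
      exact ih
    · simp only [List.flatMap_append, List.flatMap_cons, List.flatMap_nil, Sum.elim_inl, List.append_nil, unf,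
        List.flatMap_map, Sum.elim_inr, List.flatMap_singleton']
      rw [← ih]
      rfl
    · simp only [List.flatMap_append, List.flatMap_cons, List.flatMap_nil, Sum.elim_inl, List.append_nil, unf,
        List.flatMap_map, Sum.elim_inr, List.flatMap_singleton']
      rw [← ih]
      rfl

/-- the grammar of a set of folded tuples -/
theorem fold_main {G : Type} [Finite A] [Finite G] (out : G → A → List T) (fn : List ((Fin n × G) ⊕ T))
    (hf : ∃ r, Sum.inl r ∈ fn) {K : List (Fin n → Cell A) → Prop} (hK : FR K) (hV : ∀ τ, K τ → Val τ)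
    (hinj : ∀ τ τ', K τ → K τ' →
      fn.flatMap (Sum.elim (fun r => (unf (tr r.1 τ)).flatMap (out r.2)) fun t => [t]) =
      fn.flatMap (Sum.elim (fun r => (unf (tr r.1 τ')).flatMap (out r.2)) fun t => [t]) →
      ∀ i, unf (tr i τ) = unf (tr i τ')) :
    ∃ G : IG T, G.Unambiguous ∧ G.lang = {u | ∃ τ, K τ ∧
      u = fn.flatMap (Sum.elim (fun r => (unf (tr r.1 τ)).flatMap (out r.2)) fun t => [t])} := by
  obtain ⟨S, hS, step, init, Acc, hK⟩ := hK
  have hev : ∀ τ, Gen.ev (rdr out) τ fn =
      fn.flatMap (Sum.elim (fun r => (unf (tr r.1 τ)).flatMap (out r.2)) fun t => [t]) := by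
    intro τ
    unfold Gen.ev
    congr 1
    funext x
    rcases x with r | t
    · exact val_rdr out r τ
    · rfl
  set M : DFA (Fin n → Cell A) S := ⟨fun s d => step d s, init, Acc⟩ with hM
  have hacc : ∀ ρ, ρ ∈ M.accepts ↔ K ρ.reverse := by
    intro ρ
    rw [hK, List.foldr_reverse]
    exact Iff.rfl
  obtain ⟨h1, h2⟩ := Gen.gr_main M (rdr out) fn (fun r d => ⟨r, by
      unfold rdr
      rcases d r.1 with _ | a | ⟨a, b⟩ <;> simp⟩) hf (fun ρ hρ ρ' hρ' he => by
    rw [hev, hev] at he
    have h3 := (hacc ρ).1 hρ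
    have h4 := (hacc ρ').1 hρ'
    exact List.reverse_injective (val_inj (hV _ h3) (hV _ h4) (hinj _ _ h3 h4 he)))
  refine ⟨Gen.gr M (rdr out) fn, h1, h2.trans ?_⟩
  ext u
  constructor
  · rintro ⟨ρ, hρ, rfl⟩
    exact ⟨_, (hacc ρ).1 hρ, hev _⟩
  · rintro ⟨τ, hτ, rfl⟩
    exact ⟨τ.reverse, (hacc _).2 (by rwa [List.reverse_reverse]), by rw [List.reverse_reverse, hev]⟩

end Pool.Agent.Lib.IXB.Fold
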