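import Pool.Agent.Lib.IXB.Gram

/-!
# Splitting leftmost derivations
-/

set_option autoImplicit false

namespace Pool.Agent.Lib.IXB.Fi

open Pool.Agent.Lib.IXB

variable {T : Type} (G : IG T)

theorem ctx_inv {l : List (Rule G.V G.I T)} {E : Form G.V G.I T} {w v : List T} {F : Form G.V G.I T}
    (hE : E = w.map Sum.inr ++ F) (h : G.LDer l E (v.map Sum.inr)) :
    ∃ u, v = w ++ u ∧ G.LDer l F (u.map Sum.inr) := by
  generalize hv : (v.map Sum.inr : Form G.V G.I T) = V at h
  induction h generalizing F with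
  | nil F' =>
    subst hv
    have h1 : ∀ (w v : List T) (F : Form G.V G.I T), (v.map Sum.inr : Form G.V G.I T) = w.map Sum.inr ++ F →
        ∃ u, v = w ++ u ∧ F = u.map Sum.inr := by
      intro w
      induction w with
      | nil => intro v F h; exact ⟨v, rfl, h.symm⟩
      | cons a w ih =>
        intro v F h
        cases v with
        | nil => simp at h
        | cons b v =>
          simp only [List.map_cons, List.cons_append, List.cons.injEq, Sum.inr.injEq] at h
          obtain ⟨u, h1, h2⟩ := ih v F h.2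
          exact ⟨u, by rw [h.1, h1]; rfl, h2⟩
    obtain ⟨u, h2, h3⟩ := h1 w v F hE
    exact ⟨u, h2, by rw [h3]; exact .nil _⟩
  | cons h1 _ ih =>
    obtain ⟨hp, x, y, X, Z, h2, ha, h3⟩ := h1
    rw [hE] at h2
    have h4 : ∃ x', x = w ++ x' ∧ F = x'.map Sum.inr ++ Sum.inl X :: y := by
      clear ih hE hv h3
      induction w generalizing x with
      | nil => exact ⟨x, rfl, h2⟩
      | cons a w ihw =>
        cases x with
        | nil => simp at h2
        | cons b x =>
          simp only [List.map_cons, List.cons_append, List.cons.injEq, Sum.inr.injEq] at h2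
          obtain ⟨x', h5, h6⟩ := ihw x h2.2
          exact ⟨x', by rw [← h2.1, h5]; rfl, h6⟩
    obtain ⟨x', rfl, rfl⟩ := h4
    obtain ⟨u, h5, h6⟩ := ih (F := x'.map Sum.inr ++ (Z ++ y)) (by rw [h3]; simp) hv
    exact ⟨u, h5, .cons ⟨hp, x', y, X, Z, rfl, ha, rfl⟩ h6⟩

theorem split_form (F : Form G.V G.I T) : (∃ w : List T, F = w.map Sum.inr) ∨
    ∃ (w : List T) (X : G.V × List G.I) (y : Form G.V G.I T), F = w.map Sum.inr ++ Sum.inl X :: y := by
  induction F with
  | nil => exact Or.inl ⟨[], rfl⟩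
  | cons a F ih =>
    cases a with
    | inl X => exact Or.inr ⟨[], X, F, rfl⟩
    | inr t =>
      rcases ih with ⟨w, rfl⟩ | ⟨w, X, y, rfl⟩
      · exact Or.inl ⟨t :: w, rfl⟩
      · exact Or.inr ⟨t :: w, X, y, rfl⟩

/-- a derivation of a word from a product -/
theorem lder_split {l : List (Rule G.V G.I T)} {E F F' : Form G.V G.I T} {v : List T} (hE : E = F ++ F')
    (h : G.LDer l E (v.map Sum.inr)) : ∃ l1 l2 v1 v2, l = l1 ++ l2 ∧ v = v1 ++ v2 ∧ G.LDer l1 F (v1.map Sum.inr) ∧
      G.LDer l2 F' (v2.map Sum.inr) := by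
  generalize hv : (v.map Sum.inr : Form G.V G.I T) = V at h
  induction h generalizing F with
  | nil E =>
    subst hv
    rcases split_form G F with ⟨w, rfl⟩ | ⟨w, X, y, rfl⟩
    · obtain ⟨u, h1, h2⟩ := ctx_inv G (F := F') (w := w) (v := v) (E := v.map Sum.inr) hE (.nil _)
      exact ⟨[], [], w, u, rfl, h1, .nil _, h2⟩
    · rw [List.append_assoc] at hE
      exact (no_var hE).elim
  | cons h1 h2 ih =>
    subst hv
    rcases split_form G F with ⟨w, rfl⟩ | ⟨w, X, y, rfl⟩
    · obtain ⟨u, h3, h4⟩ := ctx_inv G hE (.cons h1 h2)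
      exact ⟨[], _, w, u, rfl, h3, .nil _, h4⟩
    · obtain ⟨hp, x', y', X', Z, h3, ha, h4⟩ := h1
      rw [hE, List.append_assoc, List.cons_append] at h3
      obtain ⟨rfl, rfl, rfl⟩ := left_unique h3
      obtain ⟨l1, l2, v1, v2, rfl, rfl, h5, h6⟩ := ih (F := w.map Sum.inr ++ (Z ++ y)) (by rw [h4]; simp) rfl
      exact ⟨_ :: l1, l2, v1, v2, rfl, rfl, .cons ⟨hp, w, y, X, Z, rfl, ha, rfl⟩ h5, h6⟩

theorem lder_append {l1 l2 : List (Rule G.V G.I T)} {F F' : Form G.V G.I T} {v1 v2 : List T}
    (h1 : G.LDer l1 F (v1.map Sum.inr)) (h2 : G.LDer l2 F' (v2.map Sum.inr)) :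
    G.LDer (l1 ++ l2) (F ++ F') ((v1 ++ v2).map Sum.inr) := by
  have e1 := LDer_ctx G [] F' h1
  have e2 := LDer_ctx G v1 [] h2
  simp only [List.map_nil, List.nil_append, List.append_nil] at e1 e2
  rw [List.map_append]
  exact LDer_trans G e1 e2

theorem act_fun {V I : Type} {p : Rule V I T} {X : V × List I} {Z Z' : Form V I T} (h : Act p X Z) (h' : Act p X Z') :
    Z = Z' := by
  cases h <;> cases h' <;> rfl

/-- complete derivations are not proper beginnings of each other -/
theorem lder_pf {l l' r r' : List (Rule G.V G.I T)} {F : Form G.V G.I T} {v v' : List T}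
    (h : G.LDer l F (v.map Sum.inr)) (h' : G.LDer l' F (v'.map Sum.inr)) (he : l ++ r = l' ++ r') : l = l' := by
  generalize hv : (v.map Sum.inr : Form G.V G.I T) = V at h
  induction h generalizing l' with
  | nil F =>
    subst hv
    generalize hv' : (v'.map Sum.inr : Form G.V G.I T) = V' at h'
    cases h' with
    | nil => rfl
    | cons h1 _ =>
      obtain ⟨hp, x', y', X', Z, h3, ha, h4⟩ := h1
      exact (no_var h3).elim
  | cons h1 _ ih =>
    obtain ⟨hp, x, y, X, Z, h3, ha, h4⟩ := h1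
    generalize hv' : (v'.map Sum.inr : Form G.V G.I T) = V' at h'
    cases h' with
    | nil =>
      rw [← hv'] at h3
      exact (no_var h3).elim
    | cons h1' h2' =>
      obtain ⟨hp', x', y', X', Z', h3', ha', h4'⟩ := h1'
      rw [h3] at h3'
      obtain ⟨rfl, rfl, rfl⟩ := left_unique h3'
      rw [List.cons_append, List.cons_append] at he
      obtain ⟨rfl, he2⟩ := List.cons.inj he
      obtain rfl := act_fun ha ha'
      subst h4
      subst h4'
      subst hv'
      rw [ih h2' he2 hv]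

end Pool.Agent.Lib.IXB.Fi
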