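import Pool.Agent.Lib.IXB.FiA

/-!
# Synchronous reading of a stack
-/

set_option autoImplicit false

namespace Pool.Agent.Lib.IXB.Fi

open Pool.Agent.Lib.IXB

/-- the variables of a right-hand side -/
def vs {V T : Type} : List (V ⊕ T) → List V
  | [] => []
  | Sum.inl B :: α => B :: vs α
  | Sum.inr _ :: α => vs α

/-- the number of terminals of a right-hand side -/
def nt {V T : Type} : List (V ⊕ T) → ℕ
  | [] => 0
  | Sum.inl _ :: α => nt α
  | Sum.inr _ :: α => nt α + 1

variable {T : Type} (G : IG T)

/-- derivations of words from the variables of a list, all with the stack `σ` -/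
inductive DL (σ : List G.I) : List G.V → List (List (Rule G.V G.I T)) → ℕ → Prop
  | nil : DL σ [] [] 0
  | cons {C : G.V} {β : List G.V} {l : List (Rule G.V G.I T)} {es : List (List (Rule G.V G.I T))} {u : List T} {n : ℕ} :
      G.LDer l [Sum.inl (C, σ)] (u.map Sum.inr) → DL σ β es n → DL σ (C :: β) (l :: es) (u.length + n)

variable {G}

theorem DL.len {σ : List G.I} {β : List G.V} {es : List (List (Rule G.V G.I T))} {n : ℕ} (h : DL G σ β es n) :
    es.length = β.length := by
  induction h with
  | nil => rfl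
  | cons _ _ ih => rw [List.length_cons, List.length_cons, ih]

theorem DL.append {σ : List G.I} {β β' : List G.V} {es es' : List (List (Rule G.V G.I T))} {n n' : ℕ}
    (h : DL G σ β es n) (h' : DL G σ β' es' n') : DL G σ (β ++ β') (es ++ es') (n + n') := by
  induction h with
  | nil => rwa [List.nil_append, List.nil_append, Nat.zero_add]
  | cons h1 _ ih =>
    rw [List.cons_append, List.cons_append, Nat.add_assoc]
    exact .cons h1 ih

theorem DL.split {σ : List G.I} {β β' : List G.V} {es : List (List (Rule G.V G.I T))} {n : ℕ} (h : DL G σ (β ++ β') es n) :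
    ∃ n1 n2, n = n1 + n2 ∧ DL G σ β (es.take β.length) n1 ∧ DL G σ β' (es.drop β.length) n2 := by
  induction β generalizing es n with
  | nil => exact ⟨0, n, (Nat.zero_add n).symm, .nil, h⟩
  | cons C β ih =>
    rw [List.cons_append] at h
    cases h with
    | cons h1 h2 =>
      obtain ⟨n1, n2, rfl, h3, h4⟩ := ih h2
      exact ⟨_, n2, (Nat.add_assoc _ _ _).symm, .cons h1 h3, h4⟩

theorem DL.pf {σ : List G.I} {β : List G.V} {es es' : List (List (Rule G.V G.I T))} {n n' : ℕ}
    (h : DL G σ β es n) (h' : DL G σ β es' n') {r r' : List (Rule G.V G.I T)} (he : es.flatten ++ r = es'.flatten ++ r') :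
    es = es' ∧ r = r' := by
  induction h generalizing es' n' with
  | nil =>
    cases h'
    exact ⟨rfl, he⟩
  | cons h1 _ ih =>
    cases h' with
    | cons h1' h2' =>
      rw [List.flatten_cons, List.flatten_cons, List.append_assoc, List.append_assoc] at he
      obtain rfl := lder_pf G h1 h1' he
      obtain ⟨rfl, h3⟩ := ih h2' (List.append_cancel_left he)
      exact ⟨rfl, h3⟩

theorem fill {σ : List G.I} (α : List (G.V ⊕ T)) {es : List (List (Rule G.V G.I T))} {n : ℕ} (h : DL G σ (vs α) es n) :
    ∃ u : List T, G.LDer es.flatten (att σ α) (u.map Sum.inr) ∧ u.length = n + nt α := by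
  induction α generalizing es n with
  | nil =>
    cases h
    exact ⟨[], .nil _, rfl⟩
  | cons a α ih =>
    cases a with
    | inl B =>
      have h' : DL G σ (B :: vs α) es n := h
      cases h' with
      | cons h1 h2 =>
        obtain ⟨u, h3, h4⟩ := ih h2
        refine ⟨_ ++ u, lder_append G h1 h3, ?_⟩
        rw [List.length_append, h4]
        show _ = _ + _ + nt α
        omega
    | inr t =>
      obtain ⟨u, h3, h4⟩ := ih h
      have h5 := LDer_ctx G [t] [] h3
      simp only [List.append_nil] at h5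
      refine ⟨t :: u, h5, ?_⟩
      rw [List.length_cons, h4]
      rfl

theorem unfill {σ : List G.I} (α : List (G.V ⊕ T)) {l : List (Rule G.V G.I T)} {u : List T}
    (h : G.LDer l (att σ α) (u.map Sum.inr)) : ∃ es n, DL G σ (vs α) es n ∧ l = es.flatten ∧ u.length = n + nt α := by
  induction α generalizing l u with
  | nil =>
    obtain ⟨u', h1, h2⟩ := ctx_inv G (w := []) rfl h
    generalize hv : (u.map Sum.inr : Form G.V G.I T) = V at h
    cases h with
    | nil =>
      have h3 : u = [] := by
        cases u with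
        | nil => rfl
        | cons _ _ => simp [att] at hv
      exact ⟨[], 0, .nil, rfl, by rw [h3]; rfl⟩
    | cons h1 _ =>
      obtain ⟨hp, x, y, X, Z, h3, ha, h4⟩ := h1
      exact (no_var (v := []) h3).elim
  | cons a α ih =>
    cases a with
    | inl B =>
      obtain ⟨l1, l2, v1, v2, rfl, rfl, h1, h2⟩ := lder_split G (F := [Sum.inl (B, σ)]) (F' := att σ α) rfl h
      obtain ⟨es, n, h3, rfl, h5⟩ := ih h2
      refine ⟨l1 :: es, v1.length + n, .cons h1 h3, rfl, ?_⟩
      rw [List.length_append, h5]
      show _ = _ + nt α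
      omega
    | inr t =>
      obtain ⟨u', rfl, h2⟩ := ctx_inv G (w := [t]) (F := att σ α) rfl h
      obtain ⟨es, n, h3, rfl, h5⟩ := ih h2
      refine ⟨es, n, h3, rfl, ?_⟩
      show u'.length + 1 = n + (nt α + 1)
      omega

/-- pop productions -/
abbrev Po (G : IG T) : Type := G.V × G.I × List (G.V ⊕ T)

/-- the production of an element of `Po` -/
def pr (ρ : Po G) : Rule G.V G.I T := .pop ρ.1 ρ.2.1 ρ.2.2

/-- derivations put together -/
def regroup : List (Po G) → List (List (Rule G.V G.I T)) → List (List (Rule G.V G.I T))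
  | [], _ => []
  | ρ :: χ, es => (pr ρ :: (es.take (vs ρ.2.2).length).flatten) :: regroup χ (es.drop (vs ρ.2.2).length)

/-- the derivations of a synchronous reading -/
def lmf : List (List (Po G)) → List (List (Rule G.V G.I T))
  | [] => []
  | χ :: cs => regroup χ (lmf cs)

/-- total number of terminals -/
def ntl (χ : List (Po G)) : ℕ := (χ.map fun ρ => nt ρ.2.2).sum

/-- the variables after a step -/
def nx (χ : List (Po G)) : List G.V := χ.flatMap fun ρ => vs ρ.2.2

/-- synchronous readings of a stack by a list of variables, with the number of terminals produced -/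
inductive SY : List G.I → List G.V → List (List (Po G)) → ℕ → Prop
  | nil : SY [] [] [] 0
  | cons {f : G.I} {σ : List G.I} {χ : List (Po G)} {cs : List (List (Po G))} {n : ℕ} :
      (∀ ρ ∈ χ, ρ.2.1 = f ∧ pr ρ ∈ G.rules) → SY σ (nx χ) cs n → SY (f :: σ) (χ.map Prod.fst) (χ :: cs) (ntl χ + n)

theorem regroup_dl {f : G.I} {σ : List G.I} {χ : List (Po G)} (hχ : ∀ ρ ∈ χ, ρ.2.1 = f ∧ pr ρ ∈ G.rules) :
    ∀ {es : List (List (Rule G.V G.I T))} {n : ℕ}, DL G σ (nx χ) es n → DL G (f :: σ) (χ.map Prod.fst) (regroup χ es) (ntl χ + n) := by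
  induction χ with
  | nil =>
    intro es n h
    cases h
    exact .nil
  | cons ρ χ ih =>
    intro es n h
    have h' : DL G σ (vs ρ.2.2 ++ nx χ) es n := h
    obtain ⟨n1, n2, rfl, h1, h2⟩ := h'.split
    obtain ⟨u, h3, h4⟩ := fill ρ.2.2 h1
    obtain ⟨hf, hr⟩ := hχ ρ List.mem_cons_self
    have h5 := ih (fun x hx => hχ x (List.mem_cons_of_mem _ hx)) h2
    have h6 : G.LDer (pr ρ :: (es.take (vs ρ.2.2).length).flatten) [Sum.inl (ρ.1, f :: σ)] (u.map Sum.inr) := by
      refine .cons ⟨hr, [], [], (ρ.1, f :: σ), att σ ρ.2.2, rfl, ?_, rfl⟩ ?_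
      · rw [← hf]
        exact Act.pop _ _ _ _
      · simp only [List.map_nil, List.nil_append, List.append_nil]
        exact h3
    have h7 : DL G (f :: σ) (ρ.1 :: χ.map Prod.fst) _ (u.length + (ntl χ + n2)) := DL.cons h6 h5
    have h8 : u.length + (ntl χ + n2) = ntl (ρ :: χ) + (n1 + n2) := by
      rw [h4]
      show _ = (nt ρ.2.2 + ntl χ) + _
      omega
    rw [h8] at h7
    exact h7

/-- soundness -/
theorem sy_dl {σ : List G.I} {β : List G.V} {cs : List (List (Po G))} {n : ℕ} (h : SY σ β cs n) : DL G σ β (lmf cs) n := by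
  induction h with
  | nil => exact .nil
  | cons hχ _ ih => exact regroup_dl hχ ih

theorem regroup_inj {σ : List G.I} : ∀ (χ χ' : List (Po G)) {es es' : List (List (Rule G.V G.I T))} {n n' : ℕ},
    DL G σ (nx χ) es n → DL G σ (nx χ') es' n' → regroup χ es = regroup χ' es' → χ = χ' ∧ es = es' := by
  intro χ
  induction χ with
  | nil =>
    intro χ' es es' n n' h h' he
    cases χ' with
    | nil =>
      cases h
      cases h'
      exact ⟨rfl, rfl⟩
    | cons _ _ => simp [regroup] at he
  | cons ρ χ ih =>
    intro χ' es es' n n' h h' he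
    cases χ' with
    | nil => simp [regroup] at he
    | cons ρ' χ' =>
      simp only [regroup, List.cons.injEq] at he
      obtain ⟨⟨h1, h2⟩, h3⟩ := he
      have h4 : ρ = ρ' := by
        unfold pr at h1
        obtain ⟨e1, e2, e3⟩ := Rule.pop.inj h1
        exact Prod.ext e1 (Prod.ext e2 e3)
      subst h4
      have hs : DL G σ (vs ρ.2.2 ++ nx χ) es n := h
      have hs' : DL G σ (vs ρ.2.2 ++ nx χ') es' n' := h'
      obtain ⟨n1, n2, -, h5, h6⟩ := hs.split
      obtain ⟨n1', n2', -, h5', h6'⟩ := hs'.split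
      obtain ⟨h7, -⟩ := DL.pf h5 h5' (r := []) (r' := []) (by rw [h2])
      obtain ⟨h8, h9⟩ := ih χ' h6 h6' h3
      refine ⟨by rw [h8], ?_⟩
      rw [← List.take_append_drop (vs ρ.2.2).length es, ← List.take_append_drop (vs ρ.2.2).length es', h7, h9]

/-- different synchronous readings give different derivations -/
theorem sy_inj {σ : List G.I} : ∀ {β β' : List G.V} {cs cs' : List (List (Po G))} {n n' : ℕ}, SY σ β cs n → SY σ β' cs' n' →
    lmf cs = lmf cs' → cs = cs' := by
  induction σ with
  | nil =>
    intro β β' cs cs' n n' h h' _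
    cases h
    cases h'
    rfl
  | cons f σ ih =>
    intro β β' cs cs' n n' h h' he
    cases h with
    | cons hχ h1 =>
      cases h' with
      | cons hχ' h1' =>
        obtain ⟨rfl, h3⟩ := regroup_inj _ _ (sy_dl h1) (sy_dl h1') he
        rw [ih h1 h1' h3]

end Pool.Agent.Lib.IXB.Fi
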