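import Pool.Agent.Lib.IXB.FiB

/-!
# Push-pop grammars: synchronous form of a derivation
-/

set_option autoImplicit false

namespace Pool.Agent.Lib.IXB

/-- Push-pop grammars. For the variables in `P` there are only productions `A_f → α` all whose variables are in `P`. For the
other variables there are only productions `A → B_f` and productions `A → α` with at most one occurrence of a variable
outside `P`. -/
structure PushPop {T : Type} (G : IG T) (P : Set G.V) : Prop where
  rw : ∀ A α, Rule.rw A α ∈ G.rules → A ∉ P ∧ ((∀ B, Sum.inl B ∈ α → B ∈ P) ∨ ∃ (α₁ α₂ : List (G.V ⊕ T)) (B : G.V),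
    α = α₁ ++ Sum.inl B :: α₂ ∧ (∀ C, Sum.inl C ∈ α₁ → C ∈ P) ∧ ∀ C, Sum.inl C ∈ α₂ → C ∈ P)
  push : ∀ A B f, Rule.push A B f ∈ G.rules → A ∉ P
  pop : ∀ A f α, Rule.pop A f α ∈ G.rules → A ∈ P ∧ ∀ B, Sum.inl B ∈ α → B ∈ P

namespace Fi

theorem mem_vs {V T : Type} (α : List (V ⊕ T)) (B : V) : B ∈ vs α ↔ Sum.inl B ∈ α := by
  induction α with
  | nil => simp [vs]
  | cons a α ih =>
    cases a with
    | inl C => simp [vs, ih]
    | inr t => simp [vs, ih]

theorem vs_append {V T : Type} (α α' : List (V ⊕ T)) : vs (α ++ α') = vs α ++ vs α' := by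
  induction α with
  | nil => rfl
  | cons a α ih =>
    cases a with
    | inl C =>
      show C :: vs (α ++ α') = C :: (vs α ++ vs α')
      rw [ih]
    | inr t => exact ih

variable {T : Type} {G : IG T} (P : Set G.V) (k : ℕ)

/-- letters: a production of the first phase (or none) and pop productions -/
abbrev Lt (G : IG T) : Type := Option (Rule G.V G.I T) × List (Po G)

/-- the weight of a letter -/
def wl (r : Lt G) : ℕ := (match r.1 with
  | some (Rule.rw _ α) => nt α
  | _ => 0) + ntl r.2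

/-- transitions -/
inductive Tr : G.V → List G.V → Lt G → Option (G.V × List G.V) → Prop
  | stop {A : G.V} : A ∈ P → Tr A [A] (none, []) none
  | fin {A : G.V} {α : List (G.V ⊕ T)} : Rule.rw A α ∈ G.rules → (∀ B ∈ vs α, B ∈ P) → Tr A (vs α) (some (Rule.rw A α), []) none
  | mid {A B : G.V} {α : List (G.V ⊕ T)} {γ₁ γ₂ β : List G.V} : Rule.rw A α ∈ G.rules → vs α = γ₁ ++ B :: γ₂ → B ∉ P →
      (∀ C ∈ γ₁, C ∈ P) → (∀ C ∈ γ₂, C ∈ P) → Tr A (γ₁ ++ (β ++ γ₂)) (some (Rule.rw A α), []) (some (B, β))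
  | push {A B : G.V} {f : G.I} {χ : List (Po G)} : Rule.push A B f ∈ G.rules → (∀ ρ ∈ χ, ρ.2.1 = f ∧ pr ρ ∈ G.rules) →
      Tr A (nx χ) (some (Rule.push A B f), χ) (some (B, χ.map Prod.fst))

/-- accepted runs -/
inductive Rn : G.V → List G.V → List (Lt G) → ℕ → Prop
  | one {A : G.V} {β : List G.V} {r : Lt G} : Tr P A β r none → Rn A β [r] (wl r)
  | cons {A B : G.V} {β β' : List G.V} {r : Lt G} {s : List (Lt G)} {w : ℕ} : Tr P A β r (some (B, β')) → β'.length ≤ k →
      Rn B β' s w → Rn A β (r :: s) (wl r + w)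

/-- a run together with a derivation -/
inductive PT : List G.I → G.V → List G.V → List (Lt G) → ℕ → List (List (Rule G.V G.I T)) → List (Rule G.V G.I T) → Prop
  | stop {σ : List G.I} {A : G.V} {l : List (Rule G.V G.I T)} : A ∈ P → PT σ A [A] [(none, [])] 0 [l] l
  | fin {σ : List G.I} {A : G.V} {α : List (G.V ⊕ T)} {es : List (List (Rule G.V G.I T))} : Rule.rw A α ∈ G.rules →
      (∀ B ∈ vs α, B ∈ P) → PT σ A (vs α) [(some (Rule.rw A α), [])] (nt α) es (Rule.rw A α :: es.flatten)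
  | mid {σ : List G.I} {A B : G.V} {α : List (G.V ⊕ T)} {γ₁ γ₂ β : List G.V} {s : List (Lt G)} {w : ℕ}
      {e₁ es e₂ : List (List (Rule G.V G.I T))} {m : List (Rule G.V G.I T)} : Rule.rw A α ∈ G.rules → vs α = γ₁ ++ B :: γ₂ → B ∉ P →
      (∀ C ∈ γ₁, C ∈ P) → (∀ C ∈ γ₂, C ∈ P) → e₁.length = γ₁.length → es.length = β.length → β.length ≤ k → PT σ B β s w es m →
      PT σ A (γ₁ ++ (β ++ γ₂)) ((some (Rule.rw A α), []) :: s) (nt α + w) (e₁ ++ (es ++ e₂))
        (Rule.rw A α :: (e₁.flatten ++ (m ++ e₂.flatten)))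
  | push {σ : List G.I} {A B : G.V} {f : G.I} {χ : List (Po G)} {s : List (Lt G)} {w : ℕ}
      {es : List (List (Rule G.V G.I T))} {m : List (Rule G.V G.I T)} : Rule.push A B f ∈ G.rules →
      (∀ ρ ∈ χ, ρ.2.1 = f ∧ pr ρ ∈ G.rules) → χ.length ≤ k → PT (f :: σ) B (χ.map Prod.fst) s w (regroup χ es) m →
      PT σ A (nx χ) ((some (Rule.push A B f), χ) :: s) (ntl χ + w) es (Rule.push A B f :: m)

variable {P k}

theorem pt_rn {σ : List G.I} {A : G.V} {β : List G.V} {s : List (Lt G)} {w : ℕ} {es : List (List (Rule G.V G.I T))}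
    {l : List (Rule G.V G.I T)} (h : PT P k σ A β s w es l) : Rn P k A β s w := by
  induction h with
  | stop hA => exact Rn.one (Tr.stop hA)
  | fin h1 h2 => exact Rn.one (Tr.fin h1 h2)
  | mid h1 h2 h3 h4 h5 _ _ h8 _ ih =>
    have h9 := Rn.cons (Tr.mid h1 h2 h3 h4 h5) h8 ih
    exact h9
  | push h1 h2 h3 _ ih =>
    have h9 := Rn.cons (Tr.push h1 h2) (by rw [List.length_map]; exact h3) ih
    have e : ∀ (A B : G.V) (f : G.I) (χ : List (Po G)), wl ((some (Rule.push A B f), χ) : Lt G) = ntl χ := fun _ _ _ _ =>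
      Nat.zero_add _
    rw [e] at h9
    exact h9

theorem regroup_len (χ : List (Po G)) (es : List (List (Rule G.V G.I T))) : (regroup χ es).length = χ.length := by
  induction χ generalizing es with
  | nil => rfl
  | cons ρ χ ih =>
    show (regroup χ _).length + 1 = χ.length + 1
    rw [ih]

theorem rn_pt {A : G.V} {β : List G.V} {s : List (Lt G)} {w : ℕ} (h : Rn P k A β s w) :
    ∀ (σ : List G.I) (es : List (List (Rule G.V G.I T))), es.length = β.length → ∃ l, PT P k σ A β s w es l := by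
  induction h with
  | one hT =>
    intro σ es he
    cases hT with
    | stop hA =>
      obtain ⟨l, rfl⟩ : ∃ l, es = [l] := List.length_eq_one_iff.1 he
      exact ⟨l, PT.stop hA⟩
    | fin h1 h2 => exact ⟨_, PT.fin h1 h2⟩
  | @cons A B β₁ β' r s w hT hk hR ih =>
    intro σ es he
    cases hT with
    | mid h1 h2 h3 h4 h5 =>
      rename_i α γ₁ γ₂
      rw [List.length_append, List.length_append] at he
      have e1 : (es.take γ₁.length).length = γ₁.length := by rw [List.length_take]; omega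
      have e2 : ((es.drop γ₁.length).take β'.length).length = β'.length := by rw [List.length_take, List.length_drop]; omega
      obtain ⟨m, hm⟩ := ih σ ((es.drop γ₁.length).take β'.length) e2
      have h6 := PT.mid (e₂ := (es.drop γ₁.length).drop β'.length) h1 h2 h3 h4 h5 e1 e2 hk hm
      rw [List.take_append_drop, List.take_append_drop] at h6
      exact ⟨_, h6⟩
    | push h1 h2 =>
      rename_i f χ
      obtain ⟨m, hm⟩ := ih (f :: σ) (regroup χ es) (by rw [regroup_len, List.length_map])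
      rw [List.length_map] at hk
      have h6 := PT.push h1 h2 hk hm
      have e : ∀ (A B : G.V) (f : G.I) (χ : List (Po G)), wl ((some (Rule.push A B f), χ) : Lt G) = ntl χ := fun _ _ _ _ =>
        Nat.zero_add _
      rw [e]
      exact ⟨_, h6⟩

/-- soundness -/
theorem pt_der {σ : List G.I} {A : G.V} {β : List G.V} {s : List (Lt G)} {w : ℕ} {es : List (List (Rule G.V G.I T))}
    {l : List (Rule G.V G.I T)} (h : PT P k σ A β s w es l) : ∀ {n : ℕ}, DL G σ β es n →
    ∃ u : List T, G.LDer l [Sum.inl (A, σ)] (u.map Sum.inr) ∧ u.length = n + w := by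
  induction h with
  | stop hA =>
    intro n hd
    cases hd with
    | cons h1 h2 =>
      cases h2
      exact ⟨_, h1, rfl⟩
  | @fin σ A α es h1 h2 =>
    intro n hd
    obtain ⟨u, h3, h4⟩ := fill α hd
    refine ⟨u, .cons ⟨h1, [], [], (A, σ), att σ α, rfl, Act.rw _ _ _, rfl⟩ ?_, h4⟩
    simp only [List.map_nil, List.nil_append, List.append_nil]
    exact h3
  | @mid σ A B α γ₁ γ₂ β s w e₁ es e₂ m h1 h2 h3 h4 h5 h6 h7 h8 h9 ih =>
    intro n hd
    obtain ⟨n1, n2, rfl, hd1, hd2⟩ := hd.split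
    rw [← h6, List.take_left] at hd1
    rw [← h6, List.drop_left] at hd2
    obtain ⟨n3, n4, rfl, hd3, hd4⟩ := hd2.split
    rw [← h7, List.take_left] at hd3
    rw [← h7, List.drop_left] at hd4
    obtain ⟨u, hu1, hu2⟩ := ih hd3
    have h10 : DL G σ (vs α) (e₁ ++ m :: e₂) (n1 + (u.length + n4)) := by
      rw [h2]
      exact hd1.append (DL.cons hu1 hd4)
    obtain ⟨v, h11, h12⟩ := fill α h10
    refine ⟨v, .cons ⟨h1, [], [], (A, σ), att σ α, rfl, Act.rw _ _ _, rfl⟩ ?_, by omega⟩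
    simp only [List.map_nil, List.nil_append, List.append_nil]
    rw [List.flatten_append, List.flatten_cons] at h11
    exact h11
  | @push σ A B f χ s w es m h1 h2 h3 h4 ih =>
    intro n hd
    obtain ⟨u, hu1, hu2⟩ := ih (regroup_dl h2 hd)
    refine ⟨u, .cons ⟨h1, [], [], (A, σ), [Sum.inl (B, f :: σ)], rfl, Act.push _ _ _ _, rfl⟩ ?_, by omega⟩
    simp only [List.map_nil, List.nil_append, List.append_nil]
    exact hu1

theorem dec_unique {V : Type} {P : Set V} {γ₁ γ₂ γ₁' γ₂' : List V} {B B' : V} (h : γ₁ ++ B :: γ₂ = γ₁' ++ B' :: γ₂') (hB : B ∉ P)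
    (hB' : B' ∉ P) (h1 : ∀ C ∈ γ₁, C ∈ P) (h1' : ∀ C ∈ γ₁', C ∈ P) : γ₁ = γ₁' ∧ B = B' ∧ γ₂ = γ₂' := by
  induction γ₁ generalizing γ₁' with
  | nil =>
    cases γ₁' with
    | nil =>
      obtain ⟨h2, h3⟩ := List.cons.inj h
      exact ⟨rfl, h2, h3⟩
    | cons C γ₁' =>
      obtain ⟨h2, -⟩ := List.cons.inj h
      exact absurd (h1' B (by rw [h2]; exact List.mem_cons_self)) hB
  | cons C γ₁ ih =>
    cases γ₁' with
    | nil =>
      obtain ⟨h2, -⟩ := List.cons.inj h
      exact absurd (h1 B' (by rw [← h2]; exact List.mem_cons_self)) hB'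
    | cons C' γ₁' =>
      obtain ⟨h2, h3⟩ := List.cons.inj h
      obtain ⟨h4, h5, h6⟩ := ih h3 (fun x hx => h1 x (List.mem_cons_of_mem _ hx)) (fun x hx => h1' x (List.mem_cons_of_mem _ hx))
      exact ⟨by rw [h2, h4], h5, h6⟩

/-- different runs give different derivations -/
theorem pt_inj (hG : PushPop G P) {σ : List G.I} {A : G.V} {β : List G.V} {s : List (Lt G)} {w : ℕ}
    {es : List (List (Rule G.V G.I T))} {l : List (Rule G.V G.I T)} (h : PT P k σ A β s w es l) :
    ∀ {β' : List G.V} {s' : List (Lt G)} {w' : ℕ} {es' : List (List (Rule G.V G.I T))} {n n' : ℕ},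
      PT P k σ A β' s' w' es' l → DL G σ β es n → DL G σ β' es' n' → s = s' ∧ es = es' := by
  induction h with
  | stop hA =>
    intro β' s' w' es' n n' h' _ _
    cases h' with
    | stop _ => exact ⟨rfl, rfl⟩
    | fin h1 _ => exact absurd hA (hG.rw _ _ h1).1
    | mid h1 _ _ _ _ _ _ _ _ => exact absurd hA (hG.rw _ _ h1).1
    | push h1 _ _ _ => exact absurd hA (hG.push _ _ _ h1)
  | @fin σ A α es h1 h2 =>
    intro β' s' w' es' n n' h' hd hd'
    generalize hl : (Rule.rw A α :: es.flatten : List (Rule G.V G.I T)) = l at h'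
    cases h' with
    | stop hA => exact absurd hA (hG.rw _ _ h1).1
    | @fin _ _ α' _ h1' h2' =>
      obtain ⟨e1, e2⟩ := List.cons.inj hl
      obtain ⟨-, e3⟩ := Rule.rw.inj e1
      subst e3
      obtain ⟨e4, -⟩ := DL.pf hd hd' (r := []) (r' := []) (by rw [e2])
      exact ⟨rfl, e4⟩
    | mid h1' h3' h4' _ _ _ _ _ _ =>
      obtain ⟨e1, e2⟩ := List.cons.inj hl
      obtain ⟨-, e3⟩ := Rule.rw.inj e1
      subst e3
      exact absurd (h2 _ (by rw [h3']; simp)) h4'
    | push h1' _ _ _ =>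
      obtain ⟨e1, -⟩ := List.cons.inj hl
      exact absurd e1 (by simp)
  | @mid σ A B α γ₁ γ₂ β s w e₁ es e₂ m h1 h2 h3 h4 h5 h6 h7 h8 h9 ih =>
    intro β' s' w' es' n n' h' hd hd'
    generalize hl : (Rule.rw A α :: (e₁.flatten ++ (m ++ e₂.flatten)) : List (Rule G.V G.I T)) = l at h'
    cases h' with
    | stop hA => exact absurd hA (hG.rw _ _ h1).1
    | fin h1' h2' =>
      obtain ⟨e1, e2⟩ := List.cons.inj hl
      obtain ⟨-, e3⟩ := Rule.rw.inj e1
      subst e3
      exact absurd (h2' _ (by rw [h2]; simp)) h3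
    | @mid _ _ B' α' γ₁' γ₂' β₀' s₀' w₀' e₁' es₀' e₂' m' h1' h2' h3' h4' h5' h6' h7' h8' h9' =>
      obtain ⟨e1, e2⟩ := List.cons.inj hl
      obtain ⟨-, e3⟩ := Rule.rw.inj e1
      subst e3
      obtain ⟨rfl, rfl, rfl⟩ := dec_unique (h2.symm.trans h2') h3 h3' h4 h4'
      obtain ⟨n1, n2, -, hd1, hd2⟩ := hd.split
      rw [← h6, List.take_left] at hd1
      rw [← h6, List.drop_left] at hd2
      obtain ⟨n3, n4, -, hd3, hd4⟩ := hd2.split
      rw [← h7, List.take_left] at hd3
      rw [← h7, List.drop_left] at hd4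
      obtain ⟨n1', n2', -, hd1', hd2'⟩ := hd'.split
      rw [← h6', List.take_left] at hd1'
      rw [← h6', List.drop_left] at hd2'
      obtain ⟨n3', n4', -, hd3', hd4'⟩ := hd2'.split
      rw [← h7', List.take_left] at hd3'
      rw [← h7', List.drop_left] at hd4'
      obtain ⟨rfl, e5⟩ := DL.pf hd1 hd1' e2
      obtain ⟨u, hu, -⟩ := pt_der h9 hd3
      obtain ⟨u', hu', -⟩ := pt_der h9' hd3'
      obtain rfl := lder_pf G hu hu' e5
      obtain ⟨rfl, -⟩ := DL.pf hd4 hd4' (r := []) (r' := []) (by rw [List.append_cancel_left e5])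
      obtain ⟨rfl, rfl⟩ := ih h9' hd3 hd3'
      exact ⟨rfl, rfl⟩
    | push h1' _ _ _ =>
      obtain ⟨e1, -⟩ := List.cons.inj hl
      exact absurd e1 (by simp)
  | @push σ A B f χ s w es m h1 h2 h3 h4 ih =>
    intro β' s' w' es' n n' h' hd hd'
    generalize hl : (Rule.push A B f :: m : List (Rule G.V G.I T)) = l at h'
    cases h' with
    | stop hA => exact absurd hA (hG.push _ _ _ h1)
    | fin h1' h2' =>
      obtain ⟨e1, -⟩ := List.cons.inj hl
      exact absurd e1 (by simp)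
    | mid h1' _ _ _ _ _ _ _ _ =>
      obtain ⟨e1, -⟩ := List.cons.inj hl
      exact absurd e1 (by simp)
    | @push _ _ B' f' χ' s₀ w₀ _ m' h1' h2' h3' h4' =>
      obtain ⟨e1, rfl⟩ := List.cons.inj hl
      obtain ⟨-, rfl, rfl⟩ := Rule.push.inj e1
      obtain ⟨rfl, e3⟩ := ih h4' (regroup_dl h2 hd) (regroup_dl h2' hd')
      obtain ⟨rfl, rfl⟩ := regroup_inj _ _ hd hd' e3
      exact ⟨rfl, rfl⟩

end Fi

end Pool.Agent.Lib.IXB
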