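import Pool.Agent.Lib.IXB.FiC

/-!
# Push-pop grammars of bounded index: every derivation has a bounded synchronous form
-/

set_option autoImplicit false

namespace Pool.Agent.Lib.IXB

/-- the number of variables of a sentential form -/
def nvars {V I T : Type} (F : Form V I T) : ℕ := (F.filter fun a => a.isLeft).length

/-- every sentential form in a derivation of a word has at most `k` variables -/
def Index {T : Type} (G : IG T) (k : ℕ) : Prop := ∀ (F : Form G.V G.I T) (u : List T),
  Relation.ReflTransGen G.Step [Sum.inl (G.start, [])] F → Relation.ReflTransGen G.Step F (u.map Sum.inr) → nvars F ≤ k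

namespace Fi

theorem nvars_append {V I T : Type} (F F' : Form V I T) : nvars (F ++ F') = nvars F + nvars F' := by
  unfold nvars
  rw [List.filter_append, List.length_append]

theorem nvars_att {V I T : Type} (σ : List I) (α : List (V ⊕ T)) : nvars (att σ α) = (vs α).length := by
  induction α with
  | nil => rfl
  | cons a α ih =>
    have h1 : nvars (att σ (a :: α)) = nvars ([Sum.map (fun A => (A, σ)) id a] : Form V I T) + nvars (att σ α) :=
      nvars_append [_] _
    rw [h1, ih]
    cases a with
    | inl B =>
      show 1 + (vs α).length = (vs α).length + 1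
      omega
    | inr t =>
      show 0 + (vs α).length = (vs α).length
      omega

theorem nt_append {V T : Type} (α α' : List (V ⊕ T)) : nt (α ++ α') = nt α + nt α' := by
  induction α with
  | nil => exact (Nat.zero_add _).symm
  | cons a α ih =>
    cases a with
    | inl C => exact ih
    | inr t =>
      show nt (α ++ α') + 1 = nt α + 1 + nt α'
      omega

variable {T : Type} {G : IG T} {P : Set G.V} {k : ℕ}

theorem step_ctx {F F' : Form G.V G.I T} (x y : Form G.V G.I T) (h : Relation.ReflTransGen G.Step F F') :
    Relation.ReflTransGen G.Step (x ++ (F ++ y)) (x ++ (F' ++ y)) := by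
  induction h with
  | refl => exact .refl
  | tail _ h1 ih =>
    obtain ⟨p, hp, x', y', X, Z, rfl, ha, rfl⟩ := h1
    exact ih.tail ⟨p, hp, x ++ x', y' ++ y, X, Z, by simp, ha, by simp⟩

theorem dl_zero (hG : PushPop G P) {β : List G.V} {es : List (List (Rule G.V G.I T))} {n : ℕ} (h : DL G [] β es n)
    (hβ : ∀ C ∈ β, C ∈ P) : β = [] := by
  cases h with
  | nil => rfl
  | @cons C β l es u n h1 h2 =>
    exfalso
    have hC := hβ C List.mem_cons_self
    generalize hv : (u.map Sum.inr : Form G.V G.I T) = V at h1
    cases h1 with
    | nil => cases u <;> simp at hv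
    | cons h3 _ =>
      obtain ⟨hp, x, y, X, Z, h4, ha, h5⟩ := h3
      obtain ⟨rfl, rfl, rfl⟩ := left_unique (u := []) (y := []) h4
      cases ha with
      | rw A α σ => exact (hG.rw _ _ hp).1 hC
      | push A B f σ => exact hG.push _ _ _ hp hC

theorem dl_down (hG : PushPop G P) {f : G.I} {σ : List G.I} {β : List G.V} {es : List (List (Rule G.V G.I T))} {n : ℕ}
    (h : DL G (f :: σ) β es n) (hβ : ∀ C ∈ β, C ∈ P) : ∃ (χ : List (Po G)) (es' : List (List (Rule G.V G.I T))) (n' : ℕ),
    β = χ.map Prod.fst ∧ es = regroup χ es' ∧ DL G σ (nx χ) es' n' ∧ n = ntl χ + n' ∧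
      (∀ ρ ∈ χ, ρ.2.1 = f ∧ pr ρ ∈ G.rules) ∧ ∀ C ∈ nx χ, C ∈ P := by
  induction h with
  | nil => exact ⟨[], [], 0, rfl, rfl, .nil, rfl, by simp, by simp [nx]⟩
  | @cons C β l es u n h1 h2 ih =>
    obtain ⟨χ, es', n', rfl, rfl, h3, rfl, h4, h5⟩ := ih fun x hx => hβ x (List.mem_cons_of_mem _ hx)
    have hC := hβ C List.mem_cons_self
    generalize hv : (u.map Sum.inr : Form G.V G.I T) = V at h1
    cases h1 with
    | nil => cases u <;> simp at hv
    | cons h6 h7 =>
      obtain ⟨hp, x, y, X, Z, h8, ha, h9⟩ := h6
      obtain ⟨rfl, rfl, rfl⟩ := left_unique (u := []) (y := []) h8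
      cases ha with
      | rw A α σ => exact ((hG.rw _ _ hp).1 hC).elim
      | push A B f σ => exact (hG.push _ _ _ hp hC).elim
      | pop A f α σ =>
        simp only [List.map_nil, List.nil_append, List.append_nil] at h9
        rw [h9, ← hv] at h7
        obtain ⟨es₁, n₁, h10, rfl, h12⟩ := unfill α h7
        refine ⟨(C, f, α) :: χ, es₁ ++ es', n₁ + n', rfl, ?_, h10.append h3, ?_, ?_, ?_⟩
        · show _ = (pr _ :: ((es₁ ++ es').take (vs α).length).flatten) :: regroup χ ((es₁ ++ es').drop (vs α).length)
          rw [← h10.len, List.take_left, List.drop_left]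
          rfl
        · rw [h12]
          show _ = (nt α + ntl χ) + _
          omega
        · intro ρ hρ
          rcases List.mem_cons.1 hρ with rfl | hρ
          · exact ⟨rfl, hp⟩
          · exact h4 ρ hρ
        · intro D hD
          have hD' : D ∈ vs α ++ nx χ := hD
          rcases List.mem_append.1 hD' with hD' | hD'
          · exact (hG.pop _ _ _ hp).2 D ((mem_vs α D).1 hD')
          · exact h5 D hD'

theorem sub_ex {f : G.I} {σ : List G.I} : ∀ (α : List (G.V ⊕ T)) (χ : List (Po G)), χ.map Prod.fst = vs α →
    (∀ ρ ∈ χ, ρ.2.1 = f ∧ pr ρ ∈ G.rules) → ∃ α' : List (G.V ⊕ T), vs α' = nx χ ∧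
      Relation.ReflTransGen G.Step (att (f :: σ) α) (att σ α') := by
  intro α
  induction α with
  | nil =>
    intro χ h _
    have h1 : χ = [] := List.map_eq_nil_iff.1 h
    subst h1
    exact ⟨[], rfl, .refl⟩
  | cons a α ih =>
    intro χ h hχ
    cases a with
    | inr t =>
      obtain ⟨α', h1, h2⟩ := ih χ h hχ
      refine ⟨Sum.inr t :: α', h1, ?_⟩
      have h3 := step_ctx [Sum.inr t] [] h2
      simp only [List.append_nil] at h3
      exact h3
    | inl C =>
      cases χ with
      | nil => simp [vs] at h
      | cons ρ χ =>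
        obtain ⟨hC, hr⟩ := List.cons.inj h
        obtain ⟨α', h1, h2⟩ := ih χ hr fun x hx => hχ x (List.mem_cons_of_mem _ hx)
        obtain ⟨hf, hp⟩ := hχ ρ List.mem_cons_self
        refine ⟨ρ.2.2 ++ α', by rw [vs_append, h1]; rfl, ?_⟩
        have h3 : Relation.ReflTransGen G.Step (att (f :: σ) (Sum.inl C :: α)) (att σ ρ.2.2 ++ att (f :: σ) α) := by
          refine .single ⟨pr ρ, hp, [], att (f :: σ) α, (ρ.1, f :: σ), att σ ρ.2.2, ?_, ?_, rfl⟩
          · rw [hC]
            rfl
          · rw [← hf]
            exact Act.pop _ _ _ _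
        have h4 := step_ctx (att σ ρ.2.2) [] h2
        simp only [List.append_nil] at h4
        rw [att_app]
        exact h3.trans h4

/-- index bound for the derivations from a variable with its stack -/
def IX (G : IG T) (k : ℕ) (A : G.V) (σ : List G.I) : Prop := ∀ (F : Form G.V G.I T) (u : List T),
  Relation.ReflTransGen G.Step [Sum.inl (A, σ)] F → Relation.ReflTransGen G.Step F (u.map Sum.inr) → nvars F ≤ k

theorem ix_bound {A : G.V} {σ : List G.I} (hI : IX G k A σ) {α : List (G.V ⊕ T)} {es : List (List (Rule G.V G.I T))} {n : ℕ}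
    (hd : DL G σ (vs α) es n) (hs : Relation.ReflTransGen G.Step [Sum.inl (A, σ)] (att σ α)) : (vs α).length ≤ k := by
  obtain ⟨u, h1, -⟩ := fill α hd
  have h2 := hI _ u hs (LDer_step G h1)
  rwa [nvars_att] at h2

/-- completeness -/
theorem comp (hG : PushPop G P) : ∀ (N : ℕ) (l : List (Rule G.V G.I T)), l.length ≤ N → ∀ (A : G.V) (σ : List G.I) (u : List T),
    IX G k A σ → G.LDer l [Sum.inl (A, σ)] (u.map Sum.inr) →
    ∃ (α : List (G.V ⊕ T)) (s : List (Lt G)) (w : ℕ) (es : List (List (Rule G.V G.I T))) (n : ℕ),
      PT P k σ A (vs α) s w es l ∧ DL G σ (vs α) es n ∧ (∀ C ∈ vs α, C ∈ P) ∧ u.length = n + w ∧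
        Relation.ReflTransGen G.Step [Sum.inl (A, σ)] (att σ α) := by
  intro N
  induction N with
  | zero =>
    intro l hl A σ u _ h
    have h0 : l = [] := List.eq_nil_of_length_eq_zero (by omega)
    subst h0
    generalize hv : (u.map Sum.inr : Form G.V G.I T) = V at h
    cases h
    cases u <;> simp at hv
  | succ N ih =>
    intro l hl A σ u hI h
    by_cases hA : A ∈ P
    · refine ⟨[Sum.inl A], [(none, [])], 0, [l], u.length + 0, PT.stop hA, DL.cons h .nil, ?_, rfl, .refl⟩
      intro C hC
      have h1 : C ∈ [A] := hC
      rw [List.mem_singleton.1 h1]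
      exact hA
    · generalize hv : (u.map Sum.inr : Form G.V G.I T) = V at h
      cases h with
      | nil => cases u <;> simp at hv
      | @cons p l' _ F' _ h6 h7 =>
        obtain ⟨hp, x, y, X, Z, h8, ha, h9⟩ := h6
        obtain ⟨rfl, rfl, rfl⟩ := left_unique (u := []) (y := []) h8
        simp only [List.map_nil, List.nil_append, List.append_nil] at h9
        rw [List.length_cons] at hl
        rw [h9, ← hv] at h7
        cases ha with
        | pop A f α σ => exact (hA (hG.pop _ _ _ hp).1).elim
        | push A B f σ =>
          have hst : Relation.ReflTransGen G.Step [Sum.inl (A, σ)] [Sum.inl (B, f :: σ)] :=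
            .single ⟨_, hp, [], [], (A, σ), [Sum.inl (B, f :: σ)], rfl, Act.push _ _ _ _, rfl⟩
          have hI' : IX G k B (f :: σ) := fun F u h1 h2 => hI F u (hst.trans h1) h2
          obtain ⟨α, s, w, es, n, hpt, hd, hP, hlen, hs⟩ := ih l' (by omega) B (f :: σ) u hI' h7
          have hk := ix_bound hI' hd hs
          obtain ⟨χ, es', n', e1, rfl, h3, rfl, h4, h5⟩ := dl_down hG hd hP
          obtain ⟨α', h10, h11⟩ := sub_ex (σ := σ) α χ e1.symm h4
          refine ⟨α', (some (Rule.push A B f), χ) :: s, ntl χ + w, es', n', ?_, ?_, ?_, by omega, ?_⟩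
          · rw [h10]
            refine PT.push hp h4 ?_ ?_
            · rw [e1, List.length_map] at hk
              exact hk
            · rw [← e1]
              exact hpt
          · rw [h10]
            exact h3
          · rw [h10]
            exact h5
          · exact hst.trans (hs.trans h11)
        | rw A α σ =>
          have hst : Relation.ReflTransGen G.Step [Sum.inl (A, σ)] (att σ α) :=
            .single ⟨_, hp, [], [], (A, σ), att σ α, rfl, Act.rw _ _ _, by simp⟩
          have hfin : (∀ B, Sum.inl B ∈ α → B ∈ P) → ∃ (α' : List (G.V ⊕ T)) (s : List (Lt G)) (w : ℕ)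
              (es : List (List (Rule G.V G.I T))) (n : ℕ), PT P k σ A (vs α') s w es (Rule.rw A α :: l') ∧ DL G σ (vs α') es n ∧
              (∀ C ∈ vs α', C ∈ P) ∧ u.length = n + w ∧ Relation.ReflTransGen G.Step [Sum.inl (A, σ)] (att σ α') := by
            intro hall
            obtain ⟨es, n, h1, rfl, h2⟩ := unfill α h7
            exact ⟨α, _, _, es, n, PT.fin hp fun B hB => hall B ((mem_vs α B).1 hB), h1,
              fun B hB => hall B ((mem_vs α B).1 hB), h2, hst⟩
          rcases (hG.rw _ _ hp).2 with hall | ⟨α₁, α₂, B, rfl, hα₁, hα₂⟩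
          · exact hfin hall
          · by_cases hB : B ∈ P
            · have h1 := hfin fun C hC => by
                rcases List.mem_append.1 hC with hC | hC
                · exact hα₁ C hC
                · rcases List.mem_cons.1 hC with hC | hC
                  · rw [Sum.inl.inj hC]
                    exact hB
                  · exact hα₂ C hC
              exact h1
            · have ea : att σ (α₁ ++ Sum.inl B :: α₂) = att σ α₁ ++ ([Sum.inl (B, σ)] ++ att σ α₂) := by
                rw [att_app]
                rfl
              rw [ea] at h7 hst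
              obtain ⟨l1, l2, v1, v2, rfl, rfl, h1, h2⟩ := lder_split G rfl h7
              obtain ⟨m, l3, v, v3, rfl, rfl, h3, h4⟩ := lder_split G rfl h2
              obtain ⟨e₁, n₁, hd₁, rfl, hn₁⟩ := unfill α₁ h1
              obtain ⟨e₂, n₂, hd₂, rfl, hn₂⟩ := unfill α₂ h4
              have hI' : IX G k B σ := by
                intro F u' h5 h6
                have h7' := hst.trans (step_ctx (att σ α₁) (att σ α₂) h5)
                have h8' : Relation.ReflTransGen G.Step (att σ α₁ ++ (F ++ att σ α₂)) ((v1 ++ (u' ++ v3)).map Sum.inr) := by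
                  have e1 := step_ctx [] (F ++ att σ α₂) (LDer_step G h1)
                  have e2 := step_ctx (v1.map Sum.inr) (att σ α₂) h6
                  have e3 := step_ctx (v1.map Sum.inr ++ u'.map Sum.inr) [] (LDer_step G h4)
                  simp only [List.nil_append, List.append_nil, List.append_assoc] at e1 e2 e3
                  rw [List.map_append, List.map_append]
                  exact e1.trans (e2.trans e3)
                have h9' := hI _ _ h7' h8'
                rw [nvars_append, nvars_append] at h9'
                omega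
              obtain ⟨α₀, s, w, es, n, hpt, hd, hP, hlen, hs⟩ := ih m (by
                simp only [List.length_append] at hl
                omega) B σ v hI' h3
              have hk := ix_bound hI' hd hs
              have e1 : vs (α₁ ++ (α₀ ++ α₂)) = vs α₁ ++ (vs α₀ ++ vs α₂) := by rw [vs_append, vs_append]
              have e2 : vs (α₁ ++ Sum.inl B :: α₂) = vs α₁ ++ B :: vs α₂ := by
                rw [vs_append]
                rfl
              refine ⟨α₁ ++ (α₀ ++ α₂), (some (Rule.rw A (α₁ ++ Sum.inl B :: α₂)), []) :: s, nt (α₁ ++ Sum.inl B :: α₂) + w,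
                e₁ ++ (es ++ e₂), n₁ + (n + n₂), ?_, ?_, ?_, ?_, ?_⟩
              · rw [e1]
                exact PT.mid hp e2 hB (fun C hC => hα₁ C ((mem_vs _ C).1 hC)) (fun C hC => hα₂ C ((mem_vs _ C).1 hC))
                  hd₁.len hd.len hk hpt
              · rw [e1]
                exact hd₁.append (hd.append hd₂)
              · rw [e1]
                intro C hC
                rcases List.mem_append.1 hC with hC | hC
                · exact hα₁ C ((mem_vs _ C).1 hC)
                · rcases List.mem_append.1 hC with hC | hC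
                  · exact hP C hC
                  · exact hα₂ C ((mem_vs _ C).1 hC)
              · rw [nt_append]
                simp only [List.length_append]
                show _ = _ + (nt α₁ + nt α₂ + w)
                omega
              · rw [att_app, att_app]
                exact hst.trans (step_ctx (att σ α₁) (att σ α₂) hs)

end Fi

end Pool.Agent.Lib.IXB
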