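import Pool.Agent.Lib.IXB.NumA

/-!
# The number of words of length `n` in the palindrome-pair language is not eventually periodic modulo 8
-/

set_option autoImplicit false

namespace Pool.Agent.Lib.IXB.Nice

theorem sum_two_primes {q t : ℕ} (hq : q.Prime) (ht : t.Prime) (hne : q ≠ t) (f : ℕ → ℕ) :
    ∑ d ∈ (q * t).divisors, f d = f 1 + (f q + (f t + f (q * t))) := by
  have hq2 := hq.two_le
  have ht2 := ht.two_le
  have h : (q * t).divisors = {1, q, t, q * t} := by
    ext d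
    rw [Nat.mem_divisors, Finset.mem_insert, Finset.mem_insert, Finset.mem_insert, Finset.mem_singleton]
    constructor
    · rintro ⟨hd, -⟩
      obtain ⟨x, y, hx, hy, rfl⟩ := (dvd_mul).1 hd
      rcases (Nat.dvd_prime hq).1 hx with rfl | rfl <;> rcases (Nat.dvd_prime ht).1 hy with rfl | rfl <;> simp
    · have h0 : q * t ≠ 0 := Nat.mul_ne_zero (by omega) (by omega)
      rintro (rfl | rfl | rfl | rfl)
      · exact ⟨one_dvd _, h0⟩
      · exact ⟨Dvd.intro _ rfl, h0⟩
      · exact ⟨Dvd.intro_left _ rfl, h0⟩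
      · exact ⟨dvd_rfl, h0⟩
  have h1 : q < q * t := by nlinarith
  have h2 : t < q * t := by nlinarith
  rw [h, Finset.sum_insert, Finset.sum_insert, Finset.sum_insert, Finset.sum_singleton]
  · rw [Finset.mem_singleton]
    omega
  · rw [Finset.mem_insert, Finset.mem_singleton]
    omega
  · rw [Finset.mem_insert, Finset.mem_insert, Finset.mem_singleton]
    omega

theorem pal8 {n : ℕ} (hodd : n % 2 = 1) (h5 : 5 ≤ n) : (cnt Pal n : ZMod 8) = 0 := by
  obtain ⟨m, rfl⟩ : ∃ m, n = 2 * (m + 2) + 1 := ⟨(n - 5) / 2, by omega⟩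
  rw [pal_cnt, pow_add]
  push_cast
  have h8 : (8 : ZMod 8) = 0 := by decide
  calc (2 : ZMod 8) * (2 ^ m * 2 ^ 2) = 8 * 2 ^ m := by ring
    _ = 0 := by rw [h8, zero_mul]

theorem s_one : pcnt Pal 1 = 2 := by
  have h := root_sum (X := Pal) (fun m z hm => pal_pw m z hm) one_pos
  rw [Nat.divisors_one, Finset.sum_singleton] at h
  rw [← h]
  exact pal_cnt 0

theorem s_prime {q : ℕ} (hq : q.Prime) (h5 : 5 ≤ q) : (pcnt Pal q : ZMod 8) = -2 := by
  have hodd : q % 2 = 1 := hq.eq_two_or_odd.resolve_left (by omega)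
  have h := root_sum (X := Pal) (fun m z hm => pal_pw m z hm) (show 0 < q by omega)
  rw [hq.sum_divisors, s_one] at h
  have h1 := congrArg (Nat.cast (R := ZMod 8)) h
  rw [pal8 hodd h5] at h1
  push_cast at h1
  linear_combination -h1

theorem s_two_primes {q t : ℕ} (hq : q.Prime) (ht : t.Prime) (hne : q ≠ t) (h5 : 5 ≤ q) (h5' : 5 ≤ t) :
    (pcnt Pal (q * t) : ZMod 8) = 2 := by
  have hodd : q % 2 = 1 := hq.eq_two_or_odd.resolve_left (by omega)
  have hodd' : t % 2 = 1 := ht.eq_two_or_odd.resolve_left (by omega)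
  have hqt : (q * t) % 2 = 1 := by rw [Nat.mul_mod, hodd, hodd']
  have h5q : 5 ≤ q * t := by nlinarith
  have h := root_sum (X := Pal) (fun m z hm => pal_pw m z hm) (show 0 < q * t by omega)
  rw [sum_two_primes hq ht hne, s_one] at h
  have h1 := congrArg (Nat.cast (R := ZMod 8)) h
  rw [pal8 hqt h5q] at h1
  push_cast at h1
  have h2 := s_prime hq h5
  have h3 := s_prime ht h5'
  linear_combination -h1 - h2 - h3

theorem a_prime {q : ℕ} (hq : q.Prime) (h5 : 5 ≤ q) : (cnt LC q : ZMod 8) = 2 - 2 * q := by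
  have hodd : q % 2 = 1 := hq.eq_two_or_odd.resolve_left (by omega)
  have h := root_sum (X := LC) (fun m z hm => lc_pw m z hm) (show 0 < q by omega)
  rw [hq.sum_divisors, odd_cnt hodd, odd_cnt (show 1 % 2 = 1 by rfl), s_one] at h
  have h1 := congrArg (Nat.cast (R := ZMod 8)) h
  push_cast at h1
  rw [s_prime hq h5] at h1
  rw [h1]
  ring

theorem a_two_primes {q t : ℕ} (hq : q.Prime) (ht : t.Prime) (hne : q ≠ t) (h5 : 5 ≤ q) (h5' : 5 ≤ t) :
    (cnt LC (q * t) : ZMod 8) = 2 * (q - 1) * (t - 1) := by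
  have hodd : q % 2 = 1 := hq.eq_two_or_odd.resolve_left (by omega)
  have hodd' : t % 2 = 1 := ht.eq_two_or_odd.resolve_left (by omega)
  have hqt : (q * t) % 2 = 1 := by rw [Nat.mul_mod, hodd, hodd']
  have h5q : 5 ≤ q * t := by nlinarith
  have h := root_sum (X := LC) (fun m z hm => lc_pw m z hm) (show 0 < q * t by omega)
  rw [sum_two_primes hq ht hne, odd_cnt hodd, odd_cnt hodd', odd_cnt hqt, odd_cnt (show 1 % 2 = 1 by rfl), s_one] at h
  have h1 := congrArg (Nat.cast (R := ZMod 8)) h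
  push_cast at h1
  rw [s_prime hq h5, s_prime ht h5', s_two_primes hq ht hne h5 h5'] at h1
  rw [h1]
  ring

/-- the numbers of words of `L_C` are not eventually periodic modulo 8 -/
theorem lc_not_periodic : ¬ ∃ n₀ T : ℕ, 0 < T ∧ ∀ n ≥ n₀, (cnt LC (n + T) : ZMod 8) = (cnt LC n : ZMod 8) := by
  rintro ⟨n₀, T, hT, h⟩
  have h1 : ∀ c n : ℕ, n₀ ≤ n → (cnt LC (n + T * c) : ZMod 8) = (cnt LC n : ZMod 8) := by
    intro c
    induction c with
    | zero => intro n _; rfl
    | succ c ih =>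
      intro n hn
      rw [Nat.mul_succ, ← Nat.add_assoc, h _ (by omega), ih n hn]
  obtain ⟨t, ht, ht5, htT⟩ := Nat.exists_prime_gt_modEq_one 5 hT.ne'
  obtain ⟨q, hqgt, hq, hq4⟩ := Nat.forall_exists_prime_gt_and_eq_mod (q := 4) (a := 3)
    (IsUnit.of_mul_eq_one 3 (by decide)) (n₀ + t + 5)
  have hq3 : q % 4 = 3 := (ZMod.natCast_eq_natCast_iff' q 3 4).1 (by rw [hq4]; rfl)
  obtain ⟨c, hc⟩ : ∃ c, t = 1 + T * c := by
    have h2 := (Nat.modEq_iff_dvd' (show 1 ≤ t by omega)).1 htT.symm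
    obtain ⟨c, hc⟩ := h2
    exact ⟨c, by omega⟩
  have h2 := h1 (c * q) q (by omega)
  have e1 : q + T * (c * q) = q * t := by
    rw [hc]
    ring
  rw [e1, a_prime hq (by omega), a_two_primes hq ht (by omega) (by omega) (by omega)] at h2
  obtain ⟨k, hk⟩ : ∃ k, q = 4 * k + 3 := ⟨q / 4, by omega⟩
  obtain ⟨j, hj⟩ : ∃ j, t = 2 * j + 1 := ⟨t / 2, by have := ht.eq_two_or_odd.resolve_left (by omega); omega⟩
  rw [hk, hj] at h2
  push_cast at h2
  have h8 : (8 : ZMod 8) = 0 := by decide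
  have h3 : (4 : ZMod 8) = 0 := by
    linear_combination h2 - (2 * (k : ZMod 8) * j + j + k) * h8
  exact absurd h3 (by decide)

end Pool.Agent.Lib.IXB.Nice
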