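import Pool.Agent.Lib.IXB.FiD
import Pool.Agent.Lib.IXB.Cnt
import Pool.Agent.Lib.IXB.NumB

/-!
# Push-pop grammars of bounded index for the palindrome-pair language are ambiguous
-/

set_option autoImplicit false

namespace Pool.Agent.Lib.IXB.Fi

open Pool.Agent.Lib.IXB

section
variable {T : Type} {G : IG T} {P : Set G.V} {k : ℕ}

theorem tr_inv {A : G.V} {β : List G.V} {r : Lt G} {X : Option (G.V × List G.V)} (h : Tr P A β r X) :
    (A ∈ P ∧ β = [A] ∧ r = (none, []) ∧ X = none) ∨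
    (∃ α, Rule.rw A α ∈ G.rules ∧ (∀ B ∈ vs α, B ∈ P) ∧ β = vs α ∧ r = (some (Rule.rw A α), []) ∧ X = none) ∨
    (∃ α γ₁ B γ₂ β₀, Rule.rw A α ∈ G.rules ∧ vs α = γ₁ ++ B :: γ₂ ∧ B ∉ P ∧ (∀ C ∈ γ₁, C ∈ P) ∧ (∀ C ∈ γ₂, C ∈ P) ∧
      β = γ₁ ++ (β₀ ++ γ₂) ∧ r = (some (Rule.rw A α), []) ∧ X = some (B, β₀)) ∨
    (∃ B f χ, Rule.push A B f ∈ G.rules ∧ (∀ ρ ∈ χ, ρ.2.1 = f ∧ pr ρ ∈ G.rules) ∧ β = nx χ ∧
      r = (some (Rule.push A B f), χ) ∧ X = some (B, χ.map Prod.fst)) := by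
  cases h with
  | stop h1 => exact Or.inl ⟨h1, rfl, rfl, rfl⟩
  | fin h1 h2 => exact Or.inr (Or.inl ⟨_, h1, h2, rfl, rfl, rfl⟩)
  | mid h1 h2 h3 h4 h5 => exact Or.inr (Or.inr (Or.inl ⟨_, _, _, _, _, h1, h2, h3, h4, h5, rfl, rfl, rfl⟩))
  | push h1 h2 => exact Or.inr (Or.inr (Or.inr ⟨_, _, _, h1, h2, rfl, rfl, rfl⟩))

theorem tr_fun {A : G.V} {β : List G.V} {r : Lt G} {X X' : Option (G.V × List G.V)} (h : Tr P A β r X)
    (h' : Tr P A β r X') : X = X' := by
  rcases tr_inv h with ⟨h1, h2, h3, h4⟩ | ⟨α, h1, h2, h3, h4, h5⟩ | ⟨α, γ₁, B, γ₂, β₀, h1, h2, h3, h4, h5, h6, h7, h8⟩ |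
      ⟨B, f, χ, h1, h2, h3, h4, h5⟩ <;>
    rcases tr_inv h' with ⟨g1, g2, g3, g4⟩ | ⟨α', g1, g2, g3, g4, g5⟩ | ⟨α', γ₁', B', γ₂', β₀', g1, g2, g3, g4, g5, g6, g7, g8⟩ |
      ⟨B', f', χ', g1, g2, g3, g4, g5⟩
  · rw [h4, g4]
  · rw [h3] at g4
    simp at g4
  · rw [h3] at g7
    simp at g7
  · rw [h3] at g4
    simp at g4
  · rw [h4] at g3
    simp at g3
  · rw [h5, g5]
  · rw [h4] at g7
    simp only [Prod.mk.injEq, Option.some.injEq, Rule.rw.injEq, true_and, and_true] at g7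
    subst g7
    exact absurd (h2 B' (by rw [g2]; simp)) g3
  · rw [h4] at g4
    simp at g4
  · rw [h7] at g3
    simp at g3
  · rw [h7] at g4
    simp only [Prod.mk.injEq, Option.some.injEq, Rule.rw.injEq, true_and, and_true] at g4
    subst g4
    exact absurd (g2 B (by rw [h2]; simp)) h3
  · rw [h7] at g7
    simp only [Prod.mk.injEq, Option.some.injEq, Rule.rw.injEq, true_and, and_true] at g7
    subst g7
    obtain ⟨rfl, rfl, rfl⟩ := dec_unique (h2.symm.trans g2) h3 g3 h4 g4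
    have h9 := List.append_cancel_right (List.append_cancel_left (h6.symm.trans g6))
    rw [h8, g8, h9]
  · rw [h7] at g4
    simp at g4
  · rw [h4] at g3
    simp at g3
  · rw [h4] at g4
    simp at g4
  · rw [h4] at g7
    simp at g7
  · rw [h4] at g4
    simp only [Prod.mk.injEq, Option.some.injEq, Rule.push.injEq, true_and] at g4
    obtain ⟨⟨rfl, rfl⟩, rfl⟩ := g4
    rw [h5, g5]

theorem rn_inv {A : G.V} {β : List G.V} {r : Lt G} {s : List (Lt G)} {n : ℕ} (h : Rn P k A β (r :: s) n) :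
    (s = [] ∧ n = wl r ∧ Tr P A β r none) ∨ ∃ B β' w, Tr P A β r (some (B, β')) ∧ β'.length ≤ k ∧ Rn P k B β' s w ∧
      n = wl r + w := by
  cases h with
  | one h1 => exact Or.inl ⟨rfl, rfl, h1⟩
  | cons h1 h2 h3 => exact Or.inr ⟨_, _, _, h1, h2, h3, rfl⟩

/-- the letters which occur in runs -/
def LS (G : IG T) (k : ℕ) : Set (Lt G) := {r | (r.1 = none ∨ ∃ p ∈ G.rules, r.1 = some p) ∧ (∀ ρ ∈ r.2, pr ρ ∈ G.rules) ∧
  r.2.length ≤ k}

theorem ls_fin : (LS G k).Finite := by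
  have h1 : {ρ : Po G | pr ρ ∈ G.rules}.Finite := by
    refine Set.Finite.preimage ?_ G.finR
    intro ρ _ ρ' _ h
    obtain ⟨e1, e2, e3⟩ := Rule.pop.inj h
    exact Prod.ext e1 (Prod.ext e2 e3)
  have : Finite {ρ : Po G // pr ρ ∈ G.rules} := h1.to_subtype
  have h2 : {χ : List (Po G) | (∀ ρ ∈ χ, pr ρ ∈ G.rules) ∧ χ.length ≤ k}.Finite := by
    refine ((List.finite_length_le {ρ : Po G // pr ρ ∈ G.rules} k).image (List.map Subtype.val)).subset ?_
    rintro χ ⟨hχ, hk⟩
    refine ⟨χ.attachWith _ hχ, ?_, ?_⟩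
    · show (χ.attachWith _ hχ).length ≤ k
      rw [List.length_attachWith]
      exact hk
    · exact List.attachWith_map_subtype_val _
  refine ((((G.finR.image some).insert none).prod h2)).subset ?_
  rintro ⟨p, χ⟩ ⟨h3, h4, h5⟩
  refine ⟨?_, h4, h5⟩
  rcases h3 with h3 | ⟨p', hp', h3⟩
  · exact Or.inl h3
  · exact Or.inr ⟨p', hp', h3.symm⟩

theorem tr_ls {A : G.V} {β : List G.V} {r : Lt G} {X : Option (G.V × List G.V)} (h : Tr P A β r X)
    (hX : ∀ B β', X = some (B, β') → β'.length ≤ k) : r ∈ LS G k := by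
  cases h with
  | stop h1 => exact ⟨Or.inl rfl, by simp, Nat.zero_le _⟩
  | fin h1 h2 => exact ⟨Or.inr ⟨_, h1, rfl⟩, by simp, Nat.zero_le _⟩
  | mid h1 h2 h3 h4 h5 => exact ⟨Or.inr ⟨_, h1, rfl⟩, by simp, Nat.zero_le _⟩
  | push h1 h2 =>
    refine ⟨Or.inr ⟨_, h1, rfl⟩, fun ρ hρ => (h2 ρ hρ).2, ?_⟩
    have h3 := hX _ _ rfl
    rw [List.length_map] at h3
    exact h3

theorem rn_ls {A : G.V} {β : List G.V} {s : List (Lt G)} {n : ℕ} (h : Rn P k A β s n) : ∀ r ∈ s, r ∈ LS G k := by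
  induction h with
  | one h1 =>
    intro r hr
    rw [List.mem_singleton.1 hr]
    exact tr_ls h1 (by simp)
  | cons h1 h2 _ ih =>
    intro r hr
    rcases List.mem_cons.1 hr with rfl | hr
    · exact tr_ls h1 (by
        intro B β' he
        simp only [Option.some.injEq, Prod.mk.injEq] at he
        rw [← he.2]
        exact h2)
    · exact ih r hr

/-- states -/
abbrev St (G : IG T) (k : ℕ) : Type := Option (Option (G.V × {β : List G.V // β.length ≤ k}))

/-- the underlying list -/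
def dn (X : Option (G.V × {β : List G.V // β.length ≤ k})) : Option (G.V × List G.V) := X.map fun y => (y.1, y.2.1)

theorem dn_inj {X Y : Option (G.V × {β : List G.V // β.length ≤ k})} (h : dn X = dn Y) : X = Y := by
  refine Option.map_injective ?_ h
  rintro ⟨a, b, hb⟩ ⟨a', b', hb'⟩ h
  simp only [Prod.mk.injEq] at h
  obtain ⟨rfl, rfl⟩ := h
  rfl

open Classical in
/-- the automaton -/
noncomputable def wa (P : Set G.V) (k : ℕ) : Cnt.WA (St G k) {r : Lt G // r ∈ LS G k} where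
  step s r := match s with
    | some (some (A, β)) => if h : ∃ X, Tr P A β.1 r.1 (dn X) then some h.choose else none
    | _ => none
  wt _ r := wl r.1
  acc := {some none}

theorem wa_step {A : G.V} {β : {β : List G.V // β.length ≤ k}} {r : {r : Lt G // r ∈ LS G k}}
    {X : Option (G.V × {β : List G.V // β.length ≤ k})} (h : Tr P A β.1 r.1 (dn X)) :
    (wa P k).step (some (some (A, β))) r = some X := by
  classical
  have hex : ∃ X : Option (G.V × {β : List G.V // β.length ≤ k}), Tr P A β.1 r.1 (dn X) := ⟨X, h⟩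
  show (if h : ∃ X : Option (G.V × {β : List G.V // β.length ≤ k}), Tr P A β.1 r.1 (dn X) then some h.choose else none) = some X
  rw [dif_pos hex]
  congr 1
  exact dn_inj (tr_fun hex.choose_spec h)

theorem wa_step_inv {A : G.V} {β : {β : List G.V // β.length ≤ k}} {r : {r : Lt G // r ∈ LS G k}}
    {X : Option (G.V × {β : List G.V // β.length ≤ k})} (h : (wa P k).step (some (some (A, β))) r = some X) :
    Tr P A β.1 r.1 (dn X) := by
  by_cases hex : ∃ X : Option (G.V × {β : List G.V // β.length ≤ k}), Tr P A β.1 r.1 (dn X)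
  · obtain ⟨Y, hY⟩ := hex
    rw [wa_step hY] at h
    rw [← Option.some.inj h]
    exact hY
  · have h1 : (wa P k).step (some (some (A, β))) r = none := dif_neg hex
    rw [h1] at h
    exact absurd h (by simp)

theorem wa_dead (s : List {r : Lt G // r ∈ LS G k}) : (wa P k).ev none s = none := by
  induction s with
  | nil => rfl
  | cons r s ih => exact ih

theorem wa_iff (s : List {r : Lt G // r ∈ LS G k}) : ∀ (A : G.V) (β : {β : List G.V // β.length ≤ k}) (n : ℕ),
    s ∈ (wa P k).C (some (some (A, β))) n ↔ Rn P k A β.1 (s.map Subtype.val) n := by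
  induction s with
  | nil =>
    intro A β n
    constructor
    · rintro ⟨h, -⟩
      have h1 : (some (some (A, β)) : St G k) = some none := h
      simp at h1
    · intro h
      cases h
  | cons r s ih =>
    intro A β n
    constructor
    · rintro ⟨h, hw⟩
      have h1 : (wa P k).ev ((wa P k).step (some (some (A, β))) r) s = some none := h
      have h2 : wl r.1 + (wa P k).w ((wa P k).step (some (some (A, β))) r) s = n := hw
      rcases hX : (wa P k).step (some (some (A, β))) r with _ | X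
      · rw [hX, wa_dead] at h1
        simp at h1
      · have h3 := wa_step_inv hX
        rw [hX] at h1 h2
        rcases X with _ | ⟨B, β'⟩
        · have h4 : s = [] := by
            cases s with
            | nil => rfl
            | cons r' s' =>
              have h5 : (wa P k).ev none s' = some none := h1
              rw [wa_dead] at h5
              simp at h5
          subst h4
          have h5 : wl r.1 + 0 = n := h2
          rw [← h5]
          exact Rn.one h3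
        · have h4 := (ih B β' _).1 ⟨h1, rfl⟩
          rw [← h2]
          exact Rn.cons h3 β'.2 h4
    · intro h
      rcases rn_inv h with ⟨h1, h2, h3⟩ | ⟨B, β', w, h1, h2, h3, h4⟩
      · have h5 : s = [] := List.map_eq_nil_iff.1 h1
        subst h5
        have h6 : (wa P k).step (some (some (A, β))) r = some none := wa_step (X := none) h3
        refine ⟨?_, ?_⟩
        · show (wa P k).ev ((wa P k).step (some (some (A, β))) r) [] = some none
          rw [h6]
          rfl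
        · show wl r.1 + (wa P k).w ((wa P k).step (some (some (A, β))) r) [] = n
          rw [h2]
          rfl
      · have h6 : (wa P k).step (some (some (A, β))) r = some (some (B, ⟨β', h2⟩)) := wa_step (X := some (B, ⟨β', h2⟩)) h1
        obtain ⟨h7, h8⟩ := (ih B ⟨β', h2⟩ w).2 h3
        refine ⟨?_, ?_⟩
        · show (wa P k).ev ((wa P k).step (some (some (A, β))) r) s ∈ _
          rw [h6]
          exact h7
        · show wl r.1 + (wa P k).w ((wa P k).step (some (some (A, β))) r) s = n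
          rw [h6, h8, h4]

theorem pt_inv {σ : List G.I} {A : G.V} {β : List G.V} {s : List (Lt G)} {w : ℕ} {es : List (List (Rule G.V G.I T))}
    {l : List (Rule G.V G.I T)} (h : PT P k σ A β s w es l) :
    (s = [(none, [])] ∧ es = [l]) ∨
    (∃ α, (∀ B ∈ vs α, B ∈ P) ∧ s = [(some (Rule.rw A α), [])] ∧ l = Rule.rw A α :: es.flatten) ∨
    (∃ α γ₁ B γ₂ β₀ s₀ w₀ e₁ es₀ e₂ m, vs α = γ₁ ++ B :: γ₂ ∧ B ∉ P ∧ (∀ C ∈ γ₁, C ∈ P) ∧ e₁.length = γ₁.length ∧
      es₀.length = β₀.length ∧ PT P k σ B β₀ s₀ w₀ es₀ m ∧ β = γ₁ ++ (β₀ ++ γ₂) ∧ s = (some (Rule.rw A α), []) :: s₀ ∧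
      es = e₁ ++ (es₀ ++ e₂) ∧ l = Rule.rw A α :: (e₁.flatten ++ (m ++ e₂.flatten))) ∨
    (∃ B f χ s₀ w₀ m, PT P k (f :: σ) B (χ.map Prod.fst) s₀ w₀ (regroup χ es) m ∧ s = (some (Rule.push A B f), χ) :: s₀ ∧
      l = Rule.push A B f :: m) := by
  cases h with
  | stop h1 => exact Or.inl ⟨rfl, rfl⟩
  | fin h1 h2 => exact Or.inr (Or.inl ⟨_, h2, rfl, rfl⟩)
  | mid h1 h2 h3 h4 h5 h6 h7 h8 h9 =>
    exact Or.inr (Or.inr (Or.inl ⟨_, _, _, _, _, _, _, _, _, _, _, h2, h3, h4, h6, h7, h9, rfl, rfl, rfl, rfl⟩))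
  | push h1 h2 h3 h4 => exact Or.inr (Or.inr (Or.inr ⟨_, _, _, _, _, _, h4, rfl, rfl⟩))

theorem pt_ne {σ : List G.I} {A : G.V} {β : List G.V} {s : List (Lt G)} {w : ℕ} {es : List (List (Rule G.V G.I T))}
    {l : List (Rule G.V G.I T)} (h : PT P k σ A β s w es l) : s ≠ [] := by
  cases h <;> simp

/-- a run and the derivations of the remaining variables determine the derivation -/
theorem pt_fun {σ : List G.I} {A : G.V} {β : List G.V} {s : List (Lt G)} {w : ℕ} {es : List (List (Rule G.V G.I T))}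
    {l : List (Rule G.V G.I T)} (h : PT P k σ A β s w es l) : ∀ {w' : ℕ} {l' : List (Rule G.V G.I T)},
      PT P k σ A β s w' es l' → l = l' := by
  induction h with
  | @stop σ A l h1 =>
    intro w' l' h'
    rcases pt_inv h' with ⟨-, h2⟩ | ⟨α, -, h2, -⟩ | ⟨α, γ₁, B, γ₂, β₀, s₀, w₀, e₁, es₀, e₂, m, -, -, -, -, -, -, -, h2, -, -⟩ |
      ⟨B, f, χ, s₀, w₀, m, -, h2, -⟩
    · exact (List.cons.inj h2).1
    · simp at h2
    · simp at h2
    · simp at h2
  | @fin σ A α es h1 h2 =>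
    intro w' l' h'
    rcases pt_inv h' with ⟨h3, -⟩ | ⟨α', -, h3, h4⟩ | ⟨α', γ₁, B, γ₂, β₀, s₀, w₀, e₁, es₀, e₂, m, -, -, -, -, -, h5, -, h3, -, -⟩ |
      ⟨B, f, χ, s₀, w₀, m, -, h3, -⟩
    · simp at h3
    · simp only [List.cons.injEq, Prod.mk.injEq, Option.some.injEq, Rule.rw.injEq, true_and, and_true] at h3
      rw [h4, h3]
    · exact absurd (List.cons.inj h3).2.symm (pt_ne h5)
    · simp at h3
  | @mid σ A B α γ₁ γ₂ β s w e₁ es e₂ m h1 h2 h3 h4 h5 h6 h7 h8 h9 ih =>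
    intro w' l' h'
    rcases pt_inv h' with ⟨g3, -⟩ | ⟨α', -, g3, -⟩ | ⟨α', γ₁', B', γ₂', β₀, s₀, w₀, e₁', es₀, e₂', m', g1, g2, g3, g4, g5, g6, g7, g8,
      g9, g10⟩ | ⟨B, f, χ, s₀, w₀, m, -, g3, -⟩
    · simp at g3
    · exact absurd (List.cons.inj g3).2 (pt_ne h9)
    · simp only [List.cons.injEq, Prod.mk.injEq, Option.some.injEq, Rule.rw.injEq, true_and, and_true] at g8
      obtain ⟨rfl, rfl⟩ := g8
      obtain ⟨rfl, rfl, rfl⟩ := dec_unique (h2.symm.trans g1) h3 g2 h4 g3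
      obtain rfl := List.append_cancel_right (List.append_cancel_left g7)
      obtain ⟨rfl, g11⟩ := List.append_inj g9 (h6.trans g4.symm)
      obtain ⟨rfl, rfl⟩ := List.append_inj g11 (h7.trans g5.symm)
      rw [g10, ih g6]
    · simp at g3
  | @push σ A B f χ s w es m h1 h2 h3 h4 ih =>
    intro w' l' h'
    rcases pt_inv h' with ⟨g3, -⟩ | ⟨α', -, g3, -⟩ | ⟨α', γ₁', B', γ₂', β₀, s₀, w₀, e₁', es₀, e₂', m', -, -, -, -, -, -, -, g8, -, -⟩ |
      ⟨B', f', χ', s₀, w₀, m', g1, g3, g4⟩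
    · simp at g3
    · simp at g3
    · simp at g8
    · simp only [List.cons.injEq, Prod.mk.injEq, Option.some.injEq, Rule.push.injEq, true_and] at g3
      obtain ⟨⟨⟨rfl, rfl⟩, rfl⟩, rfl⟩ := g3
      rw [g4, ih g1]

end

end Pool.Agent.Lib.IXB.Fi
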