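import Pool.Agent.Lib.IXB.FiE

/-!
# Push-pop grammars of bounded index for the palindrome-pair language are ambiguous: the main theorem
-/

set_option autoImplicit false

namespace Pool.Agent.Lib.IXB.Fi

open Pool.Agent.Lib.IXB

theorem lder_fun {T : Type} {G : IG T} {l : List (Rule G.V G.I T)} {F U U' : Form G.V G.I T} (h : G.LDer l F U)
    (h' : G.LDer l F U') : U = U' := by
  induction h with
  | nil F =>
    cases h'
    rfl
  | cons h1 _ ih =>
    cases h' with
    | cons h1' h2' =>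
      obtain ⟨hp, x, y, X, Z, h3, ha, h4⟩ := h1
      obtain ⟨hp', x', y', X', Z', h3', ha', h4'⟩ := h1'
      rw [h3] at h3'
      obtain ⟨rfl, rfl, rfl⟩ := left_unique h3'
      obtain rfl := act_fun ha ha'
      subst h4
      subst h4'
      exact ih h2'

section
variable {G : IG Bool} {P : Set G.V} {k : ℕ}

/-- the first state -/
def s0 (G : IG Bool) (k : ℕ) : St G k := some (some (G.start, ⟨[], Nat.zero_le _⟩))

theorem word_run (hG : PushPop G P) (hI : Index G k) (hu : G.Unambiguous) (hL : G.lang = LC) {u : List Bool} (hul : u ∈ LC) :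
    ∃ s : List {r : Lt G // r ∈ LS G k}, s ∈ (wa P k).C (s0 G k) u.length ∧ ∃ l w, PT P k [] G.start [] (s.map Subtype.val) w [] l ∧
      G.LDer l [Sum.inl (G.start, [])] (u.map Sum.inr) := by
  rw [← hL] at hul
  obtain ⟨l, hl, -⟩ := hu u hul
  obtain ⟨α, s, w, es, n, hpt, hd, hP, hlen, -⟩ := comp (k := k) hG l.length l le_rfl G.start [] u hI hl
  have h1 := dl_zero hG hd hP
  rw [h1] at hpt hd
  cases hd
  have h2 := pt_rn hpt
  have hs := rn_ls h2
  have h3 : (s.attachWith _ hs).map Subtype.val = s := List.attachWith_map_subtype_val _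
  refine ⟨s.attachWith _ hs, ?_, l, w, ?_, hl⟩
  · have h4 := (wa_iff (P := P) (k := k) (s.attachWith _ hs) G.start ⟨[], Nat.zero_le _⟩ u.length).2
    refine h4 ?_
    rw [h3, hlen, Nat.zero_add]
    exact h2
  · rw [h3]
    exact hpt

theorem run_word {s : List {r : Lt G // r ∈ LS G k}} {n : ℕ} (h : s ∈ (wa P k).C (s0 G k) n) :
    ∃ (l : List (Rule G.V G.I Bool)) (w : ℕ) (u : List Bool), PT P k [] G.start [] (s.map Subtype.val) w [] l ∧ G.LDer l [Sum.inl (G.start, [])] (u.map Sum.inr) ∧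
      u.length = n := by
  have h1 := (wa_iff (P := P) (k := k) s G.start ⟨[], Nat.zero_le _⟩ n).1 h
  obtain ⟨l, hl⟩ := rn_pt h1 [] [] rfl
  obtain ⟨u, h2, h3⟩ := pt_der hl DL.nil
  exact ⟨l, n, u, hl, h2, by omega⟩

theorem card_eq (hG : PushPop G P) (hI : Index G k) (hu : G.Unambiguous) (hL : G.lang = LC) (n : ℕ) :
    ((wa P k).C (s0 G k) n).Finite ∧ ((wa P k).C (s0 G k) n).ncard = Nice.cnt LC n := by
  have ex : ∀ u : {u : List Bool // u ∈ LC ∧ u.length = n}, ∃ s : (wa P k).C (s0 G k) n, ∃ l w,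
      PT P k [] G.start [] (s.1.map Subtype.val) w [] l ∧ G.LDer l [Sum.inl (G.start, [])] (u.1.map Sum.inr) := by
    rintro ⟨u, h1, rfl⟩
    obtain ⟨s, h2, h3⟩ := word_run hG hI hu hL h1
    exact ⟨⟨s, h2⟩, h3⟩
  choose g hg using ex
  have hb : Function.Bijective g := by
    constructor
    · rintro ⟨u, h1, h2⟩ ⟨u', h1', h2'⟩ he
      obtain ⟨l, w, h3, h4⟩ := hg ⟨u, h1, h2⟩
      obtain ⟨l', w', h3', h4'⟩ := hg ⟨u', h1', h2'⟩
      rw [← he] at h3'
      have h5 := pt_fun h3 h3'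
      subst h5
      have h6 := lder_fun h4 h4'
      have h7 : u = u' := List.map_injective_iff.2 Sum.inr_injective h6
      subst h7
      rfl
    · rintro ⟨s, hs⟩
      obtain ⟨l, w, u, h1, h2, h3⟩ := run_word hs
      have h4 : u ∈ LC := by
        rw [← hL]
        exact LDer_step G h2
      refine ⟨⟨u, h4, h3⟩, ?_⟩
      obtain ⟨l', w', h5, h6⟩ := hg ⟨u, h4, h3⟩
      obtain ⟨l₀, -, h7⟩ := hu u (by rw [hL]; exact h4)
      have h8 : l' = l := (h7 l' h6).trans (h7 l h2).symm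
      subst h8
      obtain ⟨h9, -⟩ := pt_inj hG h5 h1 DL.nil DL.nil
      exact Subtype.ext (List.map_injective_iff.2 Subtype.val_injective h9)
  have hfin : Finite {u : List Bool // u ∈ LC ∧ u.length = n} := Nice.fin_sub (n := n) fun u hu => hu.2
  have h1 := Nat.card_congr (Equiv.ofBijective g hb)
  have h2 : Finite ((wa P k).C (s0 G k) n) := Finite.of_surjective g hb.2
  refine ⟨Set.toFinite _, ?_⟩
  rw [← Nat.card_coe_set_eq]
  exact h1.symm

/-- the main theorem -/
theorem fi_main (hG : PushPop G P) (hI : Index G k) (hu : G.Unambiguous) : G.lang ≠ LC := by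
  intro hL
  have hfin : Finite {r : Lt G // r ∈ LS G k} := ls_fin.to_subtype
  have hV : Finite G.V := G.finV
  have hβ : Finite {β : List G.V // β.length ≤ k} := (List.finite_length_le G.V k).to_subtype
  obtain ⟨n₀, T, hT, h⟩ := Cnt.periodic (wa P k) (N := 8) (U := {s | ∃ π, (wa P k).ev (s0 G k) π = s}) (by
      rintro s ⟨π, rfl⟩ r
      exact ⟨π ++ [r], by rw [Cnt.ev_append]; rfl⟩) (by
      rintro s ⟨π, rfl⟩ n
      refine Set.Finite.of_finite_image (f := fun l => π ++ l) ?_ (fun _ _ _ _ h => List.append_cancel_left h)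
      refine (card_eq hG hI hu hL ((wa P k).w (s0 G k) π + n)).1.subset ?_
      rintro _ ⟨l, ⟨h1, h2⟩, rfl⟩
      refine ⟨?_, ?_⟩
      · show (wa P k).ev (s0 G k) (π ++ l) ∈ _
        rw [Cnt.ev_append]
        exact h1
      · show (wa P k).w (s0 G k) (π ++ l) = _
        rw [Cnt.w_append, h2])
  refine Nice.lc_not_periodic ⟨n₀, T, hT, fun n hn => ?_⟩
  have h1 := h n hn (s0 G k) ⟨[], rfl⟩
  unfold Cnt.cn at h1
  rw [(card_eq hG hI hu hL _).2, (card_eq hG hI hu hL _).2] at h1
  exact h1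

end

end Pool.Agent.Lib.IXB.Fi
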