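import Pool.Agent.Lib.IXB.Pres

/-!
# Bounded languages with a semilinear set of exponents are unambiguous indexed languages
-/

set_option autoImplicit false

namespace Pool.Agent.Lib.IXB

variable {T : Type} {k : ℕ}

/-- the least exponent vector of every word -/
theorem semi_all [Finite T] [NeZero k] (w : Fin k → List T) {S : Set (Fin k → ℕ)} (hS : IsSemilinearSet S) :
    ∃ G : IG T, G.Unambiguous ∧ G.lang = bw w '' S := by
  classical
  set S' : Set (Fin k → ℕ) := {x | x ∈ S ∧ ∀ y : Fin k → ℕ, (y ∈ S ∧ bw w y = bw w x) →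
    ¬ (∃ i, (∀ j, j < i → y j + 0 = x j + 0) ∧ y i < x i)} with hS'
  have h1 : IsSemilinearSet S' := by
    refine sl_and hS (sl_all (sl_imp (sl_and (sl_pre lin_snd hS) (sl_word_eq w lin_snd lin_fst))
      (sl_not (sl_fin_ex fun i => sl_and (sl_fin_all fun j => sl_imp (sl_const _) ?_) ?_))))
    · exact sl_eq ((lin_eval j).comp lin_snd) ((lin_eval j).comp lin_fst) 0 0
    · exact sl_lt ((lin_eval i).comp lin_snd) ((lin_eval i).comp lin_fst)
  have hlt : ∀ x y : Fin k → ℕ, toLex x < toLex y ↔ ∃ i, (∀ j, j < i → x j = y j) ∧ x i < y i := fun _ _ => Iff.rfl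
  have h2 : Set.InjOn (bw w) S' := by
    rintro x ⟨hx, hx'⟩ y ⟨hy, hy'⟩ he
    rcases lt_trichotomy (toLex x) (toLex y) with h | h | h
    · exact (hy' x ⟨hx, he⟩ ((hlt x y).1 h)).elim
    · exact h
    · exact (hx' y ⟨hy, he.symm⟩ ((hlt y x).1 h)).elim
  obtain ⟨G, hG, hL⟩ := semi_gram w h1 h2
  refine ⟨G, hG, hL.trans ?_⟩
  apply Set.Subset.antisymm
  · exact Set.image_mono fun x hx => hx.1
  · rintro u ⟨x, hx, rfl⟩
    have hwf : WellFounded (fun a b : Fin k → ℕ => toLex a < toLex b) := InvImage.wf toLex wellFounded_lt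
    obtain ⟨y, ⟨hy, he⟩, hmin⟩ := hwf.has_min {y | y ∈ S ∧ bw w y = bw w x} ⟨x, hx, rfl⟩
    refine ⟨y, ⟨hy, fun z hz h => hmin z ⟨hz.1, hz.2.trans he⟩ ((hlt z y).2 h)⟩, he⟩

/-- the general theorem, for every number of words -/
theorem semi_all' [Finite T] (w : Fin k → List T) {S : Set (Fin k → ℕ)} (hS : IsSemilinearSet S) :
    ∃ G : IG T, G.Unambiguous ∧ G.lang = bw w '' S := by
  cases k with
  | succ k => exact semi_all w hS
  | zero =>
    have h1 : IsSemilinearSet {_x : Fin 1 → ℕ | S.Nonempty} := sl_const _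
    obtain ⟨G, hG, hL⟩ := semi_all (fun _ : Fin 1 => ([] : List T)) h1
    refine ⟨G, hG, hL.trans ?_⟩
    have h2 : ∀ x : Fin 1 → ℕ, bw (fun _ : Fin 1 => ([] : List T)) x = [] := by
      intro x
      simp [bw]
    have h3 : ∀ x : Fin 0 → ℕ, bw w x = [] := by
      intro x
      simp [bw]
    ext u
    constructor
    · rintro ⟨x, ⟨y, hy⟩, rfl⟩
      exact ⟨y, hy, by rw [h2, h3]⟩
    · rintro ⟨x, hx, rfl⟩
      exact ⟨fun _ => 0, ⟨x, hx⟩, by rw [h2, h3]⟩

theorem dfa_rep {Q : Type} (M : DFA T Q) (v : List T) (s : Q) (n : ℕ) :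
    M.evalFrom s (List.replicate n v).flatten = (fun s => M.evalFrom s v)^[n] s := by
  induction n generalizing s with
  | zero => rfl
  | succ n ih =>
    rw [List.replicate_succ, List.flatten_cons, DFA.evalFrom_of_append, ih, Function.iterate_succ_apply]

theorem sl_iter {Q : Type} [Finite Q] (g : Q → Q) (s s' : Q) : IsSemilinearSet {n : ℕ | g^[n] s = s'} := by
  rw [Nat.isSemilinearSet_iff_ultimately_periodic]
  obtain ⟨i, j, hij, h⟩ := Finite.exists_ne_map_eq_of_infinite (fun n : ℕ => g^[n] s)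
  wlog hlt : i < j generalizing i j with H
  · exact H j i hij.symm h.symm (by omega)
  refine ⟨i, j - i, by omega, fun x hx => ?_⟩
  have h1 : g^[x + (j - i)] s = g^[x] s := by
    have e1 : x + (j - i) = (x - i) + j := by omega
    have e2 : x = (x - i) + i := by omega
    have h' : g^[i] s = g^[j] s := h
    calc g^[x + (j - i)] s = g^[(x - i) + j] s := by rw [e1]
      _ = g^[x - i] (g^[j] s) := Function.iterate_add_apply _ _ _ _
      _ = g^[x - i] (g^[i] s) := by rw [h']
      _ = g^[(x - i) + i] s := (Function.iterate_add_apply _ _ _ _).symm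
      _ = g^[x] s := by rw [← e2]
  show g^[x] s = s' ↔ g^[x + (j - i)] s = s'
  rw [h1]

theorem sl_dfa {Q : Type} [Finite Q] (M : DFA T Q) (w : Fin k → List T) (s s' : Q) :
    IsSemilinearSet {x : Fin k → ℕ | M.evalFrom s (bw w x) = s'} := by
  induction k generalizing s with
  | zero =>
    have h : {x : Fin 0 → ℕ | M.evalFrom s (bw w x) = s'} = {x : Fin 0 → ℕ | s = s'} := by
      ext x
      simp [bw]
    rw [h]
    exact sl_const _
  | succ k ih =>
    have h : {x : Fin (k + 1) → ℕ | M.evalFrom s (bw w x) = s'} = {x : Fin (k + 1) → ℕ | ∃ s'' : Q,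
        (fun s => M.evalFrom s (w 0))^[x 0] s = s'' ∧
          M.evalFrom s'' (bw (fun i => w i.succ) (fun i => x i.succ)) = s'} := by
      ext x
      show M.evalFrom s (bw w x) = s' ↔ _
      rw [bw_succ, DFA.evalFrom_of_append, dfa_rep]
      constructor
      · intro h
        exact ⟨_, rfl, h⟩
      · rintro ⟨s'', rfl, h⟩
        exact h
    rw [h]
    refine sl_fin_ex fun s'' => sl_and (sl_pre (lin_eval 0) (sl_iter _ s s'')) ?_
    have hl : Lin (fun x : Fin (k + 1) → ℕ => fun i : Fin k => x i.succ) := ⟨rfl, fun _ _ => rfl⟩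
    exact sl_pre hl (ih (fun i => w i.succ) s'')

theorem sl_lang {L : Language T} (hL : L.IsRegular) (w : Fin k → List T) : IsSemilinearSet {x : Fin k → ℕ | bw w x ∈ L} := by
  obtain ⟨Q, _, M, rfl⟩ := hL
  have h := sl_fin_ex fun s : M.accept => sl_dfa M w M.start s.1
  have h2 : {x : Fin k → ℕ | bw w x ∈ M.accepts} = {x : Fin k → ℕ | ∃ s : M.accept, M.evalFrom M.start (bw w x) = s.1} := by
    ext x
    constructor
    · intro h
      exact ⟨⟨_, h⟩, rfl⟩
    · rintro ⟨s, hs⟩
      show M.evalFrom M.start (bw w x) ∈ M.accept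
      rw [hs]
      exact s.2
  rw [h2]
  exact h

end Pool.Agent.Lib.IXB
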