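import Pool.Agent.Lib.IXB.One
import Pool.Agent.Lib.IXB.Main

/-!
# Classes with polynomially many products of two palindromes
-/

set_option autoImplicit false

namespace Pool.Agent.Lib.IXB.Flag

/-- the first half of a palindrome -/
theorem pal_split {T : Type} {v : List T} (h : v.reverse = v) : ∃ (x : List T) (c : Option T), v = x ++ c.toList ++ x.reverse := by
  have h1 := List.Palindrome.of_reverse_eq h
  clear h
  induction h1 with
  | nil => exact ⟨[], none, rfl⟩
  | singleton x => exact ⟨[], some x, rfl⟩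
  | cons_concat x _ ih =>
    obtain ⟨y, c, rfl⟩ := ih
    exact ⟨x :: y, c, by simp⟩

/-- the palindrome with a given first half and middle -/
def pl {T : Type} (c : Option T) (x : List T) : List T := x ++ c.toList ++ x.reverse

theorem pl_rev {T : Type} (c : Option T) (x : List T) : (pl c x).reverse = pl c x := by
  unfold pl
  rw [List.reverse_append, List.reverse_append, List.reverse_reverse]
  cases c <;> simp

theorem pl_len {T : Type} (c : Option T) (x : List T) : (pl c x).length = 2 * x.length + c.toList.length := by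
  unfold pl
  rw [List.length_append, List.length_append, List.length_reverse]
  ring

theorem pl_inj {T : Type} (c : Option T) {x y : List T} (hl : x.length = y.length) (h : pl c x = pl c y) : x = y := by
  unfold pl at h
  rw [List.append_assoc, List.append_assoc] at h
  exact (List.append_inj h hl).1

/-- polynomially many words of each length -/
def Pg (L : Set (List Bool)) : Prop := ∃ C d : ℕ, ∀ n : ℕ, {u : List Bool | u ∈ L ∧ u.length = n}.ncard ≤ C * (n + 1) ^ d

theorem fin_len (L : Set (List Bool)) (n : ℕ) : {u : List Bool | u ∈ L ∧ u.length = n}.Finite :=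
  (List.finite_length_eq Bool n).subset fun _ hu => hu.2

/-- growth passes down along injective maps -/
theorem Pg.comap {L K : Set (List Bool)} (h : Pg L) (f : List Bool → List Bool) (m : ℕ) (hf : ∀ x ∈ K, f x ∈ L)
    (hl : ∀ x, (f x).length = 2 * x.length + m) (hi : ∀ x y : List Bool, x.length = y.length → f x = f y → x = y) : Pg K := by
  obtain ⟨C, d, h⟩ := h
  refine ⟨C * (m + 2) ^ d, d, fun n => ?_⟩
  have h1 : {u : List Bool | u ∈ K ∧ u.length = n}.ncard ≤ {u : List Bool | u ∈ L ∧ u.length = 2 * n + m}.ncard := by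
    refine Set.ncard_le_ncard_of_injOn f ?_ ?_ (fin_len L _)
    · rintro x ⟨hx, hn⟩
      exact ⟨hf x hx, by rw [hl, hn]⟩
    · rintro x ⟨-, hx⟩ y ⟨-, hy⟩ he
      exact hi x y (hx.trans hy.symm) he
  refine h1.trans ((h _).trans ?_)
  rw [mul_assoc, ← mul_pow]
  refine Nat.mul_le_mul_left _ (Nat.pow_le_pow_left ?_ _)
  nlinarith [Nat.zero_le (m * n)]

theorem Pg.reverse {L : Set (List Bool)} (h : Pg L) : Pg {u : List Bool | u.reverse ∈ L} := by
  obtain ⟨C, d, h⟩ := h
  refine ⟨C, d, fun n => le_trans ?_ (h n)⟩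
  refine Set.ncard_le_ncard_of_injOn List.reverse ?_ ?_ (fin_len L _)
  · rintro x ⟨hx, hn⟩
    exact ⟨hx, by rw [List.length_reverse, hn]⟩
  · rintro x - y - he
    exact List.reverse_injective he

section
variable {S : Type} [Monoid S] (g : Bool → S)

/-- the words with given values of the word and of its mirror image -/
def Kh (a : S × S) : Language Bool := Ls g a.1 ⊓ (Ls g a.2).reverse

theorem kh_iff {a : S × S} {x : List Bool} : x ∈ Kh g a ↔ ev g x = a.1 ∧ ev g x.reverse = a.2 := Iff.rfl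

theorem kh_regular [Finite S] (a : S × S) : (Kh g a).IsRegular := (ls_regular g a.1).inf (ls_regular g a.2).reverse

theorem kh_bdd [Finite S] {a : S × S} (h : Pg {x | x ∈ Kh g a}) (c : Option Bool) : Bdd (pl c '' {x | x ∈ Kh g a}) := by
  have h1 : Bdd {x | x ∈ Kh g a} := by
    obtain ⟨C, d, h⟩ := h
    exact poly_bdd (kh_regular g a) h
  have h2 : Bdd {x | x ∈ (Kh g a).reverse} := by
    obtain ⟨C, d, h⟩ := h.reverse
    exact poly_bdd (kh_regular g a).reverse h
  refine ((h1.mul (Bdd.single c.toList)).mul h2).mono ?_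
  rintro _ ⟨x, hx, rfl⟩
  refine ⟨x ++ c.toList, ⟨x, hx, c.toList, rfl, rfl⟩, x.reverse, ?_, rfl⟩
  show x.reverse.reverse ∈ Kh g a
  rw [List.reverse_reverse]
  exact hx

theorem ev_pl (c : Option Bool) {a : S × S} {x : List Bool} (hx : x ∈ Kh g a) : ev g (pl c x) = a.1 * ev g c.toList * a.2 := by
  obtain ⟨h1, h2⟩ := (kh_iff g).1 hx
  unfold pl
  rw [ev_append, ev_append, h1, h2]

/-- if a class has polynomially many products of two palindromes then these form a bounded language -/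
theorem lc_bdd [Finite S] (s : S) (h : Pg {u : List Bool | u ∈ LC ∧ ev g u = s}) : Bdd {u : List Bool | u ∈ LC ∧ ev g u = s} := by
  classical
  let U : ((S × S) × Option Bool) × ((S × S) × Option Bool) → Set (List Bool) := fun i =>
    if (i.1.1.1 * ev g i.1.2.toList * i.1.1.2) * (i.2.1.1 * ev g i.2.2.toList * i.2.1.2) = s ∧
      (∃ x, x ∈ Kh g i.1.1) ∧ (∃ y, y ∈ Kh g i.2.1) then
    Set.image2 (· ++ ·) (pl i.1.2 '' {x | x ∈ Kh g i.1.1}) (pl i.2.2 '' {x | x ∈ Kh g i.2.1}) else ∅
  have h1 : ∀ i, Bdd (U i) := by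
    rintro ⟨⟨a, c⟩, ⟨b, d⟩⟩
    by_cases hc : (a.1 * ev g c.toList * a.2) * (b.1 * ev g d.toList * b.2) = s ∧
      (∃ x, x ∈ Kh g a) ∧ (∃ y, y ∈ Kh g b)
    · have e : U ((a, c), (b, d)) = Set.image2 (· ++ ·) (pl c '' {x | x ∈ Kh g a}) (pl d '' {x | x ∈ Kh g b}) := if_pos hc
      rw [e]
      obtain ⟨hs, ⟨x₀, hx₀⟩, ⟨y₀, hy₀⟩⟩ := hc
      have hmem : ∀ x ∈ Kh g a, ∀ y ∈ Kh g b, pl c x ++ pl d y ∈ {u : List Bool | u ∈ LC ∧ ev g u = s} := by
        intro x hx y hy
        refine ⟨⟨pl c x, pl d y, pl_rev c x, pl_rev d y, rfl⟩, ?_⟩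
        rw [ev_append, ev_pl g c hx, ev_pl g d hy, hs]
      have ha : Pg {x | x ∈ Kh g a} := h.comap (fun x => pl c x ++ pl d y₀) (c.toList.length + (pl d y₀).length)
        (fun x hx => hmem x hx y₀ hy₀)
        (fun x => by rw [List.length_append, pl_len, add_assoc])
        (fun x y hl he => pl_inj c hl (List.append_inj he (by rw [pl_len, pl_len, hl])).1)
      have hb : Pg {x | x ∈ Kh g b} := h.comap (fun y => pl c x₀ ++ pl d y) (d.toList.length + (pl c x₀).length)
        (fun y hy => hmem x₀ hx₀ y hy)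
        (fun y => by rw [List.length_append, pl_len d y]; ring)
        (fun x y hl he => pl_inj d hl (List.append_cancel_left he))
      exact (kh_bdd g ha c).mul (kh_bdd g hb d)
    · have e : U ((a, c), (b, d)) = ∅ := if_neg hc
      rw [e]
      exact Bdd.empty
  refine (Bdd.iUnion h1).mono ?_
  rintro u ⟨⟨v, v', hv, hv', rfl⟩, hs⟩
  obtain ⟨x, c, rfl⟩ := pal_split hv
  obtain ⟨y, d, rfl⟩ := pal_split hv'
  rw [Set.mem_iUnion]
  have hx : x ∈ Kh g (ev g x, ev g x.reverse) := (kh_iff g).2 ⟨rfl, rfl⟩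
  have hy : y ∈ Kh g (ev g y, ev g y.reverse) := (kh_iff g).2 ⟨rfl, rfl⟩
  refine ⟨(((ev g x, ev g x.reverse), c), ((ev g y, ev g y.reverse), d)), ?_⟩
  have hc : ((ev g x * ev g c.toList * ev g x.reverse) * (ev g y * ev g d.toList * ev g y.reverse)) = s ∧
      (∃ z, z ∈ Kh g (ev g x, ev g x.reverse)) ∧ (∃ z, z ∈ Kh g (ev g y, ev g y.reverse)) := by
    refine ⟨?_, ⟨x, hx⟩, ⟨y, hy⟩⟩
    rw [← ev_append, ← ev_append, ← ev_append, ← ev_append, ← ev_append]
    exact hs
  have e : U (((ev g x, ev g x.reverse), c), ((ev g y, ev g y.reverse), d)) =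
    Set.image2 (· ++ ·) (pl c '' {z | z ∈ Kh g (ev g x, ev g x.reverse)}) (pl d '' {z | z ∈ Kh g (ev g y, ev g y.reverse)}) := if_pos hc
  rw [e]
  exact ⟨_, ⟨x, hx, rfl⟩, _, ⟨y, hy, rfl⟩, rfl⟩

/-- bounded classes -/
theorem lc_unamb [Finite S] (s : S) (h : Pg {u : List Bool | u ∈ LC ∧ ev g u = s}) :
    ∃ G : IG Bool, G.Unambiguous ∧ G.lang = {u : List Bool | u ∈ LC ∧ ev g u = s} := by
  obtain ⟨ws, hws⟩ := lc_bdd g s h
  obtain ⟨G, hG, hL⟩ := semi_all' (fun i : Fin ws.length => ws[i])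
    (sl_and (sl_LC fun i : Fin ws.length => ws[i]) (sl_lang (ls_regular g s) fun i : Fin ws.length => ws[i]))
  refine ⟨G, hG, hL.trans ?_⟩
  ext u
  constructor
  · rintro ⟨x, hx, rfl⟩
    exact hx
  · rintro ⟨h1, h2⟩
    obtain ⟨x, rfl⟩ := bl_get ws (hws ⟨h1, h2⟩)
    exact ⟨x, ⟨h1, h2⟩, rfl⟩

end

end Pool.Agent.Lib.IXB.Flag
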