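import Pool.Agent.Lib.IXB.FiD
import Pool.Agent.Lib.IXB.Half

/-!
# A push-pop grammar of index 2 for the palindrome-pair language
-/

set_option autoImplicit false

namespace Pool.Agent.Lib.IXB.Fi

open Pool.Agent.Lib.IXB

/-- the right-hand side of a reader -/
def rb (b w c : Bool) : List (Option Bool ⊕ Bool) := if w = b then [Sum.inr c, Sum.inl (some b), Sum.inr c] else [Sum.inl (some b)]

/-- the productions -/
def gR : Set (Rule (Option Bool) (Option (Bool × Bool)) Bool) :=
  Set.range (fun f => Rule.push none none f) ∪ ({Rule.rw none [Sum.inl (some true), Sum.inl (some false)]} ∪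
    (Set.range (fun x : Bool × Bool × Bool => Rule.pop (some x.1) (some x.2) (rb x.1 x.2.1 x.2.2)) ∪
      Set.range (fun x : Bool × Option Bool => Rule.pop (some x.1) none (x.2.toList.map Sum.inr))))

/-- the grammar -/
abbrev gE : IG Bool where
  V := Option Bool
  I := Option (Bool × Bool)
  finV := inferInstance
  finI := inferInstance
  start := none
  rules := gR
  finR := by
    refine (Set.finite_range _).union ((Set.finite_singleton _).union ((Set.finite_range _).union (Set.finite_range _)))

theorem gr_cases {p : Rule (Option Bool) (Option (Bool × Bool)) Bool} (h : p ∈ gR) :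
    (∃ f, p = Rule.push none none f) ∨ p = Rule.rw none [Sum.inl (some true), Sum.inl (some false)] ∨
      (∃ b w c, p = Rule.pop (some b) (some (w, c)) (rb b w c)) ∨ ∃ (b : Bool) (d : Option Bool), p = Rule.pop (some b) none (d.toList.map Sum.inr) := by
  rcases h with ⟨f, h⟩ | h | ⟨⟨b, w, c⟩, h⟩ | ⟨⟨b, d⟩, h⟩
  · exact Or.inl ⟨f, h.symm⟩
  · exact Or.inr (Or.inl h)
  · exact Or.inr (Or.inr (Or.inl ⟨b, w, c, h.symm⟩))
  · exact Or.inr (Or.inr (Or.inr ⟨b, d, h.symm⟩))

theorem ge_pushpop : PushPop gE {X : Option Bool | X ≠ none} where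
  rw := by
    intro A α h
    rcases gr_cases h with ⟨f, h⟩ | h | ⟨b, w, c, h⟩ | ⟨b, d, h⟩
    · exact absurd h (by simp)
    · obtain ⟨rfl, rfl⟩ := Rule.rw.inj h
      refine ⟨fun h => h rfl, Or.inl ?_⟩
      intro B hB
      simp only [List.mem_cons, Sum.inl.injEq, List.not_mem_nil, or_false] at hB
      rcases hB with rfl | rfl <;> simp
    · exact absurd h (by simp)
    · exact absurd h (by simp)
  push := by
    intro A B f h
    rcases gr_cases h with ⟨f, h⟩ | h | ⟨b, w, c, h⟩ | ⟨b, d, h⟩
    · obtain ⟨rfl, -, -⟩ := Rule.push.inj h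
      exact fun h => h rfl
    · exact absurd h (by simp)
    · exact absurd h (by simp)
    · exact absurd h (by simp)
  pop := by
    intro A f α h
    rcases gr_cases h with ⟨f, h⟩ | h | ⟨b, w, c, h⟩ | ⟨b, d, h⟩
    · exact absurd h (by simp)
    · exact absurd h (by simp)
    · obtain ⟨rfl, -, rfl⟩ := Rule.pop.inj h
      refine ⟨by simp, fun B hB => ?_⟩
      unfold rb at hB
      split at hB
      · simp only [List.mem_cons, reduceCtorEq, Sum.inl.injEq, List.not_mem_nil, or_false, false_or] at hB
        rw [hB]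
        simp
      · simp only [List.mem_cons, Sum.inl.injEq, List.not_mem_nil, or_false] at hB
        rw [hB]
        simp
    · obtain ⟨rfl, -, rfl⟩ := Rule.pop.inj h
      refine ⟨by simp, fun B hB => ?_⟩
      simp at hB

/-- words of a variable -/
def W : Option Bool → Set (List Bool)
  | none => LC
  | some _ => {u | u.reverse = u}

/-- words of a form -/
def sem : Form (Option Bool) (Option (Bool × Bool)) Bool → List Bool → Prop
  | [], u => u = []
  | Sum.inr t :: F, u => ∃ u', u = t :: u' ∧ sem F u'
  | Sum.inl X :: F, u => ∃ a u', u = a ++ u' ∧ a ∈ W X.1 ∧ sem F u'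

theorem sem_append (F F' : Form (Option Bool) (Option (Bool × Bool)) Bool) (u : List Bool) :
    sem (F ++ F') u ↔ ∃ a b, u = a ++ b ∧ sem F a ∧ sem F' b := by
  induction F generalizing u with
  | nil =>
    constructor
    · intro h
      exact ⟨[], u, rfl, rfl, h⟩
    · rintro ⟨a, b, rfl, h1, h2⟩
      have h3 : a = [] := h1
      rw [h3]
      exact h2
  | cons x F ih =>
    cases x with
    | inr t =>
      constructor
      · rintro ⟨u', rfl, h⟩
        obtain ⟨a, b, rfl, h1, h2⟩ := (ih u').1 h
        exact ⟨t :: a, b, rfl, ⟨a, rfl, h1⟩, h2⟩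
      · rintro ⟨a, b, rfl, ⟨a', rfl, h1⟩, h2⟩
        exact ⟨a' ++ b, rfl, (ih _).2 ⟨a', b, rfl, h1, h2⟩⟩
    | inl X =>
      constructor
      · rintro ⟨c, u', rfl, hc, h⟩
        obtain ⟨a, b, rfl, h1, h2⟩ := (ih u').1 h
        exact ⟨c ++ a, b, (List.append_assoc _ _ _).symm, ⟨c, a, rfl, hc, h1⟩, h2⟩
      · rintro ⟨a, b, rfl, ⟨c, a', rfl, hc, h1⟩, h2⟩
        exact ⟨c, a' ++ b, List.append_assoc _ _ _, hc, (ih _).2 ⟨a', b, rfl, h1, h2⟩⟩

theorem sem_term (v : List Bool) : sem (v.map Sum.inr) v := by
  induction v with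
  | nil => rfl
  | cons t v ih => exact ⟨v, rfl, ih⟩

theorem sem_act {p : Rule (Option Bool) (Option (Bool × Bool)) Bool} (hp : p ∈ gR) {X : Option Bool × List (Option (Bool × Bool))}
    {Z : Form (Option Bool) (Option (Bool × Bool)) Bool} (ha : Act p X Z) {u : List Bool} (h : sem Z u) : u ∈ W X.1 := by
  cases ha with
  | rw A α σ =>
    rcases gr_cases hp with ⟨f, h1⟩ | h1 | ⟨b, w, c, h1⟩ | ⟨b, d, h1⟩
    · exact absurd h1 (by simp)
    · obtain ⟨rfl, rfl⟩ := Rule.rw.inj h1
      obtain ⟨a, u', rfl, ha, b, u'', rfl, hb, h2⟩ := h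
      have h3 : u'' = [] := h2
      subst h3
      exact ⟨a, b, ha, hb, by simp⟩
    · exact absurd h1 (by simp)
    · exact absurd h1 (by simp)
  | push A B f σ =>
    rcases gr_cases hp with ⟨f, h1⟩ | h1 | ⟨b, w, c, h1⟩ | ⟨b, d, h1⟩
    · obtain ⟨rfl, rfl, -⟩ := Rule.push.inj h1
      obtain ⟨a, u', rfl, ha, h2⟩ := h
      have h3 : u' = [] := h2
      subst h3
      rw [List.append_nil]
      exact ha
    · exact absurd h1 (by simp)
    · exact absurd h1 (by simp)
    · exact absurd h1 (by simp)
  | pop A f α σ =>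
    rcases gr_cases hp with ⟨f, h1⟩ | h1 | ⟨b, w, c, h1⟩ | ⟨b, d, h1⟩
    · exact absurd h1 (by simp)
    · exact absurd h1 (by simp)
    · obtain ⟨rfl, -, rfl⟩ := Rule.pop.inj h1
      unfold rb at h
      split at h
      · obtain ⟨u', rfl, a, u'', rfl, ha, u3, rfl, h2⟩ := h
        have h3 : u3 = [] := h2
        subst h3
        have h4 : a.reverse = a := ha
        show (c :: (a ++ [c])).reverse = c :: (a ++ [c])
        simp [h4]
      · obtain ⟨a, u', rfl, ha, h2⟩ := h
        have h3 : u' = [] := h2
        subst h3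
        rw [List.append_nil]
        exact ha
    · obtain ⟨rfl, -, rfl⟩ := Rule.pop.inj h1
      cases d with
      | none =>
        have h3 : u = [] := h
        rw [h3]
        rfl
      | some d =>
        obtain ⟨u', rfl, h2⟩ := h
        have h3 : u' = [] := h2
        rw [h3]
        rfl

theorem ge_sub {F : Form (Option Bool) (Option (Bool × Bool)) Bool} {u : List Bool}
    (h : Relation.ReflTransGen gE.Step F (u.map Sum.inr)) : sem F u := by
  induction h using Relation.ReflTransGen.head_induction_on with
  | refl => exact sem_term u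
  | head h1 _ ih =>
    obtain ⟨p, hp, x, y, X, Z, rfl, ha, rfl⟩ := h1
    obtain ⟨a, b, rfl, h2, h3⟩ := (sem_append _ _ _).1 ih
    obtain ⟨c, d, rfl, h4, h5⟩ := (sem_append _ _ _).1 h3
    exact (sem_append _ _ _).2 ⟨a, c ++ d, rfl, h2, c, d, rfl, sem_act hp ha h4, h5⟩

/-- the part of a stack which a reader sees -/
def see (b : Bool) : List (Bool × Bool) → List Bool
  | [] => []
  | (w, c) :: σ => if w = b then c :: see b σ else see b σ

theorem read (b : Bool) (d : Option Bool) (σ' : List (Option (Bool × Bool))) (σ : List (Bool × Bool)) :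
    Relation.ReflTransGen gE.Step [Sum.inl (some b, σ.map some ++ none :: σ')]
      ((see b σ ++ d.toList ++ (see b σ).reverse).map Sum.inr) := by
  induction σ with
  | nil =>
    refine .single ⟨Rule.pop (some b) none (d.toList.map Sum.inr), Or.inr (Or.inr (Or.inr ⟨(b, d), rfl⟩)), [], [],
      (some b, none :: σ'), att σ' (d.toList.map Sum.inr), rfl, Act.pop _ _ _ _, ?_⟩
    cases d <;> rfl
  | cons x σ ih =>
    obtain ⟨w, c⟩ := x
    have h1 : Relation.ReflTransGen gE.Step [Sum.inl (some b, ((w, c) :: σ).map some ++ none :: σ')]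
        (att (σ.map some ++ none :: σ') (rb b w c)) := by
      refine .single ⟨Rule.pop (some b) (some (w, c)) (rb b w c), Or.inr (Or.inr (Or.inl ⟨(b, w, c), rfl⟩)), [], [],
        (some b, some (w, c) :: (σ.map some ++ none :: σ')), att (σ.map some ++ none :: σ') (rb b w c), rfl, Act.pop _ _ _ _, ?_⟩
      simp
    refine h1.trans ?_
    by_cases hw : w = b
    · have e1 : see b ((w, c) :: σ) = c :: see b σ := if_pos hw
      have e2 : rb b w c = [Sum.inr c, Sum.inl (some b), Sum.inr c] := if_pos hw
      rw [e1, e2]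
      have h2 := step_ctx [Sum.inr c] [Sum.inr c] ih
      simp only [List.map_append, List.map_cons, List.cons_append, List.reverse_cons, List.append_assoc, List.map_nil,
        List.nil_append] at h2 ⊢
      exact h2
    · have e1 : see b ((w, c) :: σ) = see b σ := if_neg hw
      have e2 : rb b w c = [Sum.inl (some b)] := if_neg hw
      rw [e1, e2]
      exact ih

theorem push_all (σ σ' : List (Option (Bool × Bool))) :
    Relation.ReflTransGen gE.Step [Sum.inl (none, σ')] [Sum.inl (none, σ ++ σ')] := by
  induction σ with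
  | nil => exact .refl
  | cons f σ ih =>
    refine ih.tail ⟨Rule.push none none f, Or.inl ⟨f, rfl⟩, [], [], (none, σ ++ σ'), [Sum.inl (none, f :: (σ ++ σ'))], rfl,
      Act.push _ _ _ _, rfl⟩

theorem see_true (x y : List Bool) : see true (x.map (fun c => (true, c)) ++ y.map fun c => (false, c)) = x := by
  induction x with
  | nil =>
    induction y with
    | nil => rfl
    | cons c y ih => exact ih
  | cons c x ih => exact congrArg (List.cons c) ih

theorem see_false (x y : List Bool) : see false (x.map (fun c => (true, c)) ++ y.map fun c => (false, c)) = y := by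
  induction x with
  | nil =>
    induction y with
    | nil => rfl
    | cons c y ih =>
      show c :: see false _ = c :: y
      have h : see false (y.map fun c => (false, c)) = y := ih
      rw [h]
  | cons c x ih => exact ih

theorem ge_lang : gE.lang = LC := by
  ext u
  constructor
  · intro h
    obtain ⟨a, u', rfl, ha, h2⟩ := ge_sub h
    have h3 : u' = [] := h2
    subst h3
    rw [List.append_nil]
    exact ha
  · rintro ⟨v, v', hv, hv', rfl⟩
    obtain ⟨x, d, rfl⟩ := Flag.pal_split hv
    obtain ⟨y, d', rfl⟩ := Flag.pal_split hv'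
    have h1 := push_all ((x.map (fun c => (true, c)) ++ y.map fun c => (false, c)).map some ++ [none]) []
    rw [List.append_nil] at h1
    have h2 := read true d [] (x.map (fun c => (true, c)) ++ y.map fun c => (false, c))
    have h3 := read false d' [] (x.map (fun c => (true, c)) ++ y.map fun c => (false, c))
    rw [see_true] at h2
    rw [see_false] at h3
    have h4 := step_ctx [] [Sum.inl (some false, (x.map (fun c => (true, c)) ++ y.map fun c => (false, c)).map some ++ [none])] h2
    have h5 := step_ctx ((x ++ d.toList ++ x.reverse).map Sum.inr) [] h3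
    simp only [List.nil_append, List.append_nil] at h4 h5
    have h6 : Relation.ReflTransGen gE.Step
        [Sum.inl (none, (x.map (fun c => (true, c)) ++ y.map fun c => (false, c)).map some ++ [none])]
        ([Sum.inl (some true, (x.map (fun c => (true, c)) ++ y.map fun c => (false, c)).map some ++ [none])] ++
          [Sum.inl (some false, (x.map (fun c => (true, c)) ++ y.map fun c => (false, c)).map some ++ [none])]) :=
      .single ⟨_, Or.inr (Or.inl rfl), [], [], _, _, rfl, Act.rw _ _ _, rfl⟩
    show Relation.ReflTransGen gE.Step [Sum.inl (none, [])] _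
    rw [List.map_append]
    exact h1.trans (h6.trans (h4.trans h5))

/-- the forms which occur -/
def Inv (F : Form (Option Bool) (Option (Bool × Bool)) Bool) : Prop := (∃ σ, F = [Sum.inl (none, σ)]) ∨
  ((∀ X, Sum.inl X ∈ F → X.1 ≠ none) ∧ nvars F ≤ 2)

theorem inv_step {F F' : Form (Option Bool) (Option (Bool × Bool)) Bool} (h : Inv F) (hs : gE.Step F F') : Inv F' := by
  obtain ⟨p, hp, x, y, X, Z, rfl, ha, rfl⟩ := hs
  rcases h with ⟨σ, h⟩ | ⟨h1, h2⟩
  · have hx : x = [] := by
      cases x with
      | nil => rfl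
      | cons _ _ => simp at h
    subst hx
    obtain ⟨h3, rfl⟩ := List.cons.inj h
    obtain rfl := Sum.inl.inj h3
    cases ha with
    | rw A α σ =>
      rcases gr_cases hp with ⟨f, h1⟩ | h1 | ⟨b, w, c, h1⟩ | ⟨b, d, h1⟩
      · exact absurd h1 (by simp)
      · obtain ⟨-, rfl⟩ := Rule.rw.inj h1
        refine Or.inr ⟨?_, le_rfl⟩
        intro X hX
        have h4 : Sum.inl X ∈ [Sum.inl (some true, σ), (Sum.inl (some false, σ) : (Option Bool × List (Option (Bool × Bool))) ⊕ Bool)] := hX
        simp only [List.mem_cons, Sum.inl.injEq, List.not_mem_nil, or_false] at h4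
        rcases h4 with rfl | rfl <;> simp
      · exact absurd h1 (by simp)
      · exact absurd h1 (by simp)
    | push A B f σ =>
      rcases gr_cases hp with ⟨f, h1⟩ | h1 | ⟨b, w, c, h1⟩ | ⟨b, d, h1⟩
      · obtain ⟨-, rfl, rfl⟩ := Rule.push.inj h1
        exact Or.inl ⟨_, rfl⟩
      · exact absurd h1 (by simp)
      · exact absurd h1 (by simp)
      · exact absurd h1 (by simp)
    | pop A f α σ =>
      rcases gr_cases hp with ⟨f, h1⟩ | h1 | ⟨b, w, c, h1⟩ | ⟨b, d, h1⟩
      · exact absurd h1 (by simp)
      · exact absurd h1 (by simp)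
      · obtain ⟨h5, -, -⟩ := Rule.pop.inj h1
        exact absurd h5 (by simp)
      · obtain ⟨h5, -, -⟩ := Rule.pop.inj h1
        exact absurd h5 (by simp)
  · have hX : X.1 ≠ none := h1 X (by simp)
    have key : (∀ Y, Sum.inl Y ∈ Z → Y.1 ≠ none) ∧ nvars Z ≤ 1 := by
      cases ha with
      | rw A α σ =>
        rcases gr_cases hp with ⟨f, h3⟩ | h3 | ⟨b, w, c, h3⟩ | ⟨b, d, h3⟩
        · exact absurd h3 (by simp)
        · obtain ⟨h4, -⟩ := Rule.rw.inj h3
          exact absurd h4 hX
        · exact absurd h3 (by simp)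
        · exact absurd h3 (by simp)
      | push A B f σ =>
        rcases gr_cases hp with ⟨f, h3⟩ | h3 | ⟨b, w, c, h3⟩ | ⟨b, d, h3⟩
        · obtain ⟨h4, -, -⟩ := Rule.push.inj h3
          exact absurd h4 hX
        · exact absurd h3 (by simp)
        · exact absurd h3 (by simp)
        · exact absurd h3 (by simp)
      | pop A f α σ =>
        refine ⟨?_, ?_⟩
        · intro Y hY
          obtain ⟨a, ha, he⟩ := List.mem_map.1 hY
          cases a with
          | inl B =>
            have h5 : (B, σ) = Y := Sum.inl.inj he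
            rw [← h5]
            exact (ge_pushpop.pop _ _ _ hp).2 B ha
          | inr t => exact absurd he (by simp)
        · rcases gr_cases hp with ⟨f, h3⟩ | h3 | ⟨b, w, c, h3⟩ | ⟨b, d, h3⟩
          · exact absurd h3 (by simp)
          · exact absurd h3 (by simp)
          · obtain ⟨-, -, rfl⟩ := Rule.pop.inj h3
            rw [nvars_att]
            unfold rb
            split <;> simp [vs]
          · obtain ⟨-, -, rfl⟩ := Rule.pop.inj h3
            rw [nvars_att]
            cases d <;> simp [vs]
    refine Or.inr ⟨?_, ?_⟩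
    · intro Y hY
      rcases List.mem_append.1 hY with hY | hY
      · exact h1 Y (List.mem_append_left _ hY)
      · rcases List.mem_append.1 hY with hY | hY
        · exact key.1 Y hY
        · exact h1 Y (by simp [hY])
    · have e1 : nvars (x ++ Sum.inl X :: y) = nvars x + (nvars [(Sum.inl X : (Option Bool × List (Option (Bool × Bool))) ⊕ Bool)] + nvars y) := by
        rw [← nvars_append, ← nvars_append]
        rfl
      have e2 : nvars [(Sum.inl X : (Option Bool × List (Option (Bool × Bool))) ⊕ Bool)] = 1 := rfl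
      rw [nvars_append, nvars_append]
      omega

theorem ge_index : Index gE 2 := by
  intro F u h h'
  clear h'
  have h1 : Inv F := by
    induction h with
    | refl => exact Or.inl ⟨[], rfl⟩
    | tail _ h2 ih => exact inv_step ih h2
  rcases h1 with ⟨σ, rfl⟩ | ⟨-, h2⟩
  · show 1 ≤ 2
    omega
  · exact h2

end Pool.Agent.Lib.IXB.Fi
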