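import Mathlib

/-!
# Cyclic flags of a word, computed in a finite monoid
-/

set_option autoImplicit false

namespace Pool.Agent.Lib.IXB.Flag

variable {A S : Type} [Monoid S] (g : A → S)

/-- the value of a word -/
def ev (u : List A) : S := (u.map g).prod

theorem ev_nil : ev g [] = 1 := rfl

theorem ev_cons (c : A) (u : List A) : ev g (c :: u) = g c * ev g u := by
  unfold ev
  rw [List.map_cons, List.prod_cons]

theorem ev_append (u v : List A) : ev g (u ++ v) = ev g u * ev g v := by
  unfold ev
  rw [List.map_append, List.prod_append]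

/-- the values of the initial parts of `u` followed by a word with values `Z` -/
def pr : List A → Set S → Set S
  | [], Z => Z
  | c :: u, Z => insert 1 ((fun x => g c * x) '' pr u Z)

theorem pr_append (u v : List A) (Z : Set S) : pr g (u ++ v) Z = pr g u (pr g v Z) := by
  induction u with
  | nil => rfl
  | cons c u ih =>
    show insert 1 ((fun x => g c * x) '' pr g (u ++ v) Z) = insert 1 ((fun x => g c * x) '' pr g u (pr g v Z))
    rw [ih]

theorem pr_mono (u : List A) {Z Z' : Set S} (h : Z ⊆ Z') : pr g u Z ⊆ pr g u Z' := by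
  induction u with
  | nil => exact h
  | cons c u ih => exact Set.insert_subset_insert (Set.image_mono ih)

theorem pr_one (u : List A) {Z : Set S} (h : (1 : S) ∈ Z) : (1 : S) ∈ pr g u Z := by
  cases u with
  | nil => exact h
  | cons c u => exact Set.mem_insert _ _

theorem pr_iUnion (u : List A) (Z : ℕ → Set S) : pr g u (⋃ k, Z k) = ⋃ k, pr g u (Z k) := by
  induction u with
  | nil => rfl
  | cons c u ih =>
    show insert 1 ((fun x => g c * x) '' pr g u (⋃ k, Z k)) = ⋃ k, insert 1 ((fun x => g c * x) '' pr g u (Z k))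
    rw [ih, Set.image_iUnion]
    ext x
    simp only [Set.mem_insert_iff, Set.mem_iUnion]
    constructor
    · rintro (rfl | ⟨k, hk⟩)
      · exact ⟨0, Or.inl rfl⟩
      · exact ⟨k, Or.inr hk⟩
    · rintro ⟨k, rfl | hk⟩
      · exact Or.inl rfl
      · exact Or.inr ⟨k, hk⟩

/-- the values of the initial parts of the powers of `u` -/
def zi (u : List A) : Set S := ⋃ k : ℕ, (pr g u)^[k] {1}

theorem zi_swap (u v : List A) : zi g (u ++ v) = pr g u (zi g (v ++ u)) := by
  unfold zi
  rw [pr_iUnion]
  have hc : ∀ (k : ℕ) (Z : Set S), pr g u ((pr g (v ++ u))^[k] Z) = (pr g (u ++ v))^[k] (pr g u Z) := by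
    intro k
    induction k with
    | zero => exact fun Z => rfl
    | succ k ih =>
      intro Z
      rw [Function.iterate_succ_apply, Function.iterate_succ_apply, ih, pr_append g v u, pr_append g u v]
  have hm : ∀ (k : ℕ) {Z Z' : Set S}, Z ⊆ Z' → (pr g (u ++ v))^[k] Z ⊆ (pr g (u ++ v))^[k] Z' := by
    intro k
    induction k with
    | zero => exact fun h => h
    | succ k ih =>
      intro Z Z' h
      rw [Function.iterate_succ_apply, Function.iterate_succ_apply]
      exact ih (pr_mono g _ h)
  apply Set.Subset.antisymm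
  · refine Set.iUnion_subset fun k => ?_
    refine Set.Subset.trans ?_ (Set.subset_iUnion _ k)
    rw [hc]
    exact hm k (Set.singleton_subset_iff.2 (pr_one g u (Set.mem_singleton _)))
  · refine Set.iUnion_subset fun k => ?_
    refine Set.Subset.trans ?_ (Set.subset_iUnion _ (k + 1))
    rw [hc, Function.iterate_succ_apply]
    refine hm k ?_
    rw [pr_append]
    exact pr_mono g u (Set.singleton_subset_iff.2 (pr_one g v (Set.mem_singleton _)))

theorem zi_fix (u : List A) : pr g u (zi g u) = zi g u := by
  have h := zi_swap g u []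
  rw [List.append_nil, List.nil_append] at h
  exact h.symm

theorem zi_one (u : List A) : (1 : S) ∈ zi g u := Set.mem_iUnion.2 ⟨0, Set.mem_singleton _⟩

section
variable (good : S → Prop)

open Classical in
/-- the flag of a letter before a word with values `Z` -/
noncomputable def fg (c : A) (Z : Set S) : Bool := decide (∃ x ∈ Z, good x ∧ ¬ good (g c * x))

open Classical in
theorem fg_iff (c : A) (Z : Set S) : fg g good c Z = true ↔ ∃ x ∈ Z, good x ∧ ¬ good (g c * x) := by
  unfold fg
  exact decide_eq_true_iff

/-- the flags of a word before a word with values `Z` -/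
noncomputable def fl : List A → Set S → List Bool
  | [], _ => []
  | c :: u, Z => fg g good c (pr g u Z) :: fl u Z

theorem fl_length (u : List A) (Z : Set S) : (fl g good u Z).length = u.length := by
  induction u with
  | nil => rfl
  | cons c u ih =>
    show (_ :: fl g good u Z).length = _
    rw [List.length_cons, List.length_cons, ih]

theorem fl_append (u v : List A) (Z : Set S) : fl g good (u ++ v) Z = fl g good u (pr g v Z) ++ fl g good v Z := by
  induction u with
  | nil => rfl
  | cons c u ih =>
    show fg g good c (pr g (u ++ v) Z) :: fl g good (u ++ v) Z = fg g good c (pr g u (pr g v Z)) :: (fl g good u (pr g v Z) ++ _)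
    rw [ih, pr_append]

/-- the cyclic flags of a word -/
noncomputable def cf (u : List A) : List Bool := fl g good u (zi g u)

theorem cf_length (u : List A) : (cf g good u).length = u.length := fl_length g good u _

theorem cf_swap (u v : List A) : ∃ X Y : List Bool, X.length = u.length ∧ Y.length = v.length ∧
    cf g good (u ++ v) = X ++ Y ∧ cf g good (v ++ u) = Y ++ X := by
  refine ⟨fl g good u (zi g (v ++ u)), fl g good v (zi g (u ++ v)), fl_length _ _ _ _, fl_length _ _ _ _, ?_, ?_⟩
  · unfold cf
    rw [fl_append, ← zi_swap g v u]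
  · unfold cf
    rw [fl_append, ← zi_swap g u v]

/-- if there is no flag then the values stay good -/
theorem no_flag {u : List A} {Z : Set S} (h : ∀ t ∈ fl g good u Z, t = false) {x : S} (hx : x ∈ Z) (hg : good x) :
    ev g u * x ∈ pr g u Z ∧ good (ev g u * x) := by
  induction u with
  | nil =>
    rw [ev_nil, one_mul]
    exact ⟨hx, hg⟩
  | cons c u ih =>
    have h1 : fl g good (c :: u) Z = fg g good c (pr g u Z) :: fl g good u Z := rfl
    rw [h1] at h
    obtain ⟨h2, h3⟩ := ih fun t ht => h t (List.mem_cons_of_mem _ ht)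
    have h4 := h _ List.mem_cons_self
    rw [ev_cons, mul_assoc]
    refine ⟨Or.inr ⟨_, h2, rfl⟩, ?_⟩
    by_contra h5
    rw [(fg_iff g good c _).2 ⟨_, h2, h3, h5⟩] at h4
    exact Bool.noConfusion h4

theorem mem_pr (u : List A) (Z : Set S) (x : S) (hx : x ∈ pr g u Z) :
    (∃ a b : List A, u = a ++ b ∧ x = ev g a) ∨ ∃ z ∈ Z, x = ev g u * z := by
  induction u generalizing x with
  | nil => exact Or.inr ⟨x, hx, by rw [ev_nil, one_mul]⟩
  | cons c u ih =>
    rcases hx with rfl | ⟨y, hy, rfl⟩
    · exact Or.inl ⟨[], c :: u, rfl, (ev_nil g).symm⟩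
    · rcases ih y hy with ⟨a, b, rfl, rfl⟩ | ⟨z, hz, rfl⟩
      · exact Or.inl ⟨c :: a, b, rfl, (ev_cons g c a).symm⟩
      · refine Or.inr ⟨z, hz, ?_⟩
        rw [ev_cons, mul_assoc]

/-- the number of flags is at most the number of elements of the monoid -/
theorem flag_le [Finite S] (hl : ∀ (c : A) (x : S), good (g c * x) → good x) (u : List A) (Z : Set S)
    (h : ∀ a b : List A, u = a ++ b → ∀ a' b' : List A, b = a' ++ b' → good (ev g a')) :
    (fl g good u Z).count true + {z | z ∈ Z ∧ good (ev g u * z)}.ncard ≤ Nat.card S := by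
  induction u with
  | nil =>
    have h1 : (fl g good ([] : List A) Z).count true = 0 := rfl
    rw [h1, zero_add]
    exact Set.ncard_le_card _
  | cons c u ih =>
    have ih' := ih fun a b hab => h (c :: a) b (by rw [hab]; rfl)
    have h1 : fl g good (c :: u) Z = fg g good c (pr g u Z) :: fl g good u Z := rfl
    rw [h1, List.count_cons]
    have hsub : {z | z ∈ Z ∧ good (ev g (c :: u) * z)} ⊆ {z | z ∈ Z ∧ good (ev g u * z)} := by
      rintro z ⟨hz, h2⟩
      rw [ev_cons, mul_assoc] at h2
      exact ⟨hz, hl _ _ h2⟩
    have h3 := Set.ncard_le_ncard hsub (Set.toFinite _)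
    cases h4 : fg g good c (pr g u Z) with
    | false =>
      simp only [beq_true, Bool.false_eq_true, if_false]
      omega
    | true =>
      simp only [beq_self_eq_true, if_true]
      obtain ⟨x, hx, h5, h6⟩ := (fg_iff g good c _).1 h4
      rcases mem_pr g u Z x hx with ⟨a, b, rfl, rfl⟩ | ⟨z, hz, rfl⟩
      · exact (h6 (by rw [← ev_cons]; exact h [] _ rfl (c :: a) b rfl)).elim
      · have h7 : {z | z ∈ Z ∧ good (ev g (c :: u) * z)} ⊂ {z | z ∈ Z ∧ good (ev g u * z)} := by
          refine hsub.ssubset_of_not_subset fun h8 => ?_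
          obtain ⟨-, h9⟩ := h8 ⟨hz, h5⟩
          rw [ev_cons, mul_assoc] at h9
          exact h6 h9
        have h8 := Set.ncard_lt_ncard h7 (Set.toFinite _)
        omega

end

end Pool.Agent.Lib.IXB.Flag
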