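import Pool.Agent.Lib.IXB.Flag

/-!
# The graph of the cyclic flags is regular
-/

set_option autoImplicit false

namespace Pool.Agent.Lib.IXB.Flag

variable {A S : Type} [Monoid S] (g : A → S) (good : S → Prop)

/-- the flags of an annotated word are right -/
def chk (Y : List (A × Bool)) (Z : Set S) : Prop := Y.map Prod.snd = fl g good (Y.map Prod.fst) Z

theorem chk_append (w Y : List (A × Bool)) (Z : Set S) :
    chk g good (w ++ Y) Z ↔ chk g good w (pr g (Y.map Prod.fst) Z) ∧ chk g good Y Z := by
  unfold chk
  rw [List.map_append, List.map_append, fl_append]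
  constructor
  · intro h
    exact List.append_inj h (by rw [List.length_map, fl_length, List.length_map])
  · rintro ⟨h1, h2⟩
    rw [h1, h2]

/-- the annotated words with right cyclic flags -/
def GP : Language (A × Bool) := {Y | Y.map Prod.snd = cf g good (Y.map Prod.fst)}

theorem gp_regular [Finite S] : (GP g good).IsRegular := by
  apply Language.IsRegular.of_finite_range_leftQuotient
  let F : (Set S → Set S) × Set (Set S) → Language (A × Bool) := fun p =>
    {Y | (pr g (Y.map Prod.fst) (⋃ k : ℕ, (p.1 ∘ pr g (Y.map Prod.fst))^[k] {1})) ∈ p.2 ∧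
      chk g good Y (⋃ k : ℕ, (p.1 ∘ pr g (Y.map Prod.fst))^[k] {1})}
  have h1 : Set.range (GP g good).leftQuotient ⊆ Set.range F := by
    rintro _ ⟨w, rfl⟩
    refine ⟨(pr g (w.map Prod.fst), {Z | chk g good w Z}), ?_⟩
    ext Y
    show (pr g (Y.map Prod.fst) _ ∈ {Z | chk g good w Z} ∧ chk g good Y _) ↔
      chk g good (w ++ Y) (zi g ((w ++ Y).map Prod.fst))
    rw [chk_append, List.map_append]
    have h2 : (⋃ k : ℕ, (pr g (w.map Prod.fst) ∘ pr g (Y.map Prod.fst))^[k] {1}) =
        zi g (w.map Prod.fst ++ Y.map Prod.fst) := by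
      unfold zi
      have h3 : pr g (w.map Prod.fst ++ Y.map Prod.fst) = pr g (w.map Prod.fst) ∘ pr g (Y.map Prod.fst) := by
        funext Z
        exact pr_append g _ _ Z
      rw [h3]
    rw [h2]
    rfl
  exact (Set.finite_range F).subset h1

end Pool.Agent.Lib.IXB.Flag
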