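import Pool.Agent.Lib.IXB.Gen

/-!
# Tuples of words as words of folded cells
-/

set_option autoImplicit false

namespace Pool.Agent.Lib.IXB.Fold

/-- a blank, one letter (the middle), or two letters (one of each side) -/
abbrev Cell (A : Type) : Type := Option (A ⊕ A × A)

variable {A B : Type} {n : ℕ}

/-- the word of a track, outermost cell first -/
def unf : List (Cell A) → List A
  | [] => []
  | none :: c => unf c
  | some (.inl a) :: c => a :: unf c
  | some (.inr (a, b)) :: c => a :: (unf c ++ [b])

theorem unf_eq_nil {c : List (Cell A)} : unf c = [] ↔ ∀ x ∈ c, x = none := by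
  induction c with
  | nil => simp [unf]
  | cons x c ih =>
    rcases x with _ | a | ⟨a, b⟩
    · simp [unf, ih]
    · simp [unf]
    · simp [unf]

/-- the `i`-th track -/
def tr (i : Fin n) (τ : List (Fin n → Cell A)) : List (Cell A) := τ.map fun d => d i

/-- encodings of tuples of words -/
inductive Val : List (Fin n → Cell A) → Prop
  | nil : Val []
  | cons {d : Fin n → Cell A} {τ : List (Fin n → Cell A)} : Val τ →
      (∀ i, (∀ p, d i ≠ some (.inr p)) → unf (tr i τ) = []) → (∃ i, d i ≠ none) → Val (d :: τ)

theorem tr_cons (i : Fin n) (d : Fin n → Cell A) (τ : List (Fin n → Cell A)) : tr i (d :: τ) = d i :: tr i τ := rfl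

theorem val_inj {τ τ' : List (Fin n → Cell A)} (h : Val τ) (h' : Val τ') (he : ∀ i, unf (tr i τ) = unf (tr i τ')) :
    τ = τ' := by
  induction h generalizing τ' with
  | nil =>
    cases h' with
    | nil => rfl
    | @cons d' τ' _ _ h3 =>
      exfalso
      obtain ⟨i, hi⟩ := h3
      have h4 := (he i).symm
      rw [tr_cons] at h4
      have h5 : unf (tr i ([] : List (Fin n → Cell A))) = [] := rfl
      rw [h5] at h4
      exact hi (unf_eq_nil.1 h4 (d' i) (by simp))
  | @cons d τ hτ h1 h2 ih =>
    cases h' with
    | nil =>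
      exfalso
      obtain ⟨i, hi⟩ := h2
      have h4 := he i
      rw [tr_cons] at h4
      have h5 : unf (tr i ([] : List (Fin n → Cell A))) = [] := rfl
      rw [h5] at h4
      exact hi (unf_eq_nil.1 h4 (d i) (by simp))
    | @cons d' τ' hτ' h1' h2' =>
      have key : ∀ i, d i = d' i ∧ unf (tr i τ) = unf (tr i τ') := by
        intro i
        have h3 := he i
        rw [tr_cons, tr_cons] at h3
        have h4 := h1 i
        have h4' := h1' i
        rcases hd : d i with _ | a | ⟨a, b⟩ <;> rcases hd' : d' i with _ | a' | ⟨a', b'⟩ <;>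
          rw [hd] at h3 h4 <;> rw [hd'] at h3 h4' <;> simp only [unf] at h3
        · exact ⟨rfl, h3⟩
        · rw [h4 (by simp)] at h3
          simp at h3
        · rw [h4 (by simp)] at h3
          simp at h3
        · rw [h4' (by simp)] at h3
          simp at h3
        · rw [h4 (by simp), h4' (by simp)] at h3
          rw [h4 (by simp), h4' (by simp)]
          simp only [List.cons.injEq, and_true] at h3
          exact ⟨by rw [h3], rfl⟩
        · rw [h4 (by simp)] at h3
          simp at h3
        · rw [h4' (by simp)] at h3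
          simp at h3
        · rw [h4' (by simp)] at h3
          simp at h3
        · simp only [List.cons.injEq] at h3
          obtain ⟨rfl, h3⟩ := h3
          have h5 : (unf (tr i τ)) = (unf (tr i τ')) ∧ [b] = [b'] := List.append_inj' h3 rfl
          simp only [List.cons.injEq, and_true] at h5
          exact ⟨by rw [h5.2], h5.1⟩
      have e1 : d = d' := funext fun i => (key i).1
      rw [e1, ih hτ' fun i => (key i).2]

theorem split_word (y : List A) : y = [] ∨ (∃ a, y = [a]) ∨ ∃ a m b, y = a :: (m ++ [b]) := by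
  cases y with
  | nil => exact Or.inl rfl
  | cons a y =>
    rcases List.eq_nil_or_concat y with rfl | ⟨m, b, rfl⟩
    · exact Or.inr (Or.inl ⟨a, rfl⟩)
    · exact Or.inr (Or.inr ⟨a, m, b, by simp⟩)

theorem val_surj (N : ℕ) : ∀ y : Fin n → List A, ∑ i, (y i).length ≤ N →
    ∃ τ : List (Fin n → Cell A), Val τ ∧ ∀ i, unf (tr i τ) = y i := by
  induction N with
  | zero =>
    intro y hy
    refine ⟨[], .nil, fun i => ?_⟩
    have := Finset.single_le_sum (f := fun i => (y i).length) (fun _ _ => Nat.zero_le _) (Finset.mem_univ i)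
    have h1 : y i = [] := List.length_eq_zero_iff.1 (by omega)
    rw [h1]
    rfl
  | succ N ih =>
    intro y hy
    by_cases h0 : ∀ i, y i = []
    · refine ⟨[], .nil, fun i => ?_⟩
      rw [h0 i]
      rfl
    push Not at h0
    obtain ⟨i₀, hi₀⟩ := h0
    have h1 : ∀ i, ∃ (c : Cell A) (m : List A), (∀ t : List (Cell A), unf t = m → unf (c :: t) = y i) ∧
        ((∀ p, c ≠ some (.inr p)) → m = []) ∧ (y i ≠ [] → c ≠ none) ∧ m.length ≤ (y i).length ∧
        (y i ≠ [] → m.length < (y i).length) := by
      intro i
      rcases split_word (y i) with h | ⟨a, h⟩ | ⟨a, m, b, h⟩ <;> rw [h]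
      · exact ⟨none, [], fun t ht => ht, fun _ => rfl, fun h => (h rfl).elim, le_rfl, fun h => (h rfl).elim⟩
      · exact ⟨some (.inl a), [], fun t ht => by rw [unf, ht], fun _ => rfl, fun _ => by simp, by simp,
          fun _ => by simp⟩
      · exact ⟨some (.inr (a, b)), m, fun t ht => by rw [unf, ht], fun h => (h _ rfl).elim, fun _ => by simp, by simp; omega,
          fun _ => by simp⟩
    choose c m hc1 hc2 hc3 hc4 hc5 using h1
    have h2 : ∑ i, (m i).length < ∑ i, (y i).length :=
      Finset.sum_lt_sum (fun i _ => hc4 i) ⟨i₀, Finset.mem_univ _, hc5 i₀ hi₀⟩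
    obtain ⟨τ, hτ, hu⟩ := ih m (by omega)
    refine ⟨c :: τ, .cons hτ (fun i hi => ?_) ⟨i₀, hc3 i₀ hi₀⟩, fun i => ?_⟩
    · rw [hu i]
      exact hc2 i hi
    · rw [tr_cons]
      exact hc1 i _ (hu i)

/-- the mirror image of a cell -/
def swp : Cell A → Cell A
  | none => none
  | some (.inl a) => some (.inl a)
  | some (.inr (a, b)) => some (.inr (b, a))

/-- images of cells -/
def cm (f : A → B) : Cell A → Cell B
  | none => none
  | some (.inl a) => some (.inl (f a))
  | some (.inr (a, b)) => some (.inr (f a, f b))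

theorem unf_map (f : A → B) (c : List (Cell A)) : unf (c.map (cm f)) = (unf c).map f := by
  induction c with
  | nil => rfl
  | cons x c ih =>
    rcases x with _ | a | ⟨a, b⟩ <;> simp [unf, cm, ih]

/-- two tracks hold mirror images -/
theorem rev_iff {τ : List (Fin n → Cell A)} (h : Val τ) (f f' : A → B) (i j : Fin n) :
    (unf (tr j τ)).map f = ((unf (tr i τ)).map f').reverse ↔ ∀ d ∈ τ, cm f (d j) = swp (cm f' (d i)) := by
  induction h with
  | nil => simp [tr, unf]
  | @cons d τ hτ h1 h2 ih =>
    rw [tr_cons, tr_cons, List.forall_mem_cons, ← ih]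
    have h4 := h1 i
    have h4' := h1 j
    rcases hd : d i with _ | a | ⟨a, b⟩ <;> rcases hd' : d j with _ | a' | ⟨a', b'⟩ <;>
      rw [hd] at h4 <;> rw [hd'] at h4' <;> simp only [unf, cm, swp]
    · simp
    · rw [h4 (by simp)]
      simp
    · rw [h4 (by simp)]
      simp
    · rw [h4' (by simp)]
      simp
    · rw [h4 (by simp), h4' (by simp)]
      simp
    · rw [h4 (by simp)]
      simp
    · rw [h4' (by simp)]
      simp
    · rw [h4' (by simp)]
      simp
    · simp only [List.map_cons, List.map_append, List.map_nil, List.reverse_cons, List.reverse_append, List.reverse_nil,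
        List.nil_append, List.cons_append, List.cons.injEq, Option.some.injEq, Sum.inr.injEq, Prod.mk.injEq]
      constructor
      · rintro ⟨h5, h6⟩
        obtain ⟨h7, h8⟩ := List.append_inj' h6 rfl
        simp only [List.cons.injEq, and_true] at h8
        exact ⟨⟨h5, h8⟩, h7⟩
      · rintro ⟨⟨h5, h8⟩, h7⟩
        rw [h5, h7, h8]
        exact ⟨rfl, rfl⟩

end Pool.Agent.Lib.IXB.Fold
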