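import Pool.Agent.Lib.IXB.Gram

/-!
# The grammar of a regular set of stacks and of deterministic readers
-/

set_option autoImplicit false

namespace Pool.Agent.Lib.IXB.Gen

variable {T D R Q : Type}

/-- the stack `σ` holds `τ` above the first bottom marker -/
def Stk (σ : List (Option D)) (τ : List D) : Prop := ∃ σ', σ = τ.map some ++ none :: σ'

theorem Stk.nil (σ : List (Option D)) : Stk (none :: σ) [] := ⟨σ, rfl⟩

theorem Stk.cons {σ : List (Option D)} {τ : List D} (h : Stk σ τ) (d : D) : Stk (some d :: σ) (d :: τ) := by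
  obtain ⟨σ', rfl⟩ := h
  exact ⟨σ', rfl⟩

theorem stk_none {σ : List (Option D)} {τ : List D} (h : Stk (none :: σ) τ) : τ = [] := by
  obtain ⟨σ', h⟩ := h
  cases τ with
  | nil => rfl
  | cons d τ => simp at h

theorem stk_some {σ : List (Option D)} {τ : List D} {d : D}
    (h : Stk (some d :: σ) τ) : ∃ τ', τ = d :: τ' ∧ Stk σ τ' := by
  obtain ⟨σ', h⟩ := h
  cases τ with
  | nil => simp at h
  | cons d' τ =>
    simp only [List.map_cons, List.cons_append, List.cons.injEq, Option.some.injEq] at h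
    exact ⟨τ, by rw [h.1], σ', h.2⟩

theorem stk_inj {σ : List (Option D)} {τ τ' : List D} (h : Stk σ τ) (h' : Stk σ τ') : τ = τ' := by
  induction σ generalizing τ τ' with
  | nil =>
    obtain ⟨σ', h⟩ := h
    simp at h
  | cons a σ ih =>
    cases a with
    | none => rw [stk_none h, stk_none h']
    | some d =>
      obtain ⟨t, rfl, h1⟩ := stk_some h
      obtain ⟨t', rfl, h2⟩ := stk_some h'
      rw [ih h1 h2]

/-- readers as variables -/
def emb (α : List (R ⊕ T)) : List (Option (Q ⊕ R) ⊕ T) := α.map (Sum.map (fun r => some (.inr r)) id)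

section
variable (M : DFA D Q) (body : R → D → List (R ⊕ T)) (fn : List (R ⊕ T))

/-- the word of a reader on a stack -/
def val : List D → R → List T
  | [] => fun _ => []
  | d :: τ => fun r => (body r d).flatMap (Sum.elim (val τ) fun t => [t])

/-- the word of a right-hand side on a stack -/
def ev (τ : List D) (α : List (R ⊕ T)) : List T := α.flatMap (Sum.elim (val body τ) fun t => [t])

theorem val_cons (d : D) (τ : List D) (r : R) : val body (d :: τ) r = ev body τ (body r d) := rfl

theorem ev_nil (τ : List D) : ev body τ [] = [] := rfl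

theorem ev_cons (τ : List D) (a : R ⊕ T) (α : List (R ⊕ T)) :
    ev body τ (a :: α) = Sum.elim (val body τ) (fun t => [t]) a ++ ev body τ α := by
  unfold ev
  rw [List.flatMap_cons]

/-- the grammar -/
abbrev gr [Finite Q] [Finite D] [Finite R] : IG T where
  V := Option (Q ⊕ R)
  I := Option D
  finV := inferInstance
  finI := inferInstance
  start := none
  rules := {.push none (some (.inl M.start)) none} ∪
    (Set.range fun x : Q × D => .push (some (.inl x.1)) (some (.inl (M.step x.1 x.2))) (some x.2)) ∪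
    ((fun s : Q => .rw (some (.inl s)) (emb fn)) '' M.accept) ∪
    (Set.range fun x : R × D => .pop (some (.inr x.1)) (some x.2) (emb (body x.1 x.2))) ∪
    (Set.range fun r : R => .pop (some (.inr r)) none [])
  finR := by
    refine Set.Finite.union (Set.Finite.union (Set.Finite.union (Set.Finite.union ?_ ?_) ?_) ?_) ?_
    · exact Set.finite_singleton _
    · exact Set.finite_range _
    · exact (Set.toFinite _).image _
    · exact Set.finite_range _
    · exact Set.finite_range _

/-- the words of a variable with its stack -/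
def sem : Option (Q ⊕ R) × List (Option D) → Set (List T)
  | (none, _) => {u | ∃ ρ ∈ M.accepts, u = ev body ρ.reverse fn}
  | (some (.inl s), σ) => {u | ∃ τ ρ : List D, Stk σ τ ∧ M.evalFrom s ρ ∈ M.accept ∧ u = ev body (ρ.reverse ++ τ) fn}
  | (some (.inr r), σ) => {u | ∃ τ : List D, Stk σ τ ∧ u = val body τ r}

/-- the words of a form -/
def fsem : Form (Option (Q ⊕ R)) (Option D) T → Set (List T)
  | [] => {[]}
  | .inl X :: F => {u | ∃ v v', v ∈ sem M body fn X ∧ v' ∈ fsem F ∧ u = v ++ v'}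
  | .inr t :: F => {u | ∃ v', v' ∈ fsem F ∧ u = t :: v'}

theorem fsem_app (F F' : Form (Option (Q ⊕ R)) (Option D) T) (u : List T) :
    u ∈ fsem M body fn (F ++ F') ↔ ∃ v v', v ∈ fsem M body fn F ∧ v' ∈ fsem M body fn F' ∧ u = v ++ v' := by
  induction F generalizing u with
  | nil =>
    constructor
    · intro h
      exact ⟨[], u, rfl, h, rfl⟩
    · rintro ⟨v, v', h1, h2, rfl⟩
      have : v = [] := h1
      subst this
      exact h2
  | cons a F ih =>
    cases a with
    | inl X =>
      constructor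
      · rintro ⟨v, v', h1, h2, rfl⟩
        obtain ⟨z, z', h3, h4, rfl⟩ := (ih _).1 h2
        exact ⟨v ++ z, z', ⟨v, z, h1, h3, rfl⟩, h4, by simp⟩
      · rintro ⟨v, v', ⟨z, z', h1, h3, rfl⟩, h2, rfl⟩
        exact ⟨z, z' ++ v', h1, (ih _).2 ⟨z', v', h3, h2, rfl⟩, by simp⟩
    | inr t =>
      constructor
      · rintro ⟨v', h2, rfl⟩
        obtain ⟨z, z', h3, h4, rfl⟩ := (ih _).1 h2
        exact ⟨t :: z, z', ⟨z, h3, rfl⟩, h4, by simp⟩
      · rintro ⟨v, v', ⟨z', h3, rfl⟩, h2, rfl⟩
        exact ⟨z' ++ v', (ih _).2 ⟨z', v', h3, h2, rfl⟩, by simp⟩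

theorem fsem_term (v u : List T) : u ∈ fsem M body fn (v.map Sum.inr) ↔ u = v := by
  induction v generalizing u with
  | nil => exact Iff.rfl
  | cons t v ih =>
    constructor
    · rintro ⟨v', h, rfl⟩
      rw [(ih _).1 h]
    · rintro rfl
      exact ⟨v, (ih _).2 rfl, rfl⟩

theorem fsem_one (X : Option (Q ⊕ R) × List (Option D)) (u : List T) :
    u ∈ fsem M body fn [Sum.inl X] ↔ u ∈ sem M body fn X := by
  constructor
  · rintro ⟨v, v', h1, h2, rfl⟩
    have : v' = [] := h2
    subst this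
    simpa using h1
  · intro h
    exact ⟨u, [], h, rfl, by simp⟩

theorem sem_list {σ : List (Option D)} {τ : List D} (hσ : Stk σ τ) (α : List (R ⊕ T)) (u : List T) :
    u ∈ fsem M body fn (att σ (emb α)) ↔ u = ev body τ α := by
  induction α generalizing u with
  | nil => exact Iff.rfl
  | cons a α ih =>
    rw [ev_cons]
    cases a with
    | inl r =>
      constructor
      · rintro ⟨v, v', ⟨τ', h1, rfl⟩, h2, rfl⟩
        have h3 : τ' = τ := stk_inj h1 hσ
        subst h3
        rw [(ih _).1 h2]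
        rfl
      · rintro rfl
        exact ⟨_, _, ⟨τ, hσ, rfl⟩, (ih _).2 rfl, rfl⟩
    | inr t =>
      constructor
      · rintro ⟨v', h2, rfl⟩
        rw [(ih _).1 h2]
        rfl
      · rintro rfl
        exact ⟨_, (ih _).2 rfl, rfl⟩

theorem sem_reader {σ : List (Option D)} {α : List (R ⊕ T)} (hα : ∃ r, Sum.inl r ∈ α) {u : List T}
    (h : u ∈ fsem M body fn (att σ (emb α))) : ∃ τ : List D, Stk σ τ ∧ u = ev body τ α := by
  have h0 : ∃ τ : List D, Stk σ τ := by
    induction α generalizing u with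
    | nil => simp at hα
    | cons a α ih =>
      cases a with
      | inl r =>
        obtain ⟨v, v', ⟨τ, h1, -⟩, -, -⟩ := h
        exact ⟨τ, h1⟩
      | inr t =>
        obtain ⟨v', h1, -⟩ := h
        refine ih ?_ h1
        obtain ⟨r, hr⟩ := hα
        exact ⟨r, by simpa using hr⟩
  obtain ⟨τ, hτ⟩ := h0
  exact ⟨τ, hτ, (sem_list M body fn hτ _ _).1 h⟩

variable [Finite Q] [Finite D] [Finite R]

theorem sem_act (hb : ∀ r d, ∃ r', Sum.inl r' ∈ body r d) (hf : ∃ r, Sum.inl r ∈ fn)
    {p : Rule (gr M body fn).V (gr M body fn).I T} (hp : p ∈ (gr M body fn).rules)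
    {X : (gr M body fn).V × List (gr M body fn).I} {Z : Form (gr M body fn).V (gr M body fn).I T} (ha : Act p X Z)
    {u : List T} (hu : u ∈ fsem M body fn Z) : u ∈ sem M body fn X := by
  rcases hp with (((hp | hp) | hp) | hp) | hp
  · obtain rfl : p = _ := hp
    cases ha with
    | push _ _ _ σ =>
      obtain ⟨τ, ρ, h1, h2, rfl⟩ := (fsem_one M body fn _ _).1 hu
      rw [stk_none h1]
      exact ⟨ρ, h2, by simp⟩
  · obtain ⟨⟨s, d⟩, rfl⟩ := hp
    cases ha with
    | push _ _ _ σ =>
      obtain ⟨τ', ρ, h1, h2, rfl⟩ := (fsem_one M body fn _ _).1 hu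
      obtain ⟨τ, rfl, h3⟩ := stk_some h1
      exact ⟨τ, d :: ρ, h3, h2, by simp⟩
  · obtain ⟨s, hs, rfl⟩ := hp
    cases ha with
    | rw _ _ σ =>
      obtain ⟨τ, h1, rfl⟩ := sem_reader M body fn hf hu
      exact ⟨τ, [], h1, hs, by simp⟩
  · obtain ⟨⟨r, d⟩, rfl⟩ := hp
    cases ha with
    | pop _ _ _ σ =>
      obtain ⟨τ, h1, rfl⟩ := sem_reader M body fn (hb r d) hu
      exact ⟨d :: τ, h1.cons d, rfl⟩
  · obtain ⟨r, rfl⟩ := hp
    cases ha with
    | pop _ _ _ σ =>
      have h0 : u = [] := hu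
      exact ⟨[], Stk.nil _, h0⟩

theorem step_sem (hb : ∀ r d, ∃ r', Sum.inl r' ∈ body r d) (hf : ∃ r, Sum.inl r ∈ fn)
    {F F' : Form (gr M body fn).V (gr M body fn).I T} (h : (gr M body fn).Step F F') {u : List T}
    (hu : u ∈ fsem M body fn F') : u ∈ fsem M body fn F := by
  obtain ⟨p, hp, x, y, X, Z, rfl, ha, rfl⟩ := h
  obtain ⟨v, v', h1, h2, rfl⟩ := (fsem_app M body fn _ _ _).1 hu
  obtain ⟨v1, v2, h3, h4, rfl⟩ := (fsem_app M body fn _ _ _).1 h2
  exact (fsem_app M body fn _ _ _).2 ⟨v, _, h1, ⟨v1, v2, sem_act M body fn hb hf hp ha h3, h4, rfl⟩, rfl⟩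

theorem der_sem (hb : ∀ r d, ∃ r', Sum.inl r' ∈ body r d) (hf : ∃ r, Sum.inl r ∈ fn)
    {F F' : Form (gr M body fn).V (gr M body fn).I T}
    (h : Relation.ReflTransGen (gr M body fn).Step F F') {u : List T} (hu : u ∈ fsem M body fn F') :
    u ∈ fsem M body fn F := by
  induction h with
  | refl => exact hu
  | tail _ h1 ih => exact ih (step_sem M body fn hb hf h1 hu)

theorem lang_sub (hb : ∀ r d, ∃ r', Sum.inl r' ∈ body r d) (hf : ∃ r, Sum.inl r ∈ fn) {u : List T}
    (h : u ∈ (gr M body fn).lang) : ∃ ρ ∈ M.accepts, u = ev body ρ.reverse fn :=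
  (fsem_one M body fn _ _).1 (der_sem M body fn hb hf h ((fsem_term M body fn u u).2 rfl))

omit [Finite Q] [Finite D] [Finite R] in
/-- forms whose variables are the readers of the stack -/
def Det (F : Form (Option (Q ⊕ R)) (Option D) T) : Prop :=
  ∀ X, Sum.inl X ∈ F → ∃ (r : R) (σ : List (Option D)), X = (some (.inr r), σ)

omit [Finite Q] [Finite D] [Finite R] in
theorem det_emb (σ : List (Option D)) (α : List (R ⊕ T)) : Det (Q := Q) (att σ (emb α)) := by
  intro X hX
  unfold att emb at hX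
  simp only [List.mem_map] at hX
  obtain ⟨a, ⟨b, -, rfl⟩, h⟩ := hX
  cases b with
  | inl r =>
    simp only [Sum.map_inl, Sum.inl.injEq] at h
    exact ⟨r, σ, h.symm⟩
  | inr t => simp at h

theorem act_det {p : Rule (gr M body fn).V (gr M body fn).I T} (hp : p ∈ (gr M body fn).rules) {r : R}
    {σ : List (Option D)} {Z : Form (gr M body fn).V (gr M body fn).I T} (ha : Act p (some (.inr r), σ) Z) :
    (∃ d σ', σ = some d :: σ' ∧ p = .pop (some (.inr r)) (some d) (emb (body r d)) ∧ Z = att σ' (emb (body r d))) ∨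
    (∃ σ', σ = none :: σ' ∧ p = .pop (some (.inr r)) none [] ∧ Z = []) := by
  rcases hp with (((hp | hp) | hp) | hp) | hp
  · obtain rfl : p = _ := hp
    cases ha
  · obtain ⟨⟨s, d⟩, rfl⟩ := hp
    cases ha
  · obtain ⟨s, hs, rfl⟩ := hp
    cases ha
  · obtain ⟨⟨j, d⟩, rfl⟩ := hp
    cases ha with
    | pop _ _ _ σ => exact Or.inl ⟨d, σ, rfl, rfl, rfl⟩
  · obtain ⟨j, rfl⟩ := hp
    cases ha with
    | pop _ _ _ σ => exact Or.inr ⟨σ, rfl, rfl, rfl⟩

theorem det_step {F F' F'' : Form (gr M body fn).V (gr M body fn).I T} (hF : Det (R := R) (D := D) F)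
    {p p' : Rule (gr M body fn).V (gr M body fn).I T} (h : (gr M body fn).LStep p F F')
    (h' : (gr M body fn).LStep p' F F'') : p = p' ∧ F' = F'' ∧ Det (R := R) (D := D) F' := by
  obtain ⟨hp, u, y, X, Z, rfl, ha, rfl⟩ := h
  obtain ⟨hp', u', y', X', Z', he, ha', rfl⟩ := h'
  obtain ⟨rfl, rfl, rfl⟩ := left_unique he
  obtain ⟨i, σ, rfl⟩ := hF X (by simp)
  rcases act_det M body fn hp ha with ⟨d, σ', rfl, rfl, rfl⟩ | ⟨σ', rfl, rfl, rfl⟩
  · rcases act_det M body fn hp' ha' with ⟨d', σ'', h1, rfl, rfl⟩ | ⟨σ'', h1, rfl, rfl⟩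
    · simp only [List.cons.injEq, Option.some.injEq] at h1
      obtain ⟨rfl, rfl⟩ := h1
      refine ⟨rfl, rfl, fun X hX => ?_⟩
      rcases List.mem_append.1 hX with hX | hX
      · simp at hX
      · rcases List.mem_append.1 hX with hX | hX
        · exact det_emb (Q := Q) _ _ X hX
        · exact hF X (by simp [hX])
    · simp at h1
  · rcases act_det M body fn hp' ha' with ⟨d', σ'', h1, rfl, rfl⟩ | ⟨σ'', h1, rfl, rfl⟩
    · simp at h1
    · refine ⟨rfl, rfl, fun X hX => hF X ?_⟩
      rcases List.mem_append.1 hX with hX | hX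
      · simp at hX
      · have hX' : Sum.inl X ∈ y := hX
        simp [hX']

theorem det_der {F E E' : Form (gr M body fn).V (gr M body fn).I T} (hF : Det (R := R) (D := D) F)
    {l l' : List (Rule (gr M body fn).V (gr M body fn).I T)} {v v' : List T} (h : (gr M body fn).LDer l F E)
    (h' : (gr M body fn).LDer l' F E') (hE : E = v.map Sum.inr) (hE' : E' = v'.map Sum.inr) : l = l' := by
  induction h generalizing l' with
  | nil F =>
    cases h' with
    | nil => rfl
    | cons h1 h2 =>
      obtain ⟨-, u, y, X, Z, he, -⟩ := h1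
      exact (no_var (hE.symm.trans he)).elim
  | cons h1 h2 ih =>
    cases h' with
    | nil =>
      obtain ⟨-, u, y, X, Z, he, -⟩ := h1
      exact (no_var (hE'.symm.trans he)).elim
    | cons h3 h4 =>
      obtain ⟨rfl, rfl, h5⟩ := det_step M body fn hF h1 h3
      rw [ih h5 h4 hE]

theorem der_list' {σ : List (Option D)} {τ : List D}
    (h : ∀ r : R, ∃ l, (gr M body fn).LDer l [Sum.inl (some (.inr r), σ)] ((val body τ r).map Sum.inr))
    (α : List (R ⊕ T)) : ∃ l, (gr M body fn).LDer l (att σ (emb α)) ((ev body τ α).map Sum.inr) := by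
  induction α with
  | nil => exact ⟨[], .nil _⟩
  | cons a α ih =>
    obtain ⟨l', hl'⟩ := ih
    rw [ev_cons]
    cases a with
    | inl r =>
      obtain ⟨l, hl⟩ := h r
      refine ⟨l ++ l', ?_⟩
      have h1 := LDer_ctx (gr M body fn) [] (att σ (emb α)) hl
      have h2 := LDer_ctx (gr M body fn) (val body τ r) [] hl'
      refine LDer_trans (gr M body fn) h1 ?_
      rw [List.append_nil, List.append_nil, ← List.map_append] at h2
      exact h2
    | inr t =>
      refine ⟨l', ?_⟩
      have h2 := LDer_ctx (gr M body fn) [t] [] hl'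
      rw [List.append_nil, List.append_nil, ← List.map_append] at h2
      exact h2

theorem der_var (r : R) (τ : List D) {σ : List (Option D)} (h : Stk σ τ) :
    ∃ l, (gr M body fn).LDer l [Sum.inl (some (.inr r), σ)] ((val body τ r).map Sum.inr) := by
  induction τ generalizing σ r with
  | nil =>
    obtain ⟨σ', rfl⟩ := h
    exact ⟨[.pop (some (.inr r)) none []], .cons ⟨Or.inr ⟨r, rfl⟩, [], [], (some (.inr r), none :: σ'), [], rfl,
      Act.pop _ _ _ _, rfl⟩ (.nil _)⟩
  | cons d τ ih =>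
    obtain ⟨σ', rfl⟩ := h
    obtain ⟨l, hl⟩ := der_list' M body fn (σ := τ.map some ++ none :: σ') (τ := τ) (fun r => ih r ⟨σ', rfl⟩) (body r d)
    refine ⟨.pop (some (.inr r)) (some d) (emb (body r d)) :: l, .cons
      ⟨Or.inl (Or.inr ⟨(r, d), rfl⟩), [], [], (some (.inr r), some d :: (τ.map some ++ none :: σ')), _, rfl,
        Act.pop _ _ _ _, rfl⟩ ?_⟩
    rw [List.append_nil]
    exact hl

/-- the productions of the push phase -/
def pushes : Q → List D → List (Rule (gr M body fn).V (gr M body fn).I T)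
  | _, [] => []
  | s, d :: ρ => .push (some (.inl s)) (some (.inl (M.step s d))) (some d) :: pushes (M.step s d) ρ

theorem der_push (ρ : List D) (s : Q) (σ : List (Option D)) :
    (gr M body fn).LDer (pushes M body fn s ρ) [Sum.inl (some (.inl s), σ)]
      [Sum.inl (some (.inl (M.evalFrom s ρ)), ρ.reverse.map some ++ σ)] := by
  induction ρ generalizing s σ with
  | nil => exact .nil _
  | cons d ρ ih =>
    refine .cons ⟨Or.inl (Or.inl (Or.inl (Or.inr ⟨(s, d), rfl⟩))), [], [], (some (.inl s), σ), _, rfl,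
      Act.push _ _ _ _, rfl⟩ ?_
    have h := ih (M.step s d) (some d :: σ)
    have e : (d :: ρ).reverse.map some ++ σ = ρ.reverse.map some ++ some d :: σ := by simp
    rw [e]
    exact h

theorem der_ex {ρ : List D} (h : ρ ∈ M.accepts) :
    ∃ l, (gr M body fn).LDer l [Sum.inl ((gr M body fn).start, [])] ((ev body ρ.reverse fn).map Sum.inr) := by
  obtain ⟨l, hl⟩ := der_list' M body fn (σ := ρ.reverse.map some ++ [none]) (τ := ρ.reverse)
    (fun r => der_var M body fn r _ ⟨[], rfl⟩) fn
  refine ⟨_, .cons ⟨Or.inl (Or.inl (Or.inl (Or.inl rfl))), [], [], (none, []), _, rfl, Act.push _ _ _ _, rfl⟩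
    (LDer_trans (gr M body fn) (der_push M body fn ρ M.start [none])
      (.cons (F' := att (ρ.reverse.map some ++ [none]) (emb fn))
      (p := .rw (some (.inl (M.evalFrom M.start ρ))) (emb fn))
      ⟨Or.inl (Or.inl (Or.inr ⟨_, h, rfl⟩)), [], [], _, _, rfl, Act.rw _ _ _, by simp⟩ hl))⟩

theorem push_inv {l : List (Rule (gr M body fn).V (gr M body fn).I T)} {s : Q} {σ : List (Option D)}
    {E : Form (gr M body fn).V (gr M body fn).I T} {v : List T}
    (h : (gr M body fn).LDer l [Sum.inl (some (.inl s), σ)] E)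
    (hE : E = v.map Sum.inr) : ∃ ρ l', l = pushes M body fn s ρ ++ .rw (some (.inl (M.evalFrom s ρ))) (emb fn) :: l' ∧
      (gr M body fn).LDer l' (att (ρ.reverse.map some ++ σ) (emb fn)) E ∧ M.evalFrom s ρ ∈ M.accept := by
  induction l generalizing s σ with
  | nil =>
    cases h
    exfalso
    have h1 : v.map Sum.inr = ([] : List T).map Sum.inr ++ (Sum.inl (some (.inl s), σ) ::
      ([] : Form (gr M body fn).V (gr M body fn).I T)) := hE.symm
    exact no_var h1
  | cons p l ih =>
    cases h with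
    | cons h1 h2 =>
      obtain ⟨hp, u, y, X, Z, he, ha, rfl⟩ := h1
      obtain ⟨rfl, rfl, rfl⟩ := left_nil he
      rcases hp with (((hp | hp) | hp) | hp) | hp
      · obtain rfl : p = _ := hp
        cases ha
      · obtain ⟨⟨s', d⟩, rfl⟩ := hp
        cases ha
        obtain ⟨ρ, l', rfl, h3, h4⟩ := ih h2
        refine ⟨d :: ρ, l', rfl, ?_, h4⟩
        have e : (d :: ρ).reverse.map some ++ σ = ρ.reverse.map some ++ some d :: σ := by simp
        rw [e]
        exact h3
      · obtain ⟨s', hs, rfl⟩ := hp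
        cases ha
        refine ⟨[], l, rfl, ?_, hs⟩
        simpa using h2
      · obtain ⟨⟨j, d⟩, rfl⟩ := hp
        cases ha
      · obtain ⟨j, rfl⟩ := hp
        cases ha

theorem start_inv {l : List (Rule (gr M body fn).V (gr M body fn).I T)}
    {v : List T} (h : (gr M body fn).LDer l [Sum.inl ((gr M body fn).start, [])] (v.map Sum.inr)) :
    ∃ l', l = .push none (some (.inl M.start)) none :: l' ∧
      (gr M body fn).LDer l' [Sum.inl (some (.inl M.start), [none])] (v.map Sum.inr) := by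
  generalize hE : (v.map Sum.inr : Form (gr M body fn).V (gr M body fn).I T) = E at h
  cases h with
  | nil =>
    exfalso
    exact no_var (X := ((gr M body fn).start, [])) (u := []) (y := []) hE
  | @cons p l F F' F'' h1 h2 =>
    obtain ⟨hp, u, y, X, Z, he, ha, rfl⟩ := h1
    obtain ⟨rfl, rfl, rfl⟩ := left_nil he
    rcases hp with (((hp | hp) | hp) | hp) | hp
    · obtain rfl : p = _ := hp
      cases ha
      exact ⟨l, rfl, h2⟩
    · obtain ⟨⟨s', d⟩, rfl⟩ := hp
      cases ha
    · obtain ⟨s', hs, rfl⟩ := hp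
      cases ha
    · obtain ⟨⟨j, d⟩, rfl⟩ := hp
      cases ha
    · obtain ⟨j, rfl⟩ := hp
      cases ha

/-- the grammar lemma -/
theorem gr_main (hb : ∀ r d, ∃ r', Sum.inl r' ∈ body r d) (hf : ∃ r, Sum.inl r ∈ fn)
    (hinj : ∀ ρ ∈ M.accepts, ∀ ρ' ∈ M.accepts, ev body ρ.reverse fn = ev body ρ'.reverse fn → ρ = ρ') :
    (gr M body fn).Unambiguous ∧ (gr M body fn).lang = {u | ∃ ρ ∈ M.accepts, u = ev body ρ.reverse fn} := by
  constructor
  · intro u hu
    obtain ⟨ρ, hρ, rfl⟩ := lang_sub M body fn hb hf hu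
    obtain ⟨l, hl⟩ := der_ex M body fn hρ
    refine ⟨l, hl, ?_⟩
    have key : ∀ l, (gr M body fn).LDer l [Sum.inl ((gr M body fn).start, [])] ((ev body ρ.reverse fn).map Sum.inr) →
        ∃ l', l = .push none (some (.inl M.start)) none ::
          (pushes M body fn M.start ρ ++ .rw (some (.inl (M.evalFrom M.start ρ))) (emb fn) :: l') ∧
          (gr M body fn).LDer l' (att (ρ.reverse.map some ++ [none]) (emb fn)) ((ev body ρ.reverse fn).map Sum.inr) := by
      intro l hl
      obtain ⟨l1, rfl, h1⟩ := start_inv M body fn hl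
      obtain ⟨ρ', l2, rfl, h2, h3⟩ := push_inv M body fn h1 rfl
      obtain ⟨τ, h4, h5⟩ := sem_reader M body fn hf (der_sem M body fn hb hf (LDer_step _ h2)
        ((fsem_term M body fn _ _).2 rfl))
      have h6 : τ = ρ'.reverse := stk_inj h4 ⟨[], rfl⟩
      subst h6
      obtain rfl := hinj ρ hρ ρ' h3 h5
      exact ⟨l2, rfl, h2⟩
    intro l' hl'
    obtain ⟨m, rfl, hm⟩ := key l hl
    obtain ⟨m', rfl, hm'⟩ := key l' hl'
    rw [det_der M body fn (det_emb _ _) hm' hm rfl rfl]
  · ext u
    constructor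
    · exact lang_sub M body fn hb hf
    · rintro ⟨ρ, hρ, rfl⟩
      obtain ⟨l, hl⟩ := der_ex M body fn hρ
      exact LDer_step _ hl

end

end Pool.Agent.Lib.IXB.Gen
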