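import Pool.Agent.Lib.IXB.Defs

/-!
# The grammar of a finite automaton which reads exponent vectors in binary
-/

set_option autoImplicit false

namespace Pool.Agent.Lib.IXB

variable {T : Type}

theorem LStep_ctx (G : IG T) {p : Rule G.V G.I T} {F F' : Form G.V G.I T} (u : List T) (y : Form G.V G.I T)
    (h : G.LStep p F F') : G.LStep p (u.map Sum.inr ++ (F ++ y)) (u.map Sum.inr ++ (F' ++ y)) := by
  obtain ⟨hp, v, z, X, Z, rfl, ha, rfl⟩ := h
  exact ⟨hp, u ++ v, z ++ y, X, Z, by simp, ha, by simp⟩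

theorem LDer_ctx (G : IG T) {l : List (Rule G.V G.I T)} {F F' : Form G.V G.I T} (u : List T) (y : Form G.V G.I T)
    (h : G.LDer l F F') : G.LDer l (u.map Sum.inr ++ (F ++ y)) (u.map Sum.inr ++ (F' ++ y)) := by
  induction h with
  | nil F => exact .nil _
  | cons h1 _ ih => exact .cons (LStep_ctx G u y h1) ih

theorem LDer_trans (G : IG T) {l l' : List (Rule G.V G.I T)} {F F' F'' : Form G.V G.I T}
    (h : G.LDer l F F') (h' : G.LDer l' F' F'') : G.LDer (l ++ l') F F'' := by
  induction h with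
  | nil F => exact h'
  | cons h1 _ ih => exact .cons h1 (ih h')

theorem LDer_step (G : IG T) {l : List (Rule G.V G.I T)} {F F' : Form G.V G.I T}
    (h : G.LDer l F F') : Relation.ReflTransGen G.Step F F' := by
  induction h with
  | nil F => exact .refl
  | cons h1 _ ih =>
    obtain ⟨hp, v, z, X, Z, rfl, ha, rfl⟩ := h1
    exact .head ⟨_, hp, _, _, X, Z, rfl, ha, rfl⟩ ih

/-- the position of the leftmost variable is unique -/
theorem left_unique {V I : Type} {u u' : List T} {y y' : Form V I T} {X X' : V × List I}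
    (h : u.map Sum.inr ++ Sum.inl X :: y = u'.map Sum.inr ++ Sum.inl X' :: y') : u = u' ∧ X = X' ∧ y = y' := by
  induction u generalizing u' with
  | nil =>
    cases u' with
    | nil => simpa using h
    | cons a u' => simp at h
  | cons b u ih =>
    cases u' with
    | nil => simp at h
    | cons a u' =>
      simp only [List.map_cons, List.cons_append, List.cons.injEq, Sum.inr.injEq] at h
      obtain ⟨h1, h2, h3⟩ := ih h.2
      exact ⟨by rw [h.1, h1], h2, h3⟩

theorem no_var {V I : Type} {u v : List T} {y : Form V I T} {X : V × List I}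
    (h : v.map Sum.inr = u.map Sum.inr ++ Sum.inl X :: y) : False := by
  have h1 : (Sum.inl X : (V × List I) ⊕ T) ∈ v.map (Sum.inr : T → (V × List I) ⊕ T) := by
    rw [h]
    simp
  simp at h1

section
variable {k : ℕ} {Q : Type} (M : DFA (Fin k → Bool) Q) (w : Fin k → List T)

/-- the value of a stack of bit vectors, least significant on top -/
def vl : List (Fin k → Bool) → Fin k → ℕ
  | [] => fun _ => 0
  | d :: σ => fun i => (d i).toNat + 2 * vl σ i

/-- the right-hand side of the pop productions -/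
def body (i : Fin k) (d : Fin k → Bool) : List (Option (Q ⊕ Fin k) ⊕ T) :=
  (if d i then (w i).map Sum.inr else []) ++ [Sum.inl (some (.inr i)), Sum.inl (some (.inr i))]

/-- the right-hand side of the final productions of the automaton -/
def fin : List (Option (Q ⊕ Fin k) ⊕ T) := List.ofFn fun i : Fin k => Sum.inl (some (.inr i))

/-- the grammar -/
abbrev gr [Finite Q] : IG T where
  V := Option (Q ⊕ Fin k)
  I := Option (Fin k → Bool)
  finV := inferInstance
  finI := inferInstance
  start := none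
  rules := {.push none (some (.inl M.start)) none} ∪
    (Set.range fun x : Q × (Fin k → Bool) => .push (some (.inl x.1)) (some (.inl (M.step x.1 x.2))) (some x.2)) ∪
    ((fun s : Q => .rw (some (.inl s)) fin) '' M.accept) ∪
    (Set.range fun x : Fin k × (Fin k → Bool) => .pop (some (.inr x.1)) (some x.2) (body w x.1 x.2)) ∪
    (Set.range fun i : Fin k => .pop (some (.inr i)) none [])
  finR := by
    refine Set.Finite.union (Set.Finite.union (Set.Finite.union (Set.Finite.union ?_ ?_) ?_) ?_) ?_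
    · exact Set.finite_singleton _
    · exact Set.finite_range _
    · exact (Set.toFinite _).image _
    · exact Set.finite_range _
    · exact Set.finite_range _

/-- the stack `σ` holds `τ` above the first bottom marker -/
def Stk (σ : List (Option (Fin k → Bool))) (τ : List (Fin k → Bool)) : Prop := ∃ σ', σ = τ.map some ++ none :: σ'

theorem Stk.nil (σ : List (Option (Fin k → Bool))) : Stk (none :: σ) [] := ⟨σ, rfl⟩

theorem Stk.cons {σ : List (Option (Fin k → Bool))} {τ : List (Fin k → Bool)} (h : Stk σ τ) (d : Fin k → Bool) :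
    Stk (some d :: σ) (d :: τ) := by
  obtain ⟨σ', rfl⟩ := h
  exact ⟨σ', rfl⟩

theorem stk_none {σ : List (Option (Fin k → Bool))} {τ : List (Fin k → Bool)} (h : Stk (none :: σ) τ) : τ = [] := by
  obtain ⟨σ', h⟩ := h
  cases τ with
  | nil => rfl
  | cons d τ => simp at h

theorem stk_some {σ : List (Option (Fin k → Bool))} {τ : List (Fin k → Bool)} {d : Fin k → Bool}
    (h : Stk (some d :: σ) τ) : ∃ τ', τ = d :: τ' ∧ Stk σ τ' := by
  obtain ⟨σ', h⟩ := h
  cases τ with
  | nil => simp at h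
  | cons d' τ =>
    simp only [List.map_cons, List.cons_append, List.cons.injEq, Option.some.injEq] at h
    exact ⟨τ, by rw [h.1], σ', h.2⟩

theorem stk_inj {σ : List (Option (Fin k → Bool))} {τ τ' : List (Fin k → Bool)} (h : Stk σ τ) (h' : Stk σ τ') :
    τ = τ' := by
  induction σ generalizing τ τ' with
  | nil =>
    obtain ⟨σ', h⟩ := h
    simp at h
  | cons a σ ih =>
    cases a with
    | none => rw [stk_none h, stk_none h']
    | some d =>
      obtain ⟨t, rfl, h1⟩ := stk_some h
      obtain ⟨t', rfl, h2⟩ := stk_some h'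
      rw [ih h1 h2]

/-- the words of a variable with its stack -/
def sem : Option (Q ⊕ Fin k) × List (Option (Fin k → Bool)) → Set (List T)
  | (none, _) => {u | ∃ ρ ∈ M.accepts, u = bw w (vl ρ.reverse)}
  | (some (.inl s), σ) => {u | ∃ τ ρ : List (Fin k → Bool), Stk σ τ ∧
      M.evalFrom s ρ ∈ M.accept ∧ u = bw w (vl (ρ.reverse ++ τ))}
  | (some (.inr i), σ) => {u | ∃ τ : List (Fin k → Bool), Stk σ τ ∧
      u = (List.replicate (vl τ i) (w i)).flatten}

/-- the words of a form -/
def fsem : Form (Option (Q ⊕ Fin k)) (Option (Fin k → Bool)) T → Set (List T)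
  | [] => {[]}
  | .inl X :: F => {u | ∃ v v', v ∈ sem M w X ∧ v' ∈ fsem F ∧ u = v ++ v'}
  | .inr t :: F => {u | ∃ v', v' ∈ fsem F ∧ u = t :: v'}

theorem fsem_app (F F' : Form (Option (Q ⊕ Fin k)) (Option (Fin k → Bool)) T) (u : List T) :
    u ∈ fsem M w (F ++ F') ↔ ∃ v v', v ∈ fsem M w F ∧ v' ∈ fsem M w F' ∧ u = v ++ v' := by
  induction F generalizing u with
  | nil =>
    constructor
    · intro h
      exact ⟨[], u, rfl, h, rfl⟩
    · rintro ⟨v, v', h1, h2, rfl⟩
      have : v = [] := h1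
      subst this
      exact h2
  | cons a F ih =>
    cases a with
    | inl X =>
      constructor
      · rintro ⟨v, v', h1, h2, rfl⟩
        obtain ⟨z, z', h3, h4, rfl⟩ := (ih _).1 h2
        exact ⟨v ++ z, z', ⟨v, z, h1, h3, rfl⟩, h4, by simp⟩
      · rintro ⟨v, v', ⟨z, z', h1, h3, rfl⟩, h2, rfl⟩
        exact ⟨z, z' ++ v', h1, (ih _).2 ⟨z', v', h3, h2, rfl⟩, by simp⟩
    | inr t =>
      constructor
      · rintro ⟨v', h2, rfl⟩
        obtain ⟨z, z', h3, h4, rfl⟩ := (ih _).1 h2
        exact ⟨t :: z, z', ⟨z, h3, rfl⟩, h4, by simp⟩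
      · rintro ⟨v, v', ⟨z', h3, rfl⟩, h2, rfl⟩
        exact ⟨z' ++ v', (ih _).2 ⟨z', v', h3, h2, rfl⟩, by simp⟩

theorem fsem_term (v u : List T) : u ∈ fsem M w (v.map Sum.inr) ↔ u = v := by
  induction v generalizing u with
  | nil => exact Iff.rfl
  | cons t v ih =>
    constructor
    · rintro ⟨v', h, rfl⟩
      rw [(ih _).1 h]
    · rintro rfl
      exact ⟨v, (ih _).2 rfl, rfl⟩

theorem fsem_one (X : Option (Q ⊕ Fin k) × List (Option (Fin k → Bool))) (u : List T) :
    u ∈ fsem M w [Sum.inl X] ↔ u ∈ sem M w X := by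
  constructor
  · rintro ⟨v, v', h1, h2, rfl⟩
    have : v' = [] := h2
    subst this
    simpa using h1
  · intro h
    exact ⟨u, [], h, rfl, by simp⟩

theorem sem_list {σ : List (Option (Fin k → Bool))} {τ : List (Fin k → Bool)} (hσ : Stk σ τ)
    (L : List (Fin k)) (u : List T) :
    u ∈ fsem M w (att σ (L.map fun i => Sum.inl (some (.inr i)))) ↔
      u = (L.map fun i => (List.replicate (vl τ i) (w i)).flatten).flatten := by
  induction L generalizing u with
  | nil => exact Iff.rfl
  | cons i L ih =>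
    constructor
    · rintro ⟨v, v', ⟨τ', h1, rfl⟩, h2, rfl⟩
      have h3 : τ' = τ := stk_inj h1 hσ
      subst h3
      rw [(ih _).1 h2]
      simp
    · intro h
      refine ⟨_, _, ⟨τ, hσ, rfl⟩, (ih _).2 rfl, ?_⟩
      rw [h]
      simp

theorem sem_fin [NeZero k] {σ : List (Option (Fin k → Bool))} {u : List T}
    (h : u ∈ fsem M w (att σ fin)) : ∃ τ : List (Fin k → Bool), Stk σ τ ∧ u = bw w (vl τ) := by
  unfold fin at h
  rw [List.ofFn_eq_map] at h
  have h0 : ∃ τ : List (Fin k → Bool), Stk σ τ := by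
    cases hL : List.finRange k with
    | nil =>
      have := List.mem_finRange (0 : Fin k)
      rw [hL] at this
      simp at this
    | cons i L =>
      rw [hL] at h
      obtain ⟨v, v', ⟨τ, h1, -⟩, -, -⟩ := h
      exact ⟨τ, h1⟩
  obtain ⟨τ, hτ⟩ := h0
  refine ⟨τ, hτ, ?_⟩
  rw [(sem_list M w hτ _ _).1 h, bw, List.ofFn_eq_map]

theorem att_app {V I : Type} (σ : List I) (α β : List (V ⊕ T)) : att σ (α ++ β) = att σ α ++ att σ β := List.map_append

theorem att_term {V I : Type} (σ : List I) (v : List T) : att σ (v.map Sum.inr : List (V ⊕ T)) = v.map Sum.inr := by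
  simp [att]

theorem rep_body (i : Fin k) (d : Fin k → Bool) (τ : List (Fin k → Bool)) :
    (List.replicate (vl (d :: τ) i) (w i)).flatten = (if d i then w i else []) ++
      ((List.replicate (vl τ i) (w i)).flatten ++ (List.replicate (vl τ i) (w i)).flatten) := by
  have h0 : vl (d :: τ) i = (d i).toNat + 2 * vl τ i := rfl
  rw [h0, two_mul, List.replicate_add, List.replicate_add, List.flatten_append, List.flatten_append]
  congr 1
  cases h : d i <;> simp

theorem att_body {I : Type} (σ : List I) (i : Fin k) (d : Fin k → Bool) :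
    att σ (body (Q := Q) w i d) = ((if d i then w i else []).map Sum.inr : Form _ I T) ++
      [Sum.inl (some (.inr i), σ), Sum.inl (some (.inr i), σ)] := by
  unfold body
  rw [att_app]
  cases h : d i <;> simp [att]

theorem sem_act [Finite Q] [NeZero k] {p : Rule (gr M w).V (gr M w).I T} (hp : p ∈ (gr M w).rules)
    {X : (gr M w).V × List (gr M w).I} {Z : Form (gr M w).V (gr M w).I T} (ha : Act p X Z) {u : List T}
    (hu : u ∈ fsem M w Z) : u ∈ sem M w X := by
  rcases hp with (((hp | hp) | hp) | hp) | hp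
  · obtain rfl : p = _ := hp
    cases ha with
    | push _ _ _ σ =>
      obtain ⟨τ, ρ, h1, h2, rfl⟩ := (fsem_one M w _ _).1 hu
      rw [stk_none h1]
      exact ⟨ρ, h2, by simp⟩
  · obtain ⟨⟨s, d⟩, rfl⟩ := hp
    cases ha with
    | push _ _ _ σ =>
      obtain ⟨τ', ρ, h1, h2, rfl⟩ := (fsem_one M w _ _).1 hu
      obtain ⟨τ, rfl, h3⟩ := stk_some h1
      exact ⟨τ, d :: ρ, h3, h2, by simp⟩
  · obtain ⟨s, hs, rfl⟩ := hp
    cases ha with
    | rw _ _ σ =>
      obtain ⟨τ, h1, rfl⟩ := sem_fin M w hu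
      exact ⟨τ, [], h1, hs, by simp⟩
  · obtain ⟨⟨i, d⟩, rfl⟩ := hp
    cases ha with
    | pop _ _ _ σ =>
      rw [att_body, fsem_app] at hu
      obtain ⟨v, v', h1, ⟨v1, v2, ⟨τ1, h3, rfl⟩, h4, rfl⟩, rfl⟩ := hu
      obtain ⟨τ2, h5, rfl⟩ := (fsem_one M w _ _).1 h4
      have h6 : τ2 = τ1 := stk_inj h5 h3
      subst h6
      rw [fsem_term] at h1
      subst h1
      exact ⟨d :: τ2, h3.cons d, (rep_body w i d τ2).symm⟩
  · obtain ⟨i, rfl⟩ := hp
    cases ha with
    | pop _ _ _ σ =>
      have h0 : u = [] := hu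
      exact ⟨[], Stk.nil _, by rw [h0]; simp [vl]⟩

theorem step_sem [Finite Q] [NeZero k] {F F' : Form (gr M w).V (gr M w).I T} (h : (gr M w).Step F F') {u : List T}
    (hu : u ∈ fsem M w F') : u ∈ fsem M w F := by
  obtain ⟨p, hp, x, y, X, Z, rfl, ha, rfl⟩ := h
  obtain ⟨v, v', h1, h2, rfl⟩ := (fsem_app M w _ _ _).1 hu
  obtain ⟨v1, v2, h3, h4, rfl⟩ := (fsem_app M w _ _ _).1 h2
  exact (fsem_app M w _ _ _).2 ⟨v, _, h1, ⟨v1, v2, sem_act M w hp ha h3, h4, rfl⟩, rfl⟩

theorem der_sem [Finite Q] [NeZero k] {F F' : Form (gr M w).V (gr M w).I T}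
    (h : Relation.ReflTransGen (gr M w).Step F F') {u : List T} (hu : u ∈ fsem M w F') : u ∈ fsem M w F := by
  induction h with
  | refl => exact hu
  | tail _ h1 ih => exact ih (step_sem M w h1 hu)

theorem lang_sub [Finite Q] [NeZero k] {u : List T} (h : u ∈ (gr M w).lang) :
    ∃ ρ ∈ M.accepts, u = bw w (vl ρ.reverse) :=
  (fsem_one M w _ _).1 (der_sem M w h ((fsem_term M w u u).2 rfl))

/-- forms whose variables are the readers of the stack -/
def Det (F : Form (Option (Q ⊕ Fin k)) (Option (Fin k → Bool)) T) : Prop :=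
  ∀ X, Sum.inl X ∈ F → ∃ i σ, X = (some (.inr i), σ)

theorem act_det [Finite Q] {p : Rule (gr M w).V (gr M w).I T} (hp : p ∈ (gr M w).rules) {i : Fin k}
    {σ : List (Option (Fin k → Bool))} {Z : Form (gr M w).V (gr M w).I T} (ha : Act p (some (.inr i), σ) Z) :
    (∃ d σ', σ = some d :: σ' ∧ p = .pop (some (.inr i)) (some d) (body w i d) ∧ Z = att σ' (body w i d)) ∨
    (∃ σ', σ = none :: σ' ∧ p = .pop (some (.inr i)) none [] ∧ Z = []) := by
  rcases hp with (((hp | hp) | hp) | hp) | hp
  · obtain rfl : p = _ := hp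
    cases ha
  · obtain ⟨⟨s, d⟩, rfl⟩ := hp
    cases ha
  · obtain ⟨s, hs, rfl⟩ := hp
    cases ha
  · obtain ⟨⟨j, d⟩, rfl⟩ := hp
    cases ha with
    | pop _ _ _ σ => exact Or.inl ⟨d, σ, rfl, rfl, rfl⟩
  · obtain ⟨j, rfl⟩ := hp
    cases ha with
    | pop _ _ _ σ => exact Or.inr ⟨σ, rfl, rfl, rfl⟩

theorem det_step [Finite Q] {F F' F'' : Form (gr M w).V (gr M w).I T} (hF : Det (Q := Q) (k := k) F)
    {p p' : Rule (gr M w).V (gr M w).I T} (h : (gr M w).LStep p F F') (h' : (gr M w).LStep p' F F'') :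
    p = p' ∧ F' = F'' ∧ Det (Q := Q) (k := k) F' := by
  obtain ⟨hp, u, y, X, Z, rfl, ha, rfl⟩ := h
  obtain ⟨hp', u', y', X', Z', he, ha', rfl⟩ := h'
  obtain ⟨rfl, rfl, rfl⟩ := left_unique he
  obtain ⟨i, σ, rfl⟩ := hF X (by simp)
  rcases act_det M w hp ha with ⟨d, σ', rfl, rfl, rfl⟩ | ⟨σ', rfl, rfl, rfl⟩
  · rcases act_det M w hp' ha' with ⟨d', σ'', h1, rfl, rfl⟩ | ⟨σ'', h1, rfl, rfl⟩
    · simp only [List.cons.injEq, Option.some.injEq] at h1
      obtain ⟨rfl, rfl⟩ := h1
      refine ⟨rfl, rfl, fun X hX => ?_⟩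
      rw [att_body] at hX
      simp only [List.mem_append, List.mem_map, List.mem_cons, List.not_mem_nil, or_false, Sum.inl.injEq] at hX
      rcases hX with ⟨t, -, ht⟩ | (⟨t, -, ht⟩ | (rfl | rfl)) | hX
      · simp at ht
      · simp at ht
      · exact ⟨i, _, rfl⟩
      · exact ⟨i, _, rfl⟩
      · exact hF X (by simp [hX])
    · simp at h1
  · rcases act_det M w hp' ha' with ⟨d', σ'', h1, rfl, rfl⟩ | ⟨σ'', h1, rfl, rfl⟩
    · simp at h1
    · refine ⟨rfl, rfl, fun X hX => hF X ?_⟩
      simp only [List.nil_append, List.mem_append, List.mem_map, List.mem_cons] at hX ⊢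
      rcases hX with h | h
      · exact Or.inl h
      · exact Or.inr (Or.inr h)

theorem det_der [Finite Q] {F E E' : Form (gr M w).V (gr M w).I T} (hF : Det (Q := Q) (k := k) F)
    {l l' : List (Rule (gr M w).V (gr M w).I T)} {v v' : List T} (h : (gr M w).LDer l F E)
    (h' : (gr M w).LDer l' F E') (hE : E = v.map Sum.inr) (hE' : E' = v'.map Sum.inr) : l = l' := by
  induction h generalizing l' with
  | nil F =>
    cases h' with
    | nil => rfl
    | cons h1 h2 =>
      obtain ⟨-, u, y, X, Z, he, -⟩ := h1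
      exact (no_var (hE.symm.trans he)).elim
  | cons h1 h2 ih =>
    cases h' with
    | nil =>
      obtain ⟨-, u, y, X, Z, he, -⟩ := h1
      exact (no_var (hE'.symm.trans he)).elim
    | cons h3 h4 =>
      obtain ⟨rfl, rfl, h5⟩ := det_step M w hF h1 h3
      rw [ih h5 h4 hE]

theorem der_var [Finite Q] (i : Fin k) (τ : List (Fin k → Bool)) {σ : List (Option (Fin k → Bool))} (h : Stk σ τ) :
    ∃ l, (gr M w).LDer l [Sum.inl (some (.inr i), σ)] ((List.replicate (vl τ i) (w i)).flatten.map Sum.inr) := by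
  induction τ generalizing σ with
  | nil =>
    obtain ⟨σ', rfl⟩ := h
    exact ⟨[.pop (some (.inr i)) none []], .cons ⟨Or.inr ⟨i, rfl⟩, [], [], (some (.inr i), none :: σ'), [], rfl,
      Act.pop _ _ _ _, rfl⟩ (.nil _)⟩
  | cons d τ ih =>
    obtain ⟨σ', rfl⟩ := h
    obtain ⟨l, hl⟩ := ih (σ := τ.map some ++ none :: σ') ⟨σ', rfl⟩
    refine ⟨.pop (some (.inr i)) (some d) (body w i d) :: (l ++ l), .cons
      ⟨Or.inl (Or.inr ⟨(i, d), rfl⟩), [], [], (some (.inr i), some d :: (τ.map some ++ none :: σ')), _, rfl,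
        Act.pop _ _ _ _, rfl⟩ ?_⟩
    have h1 := LDer_ctx (gr M w) (if d i then w i else []) [Sum.inl (some (.inr i), τ.map some ++ none :: σ')] hl
    have h2 := LDer_ctx (gr M w) ((if d i then w i else []) ++ (List.replicate (vl τ i) (w i)).flatten) [] hl
    rw [rep_body]
    have e1 : (List.map Sum.inr ([] : List T) ++ (att (τ.map some ++ none :: σ') (body (Q := Q) w i d) ++ []) :
        Form (gr M w).V (gr M w).I T) = (if d i then w i else []).map Sum.inr ++
          ([Sum.inl (some (.inr i), τ.map some ++ none :: σ')] ++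
            [Sum.inl (some (.inr i), τ.map some ++ none :: σ')]) := by
      rw [att_body]
      simp
    rw [e1]
    refine LDer_trans (gr M w) h1 ?_
    have e2 : ((if d i then w i else []).map Sum.inr ++ ((List.replicate (vl τ i) (w i)).flatten.map Sum.inr ++
        [Sum.inl (some (.inr i), τ.map some ++ none :: σ')]) : Form (gr M w).V (gr M w).I T) =
        ((if d i then w i else []) ++ (List.replicate (vl τ i) (w i)).flatten).map Sum.inr ++
          ([Sum.inl (some (.inr i), τ.map some ++ none :: σ')] ++ []) := by simp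
    have e3 : (((if d i then w i else []) ++ ((List.replicate (vl τ i) (w i)).flatten ++
        (List.replicate (vl τ i) (w i)).flatten)).map Sum.inr : Form (gr M w).V (gr M w).I T) =
        ((if d i then w i else []) ++ (List.replicate (vl τ i) (w i)).flatten).map Sum.inr ++
          ((List.replicate (vl τ i) (w i)).flatten.map Sum.inr ++ []) := by simp
    rw [e2, e3]
    exact h2

theorem der_list [Finite Q] (L : List (Fin k)) {τ : List (Fin k → Bool)} {σ : List (Option (Fin k → Bool))}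
    (h : Stk σ τ) : ∃ l, (gr M w).LDer l (att σ (L.map fun i => Sum.inl (some (.inr i))))
      ((L.map fun i => (List.replicate (vl τ i) (w i)).flatten).flatten.map Sum.inr) := by
  induction L with
  | nil => exact ⟨[], .nil _⟩
  | cons i L ih =>
    obtain ⟨l', hl'⟩ := ih
    obtain ⟨l, hl⟩ := der_var M w i τ h
    refine ⟨l ++ l', ?_⟩
    have h1 := LDer_ctx (gr M w) [] (att σ (L.map fun i => Sum.inl (some (.inr i)))) hl
    have h2 := LDer_ctx (gr M w) (List.replicate (vl τ i) (w i)).flatten [] hl'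
    refine LDer_trans (gr M w) h1 ?_
    have e1 : (List.map Sum.inr ([] : List T) ++ ((List.replicate (vl τ i) (w i)).flatten.map Sum.inr ++
        att σ (L.map fun i => Sum.inl (some (.inr i)))) : Form (gr M w).V (gr M w).I T) =
        (List.replicate (vl τ i) (w i)).flatten.map Sum.inr ++
          (att σ (L.map fun i => Sum.inl (some (.inr i))) ++ []) := by simp
    have e2 : ((((i :: L).map fun i => (List.replicate (vl τ i) (w i)).flatten).flatten.map Sum.inr) :
        Form (gr M w).V (gr M w).I T) = (List.replicate (vl τ i) (w i)).flatten.map Sum.inr ++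
          ((L.map fun i => (List.replicate (vl τ i) (w i)).flatten).flatten.map Sum.inr ++ []) := by simp
    rw [e1, e2]
    exact h2

theorem der_fin [Finite Q] {τ : List (Fin k → Bool)} {σ : List (Option (Fin k → Bool))} (h : Stk σ τ) :
    ∃ l, (gr M w).LDer l (att σ fin) ((bw w (vl τ)).map Sum.inr) := by
  unfold fin bw
  rw [List.ofFn_eq_map, List.ofFn_eq_map]
  exact der_list M w _ h

/-- the productions of the push phase -/
def pushes [Finite Q] : Q → List (Fin k → Bool) → List (Rule (gr M w).V (gr M w).I T)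
  | _, [] => []
  | s, d :: ρ => .push (some (.inl s)) (some (.inl (M.step s d))) (some d) :: pushes (M.step s d) ρ

theorem der_push [Finite Q] (ρ : List (Fin k → Bool)) (s : Q) (σ : List (Option (Fin k → Bool))) :
    (gr M w).LDer (pushes M w s ρ) [Sum.inl (some (.inl s), σ)]
      [Sum.inl (some (.inl (M.evalFrom s ρ)), ρ.reverse.map some ++ σ)] := by
  induction ρ generalizing s σ with
  | nil => exact .nil _
  | cons d ρ ih =>
    refine .cons ⟨Or.inl (Or.inl (Or.inl (Or.inr ⟨(s, d), rfl⟩))), [], [], (some (.inl s), σ), _, rfl,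
      Act.push _ _ _ _, rfl⟩ ?_
    have h := ih (M.step s d) (some d :: σ)
    have e : (d :: ρ).reverse.map some ++ σ = ρ.reverse.map some ++ some d :: σ := by simp
    rw [e]
    exact h

theorem der_ex [Finite Q] {ρ : List (Fin k → Bool)} (h : ρ ∈ M.accepts) :
    ∃ l, (gr M w).LDer l [Sum.inl ((gr M w).start, [])] ((bw w (vl ρ.reverse)).map Sum.inr) := by
  obtain ⟨l, hl⟩ := der_fin M w (σ := ρ.reverse.map some ++ [none]) (τ := ρ.reverse) ⟨[], rfl⟩
  refine ⟨_, .cons ⟨Or.inl (Or.inl (Or.inl (Or.inl rfl))), [], [], (none, []), _, rfl, Act.push _ _ _ _, rfl⟩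
    (LDer_trans (gr M w) (der_push M w ρ M.start [none]) (.cons (F' := att (ρ.reverse.map some ++ [none]) fin)
      (p := .rw (some (.inl (M.evalFrom M.start ρ))) fin)
      ⟨Or.inl (Or.inl (Or.inr ⟨_, h, rfl⟩)), [], [], _, _, rfl, Act.rw _ _ _, by simp⟩ hl))⟩

theorem left_nil {V I : Type} {u : List T} {y : Form V I T} {X X' : V × List I}
    (h : [Sum.inl X] = u.map Sum.inr ++ Sum.inl X' :: y) : u = [] ∧ X = X' ∧ y = [] := by
  have h1 : (([] : List T).map Sum.inr ++ Sum.inl X :: [] : Form V I T) = u.map Sum.inr ++ Sum.inl X' :: y := h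
  obtain ⟨h2, h3, h4⟩ := left_unique h1
  exact ⟨h2.symm, h3, h4.symm⟩

theorem push_inv [Finite Q] {l : List (Rule (gr M w).V (gr M w).I T)} {s : Q} {σ : List (Option (Fin k → Bool))}
    {E : Form (gr M w).V (gr M w).I T} {v : List T} (h : (gr M w).LDer l [Sum.inl (some (.inl s), σ)] E)
    (hE : E = v.map Sum.inr) : ∃ ρ l', l = pushes M w s ρ ++ .rw (some (.inl (M.evalFrom s ρ))) fin :: l' ∧
      (gr M w).LDer l' (att (ρ.reverse.map some ++ σ) fin) E ∧ M.evalFrom s ρ ∈ M.accept := by
  induction l generalizing s σ with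
  | nil =>
    cases h
    exfalso
    have h1 : v.map Sum.inr = ([] : List T).map Sum.inr ++ (Sum.inl (some (.inl s), σ) ::
      ([] : Form (gr M w).V (gr M w).I T)) := hE.symm
    exact no_var h1
  | cons p l ih =>
    cases h with
    | cons h1 h2 =>
      obtain ⟨hp, u, y, X, Z, he, ha, rfl⟩ := h1
      obtain ⟨rfl, rfl, rfl⟩ := left_nil he
      rcases hp with (((hp | hp) | hp) | hp) | hp
      · obtain rfl : p = _ := hp
        cases ha
      · obtain ⟨⟨s', d⟩, rfl⟩ := hp
        cases ha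
        obtain ⟨ρ, l', rfl, h3, h4⟩ := ih h2
        refine ⟨d :: ρ, l', rfl, ?_, h4⟩
        have e : (d :: ρ).reverse.map some ++ σ = ρ.reverse.map some ++ some d :: σ := by simp
        rw [e]
        exact h3
      · obtain ⟨s', hs, rfl⟩ := hp
        cases ha
        refine ⟨[], l, rfl, ?_, hs⟩
        simpa using h2
      · obtain ⟨⟨j, d⟩, rfl⟩ := hp
        cases ha
      · obtain ⟨j, rfl⟩ := hp
        cases ha

theorem start_inv [Finite Q] {l : List (Rule (gr M w).V (gr M w).I T)}
    {v : List T} (h : (gr M w).LDer l [Sum.inl ((gr M w).start, [])] (v.map Sum.inr)) :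
    ∃ l', l = .push none (some (.inl M.start)) none :: l' ∧
      (gr M w).LDer l' [Sum.inl (some (.inl M.start), [none])] (v.map Sum.inr) := by
  generalize hE : (v.map Sum.inr : Form (gr M w).V (gr M w).I T) = E at h
  cases h with
  | nil =>
    exfalso
    exact no_var (X := ((gr M w).start, [])) (u := []) (y := []) hE
  | @cons p l F F' F'' h1 h2 =>
    obtain ⟨hp, u, y, X, Z, he, ha, rfl⟩ := h1
    obtain ⟨rfl, rfl, rfl⟩ := left_nil he
    rcases hp with (((hp | hp) | hp) | hp) | hp
    · obtain rfl : p = _ := hp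
      cases ha
      exact ⟨l, rfl, h2⟩
    · obtain ⟨⟨s', d⟩, rfl⟩ := hp
      cases ha
    · obtain ⟨s', hs, rfl⟩ := hp
      cases ha
    · obtain ⟨⟨j, d⟩, rfl⟩ := hp
      cases ha
    · obtain ⟨j, rfl⟩ := hp
      cases ha

theorem det_fin (σ : List (Option (Fin k → Bool))) : Det (T := T) (Q := Q) (k := k) (att σ fin) := by
  intro X hX
  unfold att fin at hX
  simp only [List.mem_map, List.mem_ofFn] at hX
  obtain ⟨a, ⟨i, rfl⟩, h⟩ := hX
  simp only [Sum.map_inl, Sum.inl.injEq] at h
  exact ⟨i, σ, h.symm⟩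

/-- the grammar lemma -/
theorem gr_main [Finite Q] [NeZero k]
    (hinj : ∀ ρ ∈ M.accepts, ∀ ρ' ∈ M.accepts, bw w (vl ρ.reverse) = bw w (vl ρ'.reverse) → ρ = ρ') :
    (gr M w).Unambiguous ∧ (gr M w).lang = {u | ∃ ρ ∈ M.accepts, u = bw w (vl ρ.reverse)} := by
  constructor
  · intro u hu
    obtain ⟨ρ, hρ, rfl⟩ := lang_sub M w hu
    obtain ⟨l, hl⟩ := der_ex M w hρ
    refine ⟨l, hl, ?_⟩
    have key : ∀ l, (gr M w).LDer l [Sum.inl ((gr M w).start, [])] ((bw w (vl ρ.reverse)).map Sum.inr) →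
        ∃ l', l = .push none (some (.inl M.start)) none ::
          (pushes M w M.start ρ ++ .rw (some (.inl (M.evalFrom M.start ρ))) fin :: l') ∧
          (gr M w).LDer l' (att (ρ.reverse.map some ++ [none]) fin) ((bw w (vl ρ.reverse)).map Sum.inr) := by
      intro l hl
      obtain ⟨l1, rfl, h1⟩ := start_inv M w hl
      obtain ⟨ρ', l2, rfl, h2, h3⟩ := push_inv M w h1 rfl
      obtain ⟨τ, h4, h5⟩ := sem_fin M w (der_sem M w (LDer_step _ h2) ((fsem_term M w _ _).2 rfl))
      have h6 : τ = ρ'.reverse := stk_inj h4 ⟨[], rfl⟩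
      subst h6
      obtain rfl := hinj ρ hρ ρ' h3 h5
      exact ⟨l2, rfl, h2⟩
    intro l' hl'
    obtain ⟨m, rfl, hm⟩ := key l hl
    obtain ⟨m', rfl, hm'⟩ := key l' hl'
    rw [det_der M w (det_fin _) hm' hm rfl rfl]
  · ext u
    constructor
    · exact lang_sub M w
    · rintro ⟨ρ, hρ, rfl⟩
      obtain ⟨l, hl⟩ := der_ex M w hρ
      exact LDer_step _ hl

end

end Pool.Agent.Lib.IXB
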