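import Pool.Agent.Lib.IXB.Defs

/-!
# Cyclic marks between letters; rotations of marked words
-/

set_option autoImplicit false

namespace Pool.Agent.Lib.IXB.Mark

variable {T : Type}

/-- products of two palindromes are the words which are rotations of their mirror images -/
theorem lc_iff_rot (u : List T) : (∃ v v' : List T, v.reverse = v ∧ v'.reverse = v' ∧ u = v ++ v') ↔ u.reverse ~r u := by
  constructor
  · rintro ⟨v, v', hv, hv', rfl⟩
    rw [List.reverse_append, hv, hv']
    exact List.isRotated_append
  · intro h
    obtain ⟨n, hn, h1⟩ := List.isRotated_iff_mod.1 h.symm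
    rw [List.rotate_eq_drop_append_take hn] at h1
    have h2 : u = u.take n ++ u.drop n := (List.take_append_drop n u).symm
    have h3 : (u.drop n).reverse ++ (u.take n).reverse = u.drop n ++ u.take n := by
      rw [← List.reverse_append, ← h2]
      exact h1.symm
    obtain ⟨h4, h5⟩ := List.append_inj h3 (by simp)
    exact ⟨_, _, h5, h4, h2⟩

/-- the mirror image with an involution of the letters -/
def th (ι : T → T) (u : List T) : List T := (u.map ι).reverse

theorem th_append (ι : T → T) (u v : List T) : th ι (u ++ v) = th ι v ++ th ι u := by
  unfold th
  rw [List.map_append, List.reverse_append]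

theorem th_cons (ι : T → T) (x : T) (u : List T) : th ι (x :: u) = th ι u ++ [ι x] := by
  unfold th
  rw [List.map_cons, List.reverse_cons]

theorem th_rot (ι : T → T) {u v : List T} (h : u ~r v) : th ι u ~r th ι v := (h.map ι).reverse

section
variable (J : T → T → Bool)

/-- the mark between two letters -/
def j (x y : T) : List (Option T) := if J x y then [none] else []

/-- the marked word after a letter `x` -/
def mkl : T → List T → List (Option T)
  | _, [] => []
  | x, t :: u => j J x t ++ some t :: mkl t u

/-- the linear marking -/
def lin : List T → List (Option T)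
  | [] => []
  | f :: u => some f :: mkl J f u

/-- the mark between the last and the first letter -/
def cl : List T → List (Option T)
  | [] => []
  | f :: u => j J ((f :: u).getLast (List.cons_ne_nil f u)) f

/-- the cyclic marking -/
def cmk (u : List T) : List (Option T) := lin J u ++ cl J u

theorem mkl_append (x : T) (u v : List T) :
    mkl J x (u ++ v) = mkl J x u ++ mkl J ((x :: u).getLast (List.cons_ne_nil x u)) v := by
  induction u generalizing x with
  | nil => rfl
  | cons t u ih =>
    show j J x t ++ some t :: mkl J t (u ++ v) = (j J x t ++ some t :: mkl J t u) ++ _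
    rw [ih t]
    simp

theorem lin_append (x : T) (u : List T) (y : T) (v : List T) :
    lin J ((x :: u) ++ (y :: v)) = lin J (x :: u) ++ (j J ((x :: u).getLast (List.cons_ne_nil x u)) y ++ lin J (y :: v)) := by
  show some x :: mkl J x (u ++ y :: v) = some x :: mkl J x u ++ _
  rw [mkl_append]
  rfl

section
variable (ι : T → T)

theorem j_symm (hJ : ∀ x y, J x y = J (ι y) (ι x)) (x y : T) : j J x y = j J (ι y) (ι x) := by
  unfold j
  rw [hJ]

theorem j_th (x y : T) : th (Option.map ι) (j J x y) = j J x y := by
  unfold j
  split <;> rfl

theorem getLast_of {l l' : List T} (h : l ≠ []) (h' : l' ≠ []) (he : l = l') : l.getLast h = l'.getLast h' := by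
  subst he
  rfl

theorem th_head (x : T) (u : List T) {z : T} {v : List T} (h : th ι (x :: u) = z :: v) :
    (z :: v).getLast (List.cons_ne_nil z v) = ι x := by
  rw [th_cons] at h
  rw [getLast_of (List.cons_ne_nil z v) (by simp) h.symm]
  simp

theorem th_last (x : T) (u : List T) {z : T} {v : List T} (h : th ι (x :: u) = z :: v) :
    ι ((x :: u).getLast (List.cons_ne_nil x u)) = z := by
  have h1 : (x :: u).map ι = (z :: v).reverse := by
    rw [← h]
    unfold th
    rw [List.reverse_reverse]
  have h2 : ((x :: u).map ι).getLast (by simp) = z := by
    rw [getLast_of (by simp) (by simp) h1]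
    simp
  rw [← h2, List.getLast_map]

theorem lin_th (hJ : ∀ x y, J x y = J (ι y) (ι x)) (u : List T) : th (Option.map ι) (lin J u) = lin J (th ι u) := by
  induction u with
  | nil => rfl
  | cons x u ih =>
    cases u with
    | nil => rfl
    | cons y u =>
      have h1 : lin J (x :: y :: u) = lin J [x] ++ (j J x y ++ lin J (y :: u)) := lin_append J x [] y u
      rw [h1, th_append, th_append, ih, j_th, th_cons ι x]
      cases hr : th ι (y :: u) with
      | nil => simp [th] at hr
      | cons z v =>
        have h2 : lin J ((z :: v) ++ [ι x]) = lin J (z :: v) ++
          (j J ((z :: v).getLast (List.cons_ne_nil z v)) (ι x) ++ lin J [ι x]) := lin_append J z v (ι x) []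
        rw [h2, th_head ι y u hr, ← j_symm J ι hJ]
        simp [lin, mkl, th]

theorem cl_th (hJ : ∀ x y, J x y = J (ι y) (ι x)) (u : List T) : th (Option.map ι) (cl J u) = cl J (th ι u) := by
  cases u with
  | nil => rfl
  | cons x u =>
    show th (Option.map ι) (j J _ _) = _
    rw [j_th]
    cases hr : th ι (x :: u) with
    | nil => simp [th] at hr
    | cons z v =>
      show _ = j J ((z :: v).getLast (List.cons_ne_nil z v)) z
      rw [th_head ι x u hr, ← th_last ι x u hr, ← j_symm J ι hJ]

end

theorem cmk_rotate_one (x : T) (u : List T) : cmk J (x :: u) ~r cmk J (u ++ [x]) := by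
  cases u with
  | nil => exact List.IsRotated.refl _
  | cons y u =>
    have h1 : cmk J (x :: y :: u) = (some x :: j J x y) ++ (lin J (y :: u) ++
        j J ((y :: u).getLast (List.cons_ne_nil y u)) x) := by
      show lin J ([x] ++ (y :: u)) ++ cl J (x :: y :: u) = _
      rw [lin_append]
      simp [lin, mkl, cl]
    have h2 : cmk J ((y :: u) ++ [x]) = (lin J (y :: u) ++ j J ((y :: u).getLast (List.cons_ne_nil y u)) x) ++
        (some x :: j J x y) := by
      have h3 : cl J ((y :: u) ++ [x]) = j J x y := by
        show j J (((y :: u) ++ [x]).getLast _) y = _
        rw [List.getLast_append_of_ne_nil _ (by simp)]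
        rfl
      unfold cmk
      rw [h3]
      show lin J ((y :: u) ++ (x :: [])) ++ _ = _
      rw [lin_append]
      simp [lin, mkl]
    rw [h1, h2]
    exact List.isRotated_append

theorem cmk_rotate (u : List T) (n : ℕ) : cmk J u ~r cmk J (u.rotate n) := by
  induction n generalizing u with
  | zero =>
    rw [List.rotate_zero]
  | succ n ih =>
    cases u with
    | nil =>
      rw [List.rotate_nil]
    | cons x u =>
      rw [List.rotate_cons_succ]
      exact (cmk_rotate_one J x u).trans (ih _)

theorem cmk_isRotated {u v : List T} (h : u ~r v) : cmk J u ~r cmk J v := by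
  obtain ⟨n, rfl⟩ := h
  exact cmk_rotate J u n

theorem cmk_th (ι : T → T) (hJ : ∀ x y, J x y = J (ι y) (ι x)) (u : List T) :
    th (Option.map ι) (cmk J u) ~r cmk J (th ι u) := by
  unfold cmk
  rw [th_append, lin_th J ι hJ, cl_th J ι hJ]
  exact List.isRotated_append

theorem cmk_sym (ι : T → T) (hJ : ∀ x y, J x y = J (ι y) (ι x)) {u : List T} (h : th ι u ~r u) :
    th (Option.map ι) (cmk J u) ~r cmk J u := (cmk_th J ι hJ u).trans (cmk_isRotated J h)

/-- erasing the marks -/
def er (U : List (Option T)) : List T := U.filterMap id

theorem er_append (U V : List (Option T)) : er (U ++ V) = er U ++ er V := List.filterMap_append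

theorem er_j (x y : T) : er (j J x y) = [] := by
  unfold j
  split <;> rfl

theorem er_mkl (x : T) (u : List T) : er (mkl J x u) = u := by
  induction u generalizing x with
  | nil => rfl
  | cons t u ih =>
    show er (j J x t ++ some t :: mkl J t u) = _
    rw [er_append, er_j]
    show t :: er (mkl J t u) = _
    rw [ih]

theorem er_cmk (u : List T) : er (cmk J u) = u := by
  cases u with
  | nil => rfl
  | cons x u =>
    show er (some x :: mkl J x u ++ j J _ x) = _
    rw [er_append, er_j, List.append_nil]
    show x :: er (mkl J x u) = _
    rw [er_mkl]

/-- the marking after the letter `x` in a word with first letter `f` -/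
def mkc (f : T) : T → List T → List (Option T)
  | x, [] => j J x f
  | x, t :: u => j J x t ++ some t :: mkc f t u

theorem mkc_eq (f x : T) (u : List T) : mkc J f x u = mkl J x u ++ j J ((x :: u).getLast (List.cons_ne_nil x u)) f := by
  induction u generalizing x with
  | nil => rfl
  | cons t u ih =>
    show j J x t ++ some t :: mkc J f t u = (j J x t ++ some t :: mkl J t u) ++ _
    rw [ih]
    simp

theorem cmk_cons (f : T) (u : List T) : cmk J (f :: u) = some f :: mkc J f f u := by
  rw [mkc_eq]
  rfl

/-- the automaton of the marked words -/
def cmM : DFA (Option T) (Option (Option (T × T × Bool))) where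
  step s a := match s, a with
    | none, _ => none
    | some none, none => none
    | some none, some t => some (some (t, t, false))
    | some (some (f, x, false)), none => some (some (f, x, true))
    | some (some (_, _, true)), none => none
    | some (some (f, x, h)), some t => if J x t = h then some (some (f, t, false)) else none
  start := some none
  accept := {s | s = some none ∨ ∃ f x h, s = some (some (f, x, h)) ∧ J x f = h}

theorem cmM_dead (U : List (Option T)) : (cmM J).evalFrom none U = none := by
  induction U with
  | nil => rfl
  | cons a U ih =>
    rw [DFA.evalFrom_cons]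
    exact ih

theorem cmM_acc (f x : T) (h : Bool) (U : List (Option T)) : (cmM J).evalFrom (some (some (f, x, h))) U ∈ (cmM J).accept ↔
    (if h then [none] else []) ++ U = mkc J f x (er U) := by
  induction U generalizing x h with
  | nil =>
    constructor
    · rintro (h1 | ⟨f', x', h', h1, h2⟩)
      · simp at h1
      · simp only [DFA.evalFrom_nil, Option.some.injEq, Prod.mk.injEq] at h1
        obtain ⟨rfl, rfl, rfl⟩ := h1
        show _ = j J x f
        unfold j
        rw [h2]
        simp
    · intro h1
      refine Or.inr ⟨f, x, h, rfl, ?_⟩
      have h2 : (if h then [none] else []) ++ [] = j J x f := h1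
      unfold j at h2
      cases h <;> cases hJ : J x f <;> simp_all
  | cons a U ih =>
    rw [DFA.evalFrom_cons]
    cases a with
    | none =>
      cases h with
      | false =>
        have h1 : (cmM J).step (some (some (f, x, false))) none = some (some (f, x, true)) := rfl
        rw [h1, ih]
        exact Iff.rfl
      | true =>
        have h1 : (cmM J).step (some (some (f, x, true))) none = none := rfl
        rw [h1, cmM_dead]
        constructor
        · rintro (h2 | ⟨f', x', h', h2, -⟩) <;> simp at h2
        · intro h2
          exfalso
          have h3 : none :: none :: U = mkc J f x (er U) := h2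
          cases hU : er U with
          | nil =>
            rw [hU] at h3
            have h4 : none :: none :: U = j J x f := h3
            unfold j at h4
            split at h4 <;> simp at h4
          | cons t u =>
            rw [hU] at h3
            have h4 : none :: none :: U = j J x t ++ some t :: mkc J f t u := h3
            unfold j at h4
            split at h4 <;> simp at h4
    | some t =>
      have h1 : (cmM J).step (some (some (f, x, h))) (some t) = if J x t = h then some (some (f, t, false)) else none := by
        cases h <;> rfl
      have h2 : er (some t :: U) = t :: er U := rfl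
      rw [h1, h2]
      show _ ↔ (if h then [none] else []) ++ some t :: U = j J x t ++ some t :: mkc J f t (er U)
      by_cases h3 : J x t = h
      · rw [if_pos h3, ih]
        unfold j
        rw [h3]
        simp
      · rw [if_neg h3, cmM_dead]
        constructor
        · rintro (h4 | ⟨f', x', h', h4, -⟩) <;> simp at h4
        · intro h4
          exfalso
          unfold j at h4
          cases h <;> cases hJ : J x t <;> simp_all

theorem cmM_accepts (U : List (Option T)) : U ∈ (cmM J).accepts ↔ U = cmk J (er U) := by
  cases U with
  | nil =>
    constructor
    · intro _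
      rfl
    · intro _
      exact Or.inl rfl
  | cons a U =>
    cases a with
    | none =>
      have h1 : (none :: U) ∈ (cmM J).accepts ↔ (cmM J).evalFrom none U ∈ (cmM J).accept := Iff.rfl
      rw [h1, cmM_dead]
      constructor
      · rintro (h2 | ⟨f', x', h', h2, -⟩) <;> simp at h2
      · intro h2
        exfalso
        cases hU : er (none :: U) with
        | nil =>
          rw [hU] at h2
          simp [cmk, lin, cl] at h2
        | cons t u =>
          rw [hU, cmk_cons] at h2
          simp at h2
    | some t =>
      have h1 : (some t :: U) ∈ (cmM J).accepts ↔ (cmM J).evalFrom (some (some (t, t, false))) U ∈ (cmM J).accept := Iff.rfl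
      have h2 : er (some t :: U) = t :: er U := rfl
      rw [h1, cmM_acc, h2, cmk_cons]
      simp

theorem cm_regular [Finite T] : Language.IsRegular ({U | U = cmk J (er U)} : Language (Option T)) := by
  classical
  have := Fintype.ofFinite T
  refine ⟨_, inferInstance, cmM J, ?_⟩
  ext U
  exact cmM_accepts J U

end

end Pool.Agent.Lib.IXB.Mark
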