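import Pool.Agent.Lib.IXB.Mark

/-!
# Cyclic windows
-/

set_option autoImplicit false

namespace Pool.Agent.Lib.IXB.Window

open Mark

variable {T : Type} [Inhabited T] {n : ℕ}

/-- the word of the cyclic windows of length `n + 1` -/
def win (n : ℕ) (u : List T) : List (Fin (n + 1) → T) :=
  (List.range u.length).map fun i => fun k => u.getD ((i + k) % u.length) default

/-- the mirror image of a window -/
def io (x : Fin (n + 1) → T) : Fin (n + 1) → T := fun k => x k.rev

omit [Inhabited T] in
theorem io_io (x : Fin (n + 1) → T) : io (io x) = x := by
  funext k
  simp [io]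

theorem win_length (u : List T) : (win n u).length = u.length := by
  simp [win]

theorem win_get' (u : List T) {i : ℕ}
    (h : i < ((List.range u.length).map fun i => fun k : Fin (n + 1) => u.getD ((i + k) % u.length) default).length)
    (k : Fin (n + 1)) :
    ((List.range u.length).map fun i => fun k : Fin (n + 1) => u.getD ((i + k) % u.length) default)[i] k =
      u.getD ((i + k) % u.length) default := by
  rw [List.getElem_map, List.getElem_range]

theorem win_get (u : List T) {i : ℕ} (h : i < (win n u).length) (k : Fin (n + 1)) :
    (win n u)[i] k = u.getD ((i + k) % u.length) default := win_get' u h k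

/-- the first letters of the windows -/
theorem win_fst (u : List T) : (win n u).map (fun x => x 0) = u := by
  apply List.ext_getElem
  · simp [win_length]
  · intro i h1 h2
    rw [List.getElem_map, win_get]
    simp only [Fin.val_zero, add_zero]
    rw [Nat.mod_eq_of_lt h2, List.getD_eq_getElem _ _ h2]

theorem win_rotate (u : List T) (m : ℕ) : win n (u.rotate m) = (win n u).rotate m := by
  apply List.ext_getElem
  · simp [win_length]
  · intro i h1 h2
    rw [List.getElem_rotate]
    funext k
    rw [win_get, win_get, win_length, List.length_rotate]
    have hN : 0 < u.length := by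
      rw [win_length, List.length_rotate] at h1
      omega
    have h3 : (i + (k : ℕ)) % u.length < u.length := Nat.mod_lt _ hN
    have h4 : ((i + m) % u.length + (k : ℕ)) % u.length < u.length := Nat.mod_lt _ hN
    rw [List.getD_eq_getElem _ _ (by rw [List.length_rotate]; exact h3), List.getElem_rotate,
      List.getD_eq_getElem _ _ h4]
    congr 1
    rw [Nat.mod_add_mod, Nat.mod_add_mod]
    congr 1
    ring

theorem win_isRotated {u v : List T} (h : u ~r v) : win n u ~r win n v := by
  obtain ⟨m, rfl⟩ := h
  exact ⟨m, (win_rotate u m).symm⟩

theorem win_reverse (u : List T) : (th io (win n u)).rotate n = win n u.reverse := by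
  apply List.ext_getElem
  · simp [win_length, th]
  · intro i h1 h2
    rw [List.getElem_rotate]
    funext k
    rw [win_get]
    rw [win_length, List.length_reverse] at h2
    have hN : 0 < u.length := by omega
    have hk := k.2
    have ha : (i + n) % u.length < u.length := Nat.mod_lt _ hN
    have hb : (i + (k : ℕ)) % u.length < u.length := Nat.mod_lt _ hN
    have e1 : (th io (win n u)).length = u.length := by simp [win_length, th]
    have h3' : ∀ (a : ℕ) (h : a < ((win n u).map io).reverse.length),
        (((win n u).map io).reverse)[a] k = u.getD ((u.length - 1 - a + (n - k)) % u.length) default := by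
      intro a h
      rw [List.getElem_reverse, List.getElem_map]
      have h0 : ∀ x : Fin (n + 1) → T, io x k = x k.rev := fun _ => rfl
      rw [h0, win_get, Fin.val_rev]
      congr 2
      rw [List.length_map, win_length]
      omega
    have h3 : ∀ (a : ℕ) (h : a < (th io (win n u)).length),
        (th io (win n u))[a] k = u.getD ((u.length - 1 - a + (n - k)) % u.length) default := h3'
    rw [h3]
    simp only [e1]
    have e5 : u.reverse.getD ((i + (k : ℕ)) % u.reverse.length) default =
        u[u.length - 1 - (i + (k : ℕ)) % u.length]'(by omega) := by
      rw [List.getD_eq_getElem _ _ (by rw [List.length_reverse]; exact hb), List.getElem_reverse]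
      congr 2
      rw [List.length_reverse]
    rw [e5, List.getD_eq_getElem _ _ (Nat.mod_lt _ hN)]
    congr 1
    have h4 : (u.length - 1 - (i + n) % u.length + (n - k)) ≡ u.length - 1 - (i + k) % u.length [MOD u.length] := by
      have h5 : (u.length - 1 - (i + n) % u.length + (n - k)) + (i + k) ≡
          (u.length - 1 - (i + k) % u.length) + (i + k) [MOD u.length] := by
        have e2 : (u.length - 1 - (i + n) % u.length + (n - k)) + (i + k) =
            u.length - 1 - (i + n) % u.length + (i + n) := by omega
        rw [e2]
        have h6 : u.length - 1 - (i + n) % u.length + (i + n) ≡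
            u.length - 1 - (i + n) % u.length + (i + n) % u.length [MOD u.length] :=
          Nat.ModEq.add_left _ (Nat.mod_modEq _ _).symm
        have h7 : u.length - 1 - (i + k) % u.length + (i + k) ≡
            u.length - 1 - (i + k) % u.length + (i + k) % u.length [MOD u.length] :=
          Nat.ModEq.add_left _ (Nat.mod_modEq _ _).symm
        have e3 : u.length - 1 - (i + n) % u.length + (i + n) % u.length =
          u.length - 1 - (i + k) % u.length + (i + k) % u.length := by omega
        rw [e3] at h6
        exact h6.trans h7.symm
      exact Nat.ModEq.add_right_cancel' _ h5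
    have h8 : (u.length - 1 - (i + (k : ℕ)) % u.length) % u.length = u.length - 1 - (i + k) % u.length :=
      Nat.mod_eq_of_lt (by omega)
    have h9 : (u.length - 1 - (i + n) % u.length + (n - k)) % u.length =
      (u.length - 1 - (i + (k : ℕ)) % u.length) % u.length := h4
    rw [h9, h8]

theorem win_th (u : List T) : th io (win n u) ~r win n u.reverse := ⟨n, win_reverse u⟩

omit [Inhabited T] in
theorem ge_congr (X : List T) {a b : ℕ} (h : a = b) (ha : a < X.length) (hb : b < X.length) : X[a] = X[b] := by
  subst h
  rfl

/-- consecutive windows -/
def Cw (x y : Fin (n + 1) → T) : Prop := ∀ k : Fin n, x k.succ = y k.castSucc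

theorem win_of_adj {X : List (Fin (n + 1) → T)}
    (h : ∀ (i : ℕ) (hi : i < X.length), Cw (X[i]) (X[(i + 1) % X.length]'(Nat.mod_lt _ (by omega)))) :
    X = win n (X.map fun x => x 0) := by
  have key : ∀ (k : ℕ) (hk : k < n + 1) (i : ℕ) (hi : i < X.length),
      X[i] ⟨k, hk⟩ = (X[(i + k) % X.length]'(Nat.mod_lt _ (by omega))) 0 := by
    intro k
    induction k with
    | zero =>
      intro hk i hi
      have e : (i + 0) % X.length = i := by rw [add_zero, Nat.mod_eq_of_lt hi]
      exact congrFun (ge_congr X e _ hi).symm _
    | succ k ih =>
      intro hk i hi
      have hN : 0 < X.length := by omega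
      have h1 := h i hi ⟨k, by omega⟩
      have h2 := ih (by omega) ((i + 1) % X.length) (Nat.mod_lt _ hN)
      have e : ((i + 1) % X.length + k) % X.length = (i + (k + 1)) % X.length := by
        rw [Nat.mod_add_mod]
        congr 1
        ring
      exact (h1.trans h2).trans (congrFun (ge_congr X e _ _) 0)
  apply List.ext_getElem
  · simp [win_length]
  · intro i h1 h2
    funext k
    rw [win_get]
    have hN : 0 < X.length := by omega
    rw [List.getD_eq_getElem _ _ (by rw [List.length_map]; exact Nat.mod_lt _ hN), List.getElem_map]
    have h3 := key k k.2 i h1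
    exact h3.trans (congrFun (ge_congr X (by rw [List.length_map]) _ _) 0)

theorem win_adj (u : List T) (i : ℕ) (hi : i < (win n u).length) :
    Cw ((win n u)[i]) ((win n u)[(i + 1) % (win n u).length]'(Nat.mod_lt _ (by omega))) := by
  intro k
  rw [win_get, win_get, win_length, Nat.mod_add_mod]
  congr 2
  simp only [Fin.val_succ, Fin.val_castSucc]
  ring

end Pool.Agent.Lib.IXB.Window
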