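import Pool.Agent.Lib.IXB.Point
import Pool.Agent.Lib.IXB.Decode
import Pool.Agent.Lib.IXB.Asm
import Pool.Agent.Lib.IXB.Window

/-!
# Half words cut into tracks which are read in alternating directions
-/

set_option autoImplicit false

namespace Pool.Agent.Lib.IXB.Nice

open Decode Fold

/-- alternating directions -/
def ori {A : Type} (i : ℕ) (l : List A) : List A := if i % 2 = 0 then l else l.reverse

theorem ori_len {A : Type} (i : ℕ) (l : List A) : (ori i l).length = l.length := by
  unfold ori
  split
  · rfl
  · rw [List.length_reverse]

/-- output of a letter under a filter -/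
def fo : Option Bool → Bool × Bool → List Bool
  | none, a => [a.1]
  | some b, a => if a.2 = b then [a.1] else []

section
variable {L : ℕ}

/-- one track -/
def st (i : Fin L) (τ : List (Fin L → Bool × Bool)) : List (Bool × Bool) := τ.map fun d => d i

/-- the half word with its flags -/
def Hf (τ : List (Fin L → Bool × Bool)) : List (Bool × Bool) := (List.finRange L).flatMap fun i => ori i.val (st i τ)

/-- the output -/
def out (τ : List (Fin L → Bool × Bool)) : List Bool :=
  (Hf τ).reverse.flatMap (fo (some true)) ++ ((Hf τ).flatMap (fo none) ++ (Hf τ).reverse.flatMap (fo (some false)))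

/-- the readers -/
def body (r : Fin L × Bool × Option Bool) (d : Fin L → Bool × Bool) : List ((Fin L × Bool × Option Bool) ⊕ Bool) :=
  if r.2.1 = true then (fo r.2.2 (d r.1)).map Sum.inr ++ [Sum.inl r] else Sum.inl r :: (fo r.2.2 (d r.1)).map Sum.inr

theorem ev_append {T D R : Type} (body : R → D → List (R ⊕ T)) (τ : List D) (α β : List (R ⊕ T)) :
    Gen.ev body τ (α ++ β) = Gen.ev body τ α ++ Gen.ev body τ β := by
  unfold Gen.ev
  rw [List.flatMap_append]

theorem ev_term {T D R : Type} (body : R → D → List (R ⊕ T)) (τ : List D) (w : List T) :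
    Gen.ev body τ (w.map Sum.inr) = w := by
  unfold Gen.ev
  induction w with
  | nil => rfl
  | cons t w ih =>
    rw [List.map_cons, List.flatMap_cons, ih]
    rfl

theorem ev_one {T D R : Type} (body : R → D → List (R ⊕ T)) (τ : List D) (r : R) :
    Gen.ev body τ [Sum.inl r] = Gen.val body τ r := by
  unfold Gen.ev
  rw [List.flatMap_singleton]
  rfl

theorem val_body (i : Fin L) (b : Bool) (f : Option Bool) (τ : List (Fin L → Bool × Bool)) :
    Gen.val body τ (i, b, f) = (if b = true then st i τ else (st i τ).reverse).flatMap (fo f) := by
  induction τ with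
  | nil => cases b <;> rfl
  | cons d τ ih =>
    rw [Gen.val_cons]
    cases b with
    | true =>
      have h1 : body (i, true, f) d = (fo f (d i)).map Sum.inr ++ [Sum.inl (i, true, f)] := if_pos rfl
      rw [h1, ev_append, ev_term, ev_one, ih, if_pos rfl, if_pos rfl]
      show _ = (d i :: st i τ).flatMap (fo f)
      rw [List.flatMap_cons]
    | false =>
      have h1 : body (i, false, f) d = [Sum.inl (i, false, f)] ++ (fo f (d i)).map Sum.inr := if_neg Bool.false_ne_true
      rw [h1, ev_append, ev_term, ev_one, ih, if_neg Bool.false_ne_true, if_neg Bool.false_ne_true]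
      show _ = (d i :: st i τ).reverse.flatMap (fo f)
      rw [List.reverse_cons, List.flatMap_append, List.flatMap_singleton]

/-- the right-hand side which starts the readers -/
def fnn (L : ℕ) : List ((Fin L × Bool × Option Bool) ⊕ Bool) :=
  ((List.finRange L).reverse.map fun i => Sum.inl (i, !decide (i.val % 2 = 0), some true)) ++
    (((List.finRange L).map fun i => Sum.inl (i, decide (i.val % 2 = 0), none)) ++
      ((List.finRange L).reverse.map fun i => Sum.inl (i, !decide (i.val % 2 = 0), some false)))

theorem ev_map {T D R I : Type} (body : R → D → List (R ⊕ T)) (τ : List D) (l : List I) (r : I → R) :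
    Gen.ev body τ (l.map fun i => Sum.inl (r i)) = l.flatMap fun i => Gen.val body τ (r i) := by
  unfold Gen.ev
  rw [List.flatMap_map]
  rfl

theorem rev_part (τ : List (Fin L → Bool × Bool)) (f : Option Bool) :
    Gen.ev body τ ((List.finRange L).reverse.map fun i => Sum.inl (i, !decide (i.val % 2 = 0), f)) =
      (Hf τ).reverse.flatMap (fo f) := by
  rw [ev_map]
  unfold Hf
  rw [List.reverse_flatMap, List.flatMap_assoc]
  congr 1
  funext i
  rw [val_body]
  unfold ori
  show _ = (if i.val % 2 = 0 then st i τ else (st i τ).reverse).reverse.flatMap (fo f)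
  by_cases h : i.val % 2 = 0
  · rw [decide_eq_true h, if_pos h]
    rfl
  · rw [decide_eq_false h, if_neg h, List.reverse_reverse]
    rfl

theorem ev_fnn (τ : List (Fin L → Bool × Bool)) : Gen.ev body τ (fnn L) = out τ := by
  unfold fnn out
  rw [ev_append, ev_append, rev_part, rev_part, ev_map]
  congr 2
  unfold Hf
  rw [List.flatMap_assoc]
  congr 1
  funext i
  rw [val_body]
  unfold ori
  by_cases h : i.val % 2 = 0
  · rw [decide_eq_true h, if_pos h]
    rfl
  · rw [decide_eq_false h, if_neg h]
    rfl

/-- regular properties of the half word -/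
theorem fr_H {R : Language (Bool × Bool)} (hR : R.IsRegular) : FR fun τ : List (Fin L → Bool × Bool) => Hf τ ∈ R := by
  obtain ⟨P, _, N, rfl⟩ := hR
  have h1 : ∀ (l : List (Fin L)) (f : Fin L → List (Bool × Bool)) (p : P),
      N.evalFrom p (l.flatMap f) = l.foldl (fun p i => N.evalFrom p (f i)) p := by
    intro l f
    induction l with
    | nil => intro p; rfl
    | cons a l ih =>
      intro p
      rw [List.flatMap_cons, DFA.evalFrom_of_append, ih]
      rfl
  refine (FR.of_fun (S := Fin L → P → P) (fun τ i p => N.evalFrom p (ori i.val (st i τ)))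
    (fun d s i p => if i.val % 2 = 0 then s i (N.step p (d i)) else N.step (s i p) (d i)) (fun d τ => ?_)
    {s | (List.finRange L).foldl (fun p i => s i p) N.start ∈ N.accept}).congr fun τ => ?_
  · funext i p
    show N.evalFrom p (ori i.val (st i (d :: τ))) = if i.val % 2 = 0 then N.evalFrom (N.step p (d i)) (ori i.val (st i τ))
      else N.step (N.evalFrom p (ori i.val (st i τ))) (d i)
    have h2 : st i (d :: τ) = d i :: st i τ := rfl
    unfold ori
    by_cases h : i.val % 2 = 0
    · rw [if_pos h, if_pos h, if_pos h, h2]
      rfl
    · rw [if_neg h, if_neg h, if_neg h, h2, List.reverse_cons, DFA.evalFrom_of_append]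
      rfl
  · show N.evalFrom N.start (Hf τ) ∈ N.accept ↔ _
    unfold Hf
    rw [h1]
    rfl

/-- the cut into flagged and unflagged letters -/
def Sp (τ : List (Fin L → Bool × Bool)) (P S : List Bool) : Prop :=
  Hf τ = (P.map fun c => (c, true)) ++ S.map fun c => (c, false)

theorem fo_true (P : List Bool) : (P.map fun c => (c, true)).flatMap (fo (some true)) = P := by
  induction P with
  | nil => rfl
  | cons c P ih =>
    rw [List.map_cons, List.flatMap_cons, ih]
    rfl

theorem fo_true' (S : List Bool) : (S.map fun c => (c, false)).flatMap (fo (some true)) = [] := by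
  induction S with
  | nil => rfl
  | cons c S ih =>
    rw [List.map_cons, List.flatMap_cons, ih]
    rfl

theorem fo_false (S : List Bool) : (S.map fun c => (c, false)).flatMap (fo (some false)) = S := by
  induction S with
  | nil => rfl
  | cons c S ih =>
    rw [List.map_cons, List.flatMap_cons, ih]
    rfl

theorem fo_false' (P : List Bool) : (P.map fun c => (c, true)).flatMap (fo (some false)) = [] := by
  induction P with
  | nil => rfl
  | cons c P ih =>
    rw [List.map_cons, List.flatMap_cons, ih]
    rfl

theorem fo_none (l : List (Bool × Bool)) : l.flatMap (fo none) = l.map Prod.fst := by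
  induction l with
  | nil => rfl
  | cons a l ih =>
    rw [List.flatMap_cons, ih]
    rfl

theorem out_sp {τ : List (Fin L → Bool × Bool)} {P S : List Bool} (h : Sp τ P S) :
    out τ = P.reverse ++ ((P ++ S) ++ S.reverse) := by
  unfold Sp at h
  unfold out
  rw [h, List.reverse_append, ← List.map_reverse, ← List.map_reverse]
  simp only [List.flatMap_append, fo_true, fo_true', fo_false, fo_false', fo_none, List.map_map]
  simp [Function.comp_def]

theorem hf_len (τ : List (Fin L → Bool × Bool)) : (Hf τ).length = L * τ.length := by
  unfold Hf
  rw [fm_len (L := τ.length) (fun i => by rw [ori_len]; exact List.length_map _), List.length_finRange]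

theorem sp_len {τ : List (Fin L → Bool × Bool)} {P S : List Bool} (h : Sp τ P S) : P.length + S.length = L * τ.length := by
  have h1 := congrArg List.length h
  rw [hf_len, List.length_append, List.length_map, List.length_map] at h1
  exact h1.symm

/-- the letters of the half word -/
theorem hf_get [NeZero L] (τ : List (Fin L → Bool × Bool)) (i : Fin L) {s : ℕ} (hs : s < τ.length) (a : Bool × Bool) :
    (Hf τ).getD (i.val * τ.length + s) a = (τ.getD (if i.val % 2 = 0 then s else τ.length - 1 - s) (fun _ => a)) i := by
  have hpos : 0 < τ.length := by omega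
  have h1 : i.val * τ.length + s < (List.finRange L).length * τ.length := by
    rw [List.length_finRange]
    calc i.val * τ.length + s < i.val * τ.length + τ.length := by omega
      _ = (i.val + 1) * τ.length := by ring
      _ ≤ L * τ.length := Nat.mul_le_mul_right _ i.2
  unfold Hf
  rw [fm_getD hpos (fun i => by rw [ori_len]; exact List.length_map _) (List.finRange L) i a _ h1]
  have h2 : (i.val * τ.length + s) / τ.length = i.val := by
    rw [mul_comm, Nat.mul_add_div hpos, Nat.div_eq_of_lt hs, add_zero]
  have h3 : (i.val * τ.length + s) % τ.length = s := by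
    rw [mul_comm, Nat.mul_add_mod, Nat.mod_eq_of_lt hs]
  rw [h2, h3, List.getD_eq_getElem (List.finRange L) i (by rw [List.length_finRange]; exact i.2), List.getElem_finRange]
  show (ori i.val (st i τ)).getD s a = _
  unfold ori
  by_cases h : i.val % 2 = 0
  · rw [if_pos h, if_pos h, List.getD_eq_getElem _ _ hs, List.getD_eq_getElem _ _ (by unfold st; rw [List.length_map]; exact hs)]
    exact List.getElem_map _
  · rw [if_neg h, if_neg h, List.getD_eq_getElem _ _ (by omega : τ.length - 1 - s < τ.length),
      List.getD_eq_getElem _ _ (by unfold st; rw [List.length_reverse, List.length_map]; exact hs), List.getElem_reverse]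
    have h4 : (st i τ).length = τ.length := List.length_map _
    have h5 : ∀ (k : ℕ) (hk : k < (st i τ).length), (st i τ)[k] = (τ[k]'(h4 ▸ hk)) i := fun k hk => List.getElem_map _
    rw [h5]
    exact congrFun (Window.ge_congr τ (by rw [h4]) _ _) i

end

end Pool.Agent.Lib.IXB.Nice
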