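import Pool.Agent.Lib.IXB.Nice

/-!
# Powers and flags in terms of the tracks
-/

set_option autoImplicit false

namespace Pool.Agent.Lib.IXB.Nice

open Decode Fold

variable {L : ℕ} [NeZero L]

/-- equality of lists from equality of entries -/
theorem ext_getD {A : Type} {l l' : List A} (a : A) (hl : l.length = l'.length) (h : ∀ t < l.length, l.getD t a = l'.getD t a) :
    l = l' := by
  apply List.ext_getElem hl
  intro t h1 h2
  have h3 := h t h1
  rwa [List.getD_eq_getElem _ _ h1, List.getD_eq_getElem _ _ h2] at h3

omit [NeZero L] in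
/-- positions of the half word -/
theorem pos_split {h t : ℕ} (ht : t < L * h) : ∃ (i : Fin L) (s : ℕ), s < h ∧ t = i.val * h + s := by
  have hpos : 0 < h := by
    rcases Nat.eq_zero_or_pos h with rfl | h1
    · simp at ht
    · exact h1
  refine ⟨⟨t / h, (Nat.div_lt_iff_lt_mul hpos).2 ht⟩, t % h, Nat.mod_lt _ hpos, ?_⟩
  have := Nat.div_add_mod t h
  rw [mul_comm] at this
  exact this.symm

theorem hf_inj {τ τ' : List (Fin L → Bool × Bool)} (h : Hf τ = Hf τ') : τ = τ' := by
  have hL : 0 < L := Nat.pos_of_ne_zero (NeZero.ne L)
  have hl : τ.length = τ'.length := by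
    have h1 := congrArg List.length h
    rw [hf_len, hf_len] at h1
    exact Nat.eq_of_mul_eq_mul_left hL h1
  refine ext_getD (fun _ => (false, false)) hl fun s hs => ?_
  funext i
  have key : ∀ s', s' < τ.length → (if i.val % 2 = 0 then s' else τ.length - 1 - s') = s →
      (τ.getD s fun _ => (false, false)) i = (τ'.getD s fun _ => (false, false)) i := by
    intro s' hs' he
    have h1 := hf_get τ i hs' (false, false)
    have h2 := hf_get τ' i (hl ▸ hs') (false, false)
    rw [h, hl, h2, ← hl, he] at h1
    exact h1.symm
  by_cases hi : i.val % 2 = 0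
  · exact key s hs (if_pos hi)
  · exact key (τ.length - 1 - s) (by omega) (by rw [if_neg hi]; omega)

theorem hf_surj {G : List (Bool × Bool)} {h : ℕ} (hG : G.length = L * h) :
    ∃ τ : List (Fin L → Bool × Bool), τ.length = h ∧ Hf τ = G := by
  refine ⟨(List.range h).map fun s => fun i : Fin L => G.getD (i.val * h + (if i.val % 2 = 0 then s else h - 1 - s)) (false, false),
    by simp, ?_⟩
  have hlen : ((List.range h).map fun s => fun i : Fin L => G.getD (i.val * h + (if i.val % 2 = 0 then s else h - 1 - s)) (false, false)).length = h := by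
    simp
  refine ext_getD (false, false) (by rw [hf_len, hlen, hG]) fun t ht => ?_
  rw [hf_len, hlen] at ht
  obtain ⟨i, s, hs, rfl⟩ := pos_split ht
  have h1 := hf_get ((List.range h).map fun s => fun i : Fin L => G.getD (i.val * h + (if i.val % 2 = 0 then s else h - 1 - s)) (false, false))
    i (by rw [hlen]; exact hs) (false, false)
  rw [hlen] at h1
  rw [h1]
  have h2 : ∀ k < h, ((List.range h).map fun s => fun i : Fin L => G.getD (i.val * h + (if i.val % 2 = 0 then s else h - 1 - s)) (false, false)).getD k
      (fun _ => (false, false)) i = G.getD (i.val * h + (if i.val % 2 = 0 then k else h - 1 - k)) (false, false) := by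
    intro k hk
    rw [List.getD_eq_getElem _ _ (by rw [hlen]; exact hk), List.getElem_map, List.getElem_range]
  by_cases hi : i.val % 2 = 0
  · rw [if_pos hi, h2 s hs, if_pos hi]
  · rw [if_neg hi, h2 _ (by omega), if_neg hi]
    congr 2
    omega

/-- the index of the track at a place of the cyclic word -/
def fx (j : ℕ) : Fin L := if h : j % (2 * L) < L then ⟨j % (2 * L), h⟩ else ⟨2 * L - 1 - j % (2 * L), by
  have h1 : 0 < L := Nat.pos_of_ne_zero (NeZero.ne L)
  have h2 := Nat.mod_lt j (show 0 < 2 * L by omega)
  omega⟩

/-- the cyclic word -/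
def Ul (τ : List (Fin L → Bool × Bool)) : List Bool := (Hf τ).map Prod.fst ++ ((Hf τ).map Prod.fst).reverse

omit [NeZero L] in
theorem ul_len (τ : List (Fin L → Bool × Bool)) : (Ul τ).length = 2 * L * τ.length := by
  unfold Ul
  rw [List.length_append, List.length_reverse, List.length_map, hf_len]
  ring

theorem map_getD {A B : Type} (f : A → B) (l : List A) (t : ℕ) (a : A) : (l.map f).getD t (f a) = f (l.getD t a) := by
  rcases Nat.lt_or_ge t l.length with h | h
  · rw [List.getD_eq_getElem _ _ h, List.getD_eq_getElem _ _ (by rw [List.length_map]; exact h), List.getElem_map]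
  · rw [List.getD_eq_default _ _ h, List.getD_eq_default _ _ (by rw [List.length_map]; exact h)]

theorem ul_get (τ : List (Fin L → Bool × Bool)) {j s : ℕ} (hj : j < 2 * L) (hs : s < τ.length) :
    (Ul τ).getD (j * τ.length + s) false =
      ((τ.getD (if j % 2 = 0 then s else τ.length - 1 - s) (fun _ => (false, false))) (fx j)).1 := by
  have hlen : ((Hf τ).map Prod.fst).length = L * τ.length := by rw [List.length_map, hf_len]
  unfold Ul
  rcases Nat.lt_or_ge j L with h | h
  · have h1 : j * τ.length + s < L * τ.length := by
      calc j * τ.length + s < j * τ.length + τ.length := by omega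
        _ = (j + 1) * τ.length := by ring
        _ ≤ L * τ.length := Nat.mul_le_mul_right _ h
    rw [List.getD_append _ _ _ _ (by rw [hlen]; exact h1)]
    have h2 : (fx j : Fin L) = ⟨j, h⟩ := by
      unfold fx
      have h3 : j % (2 * L) = j := Nat.mod_eq_of_lt hj
      rw [dif_pos (by rw [h3]; exact h)]
      exact Fin.ext h3
    rw [h2]
    have h4 := hf_get τ ⟨j, h⟩ hs (false, false)
    rw [← h4]
    exact map_getD Prod.fst (Hf τ) _ (false, false)
  · obtain ⟨j', hj'⟩ : ∃ j', j' = 2 * L - 1 - j := ⟨_, rfl⟩
    have hj'L : j' < L := by omega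
    have h1 : L * τ.length ≤ j * τ.length + s := (Nat.mul_le_mul_right _ h).trans (Nat.le_add_right _ _)
    rw [List.getD_append_right _ _ _ _ (by rw [hlen]; exact h1), hlen]
    have h2 : (fx j : Fin L) = ⟨j', hj'L⟩ := by
      unfold fx
      have h3 : j % (2 * L) = j := Nat.mod_eq_of_lt hj
      rw [dif_neg (by rw [h3]; omega)]
      exact Fin.ext (by show 2 * L - 1 - j % (2 * L) = j'; rw [h3, hj'])
    have h5 : j' * τ.length + j * τ.length + τ.length = L * τ.length + L * τ.length := by
      have h6 : j' + j + 1 = L + L := by omega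
      rw [← add_mul, ← add_mul L L, ← h6]
      ring
    have h7 : j * τ.length + s - L * τ.length < L * τ.length := by omega
    rw [List.getD_eq_getElem _ _ (by rw [List.length_reverse, hlen]; exact h7), List.getElem_reverse]
    have h8 : ((Hf τ).map Prod.fst).length - 1 - (j * τ.length + s - L * τ.length) = j' * τ.length + (τ.length - 1 - s) := by
      rw [hlen]
      omega
    have h9 : j' * τ.length + (τ.length - 1 - s) < ((Hf τ).map Prod.fst).length := by
      rw [hlen]
      omega
    rw [Window.ge_congr _ h8 _ h9, ← List.getD_eq_getElem _ false h9, h2]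
    have h4 := hf_get τ ⟨j', hj'L⟩ (by omega : τ.length - 1 - s < τ.length) (false, false)
    have h10 := map_getD Prod.fst (Hf τ) (j' * τ.length + (τ.length - 1 - s)) (false, false)
    rw [h4] at h10
    refine h10.trans ?_
    have e : (if j' % 2 = 0 then τ.length - 1 - s else τ.length - 1 - (τ.length - 1 - s)) =
        (if j % 2 = 0 then s else τ.length - 1 - s) := by
      by_cases hp : j % 2 = 0
      · rw [if_pos hp, if_neg (by omega)]
        omega
      · rw [if_neg hp, if_pos (by omega)]
    show ((τ.getD (if j' % 2 = 0 then τ.length - 1 - s else τ.length - 1 - (τ.length - 1 - s)) (fun _ => (false, false)))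
      ⟨j', hj'L⟩).1 = _
    rw [e]

/-- the cyclic word is invariant under the rotation by `q` tracks -/
def Pw (q : ℕ) (τ : List (Fin L → Bool × Bool)) : Prop := ∀ d ∈ τ, ∀ j : Fin (2 * L), (d (fx j.val)).1 = (d (fx ((j.val + q) % (2 * L)))).1

theorem fr_pw (q : ℕ) : FR (Pw (L := L) q) := FR.letter _

theorem pw_iff {q : ℕ} (hq : q % 2 = 0) (τ : List (Fin L → Bool × Bool)) : Pw q τ ↔ (Ul τ).rotate (q * τ.length) = Ul τ := by
  have hL : 0 < L := Nat.pos_of_ne_zero (NeZero.ne L)
  have hidx : ∀ j s : ℕ, j < 2 * L → s < τ.length →
      ((Ul τ).rotate (q * τ.length)).getD (j * τ.length + s) false = (Ul τ).getD (((j + q) % (2 * L)) * τ.length + s) false := by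
    intro j s hj hs
    have h1 : j * τ.length + s < 2 * L * τ.length := by
      calc j * τ.length + s < j * τ.length + τ.length := by omega
        _ = (j + 1) * τ.length := by ring
        _ ≤ 2 * L * τ.length := Nat.mul_le_mul_right _ hj
    have hm := Nat.mod_lt (j + q) (show 0 < 2 * L by omega)
    have h2 : ((j + q) % (2 * L)) * τ.length + s < 2 * L * τ.length := by
      calc ((j + q) % (2 * L)) * τ.length + s < ((j + q) % (2 * L)) * τ.length + τ.length := by omega
        _ = ((j + q) % (2 * L) + 1) * τ.length := by ring
        _ ≤ 2 * L * τ.length := Nat.mul_le_mul_right _ hm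
    rw [List.getD_eq_getElem _ _ (by rw [List.length_rotate, ul_len]; exact h1), List.getElem_rotate,
      List.getD_eq_getElem _ _ (by rw [ul_len]; exact h2)]
    refine Window.ge_congr _ ?_ _ _
    rw [ul_len]
    have h3 : j * τ.length + s + q * τ.length = (2 * L * τ.length) * ((j + q) / (2 * L)) + (((j + q) % (2 * L)) * τ.length + s) := by
      have h4 := Nat.div_add_mod (j + q) (2 * L)
      have h5 : (j + q) * τ.length = (2 * L * ((j + q) / (2 * L)) + (j + q) % (2 * L)) * τ.length := by rw [h4]
      rw [add_mul, add_mul] at h5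
      have h6 : 2 * L * ((j + q) / (2 * L)) * τ.length = 2 * L * τ.length * ((j + q) / (2 * L)) := by ring
      omega
    rw [h3, Nat.mul_add_mod, Nat.mod_eq_of_lt h2]
  have hpar : ∀ j : ℕ, ((j + q) % (2 * L)) % 2 = j % 2 := by
    intro j
    rw [Nat.mod_mul_right_mod]
    omega
  constructor
  · intro h
    refine ext_getD false (by rw [List.length_rotate]) fun t ht => ?_
    rw [List.length_rotate, ul_len] at ht
    have hpos : 0 < τ.length := by
      rcases Nat.eq_zero_or_pos τ.length with h1 | h1
      · rw [h1] at ht
        simp at ht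
      · exact h1
    have h1 : t / τ.length < 2 * L := (Nat.div_lt_iff_lt_mul hpos).2 ht
    have h2 : t % τ.length < τ.length := Nat.mod_lt _ hpos
    have h3 : t = (t / τ.length) * τ.length + t % τ.length := by
      have := Nat.div_add_mod t τ.length
      rw [mul_comm] at this
      exact this.symm
    rw [h3, hidx _ _ h1 h2, ul_get τ (Nat.mod_lt _ (by omega)) h2, ul_get τ h1 h2, hpar]
    have h4 : (if (t / τ.length) % 2 = 0 then t % τ.length else τ.length - 1 - t % τ.length) < τ.length := by
      split <;> omega
    rw [List.getD_eq_getElem _ _ h4]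
    exact (h _ (List.getElem_mem h4) ⟨_, h1⟩).symm
  · intro h d hd j
    obtain ⟨k, hk, rfl⟩ := List.getElem_of_mem hd
    have key : ∀ s, s < τ.length → (if j.val % 2 = 0 then s else τ.length - 1 - s) = k →
        (τ[k] (fx j.val)).1 = (τ[k] (fx ((j.val + q) % (2 * L)))).1 := by
      intro s hs he
      have h1 := hidx j.val s j.2 hs
      rw [h, ul_get τ j.2 hs, ul_get τ (Nat.mod_lt _ (by omega)) hs, hpar, he, List.getD_eq_getElem _ _ hk] at h1
      exact h1
    by_cases hj : j.val % 2 = 0
    · exact key k hk (if_pos hj)
    · exact key (τ.length - 1 - k) (by omega) (by rw [if_neg hj]; omega)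

/-- the flagged letters lie in the first `q` tracks -/
def Sm (q : ℕ) (τ : List (Fin L → Bool × Bool)) : Prop := ∀ d ∈ τ, ∀ i : Fin L, q ≤ i.val → (d i).2 = false

omit [NeZero L] in
theorem fr_sm (q : ℕ) : FR (Sm (L := L) q) := FR.letter _

omit [NeZero L] in
theorem sp_flag {τ : List (Fin L → Bool × Bool)} {P S : List Bool} (h : Sp τ P S) {t : ℕ} (ht : t < L * τ.length) :
    ((Hf τ).getD t (false, false)).2 = decide (t < P.length) := by
  have hl := sp_len h
  unfold Sp at h
  rw [h]
  rcases Nat.lt_or_ge t P.length with h1 | h1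
  · rw [List.getD_append _ _ _ _ (by rw [List.length_map]; exact h1), List.getD_eq_getElem _ _ (by rw [List.length_map]; exact h1),
      List.getElem_map, decide_eq_true h1]
  · rw [List.getD_append_right _ _ _ _ (by rw [List.length_map]; exact h1), List.length_map,
      List.getD_eq_getElem _ _ (by rw [List.length_map]; omega), List.getElem_map, decide_eq_false (by omega)]

theorem sm_iff {τ : List (Fin L → Bool × Bool)} {P S : List Bool} (h : Sp τ P S) (q : ℕ) :
    Sm q τ ↔ P.length ≤ q * τ.length := by
  have hl := sp_len h
  constructor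
  · intro hs
    by_contra hc
    have h1 : P.length - 1 < L * τ.length := by omega
    obtain ⟨i, s, hs', he⟩ := pos_split h1
    have h2 := sp_flag h h1
    rw [decide_eq_true (by omega), he, hf_get τ i hs' (false, false)] at h2
    have h4 : (if i.val % 2 = 0 then s else τ.length - 1 - s) < τ.length := by
      split <;> omega
    rw [List.getD_eq_getElem _ _ h4] at h2
    have h5 : q ≤ i.val := by
      by_contra hc'
      have h6 : (i.val + 1) * τ.length ≤ q * τ.length := Nat.mul_le_mul_right _ (by omega)
      rw [Nat.succ_mul] at h6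
      omega
    rw [hs _ (List.getElem_mem h4) i h5] at h2
    exact Bool.false_ne_true h2
  · intro hP d hd i hi
    obtain ⟨k, hk, rfl⟩ := List.getElem_of_mem hd
    have key : ∀ s, s < τ.length → (if i.val % 2 = 0 then s else τ.length - 1 - s) = k → (τ[k] i).2 = false := by
      intro s hs he
      have h1 : i.val * τ.length + s < L * τ.length := by
        calc i.val * τ.length + s < i.val * τ.length + τ.length := by omega
          _ = (i.val + 1) * τ.length := by ring
          _ ≤ L * τ.length := Nat.mul_le_mul_right _ i.2
      have h2 := sp_flag h h1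
      have h3 : q * τ.length ≤ i.val * τ.length := Nat.mul_le_mul_right _ hi
      rw [decide_eq_false (by omega), hf_get τ i hs (false, false), he, List.getD_eq_getElem _ _ hk] at h2
      exact h2
    by_cases hi' : i.val % 2 = 0
    · exact key k hk (if_pos hi')
    · exact key (τ.length - 1 - k) (by omega) (by rw [if_neg hi']; omega)

end Pool.Agent.Lib.IXB.Nice
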