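import Pool.Agent.Lib.IXB.NiceB

/-!
# One axis for every word of bounded exponent
-/

set_option autoImplicit false

namespace Pool.Agent.Lib.IXB.Nice

open Decode Fold

/-- `u` is an `m`-th power -/
def MP (m : ℕ) (u : List Bool) : Prop := 1 ≤ m ∧ m ∣ u.length ∧ u.rotate (u.length / m) = u

theorem axis_of {v v' : List Bool} (hv : v.reverse = v) (hv' : v'.reverse = v') : (v ++ v').rotate v.length = (v ++ v').reverse := by
  rw [List.rotate_append_length_eq, List.reverse_append, hv, hv']

theorem axis_split {u : List Bool} {i : ℕ} (hi : i ≤ u.length) (h : u.rotate i = u.reverse) :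
    (u.take i).reverse = u.take i ∧ (u.drop i).reverse = u.drop i := by
  rw [List.rotate_eq_drop_append_take hi] at h
  have h2 : u = u.take i ++ u.drop i := (List.take_append_drop i u).symm
  have h3 : u.drop i ++ u.take i = (u.drop i).reverse ++ (u.take i).reverse := by
    rw [← List.reverse_append, ← h2]
    exact h
  obtain ⟨h4, h5⟩ := List.append_inj h3 (by simp)
  exact ⟨h5.symm, h4.symm⟩

theorem rot_mul {u : List Bool} {p : ℕ} (h : u.rotate p = u) (a : ℕ) : u.rotate (p * a) = u := by
  induction a with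
  | zero => rw [Nat.mul_zero, List.rotate_zero]
  | succ a ih => rw [Nat.mul_succ, ← List.rotate_rotate, ih, h]

theorem axis_sub {u : List Bool} {p i : ℕ} (h : u.rotate p = u) (hi : u.rotate i = u.reverse) (hp : p ≤ i) :
    u.rotate (i - p) = u.reverse := by
  rw [← hi]
  have e : i = p + (i - p) := by omega
  conv_rhs => rw [e, ← List.rotate_rotate, h]

theorem mp_of_axes {u : List Bool} {i i' : ℕ} (hii : i < i') (hd : i' - i < u.length) (h : u.rotate i = u.rotate i') :
    ∃ e, 2 ≤ e ∧ MP e u ∧ u.length / e ≤ i' - i := by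
  set δ := i' - i with hδ
  have h1 : u.rotate δ = u := by
    have h2 : (u.rotate δ).rotate i = u.rotate i := by
      rw [List.rotate_rotate, h]
      congr 1
      omega
    exact List.rotate_injective i h2
  set g := Nat.gcd δ u.length with hg
  have hgd : g ∣ δ := Nat.gcd_dvd_left _ _
  have hgn : g ∣ u.length := Nat.gcd_dvd_right _ _
  have hgle : g ≤ δ := Nat.le_of_dvd (by omega) hgd
  have hgpos : 0 < g := Nat.pos_of_dvd_of_pos hgn (by omega)
  obtain ⟨a, -, ha⟩ := Nat.exists_mul_mod_eq_gcd (n := δ) (k := u.length) (show Nat.gcd δ u.length < u.length by omega)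
  have h3 : u.rotate g = u := by
    have h4 := rot_mul h1 a
    rw [← List.rotate_mod, ha] at h4
    exact h4
  obtain ⟨e, he⟩ := hgn
  have hepos : 0 < e := by
    rcases Nat.eq_zero_or_pos e with rfl | h5
    · rw [Nat.mul_zero] at he
      omega
    · exact h5
  have h6 : u.length / e = g := by
    rw [he]
    exact Nat.mul_div_cancel _ hepos
  refine ⟨e, ?_, ⟨hepos, ⟨g, by rw [he, mul_comm]⟩, by rw [h6]; exact h3⟩, by rw [h6]; exact hgle⟩
  by_contra hc
  have h7 : e = 1 := by omega
  rw [h7, Nat.mul_one] at he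
  omega

variable {L : ℕ} [NeZero L]

/-- the chosen tuples -/
def Kp (K : ℕ) (τ : List (Fin L → Bool × Bool)) : Prop := (∃ P S, Sp τ P S) ∧ (¬ ∀ d ∈ τ, ∀ i : Fin L, (d i).2 = false) ∧
  ∀ m : Fin (K + 1), ¬ ((2 ≤ m.val ∧ Pw (2 * (L / m.val)) τ) ∧ ¬ Sm (L / m.val) τ)

theorem fr_kp (K : ℕ) : FR (Kp (L := L) K) := by
  refine FR.and ?_ (FR.and (FR.letter _).not (FR.all fun m => (FR.and (FR.and ?_ (fr_pw _)) (fr_sm _).not).not))
  · have h1 : Language.IsRegular (Asm.phM (T := Bool)).accepts := ⟨_, inferInstance, Asm.phM, rfl⟩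
    refine (fr_H h1).congr fun τ => ?_
    exact (Asm.phM_true _).symm
  · by_cases h : 2 ≤ m.val
    · exact (FR.letter (D := Fin L → Bool × Bool) fun _ => True).congr fun τ => by simp [h]
    · exact (FR.letter (D := Fin L → Bool × Bool) fun _ => True).not.congr fun τ => by simp [h]

omit [NeZero L] in
theorem ul_out {τ : List (Fin L → Bool × Bool)} {P S : List Bool} (h : Sp τ P S) : Ul τ = (out τ).rotate P.length := by
  rw [out_sp h]
  have h1 : (Hf τ).map Prod.fst = P ++ S := by
    unfold Sp at h
    rw [h, List.map_append, List.map_map, List.map_map]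
    simp [Function.comp_def]
  have h2 := List.rotate_append_length_eq P.reverse ((P ++ S) ++ S.reverse)
  rw [List.length_reverse] at h2
  unfold Ul
  rw [h1, h2, List.reverse_append]
  simp

omit [NeZero L] in
theorem ul_rot {τ : List (Fin L → Bool × Bool)} {P S : List Bool} (h : Sp τ P S) (x : ℕ) :
    (Ul τ).rotate x = Ul τ ↔ (out τ).rotate x = out τ := by
  rw [ul_out h, List.rotate_rotate, add_comm, ← List.rotate_rotate]
  exact (List.rotate_injective P.length).eq_iff

omit [NeZero L] in
theorem out_axis {τ : List (Fin L → Bool × Bool)} {P S : List Bool} (h : Sp τ P S) :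
    (out τ).rotate (2 * P.length) = (out τ).reverse := by
  have h1 : out τ = (P.reverse ++ P) ++ (S ++ S.reverse) := by
    rw [out_sp h]
    simp
  have h2 := axis_of (v := P.reverse ++ P) (v' := S ++ S.reverse) (by simp) (by simp)
  rw [← h1, List.length_append, List.length_reverse] at h2
  rw [two_mul]
  exact h2

omit [NeZero L] in
theorem out_len {τ : List (Fin L → Bool × Bool)} {P S : List Bool} (h : Sp τ P S) : (out τ).length = 2 * L * τ.length := by
  have h1 := sp_len h
  rw [out_sp h]
  simp only [List.length_append, List.length_reverse]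
  have h2 : 2 * L * τ.length = L * τ.length + L * τ.length := by ring
  omega

omit [NeZero L] in
theorem out_lc {τ : List (Fin L → Bool × Bool)} {P S : List Bool} (h : Sp τ P S) : out τ ∈ LC := by
  refine ⟨P.reverse ++ P, S ++ S.reverse, by simp, by simp, ?_⟩
  rw [out_sp h]
  simp

theorem flag_pos {τ : List (Fin L → Bool × Bool)} {P S : List Bool} (h : Sp τ P S) :
    (¬ ∀ d ∈ τ, ∀ i : Fin L, (d i).2 = false) ↔ 0 < P.length := by
  have h1 := sm_iff h 0
  rw [Nat.zero_mul] at h1
  have h2 : Sm 0 τ ↔ ∀ d ∈ τ, ∀ i : Fin L, (d i).2 = false :=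
    ⟨fun hs d hd i => hs d hd i (Nat.zero_le _), fun hs d hd i _ => hs d hd i⟩
  rw [← h2, h1]
  omega

/-- every word has a chosen tuple -/
theorem kp_ex {K : ℕ} (hK : ∀ m, 1 ≤ m → m ≤ K → m ∣ L) {u : List Bool} (hu : u ≠ []) (hn : 2 * L ∣ u.length) (hc : u ∈ LC)
    (hev : ∀ i ≤ u.length, u.rotate i = u.reverse → i % 2 = 0) : ∃ τ : List (Fin L → Bool × Bool), Kp K τ ∧ u = out τ := by
  classical
  have hL : 0 < L := Nat.pos_of_ne_zero (NeZero.ne L)
  have hnpos : 0 < u.length := List.length_pos_iff.2 hu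
  have hex : ∃ i, 0 < i ∧ i ≤ u.length ∧ u.rotate i = u.reverse := by
    obtain ⟨v, v', hv, hv', rfl⟩ := hc
    rcases Nat.eq_zero_or_pos v.length with h | h
    · refine ⟨(v ++ v').length, hnpos, le_rfl, ?_⟩
      have h1 := axis_of hv hv'
      rw [h, List.rotate_zero] at h1
      rw [List.rotate_length, ← h1]
    · exact ⟨v.length, h, by rw [List.length_append]; omega, axis_of hv hv'⟩
  obtain ⟨i, ⟨hi0, hin, hi⟩, hmin⟩ : ∃ i, (0 < i ∧ i ≤ u.length ∧ u.rotate i = u.reverse) ∧
      ∀ i', (0 < i' ∧ i' ≤ u.length ∧ u.rotate i' = u.reverse) → i ≤ i' :=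
    ⟨Nat.find hex, Nat.find_spec hex, fun i' h => Nat.find_min' hex h⟩
  obtain ⟨h, hh⟩ := hn
  have hi2 := hev i hin hi
  obtain ⟨x, hx⟩ : ∃ x, i = 2 * x := ⟨i / 2, by omega⟩
  obtain ⟨h1, h2⟩ := axis_split hin hi
  set P := (u.take i).drop x with hP
  set S := (u.drop i).take (L * h - x) with hS
  have hlh : 2 * L * h = L * h + L * h := by ring
  have e1 : u.take i = P.reverse ++ P := by
    have h3 : (u.take i).length = i := by rw [List.length_take]; omega
    have h4 : (u.take i).take x = P.reverse := by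
      rw [hP, List.reverse_drop, h1, h3]
      congr 1
      omega
    rw [← h4, hP, List.take_append_drop]
  have e2 : u.drop i = S ++ S.reverse := by
    have h3 : (u.drop i).length = 2 * (L * h - x) := by rw [List.length_drop]; omega
    have h4 : (u.drop i).drop (L * h - x) = S.reverse := by
      rw [hS, List.reverse_take, h2, h3]
      congr 1
      omega
    rw [← h4, hS, List.take_append_drop]
  have lP : P.length = x := by
    rw [hP, List.length_drop, List.length_take]
    omega
  have lS : S.length = L * h - x := by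
    rw [hS, List.length_take, List.length_drop]
    omega
  obtain ⟨τ, hτ, hG⟩ := hf_surj (L := L) (G := (P.map fun c => (c, true)) ++ S.map fun c => (c, false)) (h := h) (by
    rw [List.length_append, List.length_map, List.length_map, lP, lS]
    omega)
  have hsp : Sp τ P S := hG
  have hout : u = out τ := by
    rw [out_sp hsp, ← List.take_append_drop i u, e1, e2]
    simp
  refine ⟨τ, ⟨⟨P, S, hsp⟩, (flag_pos hsp).2 (by omega), ?_⟩, hout⟩
  rintro m ⟨⟨hm, hpw⟩, hsm⟩
  apply hsm
  rw [sm_iff hsp, hτ, lP]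
  rw [pw_iff (by omega), ul_rot hsp, ← hout, hτ] at hpw
  have hmL : m.val ∣ L := hK _ (by omega) (by have := m.2; omega)
  have hq : 0 < L / m.val := Nat.div_pos (Nat.le_of_dvd hL hmL) (by omega)
  have hhpos : 0 < h := by
    rcases Nat.eq_zero_or_pos h with h3 | h3
    · rw [h3, Nat.mul_zero] at hh
      omega
    · exact h3
  have hqh : 0 < (L / m.val) * h := Nat.mul_pos hq hhpos
  by_contra hcon
  have e3 : 2 * (L / m.val) * h = 2 * ((L / m.val) * h) := by ring
  have h5 := axis_sub hpw hi (by rw [e3]; omega)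
  have h6 := hmin (i - 2 * (L / m.val) * h) ⟨by rw [e3]; omega, by omega, h5⟩
  rw [e3] at h6
  omega

/-- words of bounded exponent have only one chosen tuple -/
theorem kp_uniq {K : ℕ} (hK : ∀ m, 1 ≤ m → m ≤ K → m ∣ L) {τ τ' : List (Fin L → Bool × Bool)} (h : Kp K τ) (h' : Kp K τ')
    (he : out τ = out τ') (hb : ∀ m, MP m (out τ) → m ≤ K) : τ' = τ := by
  have hL : 0 < L := Nat.pos_of_ne_zero (NeZero.ne L)
  obtain ⟨⟨P, S, hs⟩, hf, hk⟩ := h
  obtain ⟨⟨P', S', hs'⟩, hf', hk'⟩ := h'
  rw [flag_pos hs] at hf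
  rw [flag_pos hs'] at hf'
  have hn := out_len hs
  have hn' := out_len hs'
  have hl := sp_len hs
  have hl' := sp_len hs'
  have hlen : τ.length = τ'.length := by
    rw [← he, hn] at hn'
    exact Nat.eq_of_mul_eq_mul_left (by omega) hn'
  have hlh : 2 * L * τ.length = L * τ.length + L * τ.length := by ring
  have key : ∀ {τ τ' : List (Fin L → Bool × Bool)} {P S P' S' : List Bool}, Sp τ P S → Sp τ' P' S' → out τ = out τ' →
      τ.length = τ'.length → 0 < P.length → (∀ m, MP m (out τ) → m ≤ K) →
      (∀ m : Fin (K + 1), ¬ ((2 ≤ m.val ∧ Pw (2 * (L / m.val)) τ') ∧ ¬ Sm (L / m.val) τ')) → P'.length ≤ P.length := by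
    intro τ τ' P S P' S' hs hs' he hlen hf hb hk'
    by_contra hc
    have hn := out_len hs
    have hl' := sp_len hs'
    rw [← hlen] at hl'
    have hlh : 2 * L * τ.length = L * τ.length + L * τ.length := by ring
    have a1 := out_axis hs
    have a2 := out_axis hs'
    rw [← he] at a2
    obtain ⟨e, he2, hmp, hle⟩ := mp_of_axes (u := out τ) (i := 2 * P.length) (i' := 2 * P'.length) (by omega) (by rw [hn]; omega)
      (a1.trans a2.symm)
    have heK := hb e hmp
    obtain ⟨c, hc'⟩ := hK e (by omega) heK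
    have hc2 : L / e = c := by
      rw [hc']
      exact Nat.mul_div_cancel_left _ (by omega)
    have hdiv : (out τ).length / e = 2 * c * τ.length := by
      have hx : ∀ h : ℕ, 2 * L * h = e * (2 * c * h) := by
        intro h
        rw [hc']
        ring
      rw [hn, hx]
      exact Nat.mul_div_cancel_left _ (by omega)
    have h1 := hk' ⟨e, by omega⟩
    apply h1
    refine ⟨⟨he2, ?_⟩, ?_⟩
    · show Pw (2 * (L / e)) τ'
      rw [hc2, pw_iff (by omega), ul_rot hs', ← he, ← hlen, ← hdiv]
      exact hmp.2.2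
    · show ¬ Sm (L / e) τ'
      rw [hc2, sm_iff hs', ← hlen]
      rw [hdiv] at hle
      have e2 : 2 * c * τ.length = c * τ.length + c * τ.length := by ring
      omega
  have c1 := key hs hs' he hlen hf hb hk'
  have c2 := key hs' hs he.symm hlen.symm hf' (by rw [← he]; exact hb) hk
  have hP : P.length = P'.length := le_antisymm c2 c1
  have h1 := he
  rw [out_sp hs, out_sp hs'] at h1
  obtain ⟨h2, h3⟩ := List.append_inj h1 (by rw [List.length_reverse, List.length_reverse, hP])
  have h4 : P = P' := List.reverse_injective h2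
  rw [← h4, List.append_assoc, List.append_assoc] at h3
  have h5 := List.append_cancel_left h3
  rw [← hlen] at hl'
  obtain ⟨h6, -⟩ := List.append_inj h5 (by omega)
  apply hf_inj
  unfold Sp at hs hs'
  rw [hs, hs', ← h4, ← h6]

/-- the grammar -/
theorem nice_good (K : ℕ) : Point.Good {u : List Bool | ∃ τ : List (Fin L → Bool × Bool), Kp K τ ∧ u = out τ}
    {u : List Bool | ∃ τ : List (Fin L → Bool × Bool), Kp K τ ∧ u = out τ ∧ ∀ τ', Kp K τ' → u = out τ' → τ' = τ} := by
  have h := Point.good_gr (body (L := L)) (fnn L) (fun r d => ⟨r, by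
      unfold body
      split <;> simp⟩) ⟨((0 : Fin L), decide ((0 : Fin L).val % 2 = 0), none), by
      unfold fnn
      simp only [List.mem_append, List.mem_map]
      exact Or.inr (Or.inl ⟨0, List.mem_finRange _, rfl⟩)⟩ (fr_kp K)
  simp only [ev_fnn] at h
  exact h

end Pool.Agent.Lib.IXB.Nice
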