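import Pool.Agent.Lib.IXB.NiceC
import Pool.Agent.Lib.IXB.Blk
import Pool.Agent.Lib.IXB.Pow

/-!
# Blocks of equal letters and words of bounded exponent
-/

set_option autoImplicit false

namespace Pool.Agent.Lib.IXB.Nice

open Decode Fold

/-- a block of equal letters -/
def Hr (N : ℕ) (c : Bool) : List Bool := List.replicate N c

theorem hr_len (N : ℕ) (c : Bool) : (Hr N c).length = N := List.length_replicate

theorem hr_split {N r : ℕ} (hr : r ≤ N) (c : Bool) : Hr N c = List.replicate r c ++ List.replicate (N - r) c := by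
  rw [Hr, ← List.replicate_add]
  congr 1
  omega

theorem hr_one (N : ℕ) (w : List Bool) : (w.flatMap (Hr N)).rotate N = (w.rotate 1).flatMap (Hr N) := by
  cases w with
  | nil => simp
  | cons a x =>
    have h2 := List.rotate_append_length_eq (Hr N a) (x.flatMap (Hr N))
    rw [hr_len] at h2
    rw [List.flatMap_cons, h2]
    simp

theorem hr_rot (N k : ℕ) (w : List Bool) : (w.flatMap (Hr N)).rotate (N * k) = (w.rotate k).flatMap (Hr N) := by
  induction k generalizing w with
  | zero => rw [Nat.mul_zero, List.rotate_zero, List.rotate_zero]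
  | succ k ih => rw [Nat.mul_succ, Nat.add_comm, ← List.rotate_rotate, hr_one, ih, List.rotate_rotate, Nat.add_comm 1 k]

theorem hr_rev (N : ℕ) (w : List Bool) : (w.flatMap (Hr N)).reverse = w.reverse.flatMap (Hr N) := by
  rw [List.reverse_flatMap]
  congr 1
  funext c
  simp [Hr]

theorem hr_shift {N r : ℕ} (h0 : 0 < r) (hr : r < N) : ∀ (y x : List Bool) (a b : Bool),
    List.replicate (N - r) a ++ (x.flatMap (Hr N) ++ List.replicate r b) = y.flatMap (Hr N) → ∀ c ∈ x, c = a := by
  intro y
  induction y with
  | nil =>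
    intro x a b h
    have h1 := congrArg List.length h
    simp only [List.flatMap_nil, List.length_nil, List.length_append, List.length_replicate] at h1
    omega
  | cons c y ih =>
    intro x a b h
    cases x with
    | nil => simp
    | cons d x =>
      have e2 : Hr N c = List.replicate (N - r) c ++ List.replicate r c := by
        rw [Hr, ← List.replicate_add]
        congr 1
        omega
      rw [List.flatMap_cons, List.flatMap_cons, hr_split hr.le d, e2, List.append_assoc, List.append_assoc, List.append_assoc] at h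
      obtain ⟨h1, h2⟩ := List.append_inj h (by simp)
      obtain ⟨h3, h4⟩ := List.append_inj h2 (by simp)
      have h5 : a = c := by
        obtain ⟨s, hs⟩ : ∃ s, N - r = s + 1 := ⟨N - r - 1, by omega⟩
        rw [hs, List.replicate_succ, List.replicate_succ] at h1
        exact (List.cons.inj h1).1
      have h6 : d = c := by
        obtain ⟨s, hs⟩ : ∃ s, r = s + 1 := ⟨r - 1, by omega⟩
        rw [hs, List.replicate_succ, List.replicate_succ] at h3
        exact (List.cons.inj h3).1
      intro e he
      rcases List.mem_cons.1 he with rfl | he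
      · exact h6.trans h5.symm
      · rw [ih x d b h4 e he]
        exact h6.trans h5.symm

/-- rotations between block words are by multiples of the block length -/
theorem hr_div {N t : ℕ} (hN : 0 < N) {w w' : List Bool} (hw : ¬ ∃ a, ∀ c ∈ w, c = a)
    (h : (w.flatMap (Hr N)).rotate t = w'.flatMap (Hr N)) : N ∣ t := by
  by_contra hc
  have hr : 0 < t % N := Nat.pos_of_ne_zero fun h0 => hc (Nat.dvd_of_mod_eq_zero h0)
  have hrN := Nat.mod_lt t hN
  have e0 : (w.flatMap (Hr N)).rotate t = ((w.rotate (t / N)).flatMap (Hr N)).rotate (t % N) := by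
    rw [← hr_rot, List.rotate_rotate, Nat.div_add_mod]
  rw [e0] at h
  rcases hx : w.rotate (t / N) with _ | ⟨a, x⟩
  · have h1 : w = [] := List.rotate_eq_nil_iff.1 hx
    exact hw ⟨true, by simp [h1]⟩
  · rw [hx] at h
    have h2 := List.rotate_append_length_eq (List.replicate (t % N) a) (List.replicate (N - t % N) a ++ x.flatMap (Hr N))
    rw [List.length_replicate, ← List.append_assoc, ← hr_split hrN.le, ← List.flatMap_cons, h, List.append_assoc] at h2
    have h3 := hr_shift hr hrN w' x a a h2.symm
    apply hw
    refine ⟨a, fun c hc' => ?_⟩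
    have h5 : c ∈ w.rotate (t / N) := List.mem_rotate.2 hc'
    rw [hx] at h5
    rcases List.mem_cons.1 h5 with h4 | h4
    · exact h4
    · exact h3 c h4

theorem hr_ne {N : ℕ} (hN : 0 < N) : Hr N false ≠ Hr N true := by
  obtain ⟨s, rfl⟩ : ∃ s, N = s + 1 := ⟨N - 1, by omega⟩
  intro h
  rw [Hr, Hr, List.replicate_succ, List.replicate_succ] at h
  exact Bool.false_ne_true (List.cons.inj h).1

theorem ncn_rev {w : List Bool} (hw : ¬ ∃ a, ∀ c ∈ w, c = a) : ¬ ∃ a, ∀ c ∈ w.reverse, c = a := by
  rintro ⟨a, ha⟩
  exact hw ⟨a, fun c hc => ha c (List.mem_reverse.2 hc)⟩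

theorem hr_lc {N : ℕ} (hN : 0 < N) {w : List Bool} (hw : ¬ ∃ a, ∀ c ∈ w, c = a) : w.flatMap (Hr N) ∈ LC ↔ w ∈ LC := by
  have e : ∀ u : List Bool, u ∈ LC ↔ ∃ n, u.reverse.rotate n = u := fun u => Mark.lc_iff_rot u
  rw [e, e]
  constructor
  · rintro ⟨n, hn⟩
    rw [hr_rev] at hn
    obtain ⟨k, rfl⟩ := hr_div hN (ncn_rev hw) hn
    rw [hr_rot] at hn
    exact ⟨k, Flag.fm_inj _ (hr_len N) (hr_ne hN) _ _ (by simp) hn⟩
  · rintro ⟨k, hk⟩
    refine ⟨N * k, ?_⟩
    rw [hr_rev, hr_rot, hk]

theorem hr_mp {N : ℕ} (hN : 0 < N) {w : List Bool} (hw : ¬ ∃ a, ∀ c ∈ w, c = a) {m : ℕ} (h : MP m (w.flatMap (Hr N))) :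
    MP m w := by
  obtain ⟨hm, hd, hr⟩ := h
  have hd' := hr_div hN hw hr
  obtain ⟨p, hp⟩ := hd
  rw [hp, Nat.mul_div_cancel_left _ (by omega)] at hr hd'
  obtain ⟨q, rfl⟩ := hd'
  rw [fm_len (hr_len N)] at hp
  have h1 : w.length = m * q := by
    have h2 : w.length * N = (m * q) * N := by rw [hp]; ring
    exact Nat.eq_of_mul_eq_mul_right hN h2
  refine ⟨hm, ⟨q, h1⟩, ?_⟩
  rw [h1, Nat.mul_div_cancel_left _ (by omega)]
  rw [hr_rot] at hr
  exact Flag.fm_inj _ (hr_len N) (hr_ne hN) _ _ (by simp) hr

theorem pow_of_comm : ∀ (m : ℕ) (z r : List Bool), r.length = m * z.length → z ++ r = r ++ z →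
    r = (List.replicate m z).flatten := by
  intro m
  induction m with
  | zero =>
    intro z r h _
    rw [Nat.zero_mul] at h
    rw [List.eq_nil_of_length_eq_zero h]
    simp
  | succ m ih =>
    intro z r h hc
    rw [Nat.succ_mul] at h
    have h2 : r.take z.length = z := by
      have h3 := congrArg (List.take z.length) hc
      rw [List.take_left, List.take_append_of_le_length (by omega)] at h3
      exact h3.symm
    obtain ⟨r', rfl⟩ : ∃ r', r = z ++ r' := ⟨r.drop z.length, by
      conv_lhs => rw [← List.take_append_drop z.length r, h2]⟩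
    rw [List.append_assoc] at hc
    have h3 := List.append_cancel_left hc
    rw [List.replicate_succ, List.flatten_cons, ← ih z r' (by rw [List.length_append] at h; omega) h3]

theorem mp_pow {m : ℕ} {u : List Bool} (h : MP m u) : ∃ z : List Bool, u = (List.replicate m z).flatten := by
  obtain ⟨hm, ⟨p, hp⟩, hr⟩ := h
  rw [hp, Nat.mul_div_cancel_left _ (by omega)] at hr
  obtain ⟨m, rfl⟩ : ∃ k, m = k + 1 := ⟨m - 1, by omega⟩
  have hple : p ≤ u.length := by
    rw [hp]
    exact Nat.le_mul_of_pos_left _ (by omega)
  have hl : (u.take p).length = p := by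
    rw [List.length_take]
    omega
  refine ⟨u.take p, ?_⟩
  rw [List.rotate_eq_drop_append_take hple] at hr
  have h1 := pow_of_comm m (u.take p) (u.drop p) (by
    rw [List.length_drop, hl, hp, Nat.succ_mul]
    omega) (by rw [hr, List.take_append_drop])
  rw [List.replicate_succ, List.flatten_cons, ← h1, List.take_append_drop]

/-- the constant words -/
def Con : Language Bool := {w | ∃ a, ∀ c ∈ w, c = a}

theorem mem_con (w : List Bool) : w ∈ Con ↔ ∃ a, ∀ c ∈ w, c = a := Iff.rfl

theorem con_reg : Con.IsRegular := by
  refine ⟨Option (Option Bool), inferInstance,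
    { step := fun s c => match s with
        | none => none
        | some none => some (some c)
        | some (some d) => if c = d then some (some d) else none
      start := some none
      accept := {s | s ≠ none} }, ?_⟩
  have h0 : ∀ w : List Bool, (DFA.mk (fun (s : Option (Option Bool)) (c : Bool) => match s with
        | none => none
        | some none => some (some c)
        | some (some d) => if c = d then some (some d) else none) (some none) {s | s ≠ none}).evalFrom none w = none := by
    intro w
    induction w with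
    | nil => rfl
    | cons c w ih => exact ih
  have h1 : ∀ (w : List Bool) (d : Bool), (DFA.mk (fun (s : Option (Option Bool)) (c : Bool) => match s with
        | none => none
        | some none => some (some c)
        | some (some d) => if c = d then some (some d) else none) (some none) {s | s ≠ none}).evalFrom (some (some d)) w ≠ none ↔
        ∀ c ∈ w, c = d := by
    intro w
    induction w with
    | nil => intro d; simp [DFA.evalFrom]
    | cons c w ih =>
      intro d
      rw [DFA.evalFrom_cons]
      by_cases hc : c = d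
      · simp only [hc, if_true, List.mem_cons, forall_eq_or_imp, true_and]
        exact ih d
      · simp only [hc, if_false, h0, ne_eq, not_true_eq_false, List.mem_cons, forall_eq_or_imp, false_and]
  ext w
  rw [mem_con]
  cases w with
  | nil =>
    constructor
    · intro _
      exact ⟨true, by simp⟩
    · intro _
      show some none ≠ none
      simp
  | cons c w =>
    show _ ≠ none ↔ _
    refine Iff.trans (h1 w c) ?_
    constructor
    · intro h
      exact ⟨c, fun e he => by
        rcases List.mem_cons.1 he with rfl | he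
        · rfl
        · exact h e he⟩
    · rintro ⟨a, ha⟩ e he
      rw [ha e (List.mem_cons_of_mem _ he), ha c List.mem_cons_self]

theorem con_lc {w : List Bool} (h : w ∈ Con) : w ∈ LC := by
  obtain ⟨a, ha⟩ := h
  refine ⟨w, [], ?_, rfl, by simp⟩
  rw [List.eq_replicate_of_mem ha, List.reverse_replicate]

theorem con_un : Trans.Un {u : List Bool | u ∈ LC ∧ u ∈ Con} := by
  refine Flag.pow_main Con con_reg (C := 2) (d := 0) fun n => ?_
  have h1 : {u : List Bool | u ∈ LC ∧ u ∈ Con ∧ {k : ℕ | (List.replicate k u).flatten ∈ Con}.Infinite ∧ u.length = n} ⊆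
      Set.range fun a : Bool => List.replicate n a := by
    rintro u ⟨-, ⟨a, ha⟩, -, rfl⟩
    exact ⟨a, (List.eq_replicate_of_mem ha).symm⟩
  have h2 := Set.ncard_le_ncard h1 (Set.finite_range _)
  have h3 : (Set.range fun a : Bool => List.replicate n a).ncard ≤ 2 := by
    rw [← Set.image_univ]
    refine (Set.ncard_image_le (Set.toFinite _)).trans ?_
    rw [Set.ncard_univ, Nat.card_eq_fintype_card, Fintype.card_bool]
  simpa using h2.trans h3

/-- the palindrome-pair language has for every `K` a grammar which is unambiguous on the words of exponent at most `K` -/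
theorem bounded_good (K : ℕ) : Point.Good LC {u : List Bool | u ∈ LC ∧ ∀ z : List Bool, ∀ m, z ≠ [] →
    u = (List.replicate m z).flatten → m ≤ K} := by
  have : NeZero K.factorial := ⟨Nat.factorial_ne_zero K⟩
  have hL : 0 < K.factorial := Nat.factorial_pos K
  have hK : ∀ m, 1 ≤ m → m ≤ K → m ∣ K.factorial := fun m h1 h2 => Nat.dvd_factorial h1 h2
  have h1 := nice_good (L := K.factorial) K
  have hsub : {u : List Bool | ∃ τ : List (Fin K.factorial → Bool × Bool), Kp K τ ∧ u = out τ ∧
      ∀ τ', Kp K τ' → u = out τ' → τ' = τ} ⊆ {u : List Bool | ∃ τ : List (Fin K.factorial → Bool × Bool), Kp K τ ∧ u = out τ} :=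
    fun u ⟨τ, h2, h3, _⟩ => ⟨τ, h2, h3⟩
  have hN : 0 < 2 * K.factorial := by omega
  have h2 := Point.good_block (Hr (2 * K.factorial)) (2 * K.factorial - 1) h1 hsub (hr_ne hN)
    (fun c => by rw [hr_len]; omega)
  have h3 := Point.good_inter h2 (fun w hw => hsub hw) con_reg.compl
  refine (Point.good_union h3 (Point.good_of_un con_un) (fun w hw => ⟨hsub hw.1, hw.2⟩) (fun _ h => h) ?_).congr ?_ ?_
  · rw [Set.disjoint_left]
    rintro w ⟨-, hw⟩ ⟨-, hw'⟩
    exact hw hw'
  · ext w
    constructor
    · rintro (⟨⟨τ, hτ, he⟩, hw⟩ | ⟨hw, -⟩)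
      · obtain ⟨⟨P, S, hs⟩, -⟩ := hτ
        have h4 := out_lc hs
        rw [← he] at h4
        exact (hr_lc hN hw).1 h4
      · exact hw
    · intro hw
      by_cases hc : w ∈ Con
      · exact Or.inr ⟨hw, hc⟩
      · refine Or.inl ⟨?_, hc⟩
        refine kp_ex hK ?_ ?_ ((hr_lc hN hc).2 hw) ?_
        · intro h0
          have h5 : w.flatMap (Hr (2 * K.factorial)) = [] := h0
          have h6 := congrArg List.length h5
          rw [fm_len (hr_len _), List.length_nil] at h6
          have h7 : w.length = 0 := by
            rcases Nat.mul_eq_zero.1 h6 with h | h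
            · exact h
            · omega
          exact hc ⟨true, by simp [List.eq_nil_of_length_eq_zero h7]⟩
        · rw [fm_len (hr_len _)]
          exact Dvd.intro_left _ rfl
        · intro i _ hi
          rw [hr_rev] at hi
          obtain ⟨k, rfl⟩ := hr_div hN hc hi
          rw [mul_assoc, Nat.mul_mod_right]
  · rintro w ⟨hw, hb⟩
    by_cases hc : w ∈ Con
    · exact Or.inr ⟨hw, hc⟩
    · refine Or.inl ⟨?_, hc⟩
      obtain ⟨τ, hτ, he⟩ : ∃ τ : List (Fin K.factorial → Bool × Bool), Kp K τ ∧ w.flatMap (Hr (2 * K.factorial)) = out τ := by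
        refine kp_ex hK ?_ ?_ ((hr_lc hN hc).2 hw) ?_
        · intro h5
          have h6 := congrArg List.length h5
          rw [fm_len (hr_len _), List.length_nil] at h6
          have h7 : w.length = 0 := by
            rcases Nat.mul_eq_zero.1 h6 with h | h
            · exact h
            · omega
          exact hc ⟨true, by simp [List.eq_nil_of_length_eq_zero h7]⟩
        · rw [fm_len (hr_len _)]
          exact Dvd.intro_left _ rfl
        · intro i _ hi
          rw [hr_rev] at hi
          obtain ⟨k, rfl⟩ := hr_div hN hc hi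
          rw [mul_assoc, Nat.mul_mod_right]
      refine ⟨τ, hτ, he, fun τ' hτ' he' => ?_⟩
      refine kp_uniq hK hτ hτ' (he.symm.trans he') fun m hm => ?_
      rw [← he] at hm
      obtain ⟨z, hz⟩ := mp_pow (hr_mp hN hc hm)
      refine hb z m ?_ hz
      rintro rfl
      exact hc ⟨true, by rw [hz]; simp⟩

end Pool.Agent.Lib.IXB.Nice
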