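import Pool.Agent.Lib.IXB.NiceD

/-!
# Powers of words and their smooth roots
-/

set_option autoImplicit false

namespace Pool.Agent.Lib.IXB.Nice

open Decode Fold

/-- the `m`-th power -/
def pw (m : ℕ) (z : List Bool) : List Bool := (List.replicate m z).flatten

theorem pw_zero (z : List Bool) : pw 0 z = [] := rfl

theorem pw_succ (m : ℕ) (z : List Bool) : pw (m + 1) z = z ++ pw m z := by
  rw [pw, List.replicate_succ, List.flatten_cons]
  rfl

theorem pw_one (z : List Bool) : pw 1 z = z := by
  rw [pw_succ, pw_zero, List.append_nil]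

theorem pw_len (m : ℕ) (z : List Bool) : (pw m z).length = m * z.length := by
  induction m with
  | zero => rw [pw_zero, Nat.zero_mul]; rfl
  | succ m ih => rw [pw_succ, List.length_append, ih]; ring

theorem pw_add (a b : ℕ) (z : List Bool) : pw (a + b) z = pw a z ++ pw b z := by
  rw [pw, List.replicate_add, List.flatten_append]
  rfl

theorem pw_mul (a b : ℕ) (z : List Bool) : pw (a * b) z = pw a (pw b z) := by
  induction a with
  | zero => rw [Nat.zero_mul]; rfl
  | succ a ih => rw [Nat.succ_mul, Nat.add_comm, pw_add, ih, pw_succ]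

theorem pw_shift (m : ℕ) (p q : List Bool) : pw m (p ++ q) ++ p = p ++ pw m (q ++ p) := by
  induction m with
  | zero => simp [pw_zero]
  | succ m ih =>
    rw [pw_succ, pw_succ, List.append_assoc, ih]
    simp only [List.append_assoc]

theorem pw_rot (m : ℕ) {k : ℕ} {z : List Bool} (hk : k ≤ z.length) : (pw m z).rotate k = pw m (z.rotate k) := by
  cases m with
  | zero => simp [pw_zero]
  | succ m =>
    have hl : (z.take k).length = k := by
      rw [List.length_take]
      omega
    have h1 := List.rotate_append_length_eq (z.take k) (z.drop k ++ pw m z)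
    rw [hl, ← List.append_assoc, List.take_append_drop, ← pw_succ] at h1
    rw [h1, List.rotate_eq_drop_append_take hk, pw_succ]
    have h2 := pw_shift m (z.take k) (z.drop k)
    rw [List.take_append_drop] at h2
    rw [List.append_assoc, h2, List.append_assoc]

theorem pw_rev (m : ℕ) (z : List Bool) : (pw m z).reverse = pw m z.reverse := by
  induction m with
  | zero => rfl
  | succ m ih => rw [pw_succ, List.reverse_append, ih, pw_add, pw_one]

theorem pw_cancel {m : ℕ} (hm : 0 < m) {z z' : List Bool} (hl : z.length = z'.length) (h : pw m z = pw m z') : z = z' := by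
  obtain ⟨k, rfl⟩ : ∃ k, m = k + 1 := ⟨m - 1, by omega⟩
  rw [pw_succ, pw_succ] at h
  exact (List.append_inj h hl).1

theorem pw_fm (B : Bool → List Bool) (m : ℕ) (z : List Bool) : (pw m z).flatMap B = pw m (z.flatMap B) := by
  induction m with
  | zero => rfl
  | succ m ih => rw [pw_succ, List.flatMap_append, ih, pw_succ]

theorem mp_pw {m : ℕ} (hm : 0 < m) (z : List Bool) : MP m (pw m z) := by
  refine ⟨hm, ⟨z.length, pw_len m z⟩, ?_⟩
  rw [pw_len, Nat.mul_div_cancel_left _ hm, pw_rot m le_rfl, List.rotate_length]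

theorem mp_ex {m : ℕ} {u : List Bool} (h : MP m u) : ∃ z, u = pw m z := mp_pow h

theorem rot_gcd {u : List Bool} (a b : ℕ) (ha : u.rotate a = u) (hb : u.rotate b = u) : u.rotate (Nat.gcd a b) = u := by
  induction a, b using Nat.gcd.induction with
  | H0 n => rwa [Nat.gcd_zero_left]
  | H1 m n hm ih =>
    rw [Nat.gcd_rec]
    refine ih ?_ ha
    have h1 := rot_mul ha (n / m)
    have h2 : u.rotate n = (u.rotate (m * (n / m))).rotate (n % m) := by rw [List.rotate_rotate, Nat.div_add_mod]
    rw [h1, hb] at h2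
    exact h2.symm

/-- primitive words -/
def Pr (z : List Bool) : Prop := ∀ e, MP e z → e ≤ 1

theorem pr_gcd {u z : List Bool} {m b : ℕ} (hz : Pr z) (hm : 0 < m) (hne : z ≠ []) (hu : u = pw m z) (hb : u.rotate b = u) :
    Nat.gcd z.length b = z.length := by
  have hl : 0 < z.length := List.length_pos_iff.2 hne
  have h1 : u.rotate z.length = u := by rw [hu, pw_rot m le_rfl, List.rotate_length]
  have h2 := rot_gcd _ _ h1 hb
  have hg : Nat.gcd z.length b ∣ z.length := Nat.gcd_dvd_left _ _
  have hgl := Nat.le_of_dvd hl hg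
  have hgpos : 0 < Nat.gcd z.length b := Nat.pos_of_dvd_of_pos hg hl
  rw [hu, pw_rot m hgl] at h2
  have h3 := pw_cancel hm (by simp) h2
  set g := Nat.gcd z.length b
  obtain ⟨e, he⟩ := hg
  have hepos : 0 < e := by
    rcases Nat.eq_zero_or_pos e with h | h
    · rw [h, Nat.mul_zero] at he
      omega
    · exact h
  have h4 : MP e z := by
    refine ⟨hepos, ⟨g, by rw [he, mul_comm]⟩, ?_⟩
    have h5 : z.length / e = g := by
      rw [he]
      exact Nat.mul_div_cancel _ hepos
    rw [h5]
    exact h3
  have h5 := hz e h4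
  have h6 : e = 1 := by omega
  rw [h6, Nat.mul_one] at he
  exact he.symm

theorem pr_uniq {z z' : List Bool} {m m' : ℕ} (hz : Pr z) (hz' : Pr z') (hm : 0 < m) (hm' : 0 < m') (hne : z ≠ [])
    (hne' : z' ≠ []) (h : pw m z = pw m' z') : m = m' ∧ z = z' := by
  have h1 := pr_gcd hz hm hne rfl (b := z'.length) (by rw [h, pw_rot m' le_rfl, List.rotate_length])
  have h2 := pr_gcd hz' hm' hne' rfl (b := z.length) (by rw [← h, pw_rot m le_rfl, List.rotate_length])
  rw [Nat.gcd_comm] at h2
  have h3 : z.length = z'.length := h1.symm.trans h2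
  have h4 := congrArg List.length h
  rw [pw_len, pw_len, h3] at h4
  have h5 := Nat.eq_of_mul_eq_mul_right (List.length_pos_iff.2 hne') h4
  subst h5
  exact ⟨rfl, pw_cancel hm h3 h⟩

theorem pw_lc {m : ℕ} (hm : 0 < m) (z : List Bool) : pw m z ∈ LC ↔ z ∈ LC := by
  have e : ∀ u : List Bool, u ∈ LC ↔ u.reverse ~r u := fun u => Mark.lc_iff_rot u
  rw [e, e]
  constructor
  · rintro ⟨n, hn⟩
    rw [pw_rev] at hn
    rcases eq_or_ne z [] with rfl | hne
    · exact ⟨0, rfl⟩
    · have hl : 0 < z.length := List.length_pos_iff.2 hne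
      have h1 : (pw m z.reverse).rotate z.length = pw m z.reverse := by
        rw [pw_rot m (by rw [List.length_reverse]), ← List.length_reverse, List.rotate_length]
      have h2 := rot_mul h1 (n / z.length)
      have h3 : (pw m z.reverse).rotate n = ((pw m z.reverse).rotate (z.length * (n / z.length))).rotate (n % z.length) := by
        rw [List.rotate_rotate, Nat.div_add_mod]
      have h4 := Nat.mod_lt n hl
      rw [h2, hn, pw_rot m (by rw [List.length_reverse]; omega)] at h3
      exact ⟨_, (pw_cancel hm (by simp) h3).symm⟩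
  · intro h
    obtain ⟨n, hn, h1⟩ := List.isRotated_iff_mod.1 h
    refine ⟨n, ?_⟩
    rw [pw_rev, pw_rot m hn, h1]

/-- every word is a smooth power of a word without small prime exponents -/
theorem smooth_ex (K : ℕ) : ∀ (n : ℕ) (x : List Bool), x.length ≤ n → x ≠ [] → ∃ (m : ℕ) (y : List Bool), 0 < m ∧
    (∀ p : ℕ, p.Prime → p ∣ m → p ≤ K) ∧ x = pw m y ∧ ∀ p : ℕ, p.Prime → p ≤ K → ¬ MP p y := by
  intro n
  induction n with
  | zero =>
    intro x hx hne
    exact absurd (List.eq_nil_of_length_eq_zero (by omega)) hne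
  | succ n ih =>
    intro x hx hne
    by_cases h : ∃ p : ℕ, p.Prime ∧ p ≤ K ∧ MP p x
    · obtain ⟨p, hp, hpK, hmp⟩ := h
      obtain ⟨x', rfl⟩ := mp_ex hmp
      have h2 := hp.two_le
      have hne' : x' ≠ [] := by
        rintro rfl
        apply hne
        rw [pw]
        simp
      have h3 : 0 < x'.length := List.length_pos_iff.2 hne'
      rw [pw_len] at hx
      have h4 : 2 * x'.length ≤ p * x'.length := Nat.mul_le_mul_right _ h2
      obtain ⟨m, y, hm, h5, h6, h7⟩ := ih x' (by omega) hne'
      refine ⟨p * m, y, Nat.mul_pos (by omega) hm, ?_, ?_, h7⟩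
      · intro q hq hd
        rcases (Nat.Prime.dvd_mul hq).1 hd with hd | hd
        · rw [(Nat.prime_dvd_prime_iff_eq hq hp).1 hd]
          exact hpK
        · exact h5 q hq hd
      · rw [pw_mul, ← h6]
    · refine ⟨1, x, one_pos, fun p hp hd => ?_, (pw_one x).symm, fun p hp hpK hmp => h ⟨p, hp, hpK, hmp⟩⟩
      exact absurd (Nat.dvd_one.1 hd) hp.one_lt.ne'

/-- primitivity from prime exponents -/
theorem pr_of_prime {z : List Bool} (h : ∀ p : ℕ, p.Prime → ¬ MP p z) : Pr z := by
  intro e he
  by_contra hc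
  obtain ⟨p, hp, k, rfl⟩ := Nat.exists_prime_and_dvd (show e ≠ 1 by omega)
  obtain ⟨y, rfl⟩ := mp_ex he
  rw [pw_mul] at h
  exact h p hp (mp_pw hp.pos _)

theorem mp_pw_of {p m : ℕ} {z : List Bool} (h : MP p z) : MP p (pw m z) := by
  obtain ⟨y, rfl⟩ := mp_ex h
  rw [← pw_mul, mul_comm, pw_mul]
  exact mp_pw h.1 _

end Pool.Agent.Lib.IXB.Nice
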