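import Pool.Agent.Lib.IXB.NiceE

/-!
# Grammars of smooth powers
-/

set_option autoImplicit false

namespace Pool.Agent.Lib.IXB.Nice

open Decode Fold

section
variable {D R : Type} (K : ℕ) (body : R → D → List (R ⊕ Bool)) (fn : List (R ⊕ Bool))

/-- the readers inside the larger set of readers -/
def up : R ⊕ Bool → Option R ⊕ Bool := Sum.map some id

/-- the readers with a reader for powers -/
def bodyP : Option R → Fin (K + 1) ⊕ D → List (Option R ⊕ Bool)
  | none, .inl p => Sum.inl none :: List.replicate (p.val - 1) (Sum.inl none)
  | none, .inr d => fn.flatMap (Sum.elim (fun r => (body r d).map up) fun t => [Sum.inr t])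
  | some r, .inl _ => [Sum.inl (some r)]
  | some r, .inr d => (body r d).map up

theorem up_val (τ : List D) (r : R) : Gen.val (bodyP K body fn) (τ.map Sum.inr) (some r) = Gen.val body τ r := by
  induction τ generalizing r with
  | nil => rfl
  | cons d τ ih =>
    rw [List.map_cons, Gen.val_cons, Gen.val_cons]
    show Gen.ev (bodyP K body fn) (τ.map Sum.inr) ((body r d).map up) = Gen.ev body τ (body r d)
    unfold Gen.ev
    rw [List.flatMap_map]
    congr 1
    funext a
    cases a with
    | inl r' => exact ih r'
    | inr t => rfl

theorem up_ev (τ : List D) (α : List (R ⊕ Bool)) : Gen.ev (bodyP K body fn) (τ.map Sum.inr) (α.map up) = Gen.ev body τ α := by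
  unfold Gen.ev
  rw [List.flatMap_map]
  congr 1
  funext a
  cases a with
  | inl r' => exact up_val K body fn τ r'
  | inr t => rfl

theorem ev_cons_stack {T D R : Type} (body : R → D → List (R ⊕ T)) (d : D) (τ : List D) (α : List (R ⊕ T)) :
    Gen.ev body (d :: τ) α = Gen.ev body τ (α.flatMap (Sum.elim (fun r => body r d) fun t => [Sum.inr t])) := by
  unfold Gen.ev
  rw [List.flatMap_assoc]
  congr 1
  funext a
  cases a with
  | inl r => rfl
  | inr t => rfl

/-- the exponent -/
def ex (pre : List (Fin (K + 1))) : ℕ := (pre.map fun p => (p.val - 1) + 1).prod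

theorem none_val (d : D) (τ : List D) (pre : List (Fin (K + 1))) :
    Gen.val (bodyP K body fn) (pre.map Sum.inl ++ (d :: τ).map Sum.inr) none = pw (ex K pre) (Gen.ev body (d :: τ) fn) := by
  induction pre with
  | nil =>
    rw [List.map_nil, List.nil_append, List.map_cons, Gen.val_cons, ev_cons_stack]
    show Gen.ev (bodyP K body fn) (τ.map Sum.inr) (fn.flatMap (Sum.elim (fun r => (body r d).map up) fun t => [Sum.inr t])) =
      pw 1 _
    rw [pw_one, ← up_ev K body fn, List.map_flatMap]
    congr 2
    funext a
    cases a with
    | inl r => rfl
    | inr t => rfl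
  | cons p pre ih =>
    rw [List.map_cons, List.cons_append, Gen.val_cons]
    show Gen.ev (bodyP K body fn) _ (Sum.inl none :: List.replicate (p.val - 1) (Sum.inl none)) = _
    have h1 : ∀ k : ℕ, Gen.ev (bodyP K body fn) (pre.map Sum.inl ++ (d :: τ).map Sum.inr) (List.replicate k (Sum.inl none)) =
        pw k (Gen.val (bodyP K body fn) (pre.map Sum.inl ++ (d :: τ).map Sum.inr) none) := by
      intro k
      induction k with
      | zero => rfl
      | succ k ihk =>
        rw [List.replicate_succ, Gen.ev_cons, ihk, pw_succ]
        rfl
    rw [← List.replicate_succ, h1, ih, ← pw_mul, ex, ex, List.map_cons, List.prod_cons]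

end

section
variable {D E : Type} [LinearOrder E]

/-- prefixed stacks -/
def PreK (Q : E → Prop) (Kq : List D → Prop) (σ : List (E ⊕ D)) : Prop :=
  ∃ (pre : List E) (τ : List D), σ = pre.map Sum.inl ++ τ.map Sum.inr ∧ pre.Pairwise (· ≤ ·) ∧ (∀ p ∈ pre, Q p) ∧ Kq τ

theorem fr_pre [Finite E] (Q : E → Prop) {Kq : List D → Prop} (h : FR Kq) : FR (PreK Q Kq) := by
  classical
  obtain ⟨S, hS, step, init, Acc, hK⟩ := h
  let stp : E ⊕ D → Option (S × Option E) → Option (S × Option E) := fun a s =>
    match a, s with
    | _, none => none
    | .inr d, some (s, none) => some (step d s, none)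
    | .inr _, some (_, some _) => none
    | .inl p, some (s, none) => if Q p then some (s, some p) else none
    | .inl p, some (s, some q) => if Q p ∧ p ≤ q then some (s, some p) else none
  refine ⟨Option (S × Option E), inferInstance, stp, some (init, none), {x | ∃ s o, x = some (s, o) ∧ s ∈ Acc}, fun σ => ?_⟩
  have h1 : ∀ (σ : List (E ⊕ D)) (s : S) (o : Option E), σ.foldr stp (some (init, none)) = some (s, o) →
      ∃ (pre : List E) (τ : List D), σ = pre.map Sum.inl ++ τ.map Sum.inr ∧ pre.Pairwise (· ≤ ·) ∧ (∀ p ∈ pre, Q p) ∧
        pre.head? = o ∧ τ.foldr step init = s := by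
    intro σ
    induction σ with
    | nil =>
      intro s o h
      simp only [List.foldr_nil, Option.some.injEq, Prod.mk.injEq] at h
      obtain ⟨rfl, rfl⟩ := h
      exact ⟨[], [], rfl, List.Pairwise.nil, by simp, rfl, rfl⟩
    | cons a σ ih =>
      intro s o h
      rw [List.foldr_cons] at h
      rcases hx : σ.foldr stp (some (init, none)) with _ | ⟨s', o'⟩
      · rw [hx] at h
        cases a <;> simp [stp] at h
      · rw [hx] at h
        obtain ⟨pre, τ, rfl, h2, h3, h4, h5⟩ := ih s' o' hx
        cases a with
        | inl p =>
          cases o' with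
          | none =>
            have h6 : pre = [] := by
              cases pre with
              | nil => rfl
              | cons _ _ => simp at h4
            subst h6
            by_cases hQ : Q p
            · simp only [stp, hQ, if_true, Option.some.injEq, Prod.mk.injEq] at h
              obtain ⟨rfl, rfl⟩ := h
              exact ⟨[p], τ, rfl, by simp, by simpa using hQ, rfl, h5⟩
            · simp [stp, hQ] at h
          | some q =>
            by_cases hQ : Q p ∧ p ≤ q
            · simp only [stp, hQ, and_self, if_true, Option.some.injEq, Prod.mk.injEq] at h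
              obtain ⟨rfl, rfl⟩ := h
              cases pre with
              | nil => simp at h4
              | cons q' pre =>
                simp only [List.head?_cons, Option.some.injEq] at h4
                subst h4
                refine ⟨p :: q' :: pre, τ, rfl, ?_, ?_, rfl, h5⟩
                · refine List.pairwise_cons.2 ⟨fun b hb => ?_, h2⟩
                  rcases List.mem_cons.1 hb with rfl | hb
                  · exact hQ.2
                  · exact hQ.2.trans ((List.pairwise_cons.1 h2).1 b hb)
                · intro b hb
                  rcases List.mem_cons.1 hb with rfl | hb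
                  · exact hQ.1
                  · exact h3 b hb
            · simp [stp, hQ] at h
        | inr d =>
          cases o' with
          | none =>
            have h6 : pre = [] := by
              cases pre with
              | nil => rfl
              | cons _ _ => simp at h4
            subst h6
            simp only [stp, Option.some.injEq, Prod.mk.injEq] at h
            obtain ⟨rfl, rfl⟩ := h
            exact ⟨[], d :: τ, rfl, List.Pairwise.nil, by simp, rfl, by rw [List.foldr_cons, h5]⟩
          | some q => simp [stp] at h
  have h2 : ∀ τ : List D, (τ.map (Sum.inr : D → E ⊕ D)).foldr stp (some (init, none)) = some (τ.foldr step init, none) := by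
    intro τ
    induction τ with
    | nil => rfl
    | cons d τ ih => rw [List.map_cons, List.foldr_cons, ih, List.foldr_cons]
  have h3 : ∀ (τ : List D) (pre : List E), pre.Pairwise (· ≤ ·) → (∀ p ∈ pre, Q p) →
      (pre.map Sum.inl ++ τ.map (Sum.inr : D → E ⊕ D)).foldr stp (some (init, none)) = some (τ.foldr step init, pre.head?) := by
    intro τ pre
    induction pre with
    | nil => intro _ _; exact h2 τ
    | cons p pre ih =>
      intro hp hq
      rw [List.map_cons, List.cons_append, List.foldr_cons, ih (List.pairwise_cons.1 hp).2
        (fun x hx => hq x (List.mem_cons_of_mem _ hx))]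
      have hQ := hq p List.mem_cons_self
      cases pre with
      | nil => simp [stp, hQ]
      | cons q pre =>
        have h4 := (List.pairwise_cons.1 hp).1 q List.mem_cons_self
        simp [stp, hQ, h4]
  constructor
  · rintro ⟨pre, τ, rfl, hp, hq, hk⟩
    exact ⟨_, _, h3 τ pre hp hq, (hK τ).1 hk⟩
  · rintro ⟨s, o, hs, hacc⟩
    obtain ⟨pre, τ, rfl, hp, hq, -, h6⟩ := h1 σ s o hs
    exact ⟨pre, τ, rfl, hp, hq, (hK τ).2 (by rw [h6]; exact hacc)⟩

end

end Pool.Agent.Lib.IXB.Nice
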