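import Pool.Agent.Lib.IXB.NiceF

/-!
# The palindrome-pair language: unambiguity outside the large prime powers
-/

set_option autoImplicit false

namespace Pool.Agent.Lib.IXB.Nice

open Decode Fold

section
variable {K : ℕ}

theorem ex_prime {pre : List (Fin (K + 1))} (h : ∀ p ∈ pre, p.val.Prime) : ex K pre = (pre.map Fin.val).prod := by
  unfold ex
  congr 1
  refine List.map_congr_left fun p hp => ?_
  have := (h p hp).pos
  omega

theorem ex_inj {pre pre' : List (Fin (K + 1))} (h : ∀ p ∈ pre, p.val.Prime) (h' : ∀ p ∈ pre', p.val.Prime)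
    (hs : pre.Pairwise (· ≤ ·)) (hs' : pre'.Pairwise (· ≤ ·)) (he : ex K pre = ex K pre') : pre = pre' := by
  rw [ex_prime h, ex_prime h'] at he
  have h1 : List.Perm (pre.map Fin.val) (pre'.map Fin.val) := by
    refine (Nat.primeFactorsList_unique rfl ?_).trans (Nat.primeFactorsList_unique he.symm ?_).symm
    · intro p hp
      obtain ⟨q, hq, rfl⟩ := List.mem_map.1 hp
      exact h q hq
    · intro p hp
      obtain ⟨q, hq, rfl⟩ := List.mem_map.1 hp
      exact h' q hq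
  have h2 : List.Perm pre pre' := (List.map_perm_map_iff Fin.val_injective).1 h1
  exact h2.eq_of_pairwise' hs hs'

theorem ex_pos (pre : List (Fin (K + 1))) : 0 < ex K pre := by
  unfold ex
  induction pre with
  | nil => simp
  | cons p pre ih =>
    rw [List.map_cons, List.prod_cons]
    exact Nat.mul_pos (by omega) ih

theorem pre_ex {m : ℕ} (hm : 0 < m) (h : ∀ p : ℕ, p.Prime → p ∣ m → p ≤ K) :
    ∃ pre : List (Fin (K + 1)), pre.Pairwise (· ≤ ·) ∧ (∀ p ∈ pre, p.val.Prime) ∧ ex K pre = m := by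
  have h1 : ∀ l : List ℕ, (∀ p ∈ l, p ≤ K) → ∃ pre : List (Fin (K + 1)), pre.map Fin.val = l := by
    intro l
    induction l with
    | nil => exact fun _ => ⟨[], rfl⟩
    | cons p l ih =>
      intro hl
      obtain ⟨pre, hpre⟩ := ih fun x hx => hl x (List.mem_cons_of_mem _ hx)
      have := hl p List.mem_cons_self
      exact ⟨⟨p, by omega⟩ :: pre, by rw [List.map_cons, hpre]⟩
  obtain ⟨pre, hpre⟩ := h1 m.primeFactorsList fun p hp => h p (Nat.prime_of_mem_primeFactorsList hp)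
    (Nat.dvd_of_mem_primeFactorsList hp)
  have h2 : ∀ p ∈ pre, p.val.Prime := by
    intro p hp
    have h3 : p.val ∈ pre.map Fin.val := List.mem_map_of_mem hp
    rw [hpre] at h3
    exact Nat.prime_of_mem_primeFactorsList h3
  refine ⟨pre, ?_, h2, ?_⟩
  · have h3 := (Nat.primeFactorsList_sorted m).pairwise
    rw [← hpre, List.pairwise_map] at h3
    exact h3.imp fun h => h
  · rw [ex_prime h2, hpre]
    exact Nat.prod_primeFactorsList (by omega)

end

variable {L : ℕ} [NeZero L]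

/-- the chosen tuples whose words have no small prime exponents -/
def Kq (K : ℕ) (τ : List (Fin L → Bool × Bool)) : Prop :=
  Kp K τ ∧ ∀ p : Fin (K + 1), ¬ (p.val.Prime ∧ Pw (2 * (L / p.val)) τ)

theorem fr_kq (K : ℕ) : FR (Kq (L := L) K) := by
  refine FR.and (fr_kp K) (FR.all fun p => (FR.and ?_ (fr_pw _)).not)
  by_cases h : p.val.Prime
  · exact (FR.letter (D := Fin L → Bool × Bool) fun _ => True).congr fun τ => by simp [h]
  · exact (FR.letter (D := Fin L → Bool × Bool) fun _ => True).not.congr fun τ => by simp [h]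

theorem pw_mp {τ : List (Fin L → Bool × Bool)} {P S : List Bool} (hs : Sp τ P S) {m : ℕ} (hm : 0 < m) (hd : m ∣ L) :
    Pw (2 * (L / m)) τ ↔ MP m (out τ) := by
  obtain ⟨c, hc⟩ := hd
  have hc2 : L / m = c := by
    rw [hc]
    exact Nat.mul_div_cancel_left _ hm
  have hx : ∀ h : ℕ, 2 * L * h = m * (2 * c * h) := by
    intro h
    rw [hc]
    ring
  have hdiv : (out τ).length / m = 2 * c * τ.length := by
    rw [out_len hs, hx]
    exact Nat.mul_div_cancel_left _ hm
  rw [pw_iff (by omega), ul_rot hs]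
  constructor
  · intro h
    refine ⟨hm, ⟨2 * c * τ.length, by rw [out_len hs, hx]⟩, ?_⟩
    rw [hdiv, ← hc2]
    exact h
  · intro h
    have h1 := h.2.2
    rw [hdiv, ← hc2] at h1
    exact h1

/-- the stacks -/
def KP (K : ℕ) : List (Fin (K + 1) ⊕ (Fin L → Bool × Bool)) → Prop := PreK (fun p : Fin (K + 1) => p.val.Prime) (Kq K)

/-- the word of a stack -/
def outP (L K : ℕ) (σ : List (Fin (K + 1) ⊕ (Fin L → Bool × Bool))) : List Bool :=
  Gen.ev (bodyP K (body (L := L)) (fnn L)) σ [Sum.inl none]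

omit [NeZero L] in
theorem outP_eq (K : ℕ) (pre : List (Fin (K + 1))) {τ : List (Fin L → Bool × Bool)} (h : τ ≠ []) :
    outP L K (pre.map Sum.inl ++ τ.map Sum.inr) = pw (ex K pre) (out τ) := by
  obtain ⟨d, τ, rfl⟩ := List.exists_cons_of_ne_nil h
  rw [← ev_fnn, ← none_val]
  unfold outP Gen.ev
  simp

theorem kp_ne {K : ℕ} {τ : List (Fin L → Bool × Bool)} (h : Kp K τ) : τ ≠ [] := by
  rintro rfl
  exact h.2.1 (by simp)

theorem nice_goodP (K : ℕ) : Point.Good {u : List Bool | ∃ σ, KP (L := L) K σ ∧ u = outP L K σ}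
    {u : List Bool | ∃ σ, KP (L := L) K σ ∧ u = outP L K σ ∧ ∀ σ', KP (L := L) K σ' → u = outP L K σ' → σ' = σ} := by
  have hb : ∀ (r : Fin L × Bool × Option Bool) (d : Fin L → Bool × Bool), ∃ r', Sum.inl r' ∈ body r d := fun r d => ⟨r, by
      unfold body
      split <;> simp⟩
  have hf : (Sum.inl ((0 : Fin L), decide ((0 : Fin L).val % 2 = 0), none) : (Fin L × Bool × Option Bool) ⊕ Bool) ∈ fnn L := by
    unfold fnn
    simp only [List.mem_append, List.mem_map]
    exact Or.inr (Or.inl ⟨0, List.mem_finRange _, rfl⟩)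
  refine Point.good_gr (bodyP K (body (L := L)) (fnn L)) [Sum.inl none] ?_ ⟨none, by simp⟩ (fr_pre _ (fr_kq K))
  intro r d
  rcases r with _ | r
  · rcases d with p | d
    · exact ⟨none, by simp [bodyP]⟩
    · obtain ⟨r', hr'⟩ := hb ((0 : Fin L), decide ((0 : Fin L).val % 2 = 0), none) d
      refine ⟨some r', ?_⟩
      show _ ∈ (fnn L).flatMap (Sum.elim (fun r => (body r d).map up) fun t => [Sum.inr t])
      exact List.mem_flatMap.2 ⟨_, hf, List.mem_map.2 ⟨_, hr', rfl⟩⟩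
  · rcases d with p | d
    · exact ⟨some r, by simp [bodyP]⟩
    · obtain ⟨r', hr'⟩ := hb r d
      exact ⟨some r', List.mem_map.2 ⟨_, hr', rfl⟩⟩

theorem kq_mp {K : ℕ} (hK : ∀ m, 1 ≤ m → m ≤ K → m ∣ L) {τ : List (Fin L → Bool × Bool)} (h : Kq K τ) {p : ℕ} (hp : p.Prime)
    (hpK : p ≤ K) : ¬ MP p (out τ) := by
  obtain ⟨⟨⟨P, S, hs⟩, -⟩, h2⟩ := h
  intro hmp
  exact h2 ⟨p, by omega⟩ ⟨hp, (pw_mp hs hp.pos (hK p hp.one_lt.le hpK)).2 hmp⟩

/-- every block word has a stack -/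
theorem kP_ex {K : ℕ} (hK : ∀ m, 1 ≤ m → m ≤ K → m ∣ L) {x : List Bool} (hx : ¬ ∃ a, ∀ c ∈ x, c = a) (hc : x ∈ LC) :
    ∃ σ, KP (L := L) K σ ∧ x.flatMap (Hr (2 * L)) = outP L K σ := by
  have hL : 0 < L := Nat.pos_of_ne_zero (NeZero.ne L)
  have hN : 0 < 2 * L := by omega
  have hne : x ≠ [] := by
    rintro rfl
    exact hx ⟨true, by simp⟩
  obtain ⟨m, y, hm, hsm, rfl, hy⟩ := smooth_ex K x.length x le_rfl hne
  have hy0 : ¬ ∃ a, ∀ c ∈ y, c = a := by
    rintro ⟨a, ha⟩
    refine hx ⟨a, fun c hc' => ?_⟩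
    obtain ⟨z, hz, hcz⟩ := List.mem_flatten.1 hc'
    rw [List.eq_of_mem_replicate hz] at hcz
    exact ha c hcz
  have hyl : y ≠ [] := by
    rintro rfl
    exact hy0 ⟨true, by simp⟩
  have hyc : y ∈ LC := (pw_lc hm y).1 hc
  obtain ⟨τ, hτ, he⟩ : ∃ τ : List (Fin L → Bool × Bool), Kp K τ ∧ y.flatMap (Hr (2 * L)) = out τ := by
    refine kp_ex hK ?_ ?_ ((hr_lc hN hy0).2 hyc) ?_
    · intro h5
      have h6 := congrArg List.length h5
      rw [fm_len (hr_len _), List.length_nil] at h6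
      have h7 : y.length = 0 := by
        rcases Nat.mul_eq_zero.1 h6 with h | h
        · exact h
        · omega
      exact hyl (List.eq_nil_of_length_eq_zero h7)
    · rw [fm_len (hr_len _)]
      exact Dvd.intro_left _ rfl
    · intro i _ hi
      rw [hr_rev] at hi
      obtain ⟨k, rfl⟩ := hr_div hN hy0 hi
      rw [mul_assoc, Nat.mul_mod_right]
  obtain ⟨pre, h1, h2, h3⟩ := pre_ex hm hsm
  refine ⟨pre.map Sum.inl ++ τ.map Sum.inr, ⟨pre, τ, rfl, h1, h2, hτ, ?_⟩, ?_⟩
  · rintro ⟨p, hp⟩ ⟨hpp, hpw⟩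
    obtain ⟨⟨P, S, hs⟩, -⟩ := hτ
    have h4 := (pw_mp hs hpp.pos (hK p hpp.one_lt.le (by omega))).1 hpw
    rw [← he] at h4
    exact hy p hpp (by omega) (hr_mp hN hy0 h4)
  · rw [outP_eq K pre (kp_ne hτ), h3, ← he, pw_fm]

/-- words without large prime exponents have only one stack -/
theorem kP_uniq {K : ℕ} (hK1 : 1 ≤ K) (hK : ∀ m, 1 ≤ m → m ≤ K → m ∣ L) {x : List Bool} (hx : ¬ ∃ a, ∀ c ∈ x, c = a)
    (hb : ∀ p : ℕ, p.Prime → MP p x → p ≤ K) {σ σ' : List (Fin (K + 1) ⊕ (Fin L → Bool × Bool))} (h : KP K σ) (h' : KP K σ')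
    (he : x.flatMap (Hr (2 * L)) = outP L K σ) (he' : x.flatMap (Hr (2 * L)) = outP L K σ') : σ' = σ := by
  have hL : 0 < L := Nat.pos_of_ne_zero (NeZero.ne L)
  have hN : 0 < 2 * L := by omega
  obtain ⟨pre, τ, rfl, h1, h2, h3⟩ := h
  obtain ⟨pre', τ', rfl, h1', h2', h3'⟩ := h'
  rw [outP_eq K pre (kp_ne h3.1)] at he
  rw [outP_eq K pre' (kp_ne h3'.1)] at he'
  have hpr : ∀ {m : ℕ} {τ : List (Fin L → Bool × Bool)}, Kq K τ → x.flatMap (Hr (2 * L)) = pw m (out τ) → Pr (out τ) := by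
    intro m τ hτ he
    refine pr_of_prime fun p hp hmp => ?_
    rcases Nat.lt_or_ge K p with hlt | hle
    · have h4 := mp_pw_of (m := m) hmp
      rw [← he] at h4
      have h5 := hb p hp (hr_mp hN hx h4)
      omega
    · exact kq_mp hK hτ hp hle hmp
  have hne : ∀ {τ : List (Fin L → Bool × Bool)}, Kq K τ → out τ ≠ [] := by
    intro τ hτ h0
    obtain ⟨⟨⟨P, S, hs⟩, hf, -⟩, -⟩ := hτ
    rw [flag_pos hs] at hf
    have h4 := congrArg List.length h0
    rw [out_sp hs] at h4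
    simp only [List.length_append, List.length_reverse, List.length_nil] at h4
    omega
  obtain ⟨h4, h5⟩ := pr_uniq (hpr h3 he) (hpr h3' he') (ex_pos pre) (ex_pos pre') (hne h3) (hne h3') (he.symm.trans he')
  have h6 : τ' = τ := kp_uniq hK h3.1 h3'.1 h5 fun m hm => (hpr h3 he m hm).trans hK1
  rw [h6, ex_inj h2 h2' h1 h1' h4]

/-- the palindrome-pair language has for every `K` a grammar which is unambiguous on the words without prime exponents
larger than `K` -/
theorem prime_good (K : ℕ) : Point.Good LC {u : List Bool | u ∈ LC ∧ ∀ (p : ℕ) (z : List Bool), p.Prime → z ≠ [] →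
    u = (List.replicate p z).flatten → p ≤ K} := by
  have key : ∀ K : ℕ, 1 ≤ K → Point.Good LC {u : List Bool | u ∈ LC ∧ ∀ (p : ℕ) (z : List Bool), p.Prime → z ≠ [] →
      u = (List.replicate p z).flatten → p ≤ K} := by
    intro K hK1
    have : NeZero K.factorial := ⟨Nat.factorial_ne_zero K⟩
    have hL : 0 < K.factorial := Nat.factorial_pos K
    have hK : ∀ m, 1 ≤ m → m ≤ K → m ∣ K.factorial := fun m h1 h2 => Nat.dvd_factorial h1 h2
    have h1 := nice_goodP (L := K.factorial) K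
    have hsub : {u : List Bool | ∃ σ, KP (L := K.factorial) K σ ∧ u = outP K.factorial K σ ∧
        ∀ σ', KP (L := K.factorial) K σ' → u = outP K.factorial K σ' → σ' = σ} ⊆
        {u : List Bool | ∃ σ, KP (L := K.factorial) K σ ∧ u = outP K.factorial K σ} :=
      fun u ⟨τ, h2, h3, _⟩ => ⟨τ, h2, h3⟩
    have hN : 0 < 2 * K.factorial := by omega
    have h2 := Point.good_block (Hr (2 * K.factorial)) (2 * K.factorial - 1) h1 hsub (hr_ne hN)
      (fun c => by rw [hr_len]; omega)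
    have h3 := Point.good_inter h2 (fun w hw => hsub hw) con_reg.compl
    refine (Point.good_union h3 (Point.good_of_un con_un) (fun w hw => ⟨hsub hw.1, hw.2⟩) (fun _ h => h) ?_).congr ?_ ?_
    · rw [Set.disjoint_left]
      rintro w ⟨-, hw⟩ ⟨-, hw'⟩
      exact hw hw'
    · ext w
      constructor
      · rintro (⟨⟨σ, hσ, he⟩, hw⟩ | ⟨hw, -⟩)
        · obtain ⟨pre, τ, rfl, -, -, h3, -⟩ := hσ
          rw [outP_eq K pre (kp_ne h3)] at he
          obtain ⟨⟨P, S, hs⟩, -⟩ := h3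
          have h4 := (pw_lc (ex_pos pre) _).2 (out_lc hs)
          rw [← he] at h4
          exact (hr_lc hN hw).1 h4
        · exact hw
      · intro hw
        by_cases hc : w ∈ Con
        · exact Or.inr ⟨hw, hc⟩
        · exact Or.inl ⟨kP_ex hK hc hw, hc⟩
    · rintro w ⟨hw, hb⟩
      by_cases hc : w ∈ Con
      · exact Or.inr ⟨hw, hc⟩
      · refine Or.inl ⟨?_, hc⟩
        obtain ⟨σ, hσ, he⟩ := kP_ex hK hc hw
        refine ⟨σ, hσ, he, fun σ' hσ' he' => ?_⟩
        refine kP_uniq hK1 hK hc (fun p hp hmp => ?_) hσ hσ' he he'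
        obtain ⟨z, hz⟩ := mp_pow hmp
        refine hb p z hp ?_ hz
        rintro rfl
        exact hc ⟨true, by rw [hz]; simp⟩
  refine (key (K + 1) (by omega)).congr rfl fun u hu => ⟨hu.1, fun p z hp hz he => ?_⟩
  have := hu.2 p z hp hz he
  omega

end Pool.Agent.Lib.IXB.Nice
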