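import Pool.Agent.Lib.IXB.NiceG

/-!
# The number of ambiguous words
-/

set_option autoImplicit false

namespace Pool.Agent.Lib.IXB

/-- `u` has exactly one leftmost derivation in `G` -/
def OneDer (G : IG Bool) (u : List Bool) : Prop := ∃! l, G.LDer l [Sum.inl (G.start, [])] (u.map Sum.inr)

namespace Nice

theorem large_count (K n : ℕ) (A : Set (List Bool)) (hA : ∀ u ∈ A, u.length = n ∧ ∃ (p : ℕ) (z : List Bool),
    K < p ∧ z ≠ [] ∧ u = (List.replicate p z).flatten) : A.ncard ≤ n * 2 ^ (n / (K + 1)) := by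
  classical
  let T : Finset (List Bool) := (Finset.Icc (K + 1) n).biUnion fun p =>
    (Finset.univ : Finset (Fin (n / p) → Bool)).image fun f => pw p (List.ofFn f)
  have h1 : A ⊆ (T : Set (List Bool)) := by
    intro u hu
    obtain ⟨hn, p, z, hp, hz, rfl⟩ := hA u hu
    have h2 : p * z.length = n := by
      rw [← hn]
      exact (pw_len p z).symm
    have h3 : 0 < z.length := List.length_pos_iff.2 hz
    have h4 : p ≤ n := by
      rw [← h2]
      exact Nat.le_mul_of_pos_right _ h3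
    have h5 : z.length = n / p := by
      rw [← h2]
      exact (Nat.mul_div_cancel_left _ (by omega)).symm
    refine Finset.mem_coe.2 (Finset.mem_biUnion.2 ⟨p, Finset.mem_Icc.2 ⟨hp, h4⟩, Finset.mem_image.2 ?_⟩)
    refine ⟨fun i => z[i.val]'(by rw [h5]; exact i.2), Finset.mem_univ _, ?_⟩
    have h6 : List.ofFn (fun i : Fin (n / p) => z[i.val]'(by rw [h5]; exact i.2)) = z := by
      apply List.ext_getElem
      · rw [List.length_ofFn, h5]
      · intro i _ _
        rw [List.getElem_ofFn]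
    rw [h6]
    rfl
  have h2 := Set.ncard_le_ncard h1 (Finset.finite_toSet T)
  rw [Set.ncard_coe_finset] at h2
  refine h2.trans ?_
  have h3 : ∀ p ∈ Finset.Icc (K + 1) n, ((Finset.univ : Finset (Fin (n / p) → Bool)).image
      fun f => pw p (List.ofFn f)).card ≤ 2 ^ (n / (K + 1)) := by
    intro p hp
    have h4 := (Finset.mem_Icc.1 hp).1
    refine Finset.card_image_le.trans ?_
    rw [Finset.card_univ, Fintype.card_fun, Fintype.card_bool, Fintype.card_fin]
    exact Nat.pow_le_pow_right (by norm_num) (Nat.div_le_div_left h4 (by omega))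
  refine Finset.card_biUnion_le.trans ((Finset.sum_le_card_nsmul _ _ _ h3).trans ?_)
  rw [smul_eq_mul, Nat.card_Icc]
  exact Nat.mul_le_mul_right _ (by omega)

theorem prime_main (K : ℕ) : ∃ G : IG Bool, G.lang = LC ∧
    (∀ u ∈ LC, (∀ (p : ℕ) (z : List Bool), p.Prime → z ≠ [] → u = (List.replicate p z).flatten → p ≤ K) → OneDer G u) ∧
    ∀ n : ℕ, {u : List Bool | u ∈ LC ∧ u.length = n ∧ ¬ OneDer G u}.ncard ≤ n * 2 ^ (n / (K + 1)) := by
  obtain ⟨G, h1, -, h3⟩ := prime_good K
  have h4 : ∀ u ∈ LC, (∀ (p : ℕ) (z : List Bool), p.Prime → z ≠ [] → u = (List.replicate p z).flatten → p ≤ K) → OneDer G u :=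
    fun u hu hb => h3 u ⟨hu, hb⟩
  refine ⟨G, h1, h4, fun n => large_count K n _ ?_⟩
  rintro u ⟨hu, hn, hone⟩
  refine ⟨hn, ?_⟩
  by_contra hc
  refine hone (h4 u hu fun p z hp hz he => ?_)
  by_contra hlt
  exact hc ⟨p, z, by omega, hz, he⟩

end Nice

end Pool.Agent.Lib.IXB
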