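import Pool.Agent.Lib.IXB.NiceE

/-!
# The number of words of a given length in the palindrome-pair language modulo 8
-/

set_option autoImplicit false

namespace Pool.Agent.Lib.IXB.Nice

/-- number of words of length `n` -/
noncomputable def cnt (X : Set (List Bool)) (n : ℕ) : ℕ := Nat.card {u : List Bool // u ∈ X ∧ u.length = n}

/-- number of primitive words of length `n` -/
noncomputable def pcnt (X : Set (List Bool)) (n : ℕ) : ℕ := Nat.card {u : List Bool // u ∈ X ∧ u.length = n ∧ Pr u}

/-- palindromes -/
def Pal : Set (List Bool) := {u | u.reverse = u}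

theorem fin_sub {P : List Bool → Prop} {n : ℕ} (h : ∀ u, P u → u.length = n) : Finite {u : List Bool // P u} :=
  ((List.finite_length_eq Bool n).subset fun u hu => h u hu).to_subtype

theorem root_ex {u : List Bool} (hu : u ≠ []) : ∃ (m : ℕ) (z : List Bool), 0 < m ∧ Pr z ∧ u = pw m z := by
  obtain ⟨m, z, hm, -, h1, h2⟩ := smooth_ex u.length u.length u le_rfl hu
  refine ⟨m, z, hm, pr_of_prime fun p hp hmp => ?_, h1⟩
  have hz : z ≠ [] := by
    rintro rfl
    apply hu
    rw [h1, pw]
    simp
  have h3 := Nat.le_of_dvd (List.length_pos_iff.2 hz) hmp.2.1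
  have h4 : z.length ≤ u.length := by
    rw [h1, pw_len]
    exact Nat.le_mul_of_pos_left _ hm
  exact h2 p hp (h3.trans h4) hmp

/-- counting by primitive roots -/
theorem root_sum {X : Set (List Bool)} (hX : ∀ (m : ℕ) (z : List Bool), 0 < m → (pw m z ∈ X ↔ z ∈ X)) {n : ℕ} (hn : 0 < n) :
    cnt X n = ∑ d ∈ n.divisors, pcnt X d := by
  classical
  have hd : ∀ d : n.divisors, 0 < d.1 ∧ d.1 ∣ n := fun d => ⟨Nat.pos_of_mem_divisors d.2, Nat.dvd_of_mem_divisors d.2⟩
  let f : (Σ d : n.divisors, {u : List Bool // u ∈ X ∧ u.length = d.1 ∧ Pr u}) → {u : List Bool // u ∈ X ∧ u.length = n} :=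
    fun x => ⟨pw (n / x.1.1) x.2.1, (hX _ _ (Nat.div_pos (Nat.le_of_dvd hn (hd x.1).2) (hd x.1).1)).2 x.2.2.1, by
      rw [pw_len, x.2.2.2.1]
      exact Nat.div_mul_cancel (hd x.1).2⟩
  have hf : Function.Bijective f := by
    constructor
    · rintro ⟨⟨d, hd1⟩, ⟨z, hz1, hz2, hz3⟩⟩ ⟨⟨d', hd1'⟩, ⟨z', hz1', hz2', hz3'⟩⟩ h
      have h1 : pw (n / d) z = pw (n / d') z' := congrArg Subtype.val h
      have e1 : 0 < d ∧ d ∣ n := hd ⟨d, hd1⟩
      have e2 : 0 < d' ∧ d' ∣ n := hd ⟨d', hd1'⟩
      have hz2 : z.length = d := hz2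
      have hz2' : z'.length = d' := hz2'
      have hne : z ≠ [] := by
        rintro rfl
        have := e1.1
        simp at hz2
        omega
      have hne' : z' ≠ [] := by
        rintro rfl
        have := e2.1
        simp at hz2'
        omega
      obtain ⟨-, h2⟩ := pr_uniq hz3 hz3' (Nat.div_pos (Nat.le_of_dvd hn e1.2) e1.1) (Nat.div_pos (Nat.le_of_dvd hn e2.2) e2.1)
        hne hne' h1
      subst h2
      have h3 : d = d' := hz2.symm.trans hz2'
      subst h3
      rfl
    · rintro ⟨u, hu, hl⟩
      have hne : u ≠ [] := by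
        rintro rfl
        simp at hl
        omega
      obtain ⟨m, z, hm, hz, rfl⟩ := root_ex hne
      rw [pw_len] at hl
      have hzl : 0 < z.length := by
        rcases Nat.eq_zero_or_pos z.length with h | h
        · rw [h, Nat.mul_zero] at hl
          omega
        · exact h
      refine ⟨⟨⟨z.length, Nat.mem_divisors.2 ⟨⟨m, by rw [← hl, mul_comm]⟩, by omega⟩⟩, ⟨z, (hX m z hm).1 hu, rfl, hz⟩⟩, ?_⟩
      apply Subtype.ext
      show pw (n / z.length) z = pw m z
      rw [← hl, Nat.mul_div_cancel _ hzl]
  have : ∀ d : n.divisors, Finite {u : List Bool // u ∈ X ∧ u.length = d.1 ∧ Pr u} := fun d => fin_sub (n := d.1) fun u hu => hu.2.1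
  have h1 := Nat.card_congr (Equiv.ofBijective f hf)
  rw [Nat.card_sigma] at h1
  rw [cnt, ← h1]
  exact Finset.sum_coe_sort n.divisors fun d => pcnt X d

theorem pal_pw (m : ℕ) (z : List Bool) (hm : 0 < m) : pw m z ∈ Pal ↔ z ∈ Pal := by
  constructor
  · intro h
    have h1 : (pw m z).reverse = pw m z := h
    rw [pw_rev] at h1
    exact pw_cancel hm (by simp) h1
  · intro h
    have h1 : z.reverse = z := h
    show (pw m z).reverse = pw m z
    rw [pw_rev, h1]

theorem lc_pw (m : ℕ) (z : List Bool) (hm : 0 < m) : pw m z ∈ LC ↔ z ∈ LC := pw_lc hm z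

theorem pal_cnt (m : ℕ) : cnt Pal (2 * m + 1) = 2 * 2 ^ m := by
  classical
  let f : Bool × {x : List Bool // x.length = m} → {u : List Bool // u ∈ Pal ∧ u.length = 2 * m + 1} :=
    fun y => ⟨y.2.1 ++ y.1 :: y.2.1.reverse, by
      show (y.2.1 ++ y.1 :: y.2.1.reverse).reverse = _
      simp, by
      simp only [List.length_append, List.length_cons, List.length_reverse, y.2.2]
      omega⟩
  have hf : Function.Bijective f := by
    constructor
    · rintro ⟨c, x, hx⟩ ⟨c', x', hx'⟩ h
      have h1 : x ++ c :: x.reverse = x' ++ c' :: x'.reverse := congrArg Subtype.val h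
      obtain ⟨h2, h3⟩ := List.append_inj h1 (hx.trans hx'.symm)
      obtain ⟨h4, -⟩ := List.cons.inj h3
      subst h2
      subst h4
      rfl
    · rintro ⟨u, hu, hl⟩
      have hu' : u.reverse = u := hu
      have e1 : u = u.take m ++ u.drop m := (List.take_append_drop m u).symm
      have hd : (u.drop m).length = m + 1 := by rw [List.length_drop]; omega
      rcases hx : u.drop m with _ | ⟨c, y⟩
      · rw [hx] at hd
        simp at hd
      · rw [hx] at hd
        have hy : y.length = m := by simpa using hd
        have ht : (u.take m).length = m := by rw [List.length_take]; omega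
        have h2 : u.reverse = y.reverse ++ (c :: (u.take m).reverse) := by
          conv_lhs => rw [e1, hx]
          simp
        rw [hu', e1, hx] at h2
        obtain ⟨h3, -⟩ := List.append_inj h2 (by rw [ht, List.length_reverse, hy])
        refine ⟨⟨c, u.take m, ht⟩, Subtype.ext ?_⟩
        show u.take m ++ c :: (u.take m).reverse = u
        conv_rhs => rw [e1, hx]
        rw [h3, List.reverse_reverse]
  have h1 := Nat.card_congr (Equiv.ofBijective f hf)
  rw [Nat.card_prod] at h1
  have h2 : Nat.card {x : List Bool // x.length = m} = 2 ^ m := by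
    have h3 : Nat.card (List.Vector Bool m) = 2 ^ m := by
      rw [Nat.card_eq_fintype_card, card_vector, Fintype.card_bool]
    exact h3
  rw [h2, Nat.card_eq_fintype_card, Fintype.card_bool] at h1
  exact h1.symm

theorem pr_rot {z : List Bool} (hz : Pr z) (i : ℕ) : Pr (z.rotate i) := by
  rintro e ⟨h1, h2, h3⟩
  rw [List.length_rotate] at h2 h3
  refine hz e ⟨h1, h2, ?_⟩
  rw [List.rotate_rotate, Nat.add_comm, ← List.rotate_rotate] at h3
  exact List.rotate_injective i h3

theorem lc_rot {z : List Bool} (hz : z ∈ LC) (i : ℕ) : z.rotate i ∈ LC := by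
  have e : ∀ u : List Bool, u ∈ LC ↔ u.reverse ~r u := fun u => Mark.lc_iff_rot u
  rw [e] at hz ⊢
  have h1 : z ~r z.rotate i := ⟨i, rfl⟩
  exact (h1.reverse.symm.trans hz).trans h1

theorem pal_lc {z : List Bool} (hz : z ∈ Pal) : z ∈ LC := ⟨z, [], hz, rfl, by simp⟩

theorem rot_pal {u : List Bool} (hodd : u.length % 2 = 1) (hu : u ∈ LC) : ∃ j < u.length, u.rotate j ∈ Pal := by
  have key : ∀ a < u.length, u.rotate a = u.reverse → ∃ j < u.length, u.rotate j ∈ Pal := by
    intro a ha h
    obtain ⟨j, hj, hj2⟩ : ∃ j < u.length, (a + (u.length - j) = u.length + j ∨ a + (u.length - j) = j) := by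
      rcases Nat.mod_two_eq_zero_or_one a with h2 | h2
      · exact ⟨a / 2, by omega, Or.inl (by omega)⟩
      · exact ⟨(a + u.length) / 2, by omega, Or.inr (by omega)⟩
    refine ⟨j, hj, ?_⟩
    show (u.rotate j).reverse = u.rotate j
    rw [List.reverse_rotate, Nat.mod_eq_of_lt hj, ← h, List.rotate_rotate]
    rcases hj2 with h2 | h2
    · rw [h2, ← List.rotate_rotate, List.rotate_length]
    · rw [h2]
  obtain ⟨v, v', hv, hv', rfl⟩ := hu
  have h1 := axis_of hv hv'
  rcases Nat.lt_or_ge v.length (v ++ v').length with hlt | hge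
  · exact key _ hlt h1
  · rw [List.length_append] at hge
    have h2 : v' = [] := List.eq_nil_of_length_eq_zero (by omega)
    subst h2
    rw [List.append_nil] at hodd ⊢
    refine ⟨0, by omega, ?_⟩
    rw [List.rotate_zero]
    exact hv

/-- primitive words of `L_C` of odd length are the rotations of primitive palindromes -/
theorem odd_cnt {d : ℕ} (hd : d % 2 = 1) : pcnt LC d = d * pcnt Pal d := by
  classical
  let f : Fin d × {u : List Bool // u ∈ Pal ∧ u.length = d ∧ Pr u} → {u : List Bool // u ∈ LC ∧ u.length = d ∧ Pr u} :=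
    fun y => ⟨y.2.1.rotate y.1.val, lc_rot (pal_lc y.2.2.1) _, by rw [List.length_rotate, y.2.2.2.1], pr_rot y.2.2.2.2 _⟩
  have hf : Function.Bijective f := by
    constructor
    · rintro ⟨⟨i, hi⟩, ⟨z, hz1, hz2, hz3⟩⟩ ⟨⟨i', hi'⟩, ⟨z', hz1', hz2', hz3'⟩⟩ h
      have h1 : z.rotate i = z'.rotate i' := congrArg Subtype.val h
      have e1 : z.reverse = z := hz1
      have e2 : z'.reverse = z' := hz1'
      have h2 : z.rotate (i + (d - i')) = z' := by
        rw [← List.rotate_rotate, h1, List.rotate_rotate, show i' + (d - i') = z'.length by omega, List.rotate_length]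
      set s := i + (d - i') with hs
      have hm := Nat.mod_lt s (show 0 < d by omega)
      have h3 : z.rotate (s % d) = z' := by
        rw [← h2, ← List.rotate_mod z s, hz2]
      have h4 : z.rotate (d - s % d) = z' := by
        have h5 : (z.rotate (s % d)).reverse = z.reverse.rotate (z.length - (s % d) % z.length) := List.reverse_rotate _ _
        rw [h3, e2, e1, hz2, Nat.mod_mod] at h5
        exact h5.symm
      have h6 : z.rotate (s % d + s % d) = z := by
        rw [← List.rotate_rotate, h3, ← h4, List.rotate_rotate, show d - s % d + s % d = z.length by omega, List.rotate_length]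
      have hne : z ≠ [] := by
        rintro rfl
        simp at hz2
        omega
      have h7 := pr_gcd hz3 one_pos hne (pw_one z).symm h6
      rw [hz2] at h7
      have h8 : d ∣ s % d + s % d := by
        have h := Nat.gcd_dvd_right d (s % d + s % d)
        rw [h7] at h
        exact h
      have h9 : s % d = 0 := by
        obtain ⟨c, hc⟩ := h8
        have hc2 : c < 2 := by
          by_contra hcc
          have : d * 2 ≤ d * c := Nat.mul_le_mul_left d (by omega)
          omega
        interval_cases c
        · omega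
        · omega
      rw [h9, List.rotate_zero] at h3
      subst h3
      have h10 : i = i' := by
        rcases Nat.lt_or_ge s d with h | h
        · rw [Nat.mod_eq_of_lt h] at h9
          omega
        · have h11 : s % d = s - d := by
            rw [Nat.mod_eq_sub_mod h, Nat.mod_eq_of_lt (by omega)]
          omega
      subst h10
      rfl
    · rintro ⟨u, hu, hl, hp⟩
      obtain ⟨j, hj, hpal⟩ := rot_pal (u := u) (by rw [hl]; exact hd) hu
      rw [hl] at hj
      refine ⟨⟨⟨(d - j) % d, Nat.mod_lt _ (by omega)⟩, ⟨u.rotate j, hpal, by rw [List.length_rotate, hl], pr_rot hp j⟩⟩,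
        Subtype.ext ?_⟩
      show (u.rotate j).rotate ((d - j) % d) = u
      have h1 : (u.rotate j).length = d := by rw [List.length_rotate, hl]
      have h2 := List.rotate_mod (u.rotate j) (d - j)
      rw [h1] at h2
      rw [h2, List.rotate_rotate, show j + (d - j) = u.length by omega, List.rotate_length]
  have h1 := Nat.card_congr (Equiv.ofBijective f hf)
  rw [Nat.card_prod, Nat.card_eq_fintype_card, Fintype.card_fin] at h1
  exact h1.symm

end Pool.Agent.Lib.IXB.Nice
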