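import Pool.Agent.Lib.IXB.Main

/-!
# Regular languages of polynomial growth are bounded
-/

set_option autoImplicit false

namespace Pool.Agent.Lib.IXB

variable {T : Type}

/-- `w_1^* ... w_k^*` -/
def bl : List (List T) → Set (List T)
  | [] => {[]}
  | v :: ws => {u | ∃ (n : ℕ) (u' : List T), u' ∈ bl ws ∧ u = (List.replicate n v).flatten ++ u'}

theorem bl_nil_mem (ws : List (List T)) : [] ∈ bl ws := by
  induction ws with
  | nil => rfl
  | cons v ws ih => exact ⟨0, [], ih, rfl⟩

theorem bl_append {ws ws' : List (List T)} {u u' : List T} (h : u ∈ bl ws) (h' : u' ∈ bl ws') :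
    u ++ u' ∈ bl (ws ++ ws') := by
  induction ws generalizing u with
  | nil =>
    have : u = [] := h
    subst this
    exact h'
  | cons v ws ih =>
    obtain ⟨n, u1, h1, rfl⟩ := h
    exact ⟨n, u1 ++ u', ih h1, by simp⟩

theorem bl_get (ws : List (List T)) : bl ws ⊆ Set.range (bw fun i : Fin ws.length => ws[i]) := by
  induction ws with
  | nil =>
    intro u hu
    have : u = [] := hu
    subst this
    exact ⟨fun _ => 0, by simp [bw]⟩
  | cons v ws ih =>
    rintro u ⟨n, u', h, rfl⟩
    obtain ⟨x, rfl⟩ := ih h
    refine ⟨(Fin.cons n x : Fin (ws.length + 1) → ℕ), ?_⟩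
    have h1 := bw_succ (k := ws.length) (fun i : Fin (ws.length + 1) => (v :: ws)[i]) (Fin.cons n x)
    refine h1.trans ?_
    simp

/-- bounded languages -/
def Bdd (L : Set (List T)) : Prop := ∃ ws : List (List T), L ⊆ bl ws

theorem Bdd.mono {L L' : Set (List T)} (h : Bdd L') (hL : L ⊆ L') : Bdd L := by
  obtain ⟨ws, h⟩ := h
  exact ⟨ws, hL.trans h⟩

theorem Bdd.union {L L' : Set (List T)} (h : Bdd L) (h' : Bdd L') : Bdd (L ∪ L') := by
  obtain ⟨ws, h⟩ := h
  obtain ⟨ws', h'⟩ := h'
  refine ⟨ws ++ ws', ?_⟩
  rintro u (hu | hu)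
  · have := bl_append (h hu) (bl_nil_mem ws')
    rwa [List.append_nil] at this
  · exact bl_append (bl_nil_mem ws) (h' hu)

theorem Bdd.mul {L L' : Set (List T)} (h : Bdd L) (h' : Bdd L') : Bdd (Set.image2 (· ++ ·) L L') := by
  obtain ⟨ws, h⟩ := h
  obtain ⟨ws', h'⟩ := h'
  refine ⟨ws ++ ws', ?_⟩
  rintro u ⟨a, ha, b, hb, rfl⟩
  exact bl_append (h ha) (h' hb)

theorem Bdd.empty : Bdd (∅ : Set (List T)) := ⟨[], Set.empty_subset _⟩

theorem Bdd.single (v : List T) : Bdd ({v} : Set (List T)) :=
  ⟨[v], by rintro u rfl; exact ⟨1, [], rfl, by simp⟩⟩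

theorem Bdd.pow (v : List T) : Bdd {u : List T | ∃ n : ℕ, u = (List.replicate n v).flatten} :=
  ⟨[v], by rintro u ⟨n, rfl⟩; exact ⟨n, [], rfl, by simp⟩⟩

theorem Bdd.iUnion {ι : Type} [Finite ι] {L : ι → Set (List T)} (h : ∀ i, Bdd (L i)) : Bdd (⋃ i, L i) := by
  classical
  have := Fintype.ofFinite ι
  have h1 : ∀ S : Finset ι, Bdd (⋃ i ∈ S, L i) := by
    intro S
    induction S using Finset.induction_on with
    | empty => simpa using Bdd.empty
    | insert a S _ ih =>
      rw [Finset.set_biUnion_insert]
      exact (h a).union ih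
  exact (h1 Finset.univ).mono (by simp)

theorem comm_root {x : List T} (hx : x ≠ []) (m : ℕ) : ∀ y : List T, y.length ≤ m → x ++ y = y ++ x →
    ∃ (n : ℕ) (p c : List T), x = p ++ c ∧ y = (List.replicate n x).flatten ++ p := by
  induction m with
  | zero =>
    intro y hy _
    have : y = [] := List.length_eq_zero_iff.1 (by omega)
    subst this
    exact ⟨0, [], x, rfl, rfl⟩
  | succ m ih =>
    intro y hy h
    rcases List.append_eq_append_iff.1 h with ⟨a, h1, h2⟩ | ⟨c, h1, h2⟩
    · have h3 : 0 < x.length := List.length_pos_iff.2 hx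
      have h4 : a.length ≤ m := by
        rw [h1, List.length_append] at hy
        omega
      obtain ⟨n, p, c, h5, h6⟩ := ih a h4 (h1.symm.trans h2)
      refine ⟨n + 1, p, c, h5, ?_⟩
      rw [h1, h6, List.replicate_succ, List.flatten_cons]
      simp
    · exact ⟨0, y, c, h1, rfl⟩

section
variable {Q : Type} (M : DFA T Q)

/-- the words which lead from `q` to `q` -/
def loops (q : Q) : Set (List T) := {x | M.evalFrom q x = q}

theorem loops_bdd {q : Q} (h : ∀ x ∈ loops M q, ∀ y ∈ loops M q, x ++ y = y ++ x) : Bdd (loops M q) := by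
  by_cases h0 : ∃ x ∈ loops M q, x ≠ []
  · obtain ⟨x, hx, hne⟩ := h0
    have h1 : Bdd (⋃ i : Fin (x.length + 1), ({x.take i} : Set (List T))) := Bdd.iUnion fun i => Bdd.single _
    refine ((Bdd.pow x).mul h1).mono ?_
    intro y hy
    obtain ⟨n, p, c, h2, h3⟩ := comm_root hne y.length y le_rfl (h x hx y hy)
    refine ⟨_, ⟨n, rfl⟩, p, ?_, h3.symm⟩
    rw [Set.mem_iUnion]
    have h4 : p.length < x.length + 1 := by
      rw [h2, List.length_append]
      omega
    refine ⟨⟨p.length, h4⟩, ?_⟩
    show p = x.take p.length
    rw [h2, List.take_left]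
  · push Not at h0
    refine (Bdd.single []).mono fun x hx => h0 x hx

/-- the words which lead from `s` to `t` inside `A` -/
def PA (A : Finset Q) (s t : Q) : Set (List T) :=
  {x | M.evalFrom s x = t ∧ ∀ x1 x2, x = x1 ++ x2 → M.evalFrom s x1 ∈ A}

theorem PA_bdd [Finite T] [DecidableEq Q] (U : Finset Q) (hU : ∀ q ∈ U, Bdd (loops M q)) (m : ℕ) :
    ∀ A : Finset Q, A ⊆ U → A.card ≤ m → ∀ s t, Bdd (PA M A s t) := by
  induction m with
  | zero =>
    intro A _ hA s t
    have h : A = ∅ := Finset.card_eq_zero.1 (by omega)
    refine Bdd.empty.mono fun x hx => ?_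
    have := hx.2 [] x rfl
    rw [h] at this
    simp at this
  | succ m ih =>
    intro A hAU hA s t
    by_cases hs : s ∈ A
    · have h1 : Bdd (⋃ a : T, Set.image2 (· ++ ·) ({[a]} : Set (List T)) (PA M (A.erase s) (M.step s a) t)) :=
        Bdd.iUnion fun a => (Bdd.single _).mul (ih _ ((Finset.erase_subset _ _).trans hAU) (by
          rw [Finset.card_erase_of_mem hs]
          omega) _ _)
      refine ((hU s (hAU hs)).mul ((Bdd.single []).union h1)).mono ?_
      rintro x ⟨hx1, hx2⟩
      -- the last visit of `s`
      have hex : ∃ n, n ≤ x.length ∧ M.evalFrom s (x.take n) = s ∧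
          ∀ n', n < n' → n' ≤ x.length → M.evalFrom s (x.take n') ≠ s := by
        classical
        have h2 : (Finset.filter (fun n => M.evalFrom s (x.take n) = s) (Finset.range (x.length + 1))).Nonempty :=
          ⟨0, by simp⟩
        have h4 := Finset.mem_filter.1 (Finset.max'_mem _ h2)
        refine ⟨Finset.max' _ h2, ?_, h4.2, ?_⟩
        · have := Finset.mem_range.1 h4.1
          omega
        · intro n' h3 h5 h6
          have := Finset.le_max' (Finset.filter (fun n => M.evalFrom s (x.take n) = s) (Finset.range (x.length + 1)))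
            n' (Finset.mem_filter.2 ⟨Finset.mem_range.2 (by omega), h6⟩)
          omega
      obtain ⟨n, hn, h2, h3⟩ := hex
      refine ⟨x.take n, h2, x.drop n, ?_, List.take_append_drop n x⟩
      cases hd : x.drop n with
      | nil => exact Or.inl rfl
      | cons a y =>
        right
        rw [Set.mem_iUnion]
        have hx : x = x.take n ++ a :: y := by rw [← hd, List.take_append_drop]
        have hlen : x.length = n + (y.length + 1) := by
          have := congrArg List.length hx
          rw [List.length_append, List.length_take, List.length_cons, min_eq_left hn] at this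
          exact this
        refine ⟨a, [a], rfl, y, ⟨?_, ?_⟩, rfl⟩
        · rw [hx, DFA.evalFrom_of_append, h2, DFA.evalFrom_cons] at hx1
          exact hx1
        · rintro y1 y2 rfl
          rw [Finset.mem_erase]
          have e1 : M.evalFrom s (x.take n ++ a :: y1) = M.evalFrom (M.step s a) y1 := by
            rw [DFA.evalFrom_of_append, h2, DFA.evalFrom_cons]
          have e2 : x = (x.take n ++ a :: y1) ++ y2 := by
            conv_lhs => rw [hx]
            simp
          constructor
          · have e3 : x.take (n + (y1.length + 1)) = x.take n ++ a :: y1 := by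
              have e4 : n + (y1.length + 1) = (x.take n ++ a :: y1).length := by
                rw [List.length_append, List.length_take, List.length_cons, min_eq_left hn]
              rw [e4]
              exact (congrArg (List.take (x.take n ++ a :: y1).length) e2).trans List.take_left
            rw [List.length_append] at hlen
            have := h3 (n + (y1.length + 1)) (by omega) (by omega)
            rw [e3, e1] at this
            exact this
          · have := hx2 _ _ e2
            rwa [e1] at this
    · refine Bdd.empty.mono fun x hx => ?_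
      exact (hs (hx.2 [] x rfl)).elim

/-- the product of the words chosen by a word of bits -/
def gb (A B : List T) : List Bool → List T
  | [] => []
  | b :: bs => (if b then A else B) ++ gb A B bs

theorem gb_length {A B : List T} (h : A.length = B.length) (bs : List Bool) :
    (gb A B bs).length = bs.length * A.length := by
  induction bs with
  | nil => simp [gb]
  | cons b bs ih =>
    rw [gb, List.length_append, ih, List.length_cons, add_mul, one_mul, add_comm]
    cases b <;> simp [h]

theorem gb_inj {A B : List T} (h : A.length = B.length) (hne : A ≠ B) : Function.Injective (gb A B) := by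
  intro bs
  induction bs with
  | nil =>
    intro bs' he
    cases bs' with
    | nil => rfl
    | cons b bs' =>
      exfalso
      have h1 := congrArg List.length he
      rw [gb_length h, gb_length h, List.length_nil, zero_mul, List.length_cons, add_mul] at h1
      have h2 : A.length = 0 := by omega
      have h3 : A = [] := List.length_eq_zero_iff.1 h2
      have h4 : B = [] := List.length_eq_zero_iff.1 (by omega)
      exact hne (h3.trans h4.symm)
  | cons b bs ih =>
    intro bs' he
    cases bs' with
    | nil =>
      exfalso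
      have h1 := congrArg List.length he
      rw [gb_length h, gb_length h, List.length_nil, zero_mul, List.length_cons, add_mul] at h1
      have h2 : A.length = 0 := by omega
      have h3 : A = [] := List.length_eq_zero_iff.1 h2
      have h4 : B = [] := List.length_eq_zero_iff.1 (by omega)
      exact hne (h3.trans h4.symm)
    | cons b' bs' =>
      have h1 : (if b then A else B) ++ gb A B bs = (if b' then A else B) ++ gb A B bs' := he
      have h2 : (if b then A else B).length = (if b' then A else B).length := by
        cases b <;> cases b' <;> simp [h]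
      obtain ⟨h3, h4⟩ := List.append_inj h1 h2
      rw [ih h4]
      congr 1
      cases b <;> cases b' <;> simp_all

theorem gb_loop {q : Q} {A B : List T} (hA : M.evalFrom q A = q) (hB : M.evalFrom q B = q) (bs : List Bool) :
    M.evalFrom q (gb A B bs) = q := by
  induction bs with
  | nil => rfl
  | cons b bs ih =>
    rw [gb, DFA.evalFrom_of_append]
    cases b
    · simp only [Bool.false_eq_true, if_false, hB, ih]
    · simp only [if_true, hA, ih]

theorem exp_poly (C a l d : ℕ) : ∃ n : ℕ, C * (a + n * l + 1) ^ d < 2 ^ n := by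
  have h1 := tendsto_pow_const_div_const_pow_of_one_lt d (one_lt_two (α := ℝ))
  set K : ℕ := C * (a + l + 1) ^ d with hK
  have h2 : (0 : ℝ) < 1 / (K + 1) := by positivity
  obtain ⟨n, hn, hn1⟩ := ((h1.eventually (gt_mem_nhds h2)).and (Filter.eventually_ge_atTop 1)).exists
  refine ⟨n, ?_⟩
  have h3 : (n : ℝ) ^ d * (K + 1) < 2 ^ n := by
    rw [div_lt_div_iff₀ (by positivity) (by positivity), one_mul] at hn
    exact hn
  have h4 : n ^ d * (K + 1) < 2 ^ n := by exact_mod_cast h3
  have h5 : (a + n * l + 1) ^ d ≤ ((a + l + 1) * n) ^ d := by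
    refine Nat.pow_le_pow_left ?_ d
    nlinarith [Nat.zero_le a, Nat.zero_le l]
  calc C * (a + n * l + 1) ^ d ≤ C * ((a + l + 1) * n) ^ d := Nat.mul_le_mul_left _ h5
    _ = n ^ d * K := by rw [mul_pow, hK]; ring
    _ ≤ n ^ d * (K + 1) := Nat.mul_le_mul_left _ (by omega)
    _ < 2 ^ n := h4

theorem loops_comm [Finite T] {C d : ℕ} (hp : ∀ n : ℕ, {u : List T | u ∈ M.accepts ∧ u.length = n}.ncard ≤ C * (n + 1) ^ d)
    {q : Q} {α β : List T} (hα : M.eval α = q) (hβ : M.evalFrom q β ∈ M.accept) :
    ∀ x ∈ loops M q, ∀ y ∈ loops M q, x ++ y = y ++ x := by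
  intro x hx y hy
  by_contra hne
  have hA : M.evalFrom q (x ++ y) = q := by
    rw [DFA.evalFrom_of_append, (show M.evalFrom q x = q from hx), (show M.evalFrom q y = q from hy)]
  have hB : M.evalFrom q (y ++ x) = q := by
    rw [DFA.evalFrom_of_append, (show M.evalFrom q y = q from hy), (show M.evalFrom q x = q from hx)]
  have hlen : (x ++ y).length = (y ++ x).length := by
    rw [List.length_append, List.length_append, add_comm]
  obtain ⟨n, hn⟩ := exp_poly C (α.length + β.length) (x ++ y).length d
  set N : ℕ := α.length + β.length + n * (x ++ y).length with hN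
  have hfin : {u : List T | u ∈ M.accepts ∧ u.length = N}.Finite :=
    (List.finite_length_eq T N).subset fun u hu => hu.2
  have hmem : ∀ b : Fin n → Bool, α ++ gb (x ++ y) (y ++ x) (List.ofFn b) ++ β ∈
      {u : List T | u ∈ M.accepts ∧ u.length = N} := by
    intro b
    constructor
    · show M.evalFrom M.start _ ∈ M.accept
      rw [DFA.evalFrom_of_append, DFA.evalFrom_of_append, (show M.evalFrom M.start α = q from hα), gb_loop M hA hB]
      exact hβ
    · rw [List.length_append, List.length_append, gb_length hlen, List.length_ofFn]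
      omega
  have hinj : Function.Injective fun b : Fin n → Bool => (⟨_, hmem b⟩ : {u : List T | u ∈ M.accepts ∧ u.length = N}) := by
    intro b b' he
    have h1 := Subtype.ext_iff.1 he
    have h2 : α ++ gb (x ++ y) (y ++ x) (List.ofFn b) ++ β = α ++ gb (x ++ y) (y ++ x) (List.ofFn b') ++ β := h1
    have h3 := List.append_cancel_left (List.append_cancel_right h2)
    exact List.ofFn_injective (gb_inj hlen hne h3)
  have := hfin.to_subtype
  have h4 := Nat.card_le_card_of_injective _ hinj
  rw [Nat.card_coe_set_eq, Nat.card_eq_fintype_card, Fintype.card_fun, Fintype.card_bool, Fintype.card_fin] at h4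
  have h5 := hp N
  omega

/-- regular languages of polynomial growth are bounded -/
theorem poly_bdd [Finite T] {L : Language T} (hL : L.IsRegular) {C d : ℕ}
    (hp : ∀ n : ℕ, {u : List T | u ∈ L ∧ u.length = n}.ncard ≤ C * (n + 1) ^ d) : Bdd (L : Set (List T)) := by
  classical
  obtain ⟨Q, _, M, rfl⟩ := hL
  set U : Finset Q := Finset.univ.filter fun q => (∃ α, M.eval α = q) ∧ ∃ β, M.evalFrom q β ∈ M.accept with hU
  have h1 : ∀ q ∈ U, Bdd (loops M q) := by
    intro q hq
    obtain ⟨-, ⟨α, hα⟩, β, hβ⟩ := Finset.mem_filter.1 hq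
    exact loops_bdd M (loops_comm M hp hα hβ)
  have h2 : Bdd (⋃ t : M.accept, PA M U M.start t.1) :=
    Bdd.iUnion fun t => PA_bdd M U h1 _ U le_rfl le_rfl _ _
  refine h2.mono fun x hx => ?_
  rw [Set.mem_iUnion]
  refine ⟨⟨M.eval x, hx⟩, rfl, ?_⟩
  rintro x1 x2 rfl
  refine Finset.mem_filter.2 ⟨Finset.mem_univ _, ⟨x1, rfl⟩, x2, ?_⟩
  rw [← DFA.evalFrom_of_append]
  exact hx

end

end Pool.Agent.Lib.IXB
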