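import Pool.Agent.Lib.IXB.Ann
import Pool.Agent.Lib.IXB.Asm
import Pool.Agent.Lib.IXB.Union
import Pool.Agent.Lib.IXB.Poly

/-!
# One class of a regular language
-/

set_option autoImplicit false

namespace Pool.Agent.Lib.IXB.Flag

open Mark

section
variable {S : Type} [Monoid S]

theorem exists_idem [Finite S] (a : S) : ∃ n : ℕ, 1 ≤ n ∧ a ^ n * a ^ n = a ^ n := by
  obtain ⟨i, j, hij, h⟩ := Finite.exists_ne_map_eq_of_infinite (fun n : ℕ => a ^ (n + 1))
  wlog hlt : i < j generalizing i j with H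
  · exact H j i hij.symm h.symm (by omega)
  obtain ⟨p, rfl⟩ := Nat.exists_eq_add_of_lt hlt
  have h1 : ∀ t : ℕ, a ^ (i + 1 + t) = a ^ (i + 1 + t + (p + 1)) := by
    intro t
    have h2 : a ^ (i + 1) = a ^ (i + p + 1 + 1) := h
    rw [pow_add, h2, ← pow_add]
    congr 1
    omega
  have h3 : ∀ q t : ℕ, a ^ (i + 1 + t) = a ^ (i + 1 + t + q * (p + 1)) := by
    intro q
    induction q with
    | zero => intro t; simp
    | succ q ih =>
      intro t
      rw [ih t]
      have h4 := h1 (t + q * (p + 1))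
      have e1 : i + 1 + (t + q * (p + 1)) = i + 1 + t + q * (p + 1) := by ring
      have e2 : i + 1 + t + q * (p + 1) + (p + 1) = i + 1 + t + (q + 1) * (p + 1) := by ring
      rw [e1, e2] at h4
      exact h4
  refine ⟨(i + 1) * (p + 1), Nat.mul_pos (by omega) (by omega), ?_⟩
  have h5 := h3 (i + 1) ((i + 1) * p)
  rw [← pow_add]
  have e1 : i + 1 + (i + 1) * p = (i + 1) * (p + 1) := by ring
  rw [e1] at h5
  exact h5.symm

theorem pow_back [Finite S] {s x y : S} (h : s = x * (s * s) * y) : ∃ j : ℕ, 1 ≤ j ∧ s ^ (j + 1) = s := by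
  have h1 : ∀ n : ℕ, s = x ^ n * s * (s * y) ^ n := by
    intro n
    induction n with
    | zero => simp
    | succ n ih =>
      calc s = x ^ n * s * (s * y) ^ n := ih
        _ = x ^ n * (x * (s * s) * y) * (s * y) ^ n := by rw [← h]
        _ = x ^ (n + 1) * s * (s * y) ^ (n + 1) := by
          rw [pow_succ, pow_succ']
          simp only [mul_assoc]
  obtain ⟨n, hn, hi⟩ := exists_idem (s * y)
  have h2 : s * (s * y) ^ n = s := by
    have h6 : s * (s * y) ^ n = x ^ n * s * (s * y) ^ n * (s * y) ^ n := congrArg (fun t => t * (s * y) ^ n) (h1 n)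
    rw [mul_assoc (x ^ n * s), hi] at h6
    exact h6.trans (h1 n).symm
  obtain ⟨m, rfl⟩ : ∃ m, n = m + 1 := ⟨n - 1, by omega⟩
  have h3 : s = s * s * (y * (s * y) ^ m) := by
    rw [pow_succ'] at h2
    simp only [mul_assoc] at h2 ⊢
    exact h2.symm
  have h4 : ∀ k : ℕ, s = s ^ (k + 1) * (y * (s * y) ^ m) ^ k := by
    intro k
    induction k with
    | zero => simp
    | succ k ih =>
      calc s = s ^ (k + 1) * (y * (s * y) ^ m) ^ k := ih
        _ = s ^ k * s * (y * (s * y) ^ m) ^ k := by rw [pow_succ]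
        _ = s ^ k * (s * s * (y * (s * y) ^ m)) * (y * (s * y) ^ m) ^ k := by rw [← h3]
        _ = s ^ (k + 1 + 1) * (y * (s * y) ^ m) ^ (k + 1) := by
          rw [pow_succ, pow_succ s k, pow_succ' (y * (s * y) ^ m) k]
          simp only [mul_assoc]
  obtain ⟨j, hj, hji⟩ := exists_idem s
  refine ⟨j, hj, ?_⟩
  have h5 : s ^ j * s = s := by
    have h6 := h4 j
    rw [pow_succ, mul_assoc] at h6
    have h7 : s ^ j * s = s ^ j * (s ^ j * (s * (y * (s * y) ^ m) ^ j)) := congrArg (fun t => s ^ j * t) h6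
    rw [← mul_assoc, hji] at h7
    exact h7.trans h6.symm
  rw [pow_succ]
  exact h5

end

section
variable {A S : Type} [Monoid S] (g : A → S) (s : S)

/-- the words with value `s` -/
def Ls : Language A := {u | ev g u = s}

theorem ls_regular [Finite S] : (Ls g s).IsRegular := by
  have := Fintype.ofFinite S
  let M : DFA A S := ⟨fun x c => x * g c, 1, {s}⟩
  have h1 : ∀ (u : List A) (x : S), M.evalFrom x u = x * ev g u := by
    intro u
    induction u with
    | nil => intro x; rw [ev_nil, mul_one]; rfl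
    | cons c u ih =>
      intro x
      have h2 : M.evalFrom x (c :: u) = M.evalFrom (x * g c) u := rfl
      rw [h2, ih, ev_cons, mul_assoc]
  have h3 : Ls g s = M.accepts := by
    ext u
    have h4 : u ∈ M.accepts ↔ M.evalFrom 1 u = s := Iff.rfl
    rw [h4, h1, one_mul]
    rfl
  rw [h3]
  exact ⟨S, inferInstance, M, rfl⟩

/-- the values of the factors of the words with value `s` -/
def gd (x : S) : Prop := ∃ a b : List A, ev g a * x * ev g b = s

theorem gd_left (c : A) (x : S) (h : gd g s (g c * x)) : gd g s x := by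
  obtain ⟨a, b, h⟩ := h
  refine ⟨a ++ [c], b, ?_⟩
  rw [ev_append, ev_cons, ev_nil, mul_one, mul_assoc (ev g a)]
  exact h

theorem cp_map {T : Type} (β : T → Bool) (X : List T) : X.countP β = (X.map β).count true := by
  induction X with
  | nil => rfl
  | cons x X ih =>
    rw [List.countP_cons, List.map_cons, List.count_cons, ih]
    cases β x <;> simp

theorem flags_le [Finite S] {u : List A} (hu : ev g u = s) : (cf g (gd g s) u).count true ≤ Nat.card S := by
  have h := flag_le g (gd g s) (gd_left g s) u (zi g u) (fun a b hab a' b' hb => by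
    refine ⟨a, b', ?_⟩
    rw [← ev_append, ← ev_append, List.append_assoc, ← hb, ← hab]
    exact hu)
  unfold cf
  omega

theorem flags_pos (hs : ¬ gd g s (s * s)) {u : List A} (hu : ev g u = s) : 1 ≤ (cf g (gd g s) u).count true := by
  by_contra h
  have h1 : ∀ t ∈ cf g (gd g s) u, t = false := by
    intro t ht
    cases t with
    | false => rfl
    | true => exact (h (List.count_pos_iff.2 ht)).elim
  have h2 : gd g s 1 := ⟨u, [], by rw [ev_nil, mul_one, mul_one, hu]⟩
  obtain ⟨h3, h4⟩ := no_flag g (gd g s) h1 (zi_one g u) h2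
  rw [zi_fix] at h3
  obtain ⟨-, h5⟩ := no_flag g (gd g s) h1 h3 h4
  rw [mul_one, hu] at h5
  exact hs h5

end

/-- symmetric words with a bounded number of marks -/
theorem marks_union {T T₀ : Type} [Finite T] [DecidableEq T] (ι : T → T) (J : T → T → Bool) (R : Language T) (h : T → T₀)
    (hJ : ∀ x y, J x y = J (ι y) (ι x)) (hR : R.IsRegular)
    (hh : ∀ u ∈ R, ∀ v ∈ R, u.map h = v.map h → u = v) (m : ℕ) : ∃ G : IG T₀, G.Unambiguous ∧
      G.lang = {v | ∃ u, u ∈ R ∧ th ι u ~r u ∧ 1 ≤ (cmk J u).count none ∧ (cmk J u).count none ≤ m + 1 ∧ v = u.map h} := by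
  obtain ⟨G, hG, hL⟩ := Union.fin_union (fun k => {v | ∃ u, u ∈ R ∧ th ι u ~r u ∧ (cmk J u).count none = k + 1 ∧ v = u.map h})
    (fun i j hij => by
      rw [Set.disjoint_left]
      rintro v ⟨u, hu, -, hc, hv⟩ ⟨u', hu', -, hc', hv'⟩
      have he := hh u hu u' hu' (hv.symm.trans hv')
      rw [he] at hc
      omega) (fun k => Asm.exact_marks ι J R h hJ hR hh k) m
  refine ⟨G, hG, hL.trans ?_⟩
  ext v
  constructor
  · rintro ⟨k, hk, u, hu, hs, hc, rfl⟩
    exact ⟨u, hu, hs, by omega, by omega, rfl⟩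
  · rintro ⟨u, hu, hs, h1, h2, rfl⟩
    exact ⟨(cmk J u).count none - 1, by omega, u, hu, hs, by omega, rfl⟩

/-- the words of one class which are products of two palindromes, if the square of the class is not a factor -/
theorem one_s {S : Type} [Monoid S] [Finite S] (g : Bool → S) (s : S) (hs : ¬ gd g s (s * s)) :
    ∃ G : IG Bool, G.Unambiguous ∧ G.lang = {u | u ∈ LC ∧ ev g u = s} := by
  have hh : ∀ u ∈ AR g (gd g s) (Ls g s), ∀ v ∈ AR g (gd g s) (Ls g s), u.map Prod.fst = v.map Prod.fst → u = v := by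
    intro u hu v hv he
    rw [((ar_iff _ _).1 hu).1, he]
    exact ((ar_iff _ _).1 hv).1.symm
  have hJ : ∀ x y : Bool × Bool × Bool, Jp (fun t => t.2.1) (fun t => t.2.2) x y =
      Jp (fun t => t.2.1) (fun t => t.2.2) (sw y) (sw x) := fun x y => Bool.or_comm _ _
  obtain ⟨G, hG, hL⟩ := marks_union sw (Jp (fun t => t.2.1) (fun t => t.2.2)) (AR g (gd g s) (Ls g s)) Prod.fst
    hJ (ar_regular g (gd g s) (ls_regular g s)) hh (2 * Nat.card S)
  refine ⟨G, hG, hL.trans ?_⟩
  ext v
  constructor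
  · rintro ⟨X, hX, hsw, -, -, rfl⟩
    obtain ⟨h2, h3⟩ := (ar_iff _ _).1 hX
    refine ⟨(lc_iff_rot _).2 ?_, h3⟩
    have h4 : ann g (gd g s) (X.map Prod.fst).reverse ~r ann g (gd g s) (X.map Prod.fst) := by
      rw [← ann_th, ← h2]
      exact hsw
    have h6 := h4.map Prod.fst
    rw [ann_fst, ann_fst] at h6
    exact h6
  · rintro ⟨hv, hvs⟩
    have h2 := (lc_iff_rot v).1 hv
    have hsw : th sw (ann g (gd g s) v) ~r ann g (gd g s) v := by
      rw [ann_th]
      exact ann_rot g (gd g s) h2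
    obtain ⟨h8, h9⟩ := jp_cmk (fun t : Bool × Bool × Bool => t.2.1) (fun t => t.2.2) (ann g (gd g s) v)
    rw [cp_map (fun t : Bool × Bool × Bool => t.2.2), ann_q, List.count_reverse] at h8 h9
    rw [cp_map (fun t : Bool × Bool × Bool => t.2.1), ann_p] at h9
    rw [(cf_rot g (gd g s) h2).perm.count_eq] at h8 h9
    have h10 := flags_le g s hvs
    have h11 := flags_pos g s hs hvs
    refine ⟨ann g (gd g s) v, (ar_iff _ _).2 ⟨?_, ?_⟩, hsw, by omega, by omega, ?_⟩
    · rw [ann_fst]
    · rw [ann_fst]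
      exact hvs
    · rw [ann_fst]

end Pool.Agent.Lib.IXB.Flag
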