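import Pool.Agent.Lib.IXB.Clos
import Pool.Agent.Lib.IXB.FR

/-!
# Grammars which are unambiguous on a set of words
-/

set_option autoImplicit false

namespace Pool.Agent.Lib.IXB.Point

/-- some grammar generates `L`, every word of `L` has a leftmost derivation, and the words of `A` have exactly one -/
def Good {T : Type} (L A : Set (List T)) : Prop := ∃ G : IG T, G.lang = L ∧
  (∀ u ∈ L, ∃ l, G.LDer l [Sum.inl (G.start, [])] (u.map Sum.inr)) ∧
  ∀ u ∈ A, ∃! l, G.LDer l [Sum.inl (G.start, [])] (u.map Sum.inr)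

theorem Good.congr {T : Type} {L A L' A' : Set (List T)} (h : Good L A) (hL : L = L') (hA : A' ⊆ A) : Good L' A' := by
  obtain ⟨G, h1, h2, h3⟩ := h
  subst hL
  exact ⟨G, h1, h2, fun u hu => h3 u (hA hu)⟩

theorem good_of_un {T : Type} {L : Set (List T)} (h : Trans.Un L) : Good L L := by
  obtain ⟨G, hG, rfl⟩ := h
  exact ⟨G, rfl, fun u hu => (hG u hu).exists, hG⟩

theorem good_union {T : Type} {L A L' A' : Set (List T)} (h : Good L A) (h' : Good L' A') (hA : A ⊆ L) (hA' : A' ⊆ L')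
    (hd : Disjoint L L') : Good (L ∪ L') (A ∪ A') := by
  obtain ⟨G₁, rfl, h2, h3⟩ := h
  obtain ⟨G₂, rfl, h2', h3'⟩ := h'
  have e₁ : ∀ (u : List T) (l : List (Rule G₁.V G₁.I T)), G₁.LDer l [Sum.inl (G₁.start, [])] (u.map Sum.inr) →
      (Union.un G₁ G₂).LDer (.rw none [Sum.inl (some (.inl G₁.start))] :: l.map (Union.ps (fun A => some (.inl A)) Sum.inl))
        [Sum.inl ((Union.un G₁ G₂).start, [])] (u.map Sum.inr) := by
    intro u l hl
    refine .cons ⟨Or.inl (Or.inl rfl), [], [], (none, []), _, rfl, Act.rw _ _ _, rfl⟩ ?_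
    have h1 := Union.lder_emb (Union.emb₁ G₁ G₂) hl
    rw [Union.ph_term] at h1
    exact h1
  have e₂ : ∀ (u : List T) (l : List (Rule G₂.V G₂.I T)), G₂.LDer l [Sum.inl (G₂.start, [])] (u.map Sum.inr) →
      (Union.un G₁ G₂).LDer (.rw none [Sum.inl (some (.inr G₂.start))] :: l.map (Union.ps (fun A => some (.inr A)) Sum.inr))
        [Sum.inl ((Union.un G₁ G₂).start, [])] (u.map Sum.inr) := by
    intro u l hl
    refine .cons ⟨Or.inl (Or.inr rfl), [], [], (none, []), _, rfl, Act.rw _ _ _, rfl⟩ ?_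
    have h1 := Union.lder_emb (Union.emb₂ G₁ G₂) hl
    rw [Union.ph_term] at h1
    exact h1
  refine ⟨Union.un G₁ G₂, Union.un_lang G₁ G₂, ?_, ?_⟩
  · rintro u (hu | hu)
    · obtain ⟨l, hl⟩ := h2 u hu
      exact ⟨_, e₁ u l hl⟩
    · obtain ⟨l, hl⟩ := h2' u hu
      exact ⟨_, e₂ u l hl⟩
  · rintro u (hu | hu)
    · obtain ⟨l, hl, huniq⟩ := h3 u hu
      refine ⟨_, e₁ u l hl, fun l' hl' => ?_⟩
      rcases Union.lder_start G₁ G₂ hl' with ⟨l₁, rfl, h4⟩ | ⟨l₂, rfl, h4⟩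
      · rw [huniq l₁ h4]
      · exact (Set.disjoint_left.1 hd (hA hu) (LDer_step _ h4)).elim
    · obtain ⟨l, hl, huniq⟩ := h3' u hu
      refine ⟨_, e₂ u l hl, fun l' hl' => ?_⟩
      rcases Union.lder_start G₁ G₂ hl' with ⟨l₁, rfl, h4⟩ | ⟨l₂, rfl, h4⟩
      · exact (Set.disjoint_left.1 hd (LDer_step _ h4) (hA' hu)).elim
      · rw [huniq l₂ h4]

section
variable {T D R : Type}

/-- the grammar of a regular set of stacks, without injectivity -/
theorem good_gr [Finite D] [Finite R] (body : R → D → List (R ⊕ T)) (fn : List (R ⊕ T))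
    (hb : ∀ r d, ∃ r', Sum.inl r' ∈ body r d) (hf : ∃ r, Sum.inl r ∈ fn) {K : List D → Prop} (hK : Fold.FR K) :
    Good {u : List T | ∃ τ, K τ ∧ u = Gen.ev body τ fn} {u : List T | ∃ τ, K τ ∧ u = Gen.ev body τ fn ∧
      ∀ τ', K τ' → u = Gen.ev body τ' fn → τ' = τ} := by
  obtain ⟨S, hS, step, init, Acc, hK⟩ := hK
  set M : DFA D S := ⟨fun s d => step d s, init, Acc⟩ with hM
  have hacc : ∀ ρ, ρ ∈ M.accepts ↔ K ρ.reverse := by
    intro ρ
    rw [hK, List.foldr_reverse]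
    exact Iff.rfl
  refine ⟨Gen.gr M body fn, ?_, ?_, ?_⟩
  · ext u
    constructor
    · intro hu
      obtain ⟨ρ, hρ, rfl⟩ := Gen.lang_sub M body fn hb hf hu
      exact ⟨_, (hacc ρ).1 hρ, rfl⟩
    · rintro ⟨τ, hτ, rfl⟩
      have h1 : τ.reverse ∈ M.accepts := (hacc _).2 (by rwa [List.reverse_reverse])
      obtain ⟨l, hl⟩ := Gen.der_ex M body fn h1
      rw [List.reverse_reverse] at hl
      exact LDer_step _ hl
  · rintro u ⟨τ, hτ, rfl⟩
    have h1 : τ.reverse ∈ M.accepts := (hacc _).2 (by rwa [List.reverse_reverse])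
    obtain ⟨l, hl⟩ := Gen.der_ex M body fn h1
    rw [List.reverse_reverse] at hl
    exact ⟨l, hl⟩
  · rintro u ⟨τ, hτ, rfl, huniq⟩
    have h1 : τ.reverse ∈ M.accepts := (hacc _).2 (by rwa [List.reverse_reverse])
    obtain ⟨l, hl⟩ := Gen.der_ex M body fn h1
    rw [List.reverse_reverse] at hl
    refine ⟨l, hl, ?_⟩
    have key : ∀ l, (Gen.gr M body fn).LDer l [Sum.inl ((Gen.gr M body fn).start, [])] ((Gen.ev body τ fn).map Sum.inr) →
        ∃ l', l = .push none (some (.inl M.start)) none ::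
          (Gen.pushes M body fn M.start τ.reverse ++ .rw (some (.inl (M.evalFrom M.start τ.reverse))) (Gen.emb fn) :: l') ∧
          (Gen.gr M body fn).LDer l' (att (τ.reverse.reverse.map some ++ [none]) (Gen.emb fn)) ((Gen.ev body τ fn).map Sum.inr) := by
      intro l hl
      obtain ⟨l1, rfl, h1⟩ := Gen.start_inv M body fn hl
      obtain ⟨ρ', l2, rfl, h2, h3⟩ := Gen.push_inv M body fn h1 rfl
      obtain ⟨τ', h4, h5⟩ := Gen.sem_reader M body fn hf (Gen.der_sem M body fn hb hf (LDer_step _ h2)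
        ((Gen.fsem_term M body fn _ _).2 rfl))
      have h6 : τ' = ρ'.reverse := Gen.stk_inj h4 ⟨[], rfl⟩
      subst h6
      have h7 := huniq ρ'.reverse ((hacc ρ').1 h3) h5
      subst h7
      rw [List.reverse_reverse]
      exact ⟨l2, rfl, h2⟩
    intro l' hl'
    obtain ⟨m, rfl, hm⟩ := key l hl
    obtain ⟨m', rfl, hm'⟩ := key l' hl'
    rw [Gen.det_der M body fn (Gen.det_emb _ _) hm' hm rfl rfl]

end

section
variable {T T' Q : Type} [Finite Q] {dl : Q → T → Q} {ou : Q → T → List T'} {q₀ : Q} {Fi : Set Q}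

/-- sequential transductions -/
theorem good_tg {L A : Set (List T)} (h : Good L A) (hA : A ⊆ L) :
    Good {w | ∃ u ∈ L, Trans.ds dl q₀ u ∈ Fi ∧ w = Trans.os dl ou q₀ u} {w | ∃ u ∈ A, Trans.ds dl q₀ u ∈ Fi ∧ w = Trans.os dl ou q₀ u ∧
      ∀ u' ∈ L, Trans.ds dl q₀ u' ∈ Fi → w = Trans.os dl ou q₀ u' → u' = u} := by
  obtain ⟨G, rfl, hex, hun⟩ := h
  have hA' : ∀ f : Q, Trans.An dl ou Trans.n2 q₀ [Sum.inl (G.start, [])] [f] f [Sum.inl (Trans.n2 q₀ (G.start, ([] : List G.I)) f)] :=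
    fun f => .var (.nil f)
  have h2 : ∀ u ∈ G.lang, Trans.ds dl q₀ u ∈ Fi → ∃ l, (Trans.tg dl ou q₀ Fi G).LDer l [Sum.inl ((Trans.tg dl ou q₀ Fi G).start, [])]
      ((Trans.os dl ou q₀ u).map Sum.inr) := by
    intro u hu hf
    obtain ⟨l, hl⟩ := hex u hu
    obtain ⟨ts, F', l', h3, h4⟩ := Trans.lift_lder (dl := dl) (ou := ou) (q₀ := q₀) (Fi := Fi) hl rfl q₀
    cases h3 with
    | var h3 =>
      cases h3
      refine ⟨_ :: l', .cons ⟨Or.inl ⟨_, hf, rfl⟩, [], [], _, _, rfl, .rw _ _ _, rfl⟩ ?_⟩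
      exact h4
  have h1 : ∀ w ∈ (Trans.tg dl ou q₀ Fi G).lang, ∃ u ∈ G.lang, Trans.ds dl q₀ u ∈ Fi ∧ w = Trans.os dl ou q₀ u := by
    intro w hw
    rcases Relation.ReflTransGen.cases_head hw with h | ⟨E', ⟨ρ', hρ', x', y', X', Z', h2, ha, rfl⟩, h3⟩
    · cases w with
      | nil => simp at h
      | cons t w => simp at h
    · obtain ⟨rfl, rfl, rfl⟩ := Trans.single_cut h2
      obtain ⟨f, hf, -, rfl⟩ := Trans.start_inv hρ' ha
      obtain ⟨u, h4, rfl, rfl⟩ := Trans.sim_word h3 (hA' f)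
      exact ⟨u, h4, hf, rfl⟩
  refine ⟨Trans.tg dl ou q₀ Fi G, ?_, ?_, ?_⟩
  · ext w
    constructor
    · exact h1 w
    · rintro ⟨u, hu, hf, rfl⟩
      obtain ⟨l, hl⟩ := h2 u hu hf
      exact LDer_step _ hl
  · rintro w ⟨u, hu, hf, rfl⟩
    exact h2 u hu hf
  · rintro w ⟨u, hu, hf, rfl, huniq⟩
    have key : ∀ l' : List (Rule (Trans.tg dl ou q₀ Fi G).V (Trans.tg dl ou q₀ Fi G).I T'),
        (Trans.tg dl ou q₀ Fi G).LDer l' [Sum.inl ((Trans.tg dl ou q₀ Fi G).start, [])] ((Trans.os dl ou q₀ u).map Sum.inr) →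
        ∃ l₀, l' = .rw none [Sum.inl (some (q₀, G.start, Trans.ds dl q₀ u))] :: l₀ ∧ ∃ l,
          G.LDer l [Sum.inl (G.start, [])] (u.map Sum.inr) ∧
          Trans.TD dl ou q₀ Fi G q₀ u l l₀ [Sum.inl (G.start, [])] [Trans.ds dl q₀ u] := by
      intro l' hl'
      generalize hS : ([Sum.inl ((Trans.tg dl ou q₀ Fi G).start, [])] : Form (Trans.tg dl ou q₀ Fi G).V (Trans.tg dl ou q₀ Fi G).I T') = S₀ at hl'
      generalize hW : ((Trans.os dl ou q₀ u).map Sum.inr : Form (Trans.tg dl ou q₀ Fi G).V (Trans.tg dl ou q₀ Fi G).I T') = W₀ at hl'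
      cases hl' with
      | nil =>
        subst hS
        cases hw' : Trans.os dl ou q₀ u with
        | nil => rw [hw'] at hW; simp at hW
        | cons t w => rw [hw'] at hW; simp at hW
      | cons h3 h4 =>
        obtain ⟨hρ', v', y', X', Z', h5, ha, rfl⟩ := h3
        obtain ⟨h6, rfl, rfl⟩ := Trans.single_cut (hS.trans h5)
        obtain ⟨f, hf', rfl, rfl⟩ := Trans.start_inv hρ' ha
        rw [h6] at h4
        obtain ⟨l, u', h7, h8, h9, h10⟩ := Trans.sim_lder h4 hW.symm (hA' f)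
        obtain rfl := huniq u' (LDer_step G h7) (by rw [h9]; exact hf') h10.symm
        subst h9
        exact ⟨_, rfl, l, h7, h8⟩
    obtain ⟨l', hl'⟩ := h2 u (hA hu) hf
    refine ⟨l', hl', fun l'' hl'' => ?_⟩
    obtain ⟨l₁, rfl, m₁, h3, h4⟩ := key l' hl'
    obtain ⟨l₂, rfl, m₂, h5, h6⟩ := key l'' hl''
    obtain rfl := (hun u hu).unique h3 h5
    rw [(h4.fn h6).1]

end

/-- intersection with a regular language -/
theorem good_inter {T : Type} {L A : Set (List T)} (h : Good L A) (hA : A ⊆ L) {R : Language T} (hR : R.IsRegular) :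
    Good {u : List T | u ∈ L ∧ u ∈ R} {u : List T | u ∈ A ∧ u ∈ R} := by
  obtain ⟨Q, _, M, rfl⟩ := hR
  have h1 : ∀ (u : List T) (p : Q), Trans.os M.step (fun _ t => [t]) p u = u := by
    intro u
    induction u with
    | nil => exact fun p => rfl
    | cons t u ih =>
      intro p
      show [t] ++ Trans.os M.step (fun _ t => [t]) (M.step p t) u = t :: u
      rw [ih]
      rfl
  have h2 : ∀ (u : List T) (p : Q), Trans.ds M.step p u = M.evalFrom p u := by
    intro u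
    induction u with
    | nil => exact fun p => rfl
    | cons t u ih => exact fun p => ih (M.step p t)
  refine (good_tg (dl := M.step) (ou := fun _ t => [t]) (q₀ := M.start) (Fi := M.accept) h hA).congr ?_ ?_
  · ext w
    constructor
    · rintro ⟨u, hu, hf, rfl⟩
      rw [h1]
      rw [h2] at hf
      exact ⟨hu, hf⟩
    · rintro ⟨hu, hf⟩
      exact ⟨w, hu, by rw [h2]; exact hf, (h1 w _).symm⟩
  · rintro w ⟨hu, hf⟩
    refine ⟨w, hu, by rw [h2]; exact hf, (h1 w _).symm, fun u' _ _ he => ?_⟩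
    rw [h1] at he
    exact he.symm

/-- inverse images of block codes -/
theorem good_block (H : Bool → List Bool) (m : ℕ) {L A : Set (List Bool)} (h : Good L A) (hA : A ⊆ L) (hne : H false ≠ H true)
    (hl : ∀ c, (H c).length = m + 1) : Good {w : List Bool | w.flatMap H ∈ L} {w : List Bool | w.flatMap H ∈ A} := by
  have : Finite {l : List Bool // l.length < m + 1} := (List.finite_length_lt Bool (m + 1)).to_subtype
  have hinv : ∀ u : List Bool, Trans.ds (Trans.dd H m) (some ⟨[], Nat.succ_pos m⟩) u ∈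
      ({some ⟨[], Nat.succ_pos m⟩} : Set (Option {l : List Bool // l.length < m + 1})) →
      u = (Trans.os (Trans.dd H m) (Trans.od H m) (some ⟨[], Nat.succ_pos m⟩) u).flatMap H := by
    intro u hu
    have h1 := Trans.dd_inv H m u ⟨[], Nat.succ_pos m⟩ ⟨[], Nat.succ_pos m⟩ hu
    simpa using h1
  refine (good_tg (dl := Trans.dd H m) (ou := Trans.od H m) (q₀ := some ⟨[], Nat.succ_pos m⟩)
    (Fi := {some ⟨[], Nat.succ_pos m⟩}) h hA).congr ?_ ?_
  · ext w
    constructor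
    · rintro ⟨u, hu, hf, rfl⟩
      show (Trans.os (Trans.dd H m) (Trans.od H m) (some ⟨[], Nat.succ_pos m⟩) u).flatMap H ∈ L
      rw [← hinv u hf]
      exact hu
    · intro hw
      obtain ⟨h5, h6⟩ := Trans.dd_word H m hne hl w
      exact ⟨w.flatMap H, hw, h5, h6.symm⟩
  · intro w hw
    obtain ⟨h5, h6⟩ := Trans.dd_word H m hne hl w
    refine ⟨w.flatMap H, hw, h5, h6.symm, fun u' _ hf he => ?_⟩
    rw [hinv u' hf, ← he]

end Pool.Agent.Lib.IXB.Point
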