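import Pool.Agent.Lib.IXB.Reg

/-!
# Semilinear sets of exponents: letters, equal words, products of two palindromes
-/

set_option autoImplicit false

namespace Pool.Agent.Lib.IXB

section SL
variable {M N : Type} [AddCommMonoid M] [AddCommMonoid N]

theorem sl_ex {p : M → N → Prop} (h : IsSemilinearSet {z : M × N | p z.1 z.2}) : IsSemilinearSet {x : M | ∃ y, p x y} := by
  have h1 := h.image (AddMonoidHom.fst M N)
  have h2 : {x : M | ∃ y, p x y} = AddMonoidHom.fst M N '' {z : M × N | p z.1 z.2} := by
    ext x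
    constructor
    · rintro ⟨y, hy⟩
      exact ⟨(x, y), hy, rfl⟩
    · rintro ⟨⟨a, b⟩, hz, rfl⟩
      exact ⟨b, hz⟩
  rw [h2]
  exact h1

theorem sl_not [AddMonoid.FG M] {p : M → Prop} (h : IsSemilinearSet {z : M | p z}) : IsSemilinearSet {x : M | ¬ p x} :=
  h.compl

theorem sl_all [AddMonoid.FG M] [AddMonoid.FG N] {p : M → N → Prop} (h : IsSemilinearSet {z : M × N | p z.1 z.2}) :
    IsSemilinearSet {x : M | ∀ y, p x y} := by
  have h1 := sl_not (sl_ex (p := fun x y => ¬ p x y) (sl_not h))
  have h2 : {x : M | ∀ y, p x y} = {x : M | ¬ ∃ y, ¬ p x y} := by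
    ext x
    simp
  rw [h2]
  exact h1

theorem sl_and {p q : M → Prop} (h : IsSemilinearSet {z : M | p z}) (h' : IsSemilinearSet {z : M | q z}) :
    IsSemilinearSet {x : M | p x ∧ q x} := h.inter h'

theorem sl_or {p q : M → Prop} (h : IsSemilinearSet {z : M | p z}) (h' : IsSemilinearSet {z : M | q z}) :
    IsSemilinearSet {x : M | p x ∨ q x} := h.union h'

theorem sl_imp [AddMonoid.FG M] {p q : M → Prop} (h : IsSemilinearSet {z : M | p z}) (h' : IsSemilinearSet {z : M | q z}) :
    IsSemilinearSet {x : M | p x → q x} := by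
  have h1 := sl_or (sl_not h) h'
  have h2 : {x : M | p x → q x} = {x : M | ¬ p x ∨ q x} := by
    ext x
    exact imp_iff_not_or
  rw [h2]
  exact h1

theorem sl_iff [AddMonoid.FG M] {p q : M → Prop} (h : IsSemilinearSet {z : M | p z}) (h' : IsSemilinearSet {z : M | q z}) :
    IsSemilinearSet {x : M | p x ↔ q x} := by
  have h1 := sl_and (sl_imp h h') (sl_imp h' h)
  have h2 : {x : M | p x ↔ q x} = {x : M | (p x → q x) ∧ (q x → p x)} := by
    ext x
    exact iff_def
  rw [h2]
  exact h1

theorem sl_fin_ex {ι : Type} [Finite ι] {p : ι → M → Prop} (h : ∀ i, IsSemilinearSet {z : M | p i z}) :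
    IsSemilinearSet {x : M | ∃ i, p i x} := by
  have h1 := IsSemilinearSet.iUnion h
  have h2 : {x : M | ∃ i, p i x} = ⋃ i, {z : M | p i z} := by
    ext x
    simp
  rw [h2]
  exact h1

theorem sl_fin_all [AddMonoid.FG M] {ι : Type} [Finite ι] {p : ι → M → Prop} (h : ∀ i, IsSemilinearSet {z : M | p i z}) :
    IsSemilinearSet {x : M | ∀ i, p i x} := by
  have h1 := sl_not (sl_fin_ex fun i => sl_not (h i))
  have h2 : {x : M | ∀ i, p i x} = {x : M | ¬ ∃ i, ¬ p i x} := by
    ext x
    simp
  rw [h2]
  exact h1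

theorem sl_const [AddMonoid.FG M] (P : Prop) : IsSemilinearSet {_x : M | P} := by
  by_cases h : P
  · simp only [h]
    have h1 := (IsSemilinearSet.empty (M := M)).compl
    rw [Set.compl_empty] at h1
    exact h1
  · simp only [h]
    exact IsSemilinearSet.empty

/-- additive maps -/
def Lin (f : M → N) : Prop := f 0 = 0 ∧ ∀ x y, f (x + y) = f x + f y

/-- the bundled map -/
def Lin.hom {f : M → N} (h : Lin f) : M →+ N where
  toFun := f
  map_zero' := h.1
  map_add' := h.2

theorem sl_pre [AddMonoid.FG M] {f : M → N} (hf : Lin f) {p : N → Prop} (h : IsSemilinearSet {y : N | p y}) :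
    IsSemilinearSet {x : M | p (f x)} := h.preimage hf.hom

theorem sl_eq [AddMonoid.FG M] {f g : M → ℕ} (hf : Lin f) (hg : Lin g) (a b : ℕ) :
    IsSemilinearSet {x : M | f x + a = g x + b} := by
  have h1 := isSemilinearSet_setOfPred_eq a b hf.hom hg.hom
  have h2 : {x : M | f x + a = g x + b} = {x : M | a + hf.hom x = b + hg.hom x} := by
    ext x
    show f x + a = g x + b ↔ a + f x = b + g x
    omega
  rw [h2]
  exact h1

theorem lin_fst : Lin (fun z : M × N => z.1) := ⟨rfl, fun _ _ => rfl⟩

theorem lin_snd : Lin (fun z : M × N => z.2) := ⟨rfl, fun _ _ => rfl⟩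

theorem Lin.comp {P : Type} [AddCommMonoid P] {f : M → N} {g : N → P} (hg : Lin g) (hf : Lin f) :
    Lin (fun x => g (f x)) := ⟨by simp only [hf.1, hg.1], fun x y => by simp only [hf.2, hg.2]⟩

theorem Lin.add {f g : M → ℕ} (hf : Lin f) (hg : Lin g) : Lin (fun x => f x + g x) :=
  ⟨by simp only [hf.1, hg.1, add_zero], fun x y => by simp only [hf.2, hg.2]; ring⟩

theorem Lin.mul {f : M → ℕ} (c : ℕ) (hf : Lin f) : Lin (fun x => c * f x) :=
  ⟨by simp only [hf.1, mul_zero], fun x y => by simp only [hf.2, mul_add]⟩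

theorem Lin.prod {P : Type} [AddCommMonoid P] {f : M → N} {g : M → P} (hf : Lin f) (hg : Lin g) :
    Lin (fun x => (f x, g x)) := ⟨by simp only [hf.1, hg.1]; rfl, fun x y => by simp only [hf.2, hg.2]; rfl⟩

theorem lin_eval {k : ℕ} (i : Fin k) : Lin (fun x : Fin k → ℕ => x i) := ⟨rfl, fun _ _ => rfl⟩

theorem sl_lt [AddMonoid.FG M] {f g : M → ℕ} (hf : Lin f) (hg : Lin g) : IsSemilinearSet {x : M | f x < g x} := by
  have h1 := sl_ex (p := fun (x : M) (d : ℕ) => f x + d + 1 = g x + 0)
    (sl_eq ((hf.comp (lin_fst (N := ℕ))).add lin_snd) (hg.comp lin_fst) 1 0)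
  have h2 : {x : M | f x < g x} = {x : M | ∃ d : ℕ, f x + d + 1 = g x + 0} := by
    ext x
    constructor
    · intro h
      have h' : f x < g x := h
      exact ⟨g x - f x - 1, by omega⟩
    · rintro ⟨d, hd⟩
      show f x < g x
      omega
  rw [h2]
  exact h1

theorem sl_le [AddMonoid.FG M] {f g : M → ℕ} (hf : Lin f) (hg : Lin g) : IsSemilinearSet {x : M | f x ≤ g x} := by
  have h1 := sl_not (sl_lt hg hf)
  have h2 : {x : M | f x ≤ g x} = {x : M | ¬ g x < f x} := by
    ext x
    show f x ≤ g x ↔ ¬ g x < f x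
    omega
  rw [h2]
  exact h1

end SL

variable {T : Type}

theorem rep_get (v : List T) (a n : ℕ) (t : T) : (List.replicate a v).flatten[n]? = some t ↔
    ∃ q, q < a ∧ ∃ r, n = q * v.length + r ∧ v[r]? = some t := by
  induction a generalizing n with
  | zero => simp
  | succ a ih =>
    rw [List.replicate_succ, List.flatten_cons]
    by_cases h : n < v.length
    · rw [List.getElem?_append_left h]
      constructor
      · intro h1
        exact ⟨0, by omega, n, by simp, h1⟩
      · rintro ⟨q, hq, r, hr, h1⟩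
        have h2 : q = 0 := by
          by_contra h3
          have h4 : v.length ≤ q * v.length := Nat.le_mul_of_pos_left _ (by omega)
          omega
        subst h2
        rw [hr]
        simpa using h1
    · rw [List.getElem?_append_right (by omega), ih]
      constructor
      · rintro ⟨q, hq, r, hr, h1⟩
        exact ⟨q + 1, by omega, r, by rw [add_mul]; omega, h1⟩
      · rintro ⟨q, hq, r, hr, h1⟩
        have h2 : r < v.length := (List.getElem?_eq_some_iff.1 h1).1
        cases q with
        | zero => omega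
        | succ q =>
          rw [add_mul] at hr
          exact ⟨q, by omega, r, by omega, h1⟩

theorem bw_succ {k : ℕ} (w : Fin (k + 1) → List T) (x : Fin (k + 1) → ℕ) :
    bw w x = (List.replicate (x 0) (w 0)).flatten ++ bw (fun i => w i.succ) (fun i => x i.succ) := by
  unfold bw
  rw [List.ofFn_succ, List.flatten_cons]

theorem sl_let {k : ℕ} (w : Fin k → List T) (t : T) :
    IsSemilinearSet {z : (Fin k → ℕ) × ℕ | (bw w z.1)[z.2]? = some t} := by
  induction k with
  | zero =>
    have h : {z : (Fin 0 → ℕ) × ℕ | (bw w z.1)[z.2]? = some t} = ∅ := by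
      ext z
      simp [bw]
    rw [h]
    exact IsSemilinearSet.empty
  | succ k ih =>
    have h : {z : (Fin (k + 1) → ℕ) × ℕ | (bw w z.1)[z.2]? = some t} =
        {z | (∃ r : Fin (w 0).length, (w 0)[r] = t ∧ ∃ q : ℕ, q < z.1 0 ∧ z.2 + 0 = (w 0).length * q + r) ∨
          ∃ m : ℕ, z.2 + 0 = (w 0).length * z.1 0 + m + 0 ∧ (bw (fun i => w i.succ) (fun i => z.1 i.succ))[m]? = some t} := by
      ext z
      obtain ⟨x, n⟩ := z
      show (bw w x)[n]? = some t ↔ _
      rw [bw_succ]
      by_cases h1 : n < ((List.replicate (x 0) (w 0)).flatten).length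
      · rw [List.getElem?_append_left h1, rep_get]
        constructor
        · rintro ⟨q, hq, r, hr, h2⟩
          obtain ⟨h3, h4⟩ := List.getElem?_eq_some_iff.1 h2
          exact Or.inl ⟨⟨r, h3⟩, h4, q, hq, by rw [hr, mul_comm]; simp⟩
        · rintro (⟨r, h2, q, hq, h3⟩ | ⟨m, h2, h3⟩)
          · exact ⟨q, hq, r, by simp only at h3; rw [mul_comm q]; omega, by rw [List.getElem?_eq_some_iff]; exact ⟨r.2, h2⟩⟩
          · exfalso
            simp only [List.length_flatten, List.map_replicate, List.sum_replicate, smul_eq_mul] at h1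
            simp only at h2
            rw [mul_comm] at h1
            omega
      · rw [List.getElem?_append_right (by omega)]
        have h1' := h1
        simp only [List.length_flatten, List.map_replicate, List.sum_replicate, smul_eq_mul] at h1' ⊢
        rw [mul_comm] at h1' ⊢
        constructor
        · intro h2
          exact Or.inr ⟨n - (w 0).length * x 0, by simp only; omega, h2⟩
        · rintro (⟨r, h2, q, hq, h3⟩ | ⟨m, h2, h3⟩)
          · exfalso
            have h4 : (w 0).length * q + (w 0).length ≤ (w 0).length * x 0 := by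
              calc (w 0).length * q + (w 0).length = (w 0).length * (q + 1) := by ring
                _ ≤ (w 0).length * x 0 := Nat.mul_le_mul_left _ hq
            have h5 := r.2
            simp only at h3
            omega
          · have h4 : m = n - (w 0).length * x 0 := by
              simp only at h2
              omega
            rw [← h4]
            exact h3
    rw [h]
    refine sl_or (sl_fin_ex fun r => sl_and (sl_const _) (sl_ex ?_)) (sl_ex (sl_and ?_ ?_))
    · refine sl_and (sl_lt lin_snd ((lin_eval 0).comp (lin_fst.comp lin_fst))) ?_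
      exact sl_eq (lin_snd.comp lin_fst) (lin_snd.mul (w 0).length) 0 r
    · exact sl_eq (lin_snd.comp lin_fst) ((((lin_eval 0).comp (lin_fst.comp lin_fst)).mul (w 0).length).add lin_snd) 0 0
    · have hl : Lin (fun (z : ((Fin (k + 1) → ℕ) × ℕ) × ℕ) => ((fun i : Fin k => z.1.1 i.succ), z.2)) :=
        ⟨rfl, fun _ _ => rfl⟩
      exact sl_pre hl (ih fun i => w i.succ)

section
variable {M : Type} [AddCommMonoid M] [AddMonoid.FG M] {k : ℕ}

theorem sl_get (w : Fin k → List T) (t : T) {X : M → Fin k → ℕ} {n : M → ℕ} (hX : Lin X) (hn : Lin n) :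
    IsSemilinearSet {z : M | (bw w (X z))[n z]? = some t} := sl_pre (hX.prod hn) (sl_let w t)

theorem sl_get_eq [Finite T] (w : Fin k → List T) {X X' : M → Fin k → ℕ} {n n' : M → ℕ} (hX : Lin X) (hX' : Lin X')
    (hn : Lin n) (hn' : Lin n') : IsSemilinearSet {z : M | (bw w (X z))[n z]? = (bw w (X' z))[n' z]?} := by
  have h1 := sl_fin_all fun t : T => sl_iff (sl_get w t hX hn) (sl_get w t hX' hn')
  have h2 : {z : M | (bw w (X z))[n z]? = (bw w (X' z))[n' z]?} =
      {z : M | ∀ t, ((bw w (X z))[n z]? = some t ↔ (bw w (X' z))[n' z]? = some t)} := by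
    ext z
    exact Option.ext_iff
  rw [h2]
  exact h1

theorem sl_word_eq [Finite T] (w : Fin k → List T) {X X' : M → Fin k → ℕ} (hX : Lin X) (hX' : Lin X') :
    IsSemilinearSet {z : M | bw w (X z) = bw w (X' z)} := by
  have h1 := sl_all (p := fun (z : M) (n : ℕ) => (bw w (X z))[n]? = (bw w (X' z))[n]?)
    (sl_get_eq w (hX.comp lin_fst) (hX'.comp lin_fst) lin_snd lin_snd)
  have h2 : {z : M | bw w (X z) = bw w (X' z)} = {z : M | ∀ n : ℕ, (bw w (X z))[n]? = (bw w (X' z))[n]?} := by
    ext z
    exact List.ext_getElem?_iff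
  rw [h2]
  exact h1

theorem bw_length (w : Fin k → List T) (x : Fin k → ℕ) : (bw w x).length = ∑ i, (w i).length * x i := by
  induction k with
  | zero => simp [bw]
  | succ k ih =>
    rw [bw_succ, List.length_append, ih, Fin.sum_univ_succ]
    simp only [List.length_flatten, List.map_replicate, List.sum_replicate, smul_eq_mul]
    rw [mul_comm]

theorem lin_len (w : Fin k → List T) : Lin (fun x : Fin k → ℕ => (bw w x).length) := by
  constructor
  · simp [bw_length]
  · intro x y
    simp only [bw_length, Pi.add_apply, mul_add, Finset.sum_add_distrib]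

theorem pal_iff (v : List T) : v.reverse = v ↔ ∀ a b, a + b + 1 = v.length → v[a]? = v[b]? := by
  rw [List.ext_getElem?_iff]
  constructor
  · intro h a b hab
    have h1 := h b
    rw [List.getElem?_reverse (by omega)] at h1
    rw [← h1]
    congr 1
    omega
  · intro h n
    by_cases hn : n < v.length
    · rw [List.getElem?_reverse hn]
      exact h _ _ (by omega)
    · rw [List.getElem?_eq_none (by simp; omega), List.getElem?_eq_none (by omega)]

theorem LC_iff (u : List Bool) : u ∈ LC ↔ ∃ m : ℕ, m ≤ u.length ∧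
    (∀ q : ℕ × ℕ, q.1 + q.2 + 1 = m + 0 → u[q.1]? = u[q.2]?) ∧
    (∀ q : ℕ × ℕ, m + (q.1 + q.2) + 1 = u.length + 0 → u[m + q.1]? = u[m + q.2]?) := by
  constructor
  · rintro ⟨v, v', hv, hv', rfl⟩
    rw [pal_iff] at hv hv'
    refine ⟨v.length, by simp, ?_, ?_⟩
    · rintro ⟨a, b⟩ hab
      simp only at hab
      rw [List.getElem?_append_left (by omega), List.getElem?_append_left (by omega)]
      exact hv a b (by omega)
    · rintro ⟨a, b⟩ hab
      simp only [List.length_append] at hab
      rw [List.getElem?_append_right (by simp), List.getElem?_append_right (by simp)]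
      simp only [Nat.add_sub_cancel_left]
      exact hv' a b (by omega)
  · rintro ⟨m, hm, h1, h2⟩
    refine ⟨u.take m, u.drop m, ?_, ?_, (List.take_append_drop m u).symm⟩
    · rw [pal_iff]
      intro a b hab
      rw [List.length_take, min_eq_left hm] at hab
      rw [List.getElem?_take_of_lt (by omega), List.getElem?_take_of_lt (by omega)]
      exact h1 (a, b) (by simp only; omega)
    · rw [pal_iff]
      intro a b hab
      rw [List.length_drop] at hab
      rw [List.getElem?_drop, List.getElem?_drop]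
      exact h2 (a, b) (by simp only; omega)

theorem sl_LC (w : Fin k → List Bool) : IsSemilinearSet {x : Fin k → ℕ | bw w x ∈ LC} := by
  have h2 : {x : Fin k → ℕ | bw w x ∈ LC} = {x : Fin k → ℕ | ∃ m : ℕ, m ≤ (bw w x).length ∧
    (∀ q : ℕ × ℕ, q.1 + q.2 + 1 = m + 0 → (bw w x)[q.1]? = (bw w x)[q.2]?) ∧
    (∀ q : ℕ × ℕ, m + (q.1 + q.2) + 1 = (bw w x).length + 0 → (bw w x)[m + q.1]? = (bw w x)[m + q.2]?)} := by
    ext x
    exact LC_iff _
  rw [h2]
  refine sl_ex (sl_and (sl_le lin_snd ((lin_len w).comp lin_fst)) (sl_and (sl_all (sl_imp ?_ ?_)) (sl_all (sl_imp ?_ ?_))))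
  · exact sl_eq ((lin_fst.comp lin_snd).add (lin_snd.comp lin_snd)) (lin_snd.comp lin_fst) 1 0
  · exact sl_get_eq w (lin_fst.comp lin_fst) (lin_fst.comp lin_fst) (lin_fst.comp lin_snd) (lin_snd.comp lin_snd)
  · exact sl_eq ((lin_snd.comp lin_fst).add ((lin_fst.comp lin_snd).add (lin_snd.comp lin_snd)))
      ((lin_len w).comp (lin_fst.comp lin_fst)) 1 0
  · exact sl_get_eq w (lin_fst.comp lin_fst) (lin_fst.comp lin_fst) ((lin_snd.comp lin_fst).add (lin_fst.comp lin_snd))
      ((lin_snd.comp lin_fst).add (lin_snd.comp lin_snd))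

end

end Pool.Agent.Lib.IXB
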