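import Pool.Agent.Lib.IXB.Gram

/-!
# Semilinear sets are recognised in binary; the grammar of a semilinear set of exponents
-/

set_option autoImplicit false

namespace Pool.Agent.Lib.IXB

variable {k : ℕ}

theorem vl_nil : vl ([] : List (Fin k → Bool)) = fun _ => 0 := rfl

theorem vl_cons (d : Fin k → Bool) (σ : List (Fin k → Bool)) (i : Fin k) :
    vl (d :: σ) i = (d i).toNat + 2 * vl σ i := rfl

theorem vl_lt (σ : List (Fin k → Bool)) (i : Fin k) : vl σ i < 2 ^ σ.length := by
  induction σ with
  | nil => simp [vl_nil]
  | cons d σ ih =>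
    rw [vl_cons, List.length_cons, pow_succ]
    have := Bool.toNat_lt (d i)
    omega

/-- the carries of `v + A y` -/
def carry {n : ℕ} (A : Matrix (Fin k) (Fin n) ℕ) (B : ℕ) (v : Fin k → ℕ) : NFA (Fin k → Bool) (Fin k → Fin (B + 1)) where
  step c d := {c' | ∃ e : Fin n → Bool, ∀ i, (c i : ℕ) + ∑ j, A i j * (e j).toNat = (d i).toNat + 2 * (c' i : ℕ)}
  start := {c | ∀ i, (c i : ℕ) = v i}
  accept := {c | ∀ i, (c i : ℕ) = 0}

theorem carry_acc {n : ℕ} (A : Matrix (Fin k) (Fin n) ℕ) (B : ℕ) (v : Fin k → ℕ) (hB : ∀ i, ∑ j, A i j ≤ B)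
    (l : List (Fin k → Bool)) (c : Fin k → Fin (B + 1)) :
    l ∈ (carry A B v).acceptsFrom {c} ↔
      ∃ y : Fin n → ℕ, (∀ j, y j < 2 ^ l.length) ∧ ∀ i, (c i : ℕ) + ∑ j, A i j * y j = vl l i := by
  induction l generalizing c with
  | nil =>
    rw [NFA.nil_mem_acceptsFrom]
    constructor
    · rintro ⟨s, rfl, hs⟩
      refine ⟨fun _ => 0, by simp, fun i => ?_⟩
      simpa [vl_nil] using hs i
    · rintro ⟨y, hy, h⟩
      refine ⟨c, rfl, fun i => ?_⟩
      have h1 := h i
      rw [vl_nil] at h1
      simp only at h1
      omega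
  | cons d l ih =>
    rw [NFA.cons_mem_acceptsFrom, NFA.stepSet_singleton]
    have h0 : l ∈ (carry A B v).acceptsFrom ((carry A B v).step c d) ↔
        ∃ c' ∈ (carry A B v).step c d, l ∈ (carry A B v).acceptsFrom {c'} := by
      constructor
      · rintro ⟨s, hs, h⟩
        obtain ⟨t, ht, h1⟩ := NFA.mem_evalFrom_iff_exists.1 h
        exact ⟨t, ht, s, hs, h1⟩
      · rintro ⟨t, ht, s, hs, h1⟩
        exact ⟨s, hs, NFA.mem_evalFrom_iff_exists.2 ⟨t, ht, h1⟩⟩
    rw [h0]
    constructor
    · rintro ⟨c', ⟨e, he⟩, h⟩
      obtain ⟨y, hy, h2⟩ := (ih c').1 h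
      refine ⟨fun j => (e j).toNat + 2 * y j, fun j => ?_, fun i => ?_⟩
      · rw [List.length_cons, pow_succ]
        have := Bool.toNat_lt (e j)
        have := hy j
        simp only
        omega
      · have h3 : ∑ j, A i j * ((e j).toNat + 2 * y j) = ∑ j, A i j * (e j).toNat + 2 * ∑ j, A i j * y j := by
          rw [Finset.mul_sum, ← Finset.sum_add_distrib]
          exact Finset.sum_congr rfl fun j _ => by ring
        rw [h3, vl_cons, ← h2 i]
        have := he i
        omega
    · rintro ⟨y, hy, h⟩
      have h3 : ∀ i, ∑ j, A i j * y j = ∑ j, A i j * (decide (y j % 2 = 1)).toNat + 2 * ∑ j, A i j * (y j / 2) := by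
        intro i
        rw [Finset.mul_sum, ← Finset.sum_add_distrib]
        refine Finset.sum_congr rfl fun j _ => ?_
        have h4 : y j = (decide (y j % 2 = 1)).toNat + 2 * (y j / 2) := by
          by_cases h5 : y j % 2 = 1
          · simp only [h5, decide_true, Bool.toNat_true]
            omega
          · simp only [h5, decide_false, Bool.toNat_false]
            omega
        calc A i j * y j = A i j * ((decide (y j % 2 = 1)).toNat + 2 * (y j / 2)) := by rw [← h4]
          _ = _ := by ring
      have h6 : ∀ i, ∑ j, A i j * (decide (y j % 2 = 1)).toNat ≤ B := by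
        intro i
        refine le_trans (Finset.sum_le_sum fun j _ => ?_) (hB i)
        have := Bool.toNat_lt (decide (y j % 2 = 1))
        calc A i j * (decide (y j % 2 = 1)).toNat ≤ A i j * 1 := Nat.mul_le_mul_left _ (by omega)
          _ = A i j := mul_one _
      refine ⟨fun i => ⟨((c i : ℕ) + ∑ j, A i j * (decide (y j % 2 = 1)).toNat) / 2, ?_⟩,
        ⟨fun j => decide (y j % 2 = 1), fun i => ?_⟩, (ih _).2 ⟨fun j => y j / 2, fun j => ?_, fun i => ?_⟩⟩
      · have := (c i).2
        have := h6 i
        omega
      · have h7 := h i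
        rw [h3, vl_cons] at h7
        have := Bool.toNat_lt (d i)
        simp only
        omega
      · have h8 := hy j
        rw [List.length_cons, pow_succ] at h8
        simp only
        omega
      · have h7 := h i
        rw [h3, vl_cons] at h7
        have := Bool.toNat_lt (d i)
        simp only
        omega

/-- the expansions of the elements of `s`, least significant digit first -/
def LS (s : Set (Fin k → ℕ)) : Language (Fin k → Bool) := {l | vl l ∈ s}

theorem lin_reg {s : Set (Fin k → ℕ)} (hs : IsLinearSet s) : (LS s).IsRegular := by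
  obtain ⟨v, n, A, rfl⟩ := Nat.isLinearSet_iff_exists_matrix.1 hs
  set B : ℕ := ∑ i, (v i + ∑ j, A i j) with hB
  have hB1 : ∀ i, v i + ∑ j, A i j ≤ B := fun i =>
    Finset.single_le_sum (f := fun i => v i + ∑ j, A i j) (fun _ _ => Nat.zero_le _) (Finset.mem_univ i)
  have hB2 : ∀ i, ∑ j, A i j ≤ B := fun i => by
    have := hB1 i
    omega
  refine ⟨Set (Fin k → Fin (B + 1)), inferInstance, (carry A B v).toDFA, ?_⟩
  rw [NFA.toDFA_correct]
  ext l
  have h1 : l ∈ (carry A B v).accepts ↔ l ∈ (carry A B v).acceptsFrom {fun i => ⟨v i, by have := hB1 i; omega⟩} := by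
    have h2 : (carry A B v).start = {fun i => ⟨v i, by have := hB1 i; omega⟩} := by
      ext c
      simp only [carry, Set.mem_ofPred_eq, Set.mem_singleton_iff]
      constructor
      · intro h
        funext i
        exact Fin.ext (h i)
      · rintro rfl i
        rfl
    rw [← h2]
    exact Iff.rfl
  rw [h1, carry_acc A B v hB2]
  constructor
  · rintro ⟨y, -, h⟩
    refine ⟨y, ?_⟩
    funext i
    exact h i
  · rintro ⟨x, hx⟩
    refine ⟨fun j => if ∀ i, A i j = 0 then 0 else x j, fun j => ?_, fun i => ?_⟩
    · by_cases h : ∀ i, A i j = 0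
      · simp [h]
      · simp only [h, if_false]
        push Not at h
        obtain ⟨i, hi⟩ := h
        have h2 : v i + ∑ j, A i j * x j = vl l i := congrFun hx i
        have h3 : A i j * x j ≤ ∑ j, A i j * x j :=
          Finset.single_le_sum (f := fun j => A i j * x j) (fun _ _ => Nat.zero_le _) (Finset.mem_univ j)
        have h4 : x j ≤ A i j * x j := Nat.le_mul_of_pos_left _ (by omega)
        have := vl_lt l i
        omega
    · have h2 : v i + ∑ j, A i j * x j = vl l i := congrFun hx i
      rw [← h2]
      congr 1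
      refine Finset.sum_congr rfl fun j _ => ?_
      by_cases h : ∀ i, A i j = 0
      · simp [h]
      · simp [h]

theorem semi_reg {s : Set (Fin k → ℕ)} (hs : IsSemilinearSet s) : (LS s).IsRegular := by
  classical
  obtain ⟨S, hS, rfl⟩ := isSemilinearSet_iff.1 hs
  clear hs
  induction S using Finset.induction_on with
  | empty =>
    refine ⟨Unit, inferInstance, ⟨fun _ _ => (), (), ∅⟩, ?_⟩
    ext l
    constructor
    · intro h
      exact h.elim
    · rintro ⟨t, ht, -⟩
      simp at ht
  | insert t S _ ih =>
    have h1 := (lin_reg (hS t (Finset.mem_insert_self t S))).add (ih fun t ht => hS t (Finset.mem_insert_of_mem ht))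
    have h2 : LS (⋃₀ ((insert t S : Finset (Set (Fin k → ℕ))) : Set (Set (Fin k → ℕ)))) =
        LS t + LS (⋃₀ (S : Set (Set (Fin k → ℕ)))) := ?_
    · rw [h2]
      exact h1
    ext l
    rw [Language.mem_add]
    constructor
    · rintro ⟨t', ht', h⟩
      rcases Finset.mem_insert.1 (Finset.mem_coe.1 ht') with rfl | h2
      · exact Or.inl h
      · exact Or.inr ⟨t', h2, h⟩
    · rintro (h | ⟨t', h2, h⟩)
      · exact ⟨t, by simp, h⟩
      · exact ⟨t', by simp [Finset.mem_coe.1 h2], h⟩

/-- the canonical expansions: the most significant digit is not zero -/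
def Can (σ : List (Fin k → Bool)) : Prop := ∀ σ' d, σ = σ' ++ [d] → d ≠ fun _ => false

theorem Can.tail {d : Fin k → Bool} {σ : List (Fin k → Bool)} (h : Can (d :: σ)) : Can σ := by
  rintro σ' e rfl
  exact h (d :: σ') e rfl

theorem can_zero {σ : List (Fin k → Bool)} (h : Can σ) (h0 : vl σ = fun _ => 0) : σ = [] := by
  induction σ with
  | nil => rfl
  | cons d σ ih =>
    exfalso
    have h1 : ∀ i, (d i).toNat + 2 * vl σ i = 0 := fun i => by
      rw [← vl_cons, h0]
    have h2 : σ = [] := ih h.tail (funext fun i => by
      have := h1 i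
      omega)
    subst h2
    refine h [] d rfl (funext fun i => ?_)
    have := h1 i
    cases hd : d i with
    | false => rfl
    | true =>
      rw [hd, Bool.toNat_true] at this
      omega

theorem vl_inj {σ τ : List (Fin k → Bool)} (h : Can σ) (h' : Can τ) (he : vl σ = vl τ) : σ = τ := by
  induction σ generalizing τ with
  | nil => exact (can_zero h' he.symm).symm
  | cons d σ ih =>
    cases τ with
    | nil => exact can_zero h he
    | cons e τ =>
      have h1 : ∀ i, (d i).toNat + 2 * vl σ i = (e i).toNat + 2 * vl τ i := fun i => congrFun he i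
      have h2 : d = e := funext fun i => by
        have := h1 i
        cases hd : d i <;> cases hε : e i <;> simp only [hd, hε, Bool.toNat_true, Bool.toNat_false] at this <;>
          first | rfl | omega
      subst h2
      rw [ih h.tail h'.tail (funext fun i => by
        have := h1 i
        omega)]

theorem vl_surj (n : ℕ) : ∀ x : Fin k → ℕ, ∑ i, x i ≤ n → ∃ σ : List (Fin k → Bool), Can σ ∧ vl σ = x := by
  induction n with
  | zero =>
    intro x hx
    refine ⟨[], fun σ' d h => by simp at h, ?_⟩
    funext i
    have := Finset.single_le_sum (f := x) (fun _ _ => Nat.zero_le _) (Finset.mem_univ i)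
    rw [vl_nil]
    simp only
    omega
  | succ n ih =>
    intro x hx
    by_cases h0 : x = fun _ => 0
    · exact ⟨[], fun σ' d h => by simp at h, h0.symm⟩
    · have h1 : ∃ i, 0 < x i := by
        by_contra h
        push Not at h
        exact h0 (funext fun i => by
          have := h i
          omega)
      obtain ⟨i₀, hi₀⟩ := h1
      have h2 : ∑ i, x i / 2 < ∑ i, x i :=
        Finset.sum_lt_sum (fun i _ => by omega) ⟨i₀, Finset.mem_univ _, by omega⟩
      obtain ⟨σ, hc, hσ⟩ := ih (fun i => x i / 2) (by omega)
      refine ⟨(fun i => decide (x i % 2 = 1)) :: σ, ?_, ?_⟩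
      · intro σ' d h
        cases σ' with
        | nil =>
          simp only [List.nil_append, List.cons.injEq] at h
          obtain ⟨rfl, rfl⟩ := h
          intro h3
          apply h0
          funext i
          have h4 : x i / 2 = 0 := (congrFun hσ i).symm
          have h5 := congrFun h3 i
          simp only [decide_eq_false_iff_not] at h5
          omega
        | cons a σ' =>
          simp only [List.cons_append, List.cons.injEq] at h
          exact hc σ' d h.2
      · funext i
        rw [vl_cons, hσ]
        by_cases h5 : x i % 2 = 1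
        · simp only [h5, decide_true, Bool.toNat_true]
          omega
        · simp only [h5, decide_false, Bool.toNat_false]
          omega

/-- the automaton of the canonical expansions, most significant digit first -/
def canM (k : ℕ) : DFA (Fin k → Bool) (Option Bool) where
  step s d := match s with
    | none => some (decide (d ≠ fun _ => false))
    | some b => some b
  start := none
  accept := {none, some true}

theorem canM_some (b : Bool) (ρ : List (Fin k → Bool)) : (canM k).evalFrom (some b) ρ = some b := by
  induction ρ with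
  | nil => rfl
  | cons d ρ ih =>
    rw [DFA.evalFrom_cons]
    exact ih

theorem canM_acc (ρ : List (Fin k → Bool)) : ρ ∈ (canM k).accepts ↔ Can ρ.reverse := by
  cases ρ with
  | nil =>
    constructor
    · rintro - σ' d h
      simp at h
    · intro _
      exact Or.inl rfl
  | cons d ρ =>
    have h1 : (canM k).eval (d :: ρ) = some (decide (d ≠ fun _ => false)) := by
      unfold DFA.eval
      rw [DFA.evalFrom_cons]
      exact canM_some _ ρ
    rw [DFA.mem_accepts, h1]
    constructor
    · rintro (h | h)
      · simp at h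
      · intro σ' e h2
        rw [List.reverse_cons] at h2
        have h3 := List.append_inj_right' h2 rfl
        simp only [List.cons.injEq, and_true] at h3
        rw [← h3]
        have h4 : some (decide (d ≠ fun _ => false)) = some true := h
        simpa using h4
    · intro h
      have h2 := h ρ.reverse d (by simp)
      right
      show some (decide (d ≠ fun _ => false)) = some true
      simp [h2]

/-- bounded languages with a semilinear set of exponents, one exponent vector for every word -/
theorem semi_gram {T : Type} [NeZero k] (w : Fin k → List T) {S : Set (Fin k → ℕ)} (hS : IsSemilinearSet S)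
    (hinj : Set.InjOn (bw w) S) : ∃ G : IG T, G.Unambiguous ∧ G.lang = bw w '' S := by
  have h1 : Language.IsRegular ({ρ | Can ρ.reverse ∧ vl ρ.reverse ∈ S} : Language (Fin k → Bool)) := by
    have h2 : ((canM k).accepts).IsRegular := ⟨_, inferInstance, canM k, rfl⟩
    have h3 := h2.inf (semi_reg hS).reverse
    have h4 : ({ρ | Can ρ.reverse ∧ vl ρ.reverse ∈ S} : Language (Fin k → Bool)) =
        (canM k).accepts ⊓ (LS S).reverse := by
      ext ρ
      constructor
      · rintro ⟨h1, h2⟩
        exact ⟨(canM_acc ρ).2 h1, h2⟩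
      · rintro ⟨h1, h2⟩
        exact ⟨(canM_acc ρ).1 h1, h2⟩
    rw [h4]
    exact h3
  obtain ⟨Q, _, M, hM⟩ := h1
  have hmem : ∀ ρ, ρ ∈ M.accepts ↔ Can ρ.reverse ∧ vl ρ.reverse ∈ S := fun ρ => by
    rw [hM]
    exact Iff.rfl
  obtain ⟨h2, h3⟩ := gr_main M w (fun ρ hρ ρ' hρ' h => by
    obtain ⟨c, s⟩ := (hmem ρ).1 hρ
    obtain ⟨c', s'⟩ := (hmem ρ').1 hρ'
    exact List.reverse_injective (vl_inj c c' (hinj s s' h)))
  refine ⟨gr M w, h2, ?_⟩
  rw [h3]
  ext u
  constructor
  · rintro ⟨ρ, hρ, rfl⟩
    exact ⟨_, ((hmem ρ).1 hρ).2, rfl⟩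
  · rintro ⟨x, hx, rfl⟩
    obtain ⟨σ, hc, rfl⟩ := vl_surj _ x le_rfl
    exact ⟨σ.reverse, (hmem _).2 (by rw [List.reverse_reverse]; exact ⟨hc, hx⟩), by rw [List.reverse_reverse]⟩

end Pool.Agent.Lib.IXB
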