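import Pool.Agent.Lib.IXB.Dich2

/-!
# The unambiguous parts of the palindrome-pair language cut out by noncounting regular languages
-/

set_option autoImplicit false

namespace Pool.Agent.Lib.IXB

/-- some unambiguous indexed grammar generates `L` -/
def UnIx (L : Set (List Bool)) : Prop := ∃ G : IG Bool, G.Unambiguous ∧ G.lang = L

/-- the words of `L_C ∩ R` with infinitely many powers in `R` have polynomial growth -/
def FewPow (R : Language Bool) : Prop := ∃ C d : ℕ, ∀ n : ℕ, {u : List Bool | u ∈ LC ∧ u ∈ R ∧
  {k : ℕ | (List.replicate k u).flatten ∈ R}.Infinite ∧ u.length = n}.ncard ≤ C * (n + 1) ^ d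

/-- languages with period `j` -/
def Period (R : Language Bool) (j : ℕ) : Prop := ∃ n : ℕ, ∀ x z y : List Bool,
  x ++ (List.replicate n z).flatten ++ y ∈ R ↔ x ++ (List.replicate (n + j) z).flatten ++ y ∈ R

namespace Flag

theorem recog {R : Language Bool} (hR : R.IsRegular) : ∃ (S : Type) (_ : Monoid S) (_ : Finite S) (g : Bool → S) (P : S → Prop),
    ∀ u : List Bool, u ∈ R ↔ P (ev g u) := by
  obtain ⟨Q, _, M, rfl⟩ := hR
  let g : Bool → (Function.End Q)ᵐᵒᵖ := fun c => MulOpposite.op (fun q => M.step q c)
  have h1 : ∀ (u : List Bool) (q : Q), M.evalFrom q u = (ev g u).unop q := by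
    intro u
    induction u with
    | nil => intro q; rfl
    | cons c u ih =>
      intro q
      have h2 : M.evalFrom q (c :: u) = M.evalFrom (M.step q c) u := rfl
      rw [h2, ih, ev_cons]
      rfl
  have : Finite (Function.End Q)ᵐᵒᵖ := by
    have h3 : Finite (Q → Q) := inferInstance
    exact Finite.of_equiv (Q → Q) (MulOpposite.opEquiv (α := Function.End Q))
  refine ⟨(Function.End Q)ᵐᵒᵖ, inferInstance, this, g, fun s => s.unop M.start ∈ M.accept, fun u => ?_⟩
  show M.evalFrom M.start u ∈ M.accept ↔ _
  rw [h1]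

theorem few_iff {R : Language Bool} {S : Type} [Monoid S] {g : Bool → S} {P : S → Prop} (h : ∀ u : List Bool, u ∈ R ↔ P (ev g u)) :
    FewPow R ↔ Pg {u : List Bool | u ∈ LC ∧ P (ev g u) ∧ {k : ℕ | P (ev g u ^ k)}.Infinite} := by
  have h1 : ∀ n : ℕ, {u : List Bool | u ∈ LC ∧ u ∈ R ∧ {k : ℕ | (List.replicate k u).flatten ∈ R}.Infinite ∧ u.length = n} =
      {u : List Bool | u ∈ {u : List Bool | u ∈ LC ∧ P (ev g u) ∧ {k : ℕ | P (ev g u ^ k)}.Infinite} ∧ u.length = n} := by
    intro n
    ext u
    have h5 : {k : ℕ | (List.replicate k u).flatten ∈ R} = {k : ℕ | P (ev g u ^ k)} := by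
      ext k
      have h6 := h (List.replicate k u).flatten
      rw [ev_rep] at h6
      exact h6
    show (_ ∧ _ ∧ _ ∧ _) ↔ ((_ ∧ _ ∧ _) ∧ _)
    rw [h5, h]
    tauto
  unfold FewPow Pg
  simp only [h1]

theorem dich {R : Language Bool} (hR : R.IsRegular) {j : ℕ} (hj : 1 ≤ j) (hN : Period R j)
    (hU : UnIx {u : List Bool | u ∈ LC ∧ u ∈ R}) :
    FewPow R ∨ UnIx {w : List Bool | w ∈ LC ∧ ∃ k : ℕ, w.length = k * j + 1} := by
  by_cases hF : FewPow R
  · exact Or.inl hF
  · right
    obtain ⟨S, _, _, g, P, h⟩ := recog hR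
    rw [few_iff h] at hF
    obtain ⟨N, hN⟩ := hN
    refine rec_star g P (N := N) hj (by
      rintro s m hm ⟨u, rfl⟩
      obtain ⟨q, rfl⟩ := Nat.exists_eq_add_of_le hm
      have h2 : ∀ t : ℕ, P (ev g u ^ t) ↔ (List.replicate t u).flatten ∈ R := by
        intro t
        rw [h, ev_rep]
      have h3 := hN [] u (List.replicate q u).flatten
      have e1 : ([] : List Bool) ++ (List.replicate N u).flatten ++ (List.replicate q u).flatten = (List.replicate (N + q) u).flatten := by
        rw [List.nil_append, ← List.flatten_append, ← List.replicate_add]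
      have e2 : ([] : List Bool) ++ (List.replicate (N + j) u).flatten ++ (List.replicate q u).flatten =
          (List.replicate (N + q + j) u).flatten := by
        rw [List.nil_append, ← List.flatten_append, ← List.replicate_add]
        congr 2
        omega
      rw [e1, e2, ← h2, ← h2] at h3
      exact h3) hF (un_congr hU (by
      ext u
      show (_ ∧ _) ↔ (_ ∧ _)
      rw [h]))

theorem star {R : Language Bool} (hR : R.IsRegular) (hN : Period R 1) :
    UnIx {u : List Bool | u ∈ LC ∧ u ∈ R} ↔ (FewPow R ∨ UnIx LC) := by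
  constructor
  · intro hU
    rcases dich hR le_rfl hN hU with hF | h1
    · exact Or.inl hF
    · right
      refine un_congr (Un_union h1 Un_nil ?_) ?_
      · rw [Set.disjoint_left]
        rintro w ⟨-, k, hk⟩ hw
        have hw' : w = [] := hw
        rw [hw', List.length_nil] at hk
        omega
      · ext w
        constructor
        · rintro (⟨h2, -⟩ | h2)
          · exact h2
          · have hw' : w = [] := h2
            rw [hw']
            exact ⟨[], [], rfl, rfl, rfl⟩
        · intro hw
          cases w with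
          | nil => exact Or.inr rfl
          | cons c w => exact Or.inl ⟨hw, w.length, by rw [List.length_cons, Nat.mul_one]⟩
  · rintro (hF | hU)
    · obtain ⟨C, d, hF⟩ := hF
      exact pow_main R hR hF
    · exact Trans.un_inter hU hR

end Flag

end Pool.Agent.Lib.IXB
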