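import Pool.Agent.Lib.IXB.An

/-!
# Unambiguous indexed languages under injective sequential transductions
-/

set_option autoImplicit false

namespace Pool.Agent.Lib.IXB.Trans

section
variable {T T' Q V I : Type} (dl : Q → T → Q) (ou : Q → T → List T')

/-- annotated variables -/
def n1 (p : Q) (A : V) (r : Q) : Option (Q × V × Q) := some (p, A, r)

/-- annotated variables with their stacks -/
def n2 (p : Q) (X : V × List I) (r : Q) : Option (Q × V × Q) × List I := (some (p, X.1, r), X.2)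

theorem att_ou (σ : List I) (w : List T') (β : List (Option (Q × V × Q) ⊕ T')) :
    att σ (w.map Sum.inr ++ β) = w.map Sum.inr ++ att σ β := by
  unfold att
  rw [List.map_append, List.map_map]
  rfl

variable {dl ou}

theorem an_att {p : Q} {α : List (V ⊕ T)} {ts : List Q} {q : Q} {β : List (Option (Q × V × Q) ⊕ T')} (σ : List I)
    (h : An dl ou n1 p α ts q β) : An dl ou n2 p (att σ α) ts q (att σ β) := by
  induction h with
  | nil p => exact .nil p
  | term _ ih =>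
    rw [att_ou]
    exact .term ih
  | @var p r A α ts q β _ ih =>
    show An dl ou n2 p (Sum.inl (A, σ) :: att σ α) (r :: ts) q (Sum.inl (n2 p (A, σ) r) :: att σ β)
    exact .var ih

theorem an_att_inv {p : Q} {α : List (V ⊕ T)} {ts : List Q} {q : Q} {σ : List I} {Z : Form (Option (Q × V × Q)) I T'}
    (h : An dl ou n2 p (att σ α) ts q Z) : ∃ β, Z = att σ β ∧ An dl ou n1 p α ts q β := by
  induction α generalizing p ts Z with
  | nil =>
    cases h
    exact ⟨[], rfl, .nil _⟩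
  | cons a α ih =>
    cases a with
    | inl A =>
      have h' : An dl ou n2 p (Sum.inl (A, σ) :: att σ α) ts q Z := h
      cases h' with
      | @var _ r _ _ ts _ β h' =>
        obtain ⟨β, rfl, h1⟩ := ih h'
        exact ⟨Sum.inl (n1 _ A r) :: β, rfl, .var h1⟩
    | inr t =>
      have h' : An dl ou n2 p (Sum.inr t :: att σ α) ts q Z := h
      cases h' with
      | term h' =>
        obtain ⟨β, rfl, h1⟩ := ih h'
        exact ⟨_, (att_ou σ _ β).symm, .term h1⟩

variable (dl ou)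

/-- annotated productions -/
inductive Rr : Q → List Q → Q → Rule V I T → Rule (Option (Q × V × Q)) I T' → Prop
  | rw {r : Q} {ts : List Q} {r' : Q} (A : V) {α : List (V ⊕ T)} {β : List (Option (Q × V × Q) ⊕ T')} :
      An dl ou n1 r α ts r' β → Rr r ts r' (.rw A α) (.rw (some (r, A, r')) β)
  | push (r r' : Q) (A B : V) (f : I) : Rr r [r'] r' (.push A B f) (.push (some (r, A, r')) (some (r, B, r')) f)
  | pop {r : Q} {ts : List Q} {r' : Q} (A : V) (f : I) {α : List (V ⊕ T)} {β : List (Option (Q × V × Q) ⊕ T')} :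
      An dl ou n1 r α ts r' β → Rr r ts r' (.pop A f α) (.pop (some (r, A, r')) f β)

variable {dl ou}

theorem Rr.fn {r : Q} {ts : List Q} {r₁ r₂ : Q} {ρ : Rule V I T} {ρ₁ ρ₂ : Rule (Option (Q × V × Q)) I T'}
    (h₁ : Rr dl ou r ts r₁ ρ ρ₁) (h₂ : Rr dl ou r ts r₂ ρ ρ₂) : r₁ = r₂ ∧ ρ₁ = ρ₂ := by
  cases h₁ with
  | rw A h₁ =>
    cases h₂ with
    | rw _ h₂ =>
      obtain ⟨rfl, rfl⟩ := h₁.fn h₂
      exact ⟨rfl, rfl⟩
  | push r' A B f =>
    cases h₂
    exact ⟨rfl, rfl⟩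
  | pop A f h₁ =>
    cases h₂ with
    | pop _ _ h₂ =>
      obtain ⟨rfl, rfl⟩ := h₁.fn h₂
      exact ⟨rfl, rfl⟩

/-- the length of the right-hand side -/
def rl : Rule V I T → ℕ
  | .rw _ α => α.length
  | .push _ _ _ => 1
  | .pop _ _ α => α.length

theorem Rr.len {r : Q} {ts : List Q} {r' : Q} {ρ : Rule V I T} {ρ' : Rule (Option (Q × V × Q)) I T'}
    (h : Rr dl ou r ts r' ρ ρ') : ts.length = rl ρ := by
  cases h with
  | rw A h => exact h.len
  | push => rfl
  | pop A f h => exact h.len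

theorem act_len {ρ : Rule V I T} {X : V × List I} {Z : Form V I T} (h : Act ρ X Z) : Z.length = rl ρ := by
  cases h with
  | rw A α σ => exact List.length_map _
  | push => rfl
  | pop A f α σ => exact List.length_map _

theorem act_fn {ρ : Rule V I T} {X : V × List I} {Z Z' : Form V I T} (h : Act ρ X Z) (h' : Act ρ X Z') : Z = Z' := by
  cases h with
  | rw A α σ =>
    cases h'
    rfl
  | push =>
    cases h'
    rfl
  | pop A f α σ =>
    cases h'
    rfl

/-- an annotated production acts on an annotated variable -/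
theorem Rr.act {r : Q} {ts : List Q} {r' : Q} {ρ : Rule V I T} {X : V × List I} {Z : Form V I T}
    {Z' : Form (Option (Q × V × Q)) I T'} (h : Act ρ X Z) (hZ : An dl ou n2 r Z ts r' Z') :
    ∃ ρ', Rr dl ou r ts r' ρ ρ' ∧ Act ρ' (n2 r X r') Z' := by
  cases h with
  | rw A α σ =>
    obtain ⟨β, rfl, h1⟩ := an_att_inv hZ
    exact ⟨_, .rw A h1, .rw _ _ _⟩
  | push A B f σ =>
    cases hZ with
    | var hZ =>
      cases hZ
      exact ⟨_, .push _ _ A B f, .push _ _ _ _⟩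
  | pop A f α σ =>
    obtain ⟨β, rfl, h1⟩ := an_att_inv hZ
    exact ⟨_, .pop A f h1, .pop _ _ _ _⟩

theorem Rr.act_inv {r₀ : Q} {ts : List Q} {r₀' : Q} {ρ : Rule V I T} {ρ' : Rule (Option (Q × V × Q)) I T'}
    (h : Rr dl ou r₀ ts r₀' ρ ρ') {r r' : Q} {X : V × List I} {Z' : Form (Option (Q × V × Q)) I T'}
    (ha : Act ρ' (n2 r X r') Z') : r₀ = r ∧ r₀' = r' ∧ ∃ Z, Act ρ X Z ∧ An dl ou n2 r Z ts r' Z' := by
  obtain ⟨A', σ'⟩ := X
  cases h with
  | rw A h1 =>
    cases ha with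
    | rw _ _ _ => exact ⟨rfl, rfl, _, .rw _ _ _, an_att _ h1⟩
  | push _ A B f =>
    cases ha with
    | push _ _ _ _ => exact ⟨rfl, rfl, _, .push _ _ _ _, .var (.nil _)⟩
  | pop A f h1 =>
    cases ha with
    | pop _ _ _ _ => exact ⟨rfl, rfl, _, .pop _ _ _ _, an_att _ h1⟩

end

section
variable {T T' Q : Type} [Finite Q] (dl : Q → T → Q) (ou : Q → T → List T') (q₀ : Q) (Fi : Set Q) (G : IG T)

theorem rules_fin : {ρ' : Rule (Option (Q × G.V × Q)) G.I T' | (∃ f ∈ Fi, ρ' = .rw none [Sum.inl (some (q₀, G.start, f))]) ∨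
    ∃ ρ ∈ G.rules, ∃ r ts r', Rr dl ou r ts r' ρ ρ'}.Finite := by
  have h1 : {ρ' : Rule (Option (Q × G.V × Q)) G.I T' | ∃ f ∈ Fi, ρ' = .rw none [Sum.inl (some (q₀, G.start, f))]}.Finite := by
    have h2 : {ρ' : Rule (Option (Q × G.V × Q)) G.I T' | ∃ f ∈ Fi, ρ' = .rw none [Sum.inl (some (q₀, G.start, f))]} ⊆
      Set.range fun f : Q => (.rw none [Sum.inl (some (q₀, G.start, f))] : Rule (Option (Q × G.V × Q)) G.I T') := by
      rintro ρ' ⟨f, -, rfl⟩
      exact ⟨f, rfl⟩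
    exact (Set.finite_range _).subset h2
  have h3 : {ρ' : Rule (Option (Q × G.V × Q)) G.I T' | ∃ ρ ∈ G.rules, ∃ r ts r', Rr dl ou r ts r' ρ ρ'}.Finite := by
    have h4 : {ρ' : Rule (Option (Q × G.V × Q)) G.I T' | ∃ ρ ∈ G.rules, ∃ r ts r', Rr dl ou r ts r' ρ ρ'} ⊆
      ⋃ ρ ∈ G.rules, ⋃ r ∈ (Set.univ : Set Q), ⋃ ts ∈ {ts : List Q | ts.length = rl ρ}, {ρ' | ∃ r', Rr dl ou r ts r' ρ ρ'} := by
      rintro ρ' ⟨ρ, hρ, r, ts, r', h⟩
      simp only [Set.mem_iUnion]
      exact ⟨ρ, hρ, r, trivial, ts, h.len, r', h⟩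
    refine Set.Finite.subset (Set.Finite.biUnion G.finR fun ρ _ => Set.Finite.biUnion Set.finite_univ fun r _ =>
      Set.Finite.biUnion (List.finite_length_eq Q (rl ρ)) fun ts _ => Set.Subsingleton.finite ?_) h4
    rintro ρ₁ ⟨r₁, h₁⟩ ρ₂ ⟨r₂, h₂⟩
    exact (h₁.fn h₂).2
  exact h1.union h3

/-- the grammar of the transduction -/
abbrev tg : IG T' where
  V := Option (Q × G.V × Q)
  I := G.I
  finV := by
    have := G.finV
    infer_instance
  finI := G.finI
  start := none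
  rules := {ρ' | (∃ f ∈ Fi, ρ' = .rw none [Sum.inl (some (q₀, G.start, f))]) ∨ ∃ ρ ∈ G.rules, ∃ r ts r', Rr dl ou r ts r' ρ ρ'}
  finR := rules_fin dl ou q₀ Fi G

end

end Pool.Agent.Lib.IXB.Trans
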