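import Pool.Agent.Lib.IXB.Trans

/-!
# The language of the grammar of a transduction, and its leftmost derivations
-/

set_option autoImplicit false

namespace Pool.Agent.Lib.IXB.Trans

section
variable {T T' Q : Type} [Finite Q] {dl : Q → T → Q} {ou : Q → T → List T'} {q₀ : Q} {Fi : Set Q} {G : IG T}

/-- an annotated production applied to an annotated variable -/
theorem rule_inv {ρ' : Rule (tg dl ou q₀ Fi G).V (tg dl ou q₀ Fi G).I T'} (hρ : ρ' ∈ (tg dl ou q₀ Fi G).rules) {r r' : Q}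
    {X : G.V × List G.I} {Z' : Form (tg dl ou q₀ Fi G).V (tg dl ou q₀ Fi G).I T'} (ha : Act ρ' (n2 r X r') Z') :
    ∃ ρ ∈ G.rules, ∃ ts Z, Rr dl ou r ts r' ρ ρ' ∧ Act ρ X Z ∧ An dl ou n2 r Z ts r' Z' := by
  rcases hρ with ⟨f, -, rfl⟩ | ⟨ρ, hρ, r₀, ts, r₀', h⟩
  · have h1 := Union.act_lhs ha
    exact (Option.some_ne_none _ h1).elim
  · obtain ⟨rfl, rfl, Z, h1, h2⟩ := h.act_inv ha
    exact ⟨ρ, hρ, ts, Z, h, h1, h2⟩

theorem sim_step {p q : Q} {F : Form G.V G.I T} {ts : List Q} {F' E' : Form (tg dl ou q₀ Fi G).V (tg dl ou q₀ Fi G).I T'}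
    (hs : (tg dl ou q₀ Fi G).Step F' E') (h : An dl ou n2 p F ts q F') : ∃ E ts', G.Step F E ∧ An dl ou n2 p E ts' q E' := by
  obtain ⟨ρ', hρ', x', y', X', Z', rfl, ha, rfl⟩ := hs
  obtain ⟨x, X, y, ts₁, ts₂, r, r', rfl, rfl, h1, rfl, h2⟩ := h.cut rfl
  obtain ⟨ρ, hρ, tz, Z, -, h3, h4⟩ := rule_inv hρ' ha
  exact ⟨_, _, ⟨ρ, hρ, x, y, X, Z, rfl, h3, rfl⟩, h1.app (h4.app h2)⟩

theorem inr_inj {W : Type} {w w' : List T'} (h : w.map (Sum.inr : T' → W ⊕ T') = w'.map Sum.inr) : w = w' :=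
  List.map_injective_iff.2 Sum.inr_injective h

theorem sim_der {p q : Q} {F : Form G.V G.I T} {ts : List Q} {F' E' : Form (tg dl ou q₀ Fi G).V (tg dl ou q₀ Fi G).I T'}
    (hs : Relation.ReflTransGen (tg dl ou q₀ Fi G).Step F' E') (h : An dl ou n2 p F ts q F') :
    ∃ E ts', Relation.ReflTransGen G.Step F E ∧ An dl ou n2 p E ts' q E' := by
  induction hs with
  | refl => exact ⟨F, ts, .refl, h⟩
  | tail _ h1 ih =>
    obtain ⟨E, ts', h2, h3⟩ := ih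
    obtain ⟨E₂, ts₂, h4, h5⟩ := sim_step h1 h3
    exact ⟨E₂, ts₂, h2.tail h4, h5⟩

theorem sim_word {p q : Q} {F : Form G.V G.I T} {ts : List Q} {F' : Form (tg dl ou q₀ Fi G).V (tg dl ou q₀ Fi G).I T'}
    {w : List T'} (hs : Relation.ReflTransGen (tg dl ou q₀ Fi G).Step F' (w.map Sum.inr)) (h : An dl ou n2 p F ts q F') :
    ∃ u : List T, Relation.ReflTransGen G.Step F (u.map Sum.inr) ∧ ds dl p u = q ∧ os dl ou p u = w := by
  obtain ⟨E, ts', h1, h2⟩ := sim_der hs h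
  obtain ⟨u, rfl⟩ := h2.term_inv rfl
  obtain ⟨-, rfl, h3⟩ := h2.word_inv
  exact ⟨u, h1, rfl, (inr_inj h3).symm⟩

variable (dl ou q₀ Fi G) in
/-- leftmost derivations of both grammars side by side -/
inductive TD (p : Q) (u : List T) : List (Rule G.V G.I T) → List (Rule (tg dl ou q₀ Fi G).V (tg dl ou q₀ Fi G).I T') →
    Form G.V G.I T → List Q → Prop
  | nil {F : Form G.V G.I T} {ts : List Q} : F = u.map Sum.inr → ts = tr dl p u → TD p u [] [] F ts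
  | cons {ρ : Rule G.V G.I T} {ρ' : Rule (tg dl ou q₀ Fi G).V (tg dl ou q₀ Fi G).I T'} {l : List (Rule G.V G.I T)}
      {l' : List (Rule (tg dl ou q₀ Fi G).V (tg dl ou q₀ Fi G).I T')} {F : Form G.V G.I T} {ts : List Q} (v : List T)
      (X : G.V × List G.I) (y Z : Form G.V G.I T) (tz ty : List Q) (r' : Q) :
      F = v.map Sum.inr ++ Sum.inl X :: y → ts = tr dl p v ++ r' :: ty → Act ρ X Z → Rr dl ou (ds dl p v) tz r' ρ ρ' →
      TD p u l l' (v.map Sum.inr ++ (Z ++ y)) (tr dl p v ++ (tz ++ ty)) → TD p u (ρ :: l) (ρ' :: l') F ts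

theorem TD.fn {p : Q} {u : List T} {l : List (Rule G.V G.I T)}
    {l₁ l₂ : List (Rule (tg dl ou q₀ Fi G).V (tg dl ou q₀ Fi G).I T')} {F : Form G.V G.I T} {ts₁ ts₂ : List Q}
    (h₁ : TD dl ou q₀ Fi G p u l l₁ F ts₁) (h₂ : TD dl ou q₀ Fi G p u l l₂ F ts₂) : l₁ = l₂ ∧ ts₁ = ts₂ := by
  induction h₁ generalizing l₂ ts₂ with
  | nil hF hts =>
    cases h₂ with
    | nil _ hts₂ => exact ⟨rfl, by rw [hts, hts₂]⟩
  | cons v X y Z tz ty r' hF hts ha hR _ ih =>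
    cases h₂ with
    | cons v₂ X₂ y₂ Z₂ tz₂ ty₂ r₂ hF₂ hts₂ ha₂ hR₂ h₂ =>
      obtain ⟨rfl, rfl, rfl⟩ := left_unique (hF.symm.trans hF₂)
      obtain rfl := act_fn ha ha₂
      obtain ⟨rfl, h3⟩ := ih h₂
      obtain ⟨rfl, rfl⟩ := List.append_inj (List.append_cancel_left h3) (hR.len.trans hR₂.len.symm)
      obtain ⟨rfl, rfl⟩ := hR.fn hR₂
      exact ⟨rfl, by rw [hts, hts₂]⟩

theorem sim_lder {p : Q} {w : List T'} {l' : List (Rule (tg dl ou q₀ Fi G).V (tg dl ou q₀ Fi G).I T')}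
    {F' W : Form (tg dl ou q₀ Fi G).V (tg dl ou q₀ Fi G).I T'} (hs : (tg dl ou q₀ Fi G).LDer l' F' W) (hW : W = w.map Sum.inr)
    {F : Form G.V G.I T} {ts : List Q} {q : Q} (h : An dl ou n2 p F ts q F') :
    ∃ (l : List (Rule G.V G.I T)) (u : List T), G.LDer l F (u.map Sum.inr) ∧ TD dl ou q₀ Fi G p u l l' F ts ∧
      ds dl p u = q ∧ os dl ou p u = w := by
  induction hs generalizing F ts q with
  | nil F' =>
    subst hW
    obtain ⟨u, rfl⟩ := h.term_inv rfl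
    obtain ⟨h1, rfl, h3⟩ := h.word_inv
    exact ⟨[], u, .nil _, .nil rfl h1, rfl, (inr_inj h3).symm⟩
  | cons h1 _ ih =>
    obtain ⟨hρ', v', y', X', Z', rfl, ha, rfl⟩ := h1
    obtain ⟨x, X, y, ts₁, ts₂, r, r', rfl, rfl, h2, rfl, h3⟩ := h.cut rfl
    obtain ⟨v, rfl⟩ := h2.term_inv rfl
    obtain ⟨rfl, rfl, -⟩ := h2.word_inv
    obtain ⟨ρ, hρ, tz, Z, h4, h5, h6⟩ := rule_inv hρ' ha
    obtain ⟨l, u, h7, h8, h9, h10⟩ := ih hW (h2.app (h6.app h3))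
    exact ⟨ρ :: l, u, .cons ⟨hρ, v, y, X, Z, rfl, h5, rfl⟩ h7, .cons v X y Z tz ts₂ r' rfl rfl h5 h4 h8, h9, h10⟩

theorem lift_lder {u : List T} {l : List (Rule G.V G.I T)} {F U : Form G.V G.I T} (hs : G.LDer l F U)
    (hU : U = u.map Sum.inr) (p : Q) :
    ∃ (ts : List Q) (F' : Form (tg dl ou q₀ Fi G).V (tg dl ou q₀ Fi G).I T')
      (l' : List (Rule (tg dl ou q₀ Fi G).V (tg dl ou q₀ Fi G).I T')), An dl ou n2 p F ts (ds dl p u) F' ∧
      (tg dl ou q₀ Fi G).LDer l' F' ((os dl ou p u).map Sum.inr) := by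
  induction hs with
  | nil F =>
    subst hU
    exact ⟨_, _, [], An.word p u, .nil _⟩
  | cons h1 _ ih =>
    obtain ⟨hρ, v, y, X, Z, rfl, ha, rfl⟩ := h1
    obtain ⟨ts, E', l', h2, h3⟩ := ih hU
    obtain ⟨ts₁, ts₂, r₁, β₁, β₂, rfl, rfl, h4, h5⟩ := h2.split
    obtain ⟨tz, ty, r₂, Z', y', rfl, rfl, h6, h7⟩ := h5.split
    obtain ⟨ρ', h8, h9⟩ := Rr.act ha h6
    obtain ⟨-, -, h10⟩ := h4.word_inv
    refine ⟨ts₁ ++ r₂ :: ty, β₁ ++ Sum.inl (n2 r₁ X r₂) :: y', ρ' :: l', h4.app (.var h7), .cons ⟨?_, ?_⟩ h3⟩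
    · exact Or.inr ⟨_, hρ, _, _, _, h8⟩
    · exact ⟨_, y', _, Z', by rw [h10], h9, by rw [h10]⟩

theorem start_inv {ρ' : Rule (tg dl ou q₀ Fi G).V (tg dl ou q₀ Fi G).I T'} (hρ : ρ' ∈ (tg dl ou q₀ Fi G).rules)
    {Z' : Form (tg dl ou q₀ Fi G).V (tg dl ou q₀ Fi G).I T'} (ha : Act ρ' ((tg dl ou q₀ Fi G).start, []) Z') :
    ∃ f ∈ Fi, ρ' = .rw none [Sum.inl (some (q₀, G.start, f))] ∧ Z' = [Sum.inl (n2 q₀ (G.start, []) f)] := by
  rcases hρ with ⟨f, hf, rfl⟩ | ⟨ρ, hρ, r₀, ts, r₀', h⟩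
  · generalize hX : (((tg dl ou q₀ Fi G).start, []) : (tg dl ou q₀ Fi G).V × List (tg dl ou q₀ Fi G).I) = X at ha
    cases ha with
    | rw A α σ =>
      obtain ⟨-, rfl⟩ := Prod.mk.inj hX
      exact ⟨f, hf, rfl, rfl⟩
  · have h1 := Union.act_lhs ha
    cases h with
    | rw A h => exact (Option.some_ne_none _ h1.symm).elim
    | push _ A B f => exact (Option.some_ne_none _ h1.symm).elim
    | pop A f h => exact (Option.some_ne_none _ h1.symm).elim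

theorem single_cut {W S' : Type} {X X' : W} {x y : List (W ⊕ S')} (h : [Sum.inl X] = x ++ Sum.inl X' :: y) :
    x = [] ∧ X = X' ∧ y = [] := by
  cases x with
  | nil => simpa using h
  | cons a x => simp at h

/-- unambiguous indexed languages are closed under sequential transductions which are injective on them -/
theorem tg_main (hG : G.Unambiguous) (hi : ∀ u ∈ G.lang, ∀ u' ∈ G.lang, ds dl q₀ u ∈ Fi → ds dl q₀ u' ∈ Fi →
    os dl ou q₀ u = os dl ou q₀ u' → u = u') : (tg dl ou q₀ Fi G).Unambiguous ∧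
      (tg dl ou q₀ Fi G).lang = {w | ∃ u ∈ G.lang, ds dl q₀ u ∈ Fi ∧ w = os dl ou q₀ u} := by
  have hA : ∀ f : Q, An dl ou n2 q₀ [Sum.inl (G.start, [])] [f] f [Sum.inl (n2 q₀ (G.start, ([] : List G.I)) f)] :=
    fun f => .var (.nil f)
  have h1 : ∀ w ∈ (tg dl ou q₀ Fi G).lang, ∃ u ∈ G.lang, ds dl q₀ u ∈ Fi ∧ w = os dl ou q₀ u := by
    intro w hw
    rcases Relation.ReflTransGen.cases_head hw with h | ⟨E', ⟨ρ', hρ', x', y', X', Z', h2, ha, rfl⟩, h3⟩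
    · cases w with
      | nil => simp at h
      | cons t w => simp at h
    · obtain ⟨rfl, rfl, rfl⟩ := single_cut h2
      obtain ⟨f, hf, -, rfl⟩ := start_inv hρ' ha
      obtain ⟨u, h4, rfl, rfl⟩ := sim_word h3 (hA f)
      exact ⟨u, h4, hf, rfl⟩
  have h2 : ∀ u ∈ G.lang, ds dl q₀ u ∈ Fi → ∃ l, (tg dl ou q₀ Fi G).LDer l [Sum.inl ((tg dl ou q₀ Fi G).start, [])]
      ((os dl ou q₀ u).map Sum.inr) := by
    intro u hu hf
    obtain ⟨l, hl, -⟩ := hG u hu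
    obtain ⟨ts, F', l', h3, h4⟩ := lift_lder (dl := dl) (ou := ou) (q₀ := q₀) (Fi := Fi) hl rfl q₀
    cases h3 with
    | var h3 =>
      cases h3
      refine ⟨_ :: l', .cons ⟨Or.inl ⟨_, hf, rfl⟩, [], [], _, _, rfl, .rw _ _ _, rfl⟩ ?_⟩
      exact h4
  constructor
  · intro w hw
    obtain ⟨u, hu, hf, rfl⟩ := h1 w hw
    have key : ∀ l' : List (Rule (tg dl ou q₀ Fi G).V (tg dl ou q₀ Fi G).I T'),
        (tg dl ou q₀ Fi G).LDer l' [Sum.inl ((tg dl ou q₀ Fi G).start, [])] ((os dl ou q₀ u).map Sum.inr) →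
        ∃ l₀, l' = .rw none [Sum.inl (some (q₀, G.start, ds dl q₀ u))] :: l₀ ∧ ∃ l,
          G.LDer l [Sum.inl (G.start, [])] (u.map Sum.inr) ∧
          TD dl ou q₀ Fi G q₀ u l l₀ [Sum.inl (G.start, [])] [ds dl q₀ u] := by
      intro l' hl'
      generalize hS : ([Sum.inl ((tg dl ou q₀ Fi G).start, [])] : Form (tg dl ou q₀ Fi G).V (tg dl ou q₀ Fi G).I T') = S₀ at hl'
      generalize hW : ((os dl ou q₀ u).map Sum.inr : Form (tg dl ou q₀ Fi G).V (tg dl ou q₀ Fi G).I T') = W₀ at hl'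
      cases hl' with
      | nil =>
        subst hS
        cases hw' : os dl ou q₀ u with
        | nil => rw [hw'] at hW; simp at hW
        | cons t w => rw [hw'] at hW; simp at hW
      | cons h3 h4 =>
        obtain ⟨hρ', v', y', X', Z', h5, ha, rfl⟩ := h3
        obtain ⟨h6, rfl, rfl⟩ := single_cut (hS.trans h5)
        obtain ⟨f, hf', rfl, rfl⟩ := start_inv hρ' ha
        rw [h6] at h4
        obtain ⟨l, u', h7, h8, h9, h10⟩ := sim_lder h4 hW.symm (hA f)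
        obtain rfl := hi u hu u' (LDer_step G h7) hf (by rw [h9]; exact hf') h10.symm
        subst h9
        exact ⟨_, rfl, l, h7, h8⟩
    obtain ⟨l', hl'⟩ := h2 u hu hf
    refine ⟨l', hl', fun l'' hl'' => ?_⟩
    obtain ⟨l₁, rfl, m₁, h3, h4⟩ := key l' hl'
    obtain ⟨l₂, rfl, m₂, h5, h6⟩ := key l'' hl''
    obtain rfl := (hG u hu).unique h3 h5
    rw [(h4.fn h6).1]
  · ext w
    constructor
    · exact h1 w
    · rintro ⟨u, hu, hf, rfl⟩
      obtain ⟨l, hl⟩ := h2 u hu hf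
      exact LDer_step _ hl

end

end Pool.Agent.Lib.IXB.Trans
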